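import Pool.Agent.Lib.MP_21db80_an.Mob

/-!
Holomorphic maps from the plane to the sphere.
-/

namespace Pool.Agent.Lib.MP_21db80_an

open OnePoint Set Topology Function Filter Metric

noncomputable section

/-- The squaring map. -/
def sqS : Sph → Sph := OnePoint.map fun z : ℂ => z ^ 2

@[simp] lemma sqS_coe (z : ℂ) : sqS z = ((z ^ 2 : ℂ) : Sph) := rfl
@[simp] lemma sqS_infty : sqS ∞ = ∞ := rfl

lemma sqS_pr (v : ℂ × ℂ) : sqS (pr v) = pr (v.1 ^ 2, v.2 ^ 2) := by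
  obtain ⟨a, b⟩ := v
  by_cases hb : b = 0
  · simp [hb]
  · rw [pr_of_ne hb, pr_of_ne (pow_ne_zero 2 hb), sqS_coe, div_pow]

lemma sq_ne {v : ℂ × ℂ} (hv : v ≠ 0) : (v.1 ^ 2, v.2 ^ 2) ≠ (0 : ℂ × ℂ) :=
  ne_zero_iff.2 ((ne_zero_iff.1 hv).imp (pow_ne_zero 2) (pow_ne_zero 2))

lemma continuous_sqS : Continuous sqS := continuous_iff_continuousAt.2 fun x => by
  obtain ⟨v, h1, h2⟩ := lift_at x
  have h3 : ContinuousAt (fun y => pr ((v y).1 ^ 2, (v y).2 ^ 2)) x :=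
    (continuousAt_pr (sq_ne h2.self_of_nhds.1)).comp_of_eq (by fun_prop) rfl
  refine h3.congr ?_
  filter_upwards [h2] with y hy
  rw [← sqS_pr, hy.2]

/-- Holomorphy of a map to the sphere. -/
def AnS (F : ℂ → Sph) (z₀ : ℂ) : Prop :=
  ∃ v : ℂ → ℂ × ℂ, AnalyticAt ℂ v z₀ ∧ v z₀ ≠ 0 ∧ ∀ᶠ z in 𝓝 z₀, F z = pr (v z)

lemma AnS.continuousAt {F : ℂ → Sph} {z₀ : ℂ} (h : AnS F z₀) : ContinuousAt F z₀ := by
  obtain ⟨v, h1, h2, h3⟩ := h
  exact ((continuousAt_pr h2).comp h1.continuousAt).congr (EventuallyEq.symm h3)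

lemma AnS.mob {F : ℂ → Sph} {z₀ : ℂ} (h : AnS F z₀) {M : Sph → Sph} (hM : IsMob M) :
    AnS (fun z => M (F z)) z₀ := by
  obtain ⟨v, h1, h2, h3⟩ := h
  obtain ⟨a, b, c, d, hd, rfl⟩ := hM.eq_mob
  have a1 : AnalyticAt ℂ (fun z => (v z).1) z₀ := analyticAt_fst.comp h1
  have a2 : AnalyticAt ℂ (fun z => (v z).2) z₀ := analyticAt_snd.comp h1
  refine ⟨fun z => (a * (v z).1 + b * (v z).2, c * (v z).1 + d * (v z).2),
    AnalyticAt.prod (by fun_prop) (by fun_prop), lin_ne hd h2, ?_⟩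
  filter_upwards [h3, h1.continuousAt.eventually_ne h2] with z e hz
  rw [e, mob_pr _ _ _ _ hz]

lemma AnS.sq {F : ℂ → Sph} {z₀ : ℂ} (h : AnS F z₀) : AnS (fun z => sqS (F z)) z₀ := by
  obtain ⟨v, h1, h2, h3⟩ := h
  have a1 : AnalyticAt ℂ (fun z => (v z).1) z₀ := analyticAt_fst.comp h1
  have a2 : AnalyticAt ℂ (fun z => (v z).2) z₀ := analyticAt_snd.comp h1
  refine ⟨fun z => ((v z).1 ^ 2, (v z).2 ^ 2), AnalyticAt.prod (by fun_prop) (by fun_prop),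
    sq_ne h2, ?_⟩
  filter_upwards [h3] with z e
  rw [e, sqS_pr]

lemma AnS.comp {F : ℂ → Sph} {g : ℂ → ℂ} {s₀ : ℂ} (h : AnS F (g s₀)) (hg : AnalyticAt ℂ g s₀) :
    AnS (fun s => F (g s)) s₀ := by
  obtain ⟨v, h1, h2, h3⟩ := h
  exact ⟨v ∘ g, h1.comp hg, h2, hg.continuousAt.eventually h3⟩

lemma AnS.eventually_eq {F F' : ℂ → Sph} {z₀ : ℂ} (h : AnS F z₀) (h' : AnS F' z₀)
    (e : ∃ᶠ z in 𝓝[≠] z₀, F z = F' z) : ∀ᶠ z in 𝓝 z₀, F z = F' z := by
  obtain ⟨v, h1, h2, h3⟩ := h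
  obtain ⟨w, k1, k2, k3⟩ := h'
  have a1 : AnalyticAt ℂ (fun z => (v z).1) z₀ := analyticAt_fst.comp h1
  have a2 : AnalyticAt ℂ (fun z => (v z).2) z₀ := analyticAt_snd.comp h1
  have a3 : AnalyticAt ℂ (fun z => (w z).1) z₀ := analyticAt_fst.comp k1
  have a4 : AnalyticAt ℂ (fun z => (w z).2) z₀ := analyticAt_snd.comp k1
  have a5 : AnalyticAt ℂ (fun z => dt (v z) (w z)) z₀ := by unfold dt; fun_prop
  have a6 : ∀ᶠ z in 𝓝 z₀, (F z = F' z ↔ dt (v z) (w z) = 0) := by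
    filter_upwards [h3, k3, h1.continuousAt.eventually_ne h2, k1.continuousAt.eventually_ne k2]
      with z b1 b2 b3 b4
    rw [b1, b2, pr_eq_iff b3 b4]
  have a7 := a5.frequently_zero_iff_eventually_zero.1
    ((e.and_eventually (a6.filter_mono nhdsWithin_le_nhds)).mono fun z hz => hz.2.1 hz.1)
  filter_upwards [a6, a7] with z b1 b2 using b1.2 b2

/-- The identity theorem. -/
lemma AnS.eq_of_frequently {F F' : ℂ → Sph} (h : ∀ z, AnS F z) (h' : ∀ z, AnS F' z) {z₀ : ℂ}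
    (e : ∃ᶠ z in 𝓝[≠] z₀, F z = F' z) (z : ℂ) : F z = F' z := by
  have hc : IsClopen {z | ∀ᶠ w in 𝓝 z, F w = F' w} := by
    refine ⟨isClosed_of_closure_subset fun z hz => ?_, isOpen_setOfPred_eventually_nhds⟩
    by_cases h0 : ∀ᶠ w in 𝓝 z, F w = F' w
    · exact h0
    refine (h z).eventually_eq (h' z) ?_
    rw [mem_closure_iff_frequently] at hz
    rw [frequently_nhdsWithin_iff]
    exact hz.mono fun w hw => ⟨hw.self_of_nhds, fun e => h0 (by rwa [mem_singleton_iff.1 e] at hw)⟩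
  have : z ∈ {z | ∀ᶠ w in 𝓝 z, F w = F' w} :=
    hc.eq_univ ⟨z₀, (h z₀).eventually_eq (h' z₀) e⟩ ▸ mem_univ z
  exact this.self_of_nhds

lemma AnS.eq_of_eventually {F F' : ℂ → Sph} (h : ∀ z, AnS F z) (h' : ∀ z, AnS F' z) {z₀ : ℂ}
    (e : ∀ᶠ z in 𝓝 z₀, F z = F' z) (z : ℂ) : F z = F' z :=
  AnS.eq_of_frequently h h' (e.filter_mono nhdsWithin_le_nhds).frequently z

lemma anS_const (x : Sph) (z : ℂ) : AnS (fun _ => x) z :=
  ⟨fun _ => lft x, analyticAt_const, lft_ne x, .of_forall fun _ => (pr_lft x).symm⟩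

lemma AnS.scalar {F : ℂ → Sph} {z₀ : ℂ} (h : AnS F z₀) (h0 : F z₀ ≠ ∞) :
    ∃ f : ℂ → ℂ, AnalyticAt ℂ f z₀ ∧ ∀ᶠ z in 𝓝 z₀, F z = f z := by
  obtain ⟨v, h1, h2, h3⟩ := h
  have a1 : AnalyticAt ℂ (fun z => (v z).1) z₀ := analyticAt_fst.comp h1
  have a2 : AnalyticAt ℂ (fun z => (v z).2) z₀ := analyticAt_snd.comp h1
  have a3 : (v z₀).2 ≠ 0 := fun e => h0 (by rw [h3.self_of_nhds, pr_eq_infty_iff, e])
  refine ⟨fun z => (v z).1 / (v z).2, a1.div a2 a3, ?_⟩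
  filter_upwards [h3, a2.continuousAt.eventually_ne a3] with z e hz
  rw [e, ← pr_of_ne hz]

lemma normal_form {f : ℂ → ℂ} {z₀ : ℂ} (hf : AnalyticAt ℂ f z₀) (h0 : f z₀ = 0)
    (hn : ¬ ∀ᶠ z in 𝓝 z₀, f z = 0) : ∃ n : ℕ, n ≠ 0 ∧ ∃ g : ℂ → ℂ, AnalyticAt ℂ g 0 ∧ g 0 = z₀ ∧
      ∀ᶠ s in 𝓝 0, f (g s) = s ^ n := by
  obtain ⟨n, u, u1, u2, u3⟩ := hf.exists_eventuallyEq_pow_smul_nonzero_iff.2 hn
  have hn0 : n ≠ 0 := by
    rintro rfl
    have := u3.self_of_nhds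
    rw [h0] at this
    exact u2 (by simpa using this.symm)
  let r : ℂ → ℂ := fun z => Complex.exp ((Complex.log (u z₀) + Complex.log (u z / u z₀)) / n)
  have r1 : AnalyticAt ℂ r z₀ := by
    have : AnalyticAt ℂ (fun z => Complex.log (u z / u z₀)) z₀ :=
      (u1.div_const).clog (by simp [div_self u2])
    exact ((analyticAt_const.add this).div_const).cexp
  have r2 : ∀ᶠ z in 𝓝 z₀, r z ^ n = u z := by
    filter_upwards [u1.continuousAt.eventually_ne u2] with z hz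
    simp only [r]
    rw [← Complex.exp_nat_mul, mul_div_cancel₀ _ (Nat.cast_ne_zero.2 hn0), Complex.exp_add,
      Complex.exp_log u2, Complex.exp_log (div_ne_zero hz u2), mul_div_cancel₀ _ u2]
  have p1 : AnalyticAt ℂ (fun z => (z - z₀) * r z) z₀ := by fun_prop
  have p2 : deriv (fun z => (z - z₀) * r z) z₀ ≠ 0 := by
    have := ((hasDerivAt_id z₀).sub_const z₀).fun_mul r1.differentiableAt.hasDerivAt
    simp only [id] at this
    rw [this.deriv]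
    simp [r]
  have g1 := p1.analyticAt_localInverse p2
  have g2 := p1.hasStrictDerivAt.eventually_right_inverse p2
  have g3 := (p1.hasStrictDerivAt.eventually_left_inverse p2).self_of_nhds
  simp only [sub_self, zero_mul] at g1 g2 g3
  refine ⟨n, hn0, _, g1, g3, ?_⟩
  have g4 := g1.continuousAt.tendsto
  rw [g3] at g4
  filter_upwards [g2, g4.eventually u3, g4.eventually r2] with s a1 a2 a3
  rw [a2, ← a3, smul_eq_mul, ← mul_pow, a1]

lemma AnS.normal {F : ℂ → Sph} {z₀ : ℂ} (h : AnS F z₀) (h0 : F z₀ = o0)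
    (hn : ¬ ∀ᶠ z in 𝓝 z₀, F z = o0) : ∃ n : ℕ, n ≠ 0 ∧ ∃ g : ℂ → ℂ, AnalyticAt ℂ g 0 ∧ g 0 = z₀ ∧
      ∀ᶠ s in 𝓝 0, F (g s) = ((s ^ n : ℂ) : Sph) := by
  obtain ⟨f, f1, f2⟩ := h.scalar (h0 ▸ o0_ne_infty)
  obtain ⟨n, hn0, g, g1, g2, g3⟩ := normal_form f1
    (coe_injective (f2.self_of_nhds.symm.trans h0)) fun e => hn (by
      filter_upwards [e, f2] with z a1 a2
      rw [a2, a1])
  refine ⟨n, hn0, g, g1, g2, ?_⟩
  have g4 := g1.continuousAt.tendsto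
  rw [g2] at g4
  filter_upwards [g3, g4.eventually f2] with s a1 a2
  rw [a2, a1]

/-- The open mapping theorem. -/
lemma AnS.nhds_le {F : ℂ → Sph} {z₀ : ℂ} (h : AnS F z₀) (hn : ¬ ∀ᶠ z in 𝓝 z₀, F z = F z₀) :
    𝓝 (F z₀) ≤ map F (𝓝 z₀) := by
  obtain ⟨y, hy, -⟩ := exists_third (F z₀) (F z₀)
  obtain ⟨μ, hμ, h1, -⟩ := exists_mob_two hy.symm
  obtain ⟨f, f1, f2⟩ := (h.mob hμ).scalar (h1 ▸ o0_ne_infty)
  rcases f1.eventually_constant_or_nhds_le_map_nhds with h2 | h2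
  · refine absurd ?_ hn
    filter_upwards [h2, f2] with z a1 a2
    apply μ.injective
    rw [a2, a1, f2.self_of_nhds]
  · have h3 : map F (𝓝 z₀) = map μ.symm (map (fun z : ℂ => (z : Sph)) (map f (𝓝 z₀))) := by
      rw [map_map, map_map]
      refine Filter.map_congr ?_
      filter_upwards [f2] with z hz
      simp [← hz]
    have h4 : F z₀ = μ.symm (f z₀) := by rw [← f2.self_of_nhds]; simp
    rw [h3, h4, ← μ.symm.map_nhds_eq, nhds_coe_eq]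
    exact map_mono (map_mono h2)

lemma frequently_of_comp {g : ℂ → ℂ} {s₀ : ℂ} (hg : AnalyticAt ℂ g s₀)
    (hn : ¬ ∀ᶠ s in 𝓝 s₀, g s = g s₀) {P : ℂ → Prop} (h : ∀ᶠ s in 𝓝 s₀, P (g s)) :
    ∀ᶠ z in 𝓝 (g s₀), P z :=
  (hg.eventually_constant_or_nhds_le_map_nhds.resolve_left hn) h

lemma not_eventually_pow {n : ℕ} (hn : n ≠ 0) : ¬ ∀ᶠ s in 𝓝 (0 : ℂ), s ^ n = 0 := fun h => by
  obtain ⟨s, h1, h2⟩ := ((h.filter_mono (nhdsWithin_le_nhds (s := {0}ᶜ))).and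
    self_mem_nhdsWithin).exists
  exact h2 ((pow_eq_zero_iff hn).1 h1)

/-- Two nonconstant holomorphic maps: on the curve `F p = H q` the function `‖p - q‖` has no
local maximum unless `F` is a translate of `H`. -/
lemma no_local_max {F H : ℂ → Sph} (hF : ∀ z, AnS F z) (hH : ∀ z, AnS H z)
    (nF : ∀ y, ∃ z, F z ≠ y) (nH : ∀ y, ∃ z, H z ≠ y) {p₁ q₁ : ℂ} (e : F p₁ = H q₁)
    (hmax : ∀ᶠ w : ℂ × ℂ in 𝓝 (p₁, q₁), F w.1 = H w.2 → ‖w.1 - w.2‖ ≤ ‖p₁ - q₁‖) (z : ℂ) :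
    F z = H (z - (p₁ - q₁)) := by
  obtain ⟨y, hy, -⟩ := exists_third (F p₁) (F p₁)
  obtain ⟨μ, hμ, h1, -⟩ := exists_mob_two hy.symm
  have nc : ∀ {F : ℂ → Sph}, (∀ z, AnS F z) → (∀ y, ∃ z, F z ≠ y) → ∀ p,
      ¬ ∀ᶠ z in 𝓝 p, μ (F z) = o0 := by
    intro F hF nF p h
    obtain ⟨z, hz⟩ := nF (μ.symm o0)
    refine hz (AnS.eq_of_eventually hF (anS_const _) (z₀ := p) ?_ z)
    filter_upwards [h] with w hw
    rw [← hw]; simp
  obtain ⟨n, hn, g, g1, g2, g3⟩ := ((hF p₁).mob hμ).normal h1 (nc hF nF p₁)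
  obtain ⟨m, hm, k, k1, k2, k3⟩ := ((hH q₁).mob hμ).normal (e ▸ h1) (nc hH nH q₁)
  have t : ∀ {j : ℕ}, j ≠ 0 → Tendsto (fun s : ℂ => s ^ j) (𝓝 0) (𝓝 0) := fun {j} hj => by
    simpa [hj] using (continuous_pow j).tendsto (0 : ℂ)
  have a1 : AnalyticAt ℂ (fun s => g (s ^ m)) 0 := g1.comp_of_eq (by fun_prop) (zero_pow hm)
  have a2 : AnalyticAt ℂ (fun s => k (s ^ n)) 0 := k1.comp_of_eq (by fun_prop) (zero_pow hn)
  have a3 : ∀ᶠ s in 𝓝 (0 : ℂ), F (g (s ^ m)) = H (k (s ^ n)) := by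
    filter_upwards [(t hm).eventually g3, (t hn).eventually k3] with s b1 b2
    apply μ.injective
    rw [b1, b2, ← pow_mul, ← pow_mul, mul_comm]
  have a4 : Tendsto (fun s : ℂ => (g (s ^ m), k (s ^ n))) (𝓝 0) (𝓝 (p₁, q₁)) := by
    have := (a1.prod a2).continuousAt.tendsto
    simpa [hm, hn, g2, k2] using this
  have a5 : ∀ᶠ s in 𝓝 (0 : ℂ), g (s ^ m) - k (s ^ n) = p₁ - q₁ := by
    have := Complex.eventually_eq_of_isLocalMax_norm (f := fun s => g (s ^ m) - k (s ^ n)) (c := 0)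
      ((a1.sub a2).eventually_analyticAt.mono fun s hs => hs.differentiableAt) (by
        filter_upwards [a4.eventually hmax, a3] with s b1 b2
        simpa [hm, hn, g2, k2] using b1 b2)
    simpa [hm, hn, g2, k2] using this
  have a6 : ¬ ∀ᶠ s in 𝓝 (0 : ℂ), g (s ^ m) = g (0 ^ m) := fun h => by
    refine not_eventually_pow (mul_ne_zero hm hn) ?_
    filter_upwards [h, (t hm).eventually g3] with s b1 b2
    rw [b1, zero_pow hm, g2, h1] at b2
    rw [pow_mul]; exact (coe_injective b2).symm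
  refine AnS.eq_of_eventually hF (fun w => (hH _).comp (g := fun w => w - (p₁ - q₁)) (by fun_prop))
    (frequently_of_comp a1 a6 (P := fun w => F w = H (w - (p₁ - q₁))) ?_) z
  filter_upwards [a3, a5] with s b1 b2
  rw [b1, ← b2, sub_sub_cancel]

lemma ode_second {f : ℂ → ℂ} {a b : ℂ} (hf : AnalyticAt ℂ f 0)
    (h : ∀ᶠ z in 𝓝 0, deriv f z ^ 2 = 4 * f z ^ 3 - a * f z - b)
    (hn : ¬ ∀ᶠ z in 𝓝 0, deriv f z = 0) :
    ∀ᶠ z in 𝓝 0, deriv (deriv f) z = 6 * f z ^ 2 - a / 2 := by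
  have h1 : ∀ᶠ z in 𝓝 0, deriv f z * (deriv (deriv f) z - (6 * f z ^ 2 - a / 2)) = 0 := by
    filter_upwards [h.eventually_nhds, hf.eventually_analyticAt] with z h2 h3
    have d1 := h3.differentiableAt.hasDerivAt
    have d2 := h3.deriv.differentiableAt.hasDerivAt
    have d3 := (d2.fun_pow 2).congr_of_eventuallyEq (EventuallyEq.symm h2)
    have d4 := (((d1.fun_pow 3).const_mul 4).fun_sub (d1.const_mul a)).sub_const b
    have := d3.unique d4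
    simp only [Nat.cast_ofNat, Nat.add_one_sub_one, pow_one] at this
    linear_combination this / 2
  have h2 : AnalyticAt ℂ (fun z => deriv (deriv f) z - (6 * f z ^ 2 - a / 2)) 0 := by
    have := hf.deriv.deriv
    fun_prop
  have h3 := h2.frequently_zero_iff_eventually_zero.1
    (((hf.deriv.eventually_eq_zero_or_eventually_ne_zero.resolve_left hn).and
      (h1.filter_mono nhdsWithin_le_nhds)).frequently.mono
        fun z hz => (mul_eq_zero.1 hz.2).resolve_left hz.1)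
  exact h3.mono fun z hz => sub_eq_zero.1 hz

lemma ode_unique {f g : ℂ → ℂ} {a : ℂ} (hf : AnalyticAt ℂ f 0) (hg : AnalyticAt ℂ g 0)
    (h1 : ∀ᶠ z in 𝓝 0, deriv (deriv f) z = 6 * f z ^ 2 - a)
    (h2 : ∀ᶠ z in 𝓝 0, deriv (deriv g) z = 6 * g z ^ 2 - a)
    (e0 : f 0 = g 0) (e1 : deriv f 0 = deriv g 0) : ∀ᶠ z in 𝓝 0, f z = g z := by
  have hh : AnalyticAt ℂ (f - g) 0 := hf.sub hg
  have d1 : deriv (f - g) =ᶠ[𝓝 0] deriv f - deriv g := by
    filter_upwards [hf.eventually_analyticAt, hg.eventually_analyticAt] with z a1 a2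
    exact deriv_sub a1.differentiableAt a2.differentiableAt
  have d2 : deriv (deriv (f - g)) =ᶠ[𝓝 0] (fun z => 6 * (f z + g z)) * (f - g) := by
    filter_upwards [d1.deriv, hf.eventually_analyticAt, hg.eventually_analyticAt, h1, h2]
      with z a0 a1 a2 a3 a4
    rw [a0, deriv_sub a1.deriv.differentiableAt a2.deriv.differentiableAt, a3, a4]
    simp only [Pi.mul_apply, Pi.sub_apply]; ring
  have o2 : ((2 : ℕ) : ℕ∞) ≤ analyticOrderAt (f - g) 0 := by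
    rw [natCast_le_analyticOrderAt_iff_iteratedDeriv_eq_zero hh]
    intro i hi
    interval_cases i
    · simp [e0]
    · simp [d1.self_of_nhds, e1]
  generalize ho : analyticOrderAt (f - g) 0 = r at o2
  cases r with
  | top => exact (analyticOrderAt_eq_top.1 ho).mono fun z hz => sub_eq_zero.1 hz
  | coe r =>
    exfalso
    obtain ⟨m, rfl⟩ := Nat.exists_eq_add_of_le' (show 2 ≤ r by exact_mod_cast o2)
    have b1 := analyticOrderAt_deriv_of_pos hh (n := m + 1) (by rw [ho]; norm_cast)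
    have b2 := analyticOrderAt_deriv_of_pos hh.deriv (n := m) (by rw [b1]; norm_cast)
    rw [analyticOrderAt_congr d2, analyticOrderAt_mul (by fun_prop) hh, ho] at b2
    have b3 : ((m + 2 : ℕ) : ℕ∞) ≤ m := b2 ▸ le_add_self
    have : m + 2 ≤ m := by exact_mod_cast b3
    omega

end

end Pool.Agent.Lib.MP_21db80_an
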