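import Pool.Agent.Lib.MP_21db80_an.RMT

/-!
Boundary extension of the Riemann map of the image of a disc under a homeomorphism of the plane.
-/

namespace Pool.Agent.Lib.MP_21db80_an

open Set Topology Function Filter Metric Complex ComplexConjugate MeasureTheory

noncomputable section

/-- The length-area inequality on a horizontal strip. -/
lemma length_area {G : ℂ → ℂ} {a b : ℝ} (_hab : a < b) (hab' : b - a ≤ 4)
    (hG : DifferentiableOn ℂ G {w | w.im ∈ Ioo a b}) (hi : InjOn G {w | w.im ∈ Ioo a b})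
    (hb : Bornology.IsBounded (G '' {w | w.im ∈ Ioo a b})) (x₀ : ℝ) {ε : ℝ} (hε : 0 < ε) :
    ∃ x > x₀, ∀ y₁ ∈ Ioo a b, ∀ y₂ ∈ Ioo a b, ‖G (x + y₁ * I) - G (x + y₂ * I)‖ ≤ ε := by
  set S : Set ℂ := {w | w.im ∈ Ioo a b} with hS
  have hSo : IsOpen S := isOpen_Ioo.preimage continuous_im
  have hd : ∀ w ∈ S, HasDerivAt G (deriv G w) w := fun w hw =>
    (hG.differentiableAt (hSo.mem_nhds hw)).hasDerivAt
  have hc : ContinuousOn (deriv G) S := (hG.analyticOnNhd hSo).deriv.continuousOn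
  have h1 : ∫⁻ w in S, ENNReal.ofReal (‖deriv G w‖ ^ 2) = volume (G '' S) := by
    rw [← lintegral_abs_det_fderiv_eq_addHaar_image volume hSo.measurableSet
      (f' := fun w => (ContinuousLinearMap.toSpanSingleton ℂ (deriv G w)).restrictScalars ℝ)
      (fun w hw => ((hd w hw).hasFDerivAt.restrictScalars ℝ).hasFDerivWithinAt) hi]
    refine setLIntegral_congr_fun hSo.measurableSet fun z _ => ?_
    simp [ContinuousLinearMap.det, LinearMap.det_restrictScalars,
      Algebra.norm_complex_eq, Complex.normSq_eq_norm_sq]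
  have hm : Measurable fun w => ENNReal.ofReal (‖deriv G w‖ ^ 2) :=
    ((measurable_deriv G).norm.pow_const 2).ennreal_ofReal
  have h2 : ∫⁻ w in S, ENNReal.ofReal (‖deriv G w‖ ^ 2) =
      ∫⁻ x : ℝ, ∫⁻ y in Ioo a b, ENNReal.ofReal (‖deriv G (x + y * I)‖ ^ 2) := by
    rw [← (volume_preserving_equiv_real_prod.symm).setLIntegral_comp_preimage_emb
      (measurableEquivRealProd.symm).measurableEmbedding]
    have : measurableEquivRealProd.symm ⁻¹' S = univ ×ˢ Ioo a b := by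
      ext p; simp [hS]
    rw [this, Measure.volume_eq_prod, ← Measure.prod_restrict, Measure.restrict_univ,
      lintegral_prod
        (fun a : ℝ × ℝ => ENNReal.ofReal (‖deriv G (measurableEquivRealProd.symm a)‖ ^ 2))
        (hm.comp measurableEquivRealProd.symm.measurable).aemeasurable]
    refine lintegral_congr fun x => lintegral_congr fun y => ?_
    simp [mk_eq_add_mul_I]
  set η := ε / 5 with hη
  have hη0 : 0 < η := by positivity
  obtain ⟨x, hx, hl⟩ : ∃ x > x₀, ∫⁻ y in Ioo a b, ENNReal.ofReal (‖deriv G (x + y * I)‖ ^ 2) <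
      ENNReal.ofReal (η ^ 2) := by
    by_contra hcon
    push Not at hcon
    have h3 : ∫⁻ _ in Ioi x₀, ENNReal.ofReal (η ^ 2) ≤ volume (G '' S) := by
      rw [← h1, h2]
      exact (setLIntegral_mono' measurableSet_Ioi fun x hx => hcon x hx).trans
        (setLIntegral_le_lintegral _ _)
    rw [setLIntegral_const, Real.volume_Ioi, ENNReal.mul_top (by simpa using hη0.ne')] at h3
    exact hb.measure_lt_top.not_ge h3
  refine ⟨x, hx, ?_⟩
  have key : ∀ y₁ ∈ Ioo a b, ∀ y₂ ∈ Ioo a b, y₁ ≤ y₂ →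
      ‖G (x + y₂ * I) - G (x + y₁ * I)‖ ≤ ε := by
    intro y₁ hy₁ y₂ hy₂ hy
    have hsub : Icc y₁ y₂ ⊆ Ioo a b := fun y h => ⟨hy₁.1.trans_le h.1, h.2.trans_lt hy₂.2⟩
    have hmem : ∀ y ∈ Icc y₁ y₂, (x + y * I : ℂ) ∈ S := fun y h => by simpa [hS] using hsub h
    have hcc : ContinuousOn (fun y : ℝ => deriv G (x + y * I)) (Icc y₁ y₂) :=
      hc.comp (by fun_prop) hmem
    have e := intervalIntegral.integral_eq_sub_of_hasDerivAt (a := y₁) (b := y₂)
      (f := fun y : ℝ => G (x + y * I)) (f' := fun y : ℝ => deriv G (x + y * I) * I)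
      (fun y h => by
        rw [uIcc_of_le hy] at h
        have := ((hd _ (hmem y h)).comp (y : ℂ)
          (((hasDerivAt_id (y : ℂ)).mul_const I).const_add (x : ℂ))).comp_ofReal
        simpa using this)
      ((hcc.mul continuousOn_const).intervalIntegrable_of_Icc hy)
    rw [← e]
    have hsq : IntervalIntegrable (fun y : ℝ => ‖deriv G (x + y * I)‖ ^ 2) volume y₁ y₂ :=
      (hcc.norm.pow 2).intervalIntegrable_of_Icc hy
    have b1 : ∫ y in y₁..y₂, ‖deriv G (x + y * I)‖ ^ 2 ≤ η ^ 2 := by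
      rw [intervalIntegral.integral_of_le hy, ← ENNReal.ofReal_le_ofReal_iff (by positivity),
        ofReal_integral_eq_lintegral_ofReal hsq.1 (.of_forall fun _ => by positivity)]
      exact (lintegral_mono_set (Ioc_subset_Icc_self.trans hsub)).trans hl.le
    calc _ ≤ ∫ y in y₁..y₂, ‖deriv G (x + y * I) * I‖ :=
          intervalIntegral.norm_integral_le_integral_norm hy
      _ ≤ ∫ y in y₁..y₂, (‖deriv G (x + y * I)‖ ^ 2 / η + η) := by
          refine intervalIntegral.integral_mono_on hy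
            ((hcc.mul continuousOn_const).norm.intervalIntegrable_of_Icc hy)
            ((hsq.div_const _).add intervalIntegrable_const) fun y _ => ?_
          rw [norm_mul, norm_I, mul_one, div_add' _ _ _ hη0.ne', le_div_iff₀ hη0]
          nlinarith [sq_nonneg (‖deriv G (x + y * I)‖ - η), norm_nonneg (deriv G (x + y * I))]
      _ = (∫ y in y₁..y₂, ‖deriv G (x + y * I)‖ ^ 2) / η + (y₂ - y₁) * η := by
          rw [intervalIntegral.integral_add (hsq.div_const _) intervalIntegrable_const,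
            intervalIntegral.integral_div, intervalIntegral.integral_const, smul_eq_mul]
      _ ≤ η ^ 2 / η + 4 * η := by
          gcongr
          linarith [hy₁.1, hy₂.2]
      _ = ε := by field_simp; rw [hη]; ring
  intro y₁ hy₁ y₂ hy₂
  rcases le_total y₁ y₂ with h | h
  · rw [norm_sub_rev]; exact key _ hy₁ _ hy₂ h
  · exact key _ hy₂ _ hy₁ h

/-- The level function whose level sets are the crosscuts around `ζ`. -/
def lev (ζ z : ℂ) : ℝ := ‖ζ + z‖ / ‖ζ - z‖

lemma crosscut {g : ℂ → ℂ} (hg : DifferentiableOn ℂ g (ball 0 1)) (hi : InjOn g (ball 0 1))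
    (hb : Bornology.IsBounded (g '' ball 0 1)) {ζ : ℂ} (hζ : ‖ζ‖ = 1) (ρ : ℝ) (hρ : ρ < 1)
    {ε : ℝ} (hε : 0 < ε) : ∃ t > 1, ∃ p ∈ ball (0 : ℂ) 1, ρ < ‖p‖ ∧
      ∀ z ∈ ball (0 : ℂ) 1, lev ζ z = t → ‖g z - g p‖ ≤ ε := by
  have hζ0 : ζ ≠ 0 := by rintro rfl; simp at hζ
  let m : ℂ → ℂ := fun w => ζ * ((exp w - 1) / (exp w + 1))
  have hre : ∀ w : ℂ, w.im ∈ Ioo (-(Real.pi / 2)) (Real.pi / 2) → 0 < (exp w).re := fun w hw => by
    rw [exp_re]; exact mul_pos (Real.exp_pos _) (Real.cos_pos_of_mem_Ioo hw)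
  have hden : ∀ w : ℂ, w.im ∈ Ioo (-(Real.pi / 2)) (Real.pi / 2) → exp w + 1 ≠ 0 := fun w hw h => by
    have := congrArg re h
    simp only [add_re, one_re, zero_re] at this
    linarith [hre w hw]
  have hm : ∀ w : ℂ, w.im ∈ Ioo (-(Real.pi / 2)) (Real.pi / 2) → m w ∈ ball (0 : ℂ) 1 := by
    intro w hw
    rw [mem_ball_zero_iff, norm_mul, hζ, one_mul, norm_div, div_lt_one (norm_pos_iff.2 (hden w hw))]
    refine lt_of_pow_lt_pow_left₀ 2 (norm_nonneg _) ?_
    simp only [← Complex.normSq_eq_norm_sq, Complex.normSq_apply, sub_re, one_re, sub_im, one_im,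
      add_re, add_im]
    nlinarith [hre w hw]
  have ht : Tendsto (fun x : ℝ => 1 - 2 / (Real.exp x + 1)) atTop (𝓝 (1 - 0)) :=
    tendsto_const_nhds.sub (tendsto_const_nhds.div_atTop
      (tendsto_atTop_add_const_right _ _ Real.tendsto_exp_atTop))
  obtain ⟨x₀, hx₀⟩ := eventually_atTop.1 (ht.eventually_const_lt (show ρ < 1 - 0 by simpa))
  obtain ⟨x, hx, h⟩ := length_area (G := fun w => g (m w)) (a := -(Real.pi / 2)) (b := Real.pi / 2)
    (by linarith [Real.pi_pos]) (by linarith [Real.pi_le_four])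
    (hg.comp (fun w hw => by
      have := hden w hw
      apply DifferentiableAt.differentiableWithinAt
      simp only [m]
      fun_prop (disch := assumption)) hm)
    (fun w hw w' hw' e => by
      have e1 := hi (hm w hw) (hm w' hw') e
      simp only [m] at e1
      have e2 := mul_left_cancel₀ hζ0 e1
      rw [div_eq_div_iff (hden w hw) (hden w' hw')] at e2
      have := Real.pi_pos
      refine exp_inj_of_neg_pi_lt_of_le_pi (by linarith [hw.1]) (by linarith [hw.2])
        (by linarith [hw'.1]) (by linarith [hw'.2]) ?_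
      linear_combination e2 / 2)
    (hb.subset (by rintro _ ⟨w, hw, rfl⟩; exact ⟨_, hm w hw, rfl⟩)) (max x₀ 0) hε
  have h0 : (0 : ℝ) ∈ Ioo (-(Real.pi / 2)) (Real.pi / 2) := by
    constructor <;> linarith [Real.pi_pos]
  have hx0 : 0 < x := (le_max_right _ _).trans_lt hx
  refine ⟨Real.exp x, Real.one_lt_exp_iff.2 hx0, m x, hm x (by simpa using h0), ?_, fun z hz hl => ?_⟩
  · refine (hx₀ x ((le_max_left _ _).trans hx.le)).trans_le ?_
    have : m x = ζ * ((1 - 2 / (Real.exp x + 1) : ℝ) : ℂ) := by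
      have := hden x (by simpa using h0)
      simp only [m]; push_cast; field_simp; ring
    rw [this, norm_mul, hζ, one_mul, norm_real]
    exact le_abs_self _
  · rw [mem_ball_zero_iff] at hz
    have hne : ζ - z ≠ 0 := by
      intro h; rw [← sub_eq_zero.1 h, hζ] at hz; exact lt_irrefl _ hz
    set u := (ζ + z) / (ζ - z) with hu
    have hure : 0 < u.re := by
      rw [hu, div_re, ← add_div]
      refine div_pos ?_ (normSq_pos.2 hne)
      have a1 : ζ.re * ζ.re + ζ.im * ζ.im = 1 := by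
        rw [← normSq_apply, Complex.normSq_eq_norm_sq, hζ]; norm_num
      have a2 : z.re * z.re + z.im * z.im < 1 := by
        rw [← normSq_apply, Complex.normSq_eq_norm_sq]; nlinarith [norm_nonneg z]
      simp only [add_re, sub_re, add_im, sub_im]
      nlinarith
    have hu0 : u ≠ 0 := by rintro h; simp [h] at hure
    have harg : arg u ∈ Ioo (-(Real.pi / 2)) (Real.pi / 2) :=
      abs_lt.1 (abs_arg_lt_pi_div_two_iff.2 (Or.inl hure))
    have he : exp (x + arg u * I) = u := by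
      rw [exp_add, ← ofReal_exp, ← hl, lev, ← norm_div, ← hu, norm_mul_exp_arg_mul_I]
    have hz' : m (x + arg u * I) = z := by
      have a1 := hden (x + arg u * I) (by simpa using harg)
      simp only [m]
      rw [he] at a1 ⊢
      rw [hu] at a1 ⊢
      field_simp
      ring_nf
      field_simp
    have := h _ harg _ h0
    simpa [hz'] using this

lemma cap_small {y ξ : ℂ} (hy : ‖y‖ ≤ 1) (hξ : ‖ξ‖ = 1) {η : ℝ} (h : 1 - η < (y * conj ξ).re) :
    ‖y - ξ‖ ^ 2 < 2 * η := by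
  have a1 : ξ.re * ξ.re + ξ.im * ξ.im = 1 := by
    rw [← normSq_apply, Complex.normSq_eq_norm_sq, hξ]; norm_num
  have a2 : y.re * y.re + y.im * y.im ≤ 1 := by
    rw [← normSq_apply, Complex.normSq_eq_norm_sq]; nlinarith [norm_nonneg y]
  simp only [← Complex.normSq_eq_norm_sq, normSq_apply, sub_re, sub_im]
  simp only [mul_re, conj_re, conj_im] at h
  nlinarith

lemma convex_cap (ξ : ℂ) (c : ℝ) : Convex ℝ {y : ℂ | (y * conj ξ).re ≤ c} ∧
    Convex ℝ {y : ℂ | c < (y * conj ξ).re} := by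
  have : IsLinearMap ℝ fun y : ℂ => (y * conj ξ).re :=
    ⟨fun a b => by simp [add_mul], fun t a => by simp [mul_assoc]⟩
  exact ⟨convex_halfSpace_le this c, convex_halfSpace_gt this c⟩

theorem caratheodory (Θ : ℂ ≃ₜ ℂ) : ∃ K : ℂ → ℂ, ContinuousOn K (closedBall 0 1) ∧
    BijOn K (closedBall 0 1) (closedBall 0 1) ∧ (∀ z, ‖z‖ = 1 → ‖K z‖ = 1) ∧
    (∀ z, ‖z‖ < 1 → ‖K z‖ < 1) ∧ DifferentiableOn ℂ (fun z => Θ (K z)) (ball 0 1) ∧
    deriv (fun z => Θ (K z)) 0 ≠ 0 := by
  have hΩo : IsOpen (Θ '' ball 0 1) := Θ.isOpenMap _ isOpen_ball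
  have hΩc : IsSimplyConnected (Θ '' ball 0 1) := by
    rw [Θ.isSimplyConnected_image]
    have := (convex_ball (0 : ℂ) 1).contractibleSpace (nonempty_ball.2 one_pos)
    exact SimplyConnectedSpace.ofContractible _
  have hΩK : IsCompact (Θ '' closedBall 0 1) := (isCompact_closedBall _ _).image Θ.continuous
  have hΩb : Bornology.IsBounded (Θ '' ball 0 1) :=
    hΩK.isBounded.subset (image_mono ball_subset_closedBall)
  obtain ⟨f, hf, hfd⟩ := riemann_mapping hΩo hΩc hΩb
  have hfdiff : DifferentiableOn ℂ f (Θ '' ball 0 1) :=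
    fun z hz => (differentiableAt_of_deriv_ne_zero (hfd z hz)).differentiableWithinAt
  set g := invFunOn f (Θ '' ball 0 1) with hg
  have hgm : MapsTo g (ball 0 1) (Θ '' ball 0 1) := hf.surjOn.mapsTo_invFunOn
  have hfg : ∀ w ∈ ball (0 : ℂ) 1, f (g w) = w := hf.surjOn.rightInvOn_invFunOn
  have hgf : ∀ z ∈ Θ '' ball 0 1, g (f z) = z := hf.injOn.leftInvOn_invFunOn
  have hgd : ∀ w ∈ ball (0 : ℂ) 1, HasDerivAt g (deriv f (g w))⁻¹ w := by
    intro w hw
    have hs : HasStrictDerivAt f (deriv f (g w)) (g w) :=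
      (hfdiff.analyticAt (hΩo.mem_nhds (hgm hw))).hasStrictDerivAt
    refine HasDerivAt.of_local_left_inverse ?_ hs.hasDerivAt (hfd _ (hgm hw)) ?_
    · rw [ContinuousAt]
      conv_lhs => rw [← hfg w hw, ← hs.map_nhds_eq (hfd _ (hgm hw))]
      rw [tendsto_map'_iff]
      refine tendsto_id.congr' ?_
      filter_upwards [hΩo.mem_nhds (hgm hw)] with z hz using (hgf z hz).symm
    · filter_upwards [isOpen_ball.mem_nhds hw] with z hz using hfg z hz
  have hgdiff : DifferentiableOn ℂ g (ball 0 1) := fun w hw =>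
    (hgd w hw).differentiableAt.differentiableWithinAt
  have hgi : InjOn g (ball 0 1) := fun w hw w' hw' e => by rw [← hfg w hw, e, hfg w' hw']
  let k : ℂ → ℂ := fun w => Θ.symm (g w)
  let j : ℂ → ℂ := fun z => f (Θ z)
  have hk : MapsTo k (ball 0 1) (ball 0 1) := fun w hw => by
    obtain ⟨z, hz, e⟩ := hgm hw
    simp only [k, ← e, Homeomorph.symm_apply_apply]; exact hz
  have hj : MapsTo j (ball 0 1) (ball 0 1) := fun z hz => hf.mapsTo ⟨z, hz, rfl⟩
  have hjk : ∀ w ∈ ball (0 : ℂ) 1, j (k w) = w := fun w hw => by simp [j, k, hfg w hw]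
  have hkj : ∀ z ∈ ball (0 : ℂ) 1, k (j z) = z := fun z hz => by
    simp [j, k, hgf _ ⟨z, hz, rfl⟩]
  have hkc : ContinuousOn k (ball 0 1) := Θ.symm.continuous.comp_continuousOn hgdiff.continuousOn
  have hjc : ContinuousOn j (ball 0 1) :=
    hfdiff.continuousOn.comp Θ.continuous.continuousOn fun z hz => ⟨z, hz, rfl⟩
  have prop : ∀ η > 0, ∃ ρ < 1, ∀ z ∈ ball (0 : ℂ) 1, ρ < ‖z‖ → 1 - η < ‖k z‖ := by
    intro η hη
    have hs : closedBall (0 : ℂ) (1 - η) ⊆ ball 0 1 := closedBall_subset_ball (by linarith)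
    obtain ⟨ρ, hρ, h⟩ := exists_lt_subset_ball
      ((isCompact_closedBall (0 : ℂ) (1 - η)).image_of_continuousOn (hjc.mono hs)).isClosed
      (show _ ⊆ ball (0 : ℂ) 1 by rintro _ ⟨z, hz, rfl⟩; exact hj (hs hz))
    refine ⟨ρ, hρ, fun z hz hρz => ?_⟩
    by_contra hcon
    have := h ⟨k z, mem_closedBall_zero_iff.2 (not_lt.1 hcon), hjk z hz⟩
    exact hρz.not_gt (mem_ball_zero_iff.1 this)
  have hlim : ∀ ζ ∈ closedBall (0 : ℂ) 1, ∃ y, Tendsto k (𝓝[ball 0 1] ζ) (𝓝 y) := by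
    intro ζ hζ
    rcases (mem_closedBall_zero_iff.1 hζ).lt_or_eq with h | h
    · exact ⟨k ζ, hkc ζ (mem_ball_zero_iff.2 h)⟩
    have : (𝓝[ball (0 : ℂ) 1] ζ).NeBot := by
      rw [← mem_closure_iff_nhdsWithin_neBot, closure_ball _ one_ne_zero]; exact hζ
    refine cauchy_map_iff_exists_tendsto.1 (Metric.cauchy_iff.2 ⟨inferInstance, fun ε hε => ?_⟩)
    have h0 : ‖k 0‖ < 1 := mem_ball_zero_iff.1 (hk (mem_ball_self one_pos))
    set η := min (ε ^ 2 / 8) (1 - ‖k 0‖) with hη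
    have hη0 : 0 < η := lt_min (by positivity) (by linarith)
    have hη1 : η ≤ 1 := (min_le_right _ _).trans (by linarith [norm_nonneg (k 0)])
    obtain ⟨ρ, hρ, hρ'⟩ := prop (η / 2) (half_pos hη0)
    obtain ⟨δ, hδ, hδ'⟩ := Metric.uniformContinuousOn_iff.1
      (hΩK.uniformContinuousOn_of_continuous Θ.symm.continuous.continuousOn) (η / 2) (half_pos hη0)
    obtain ⟨t, ht, p, hp, hρp, hcut⟩ := crosscut hgdiff hgi
      (hΩb.subset (by rintro _ ⟨w, hw, rfl⟩; exact hgm hw)) h ρ hρ (half_pos hδ)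
    have hp1 := hρ' p hp hρp
    have hp0 : 0 < ‖k p‖ := by linarith
    set ξ : ℂ := k p / ‖k p‖ with hξ
    have hξ1 : ‖ξ‖ = 1 := by rw [hξ, norm_div, norm_real, norm_norm, div_self hp0.ne']
    have hpξ : (k p * conj ξ).re = ‖k p‖ := by
      rw [hξ, map_div₀, conj_ofReal, ← mul_div_assoc, mul_conj, Complex.normSq_eq_norm_sq,
        ← ofReal_div, ofReal_re]
      field_simp
    have hre : ∀ y : ℂ, (y * conj ξ).re ≤ ‖y‖ := fun y =>
      (re_le_norm _).trans (by rw [norm_mul, RCLike.norm_conj, hξ1, mul_one])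
    have hcap : ∀ z ∈ ball (0 : ℂ) 1, lev ζ z = t → 1 - η < (k z * conj ξ).re := by
      intro z hz hl
      have a1 := hδ' _ (image_mono ball_subset_closedBall (hgm hp)) _
        (image_mono ball_subset_closedBall (hgm hz))
        (by rw [dist_eq_norm, norm_sub_rev]; linarith [hcut z hz hl])
      have a2 := hre (k p - k z)
      rw [sub_mul, sub_re, hpξ] at a2
      rw [dist_eq_norm] at a1
      change ‖k p - k z‖ < η / 2 at a1
      linarith
    have hW : IsPreconnected (ball (0 : ℂ) 1 ∩ {y : ℂ | (y * conj ξ).re ≤ 1 - η}) :=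
      ((convex_ball _ _).inter (convex_cap ξ _).1).isPreconnected
    have hlc : ContinuousOn (lev ζ) (ball 0 1) := by
      refine ContinuousOn.div (by fun_prop) (by fun_prop) fun z hz e => ?_
      rw [norm_eq_zero, sub_eq_zero] at e
      rw [← e, mem_ball_zero_iff, h] at hz; exact lt_irrefl _ hz
    have hin : ∀ z ∈ ball (0 : ℂ) 1, t < lev ζ z → ‖k z - ξ‖ < ε / 2 := by
      intro z hz hl
      have : 1 - η < (k z * conj ξ).re := by
        by_contra hcon
        obtain ⟨y, hy, e⟩ := hW.intermediate_value (a := k 0) (b := k z)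
          ⟨hk (mem_ball_self one_pos), (hre _).trans (by linarith [min_le_right (ε ^ 2 / 8) (1 - ‖k 0‖)])⟩
          ⟨hk hz, not_lt.1 hcon⟩ (f := fun y => lev ζ (j y))
          ((hlc.comp hjc hj).mono inter_subset_left) (show t ∈ Icc _ _ by
            simp only [hjk 0 (mem_ball_self one_pos), hjk z hz]
            exact ⟨by simp [lev, h, ht.le], hl.le⟩)
        have := hcap _ (hj hy.1) e
        rw [hkj y hy.1] at this
        exact this.not_ge hy.2
      have a1 := cap_small (mem_ball_zero_iff.1 (hk hz)).le hξ1 this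
      have a2 : η ≤ ε ^ 2 / 8 := min_le_left _ _
      exact lt_of_pow_lt_pow_left₀ 2 (by positivity) (by nlinarith)
    refine ⟨ball ξ (ε / 2), ?_, fun a ha b hb => ?_⟩
    · have hc : ContinuousAt (fun z : ℂ => ‖ζ + z‖ - t * ‖ζ - z‖) ζ := by fun_prop
      have hpos : 0 < ‖ζ + ζ‖ - t * ‖ζ - ζ‖ := by simp [← two_mul, h]
      rw [mem_map]
      filter_upwards [mem_nhdsWithin_of_mem_nhds (hc.eventually (lt_mem_nhds hpos)),
        self_mem_nhdsWithin] with z h1 h2
      refine mem_ball_iff_norm.2 (hin z h2 ?_)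
      rw [lev, lt_div_iff₀]
      · linarith
      · rw [norm_pos_iff, sub_ne_zero]
        rintro rfl
        rw [mem_ball_zero_iff, h] at h2; exact lt_irrefl _ h2
    · rw [mem_ball] at ha hb
      linarith [dist_triangle_right a b ξ]
  set K := extendFrom (ball (0 : ℂ) 1) k with hK
  have hcl : closedBall (0 : ℂ) 1 ⊆ closure (ball 0 1) := by rw [closure_ball _ one_ne_zero]
  have hKc : ContinuousOn K (closedBall 0 1) := continuousOn_extendFrom hcl hlim
  have hKk : ∀ z ∈ ball (0 : ℂ) 1, K z = k z := extendFrom_extends hkc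
  have hKt : ∀ ζ ∈ closedBall (0 : ℂ) 1, Tendsto k (𝓝[ball 0 1] ζ) (𝓝 (K ζ)) := fun ζ hζ =>
    tendsto_extendFrom (hlim ζ hζ)
  have hnb : ∀ ζ ∈ closedBall (0 : ℂ) 1, (𝓝[ball (0 : ℂ) 1] ζ).NeBot := fun ζ hζ =>
    mem_closure_iff_nhdsWithin_neBot.1 (hcl hζ)
  have hKm : MapsTo K (closedBall 0 1) (closedBall 0 1) := fun ζ hζ => by
    have := hnb ζ hζ
    exact isClosed_closedBall.mem_of_tendsto (hKt ζ hζ)
      (eventually_nhdsWithin_of_forall fun z hz => ball_subset_closedBall (hk hz))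
  have hKs : ∀ ζ, ‖ζ‖ = 1 → ‖K ζ‖ = 1 := fun ζ hζ => by
    have hζ' := mem_closedBall_zero_iff.2 hζ.le
    have := hnb ζ hζ'
    refine le_antisymm (mem_closedBall_zero_iff.1 (hKm hζ')) (le_of_forall_pos_le_add fun η hη => ?_)
    obtain ⟨ρ, hρ, h⟩ := prop η hη
    have : 1 - η ≤ ‖K ζ‖ := by
      refine ge_of_tendsto (hKt ζ hζ').norm ?_
      filter_upwards [mem_nhdsWithin_of_mem_nhds (continuous_norm.continuousAt.eventually
        (lt_mem_nhds (show ρ < ‖ζ‖ by rwa [hζ]))), self_mem_nhdsWithin] with z h1 h2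
      exact (h z h2 h1).le
    linarith
  have hKb : ∀ z, ‖z‖ < 1 → ‖K z‖ < 1 := fun z hz => by
    rw [hKk z (mem_ball_zero_iff.2 hz)]; exact mem_ball_zero_iff.1 (hk (mem_ball_zero_iff.2 hz))
  have hKd : DifferentiableOn ℂ (fun z => Θ (K z)) (ball 0 1) :=
    hgdiff.congr fun z hz => by simp [hKk z hz, k]
  have noarc : ∀ (O : Set ℂ) (z₀ ξ : ℂ), IsOpen O → z₀ ∈ O → ‖z₀‖ = 1 →
      ¬ ∀ z ∈ O, ‖z‖ = 1 → K z = ξ := by
    intro O z₀ ξ hO hz₀ hz₀1 h
    obtain ⟨T, hT⟩ := (isCompact_sphere (0 : ℂ) 1).elim_finite_subcover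
      (fun u : sphere (0 : ℂ) 1 => (fun z => (u : ℂ) * z) ⁻¹' O)
      (fun u => hO.preimage (by fun_prop)) (fun z hz => by
        have hz1 : ‖z‖ = 1 := by simpa using hz
        have hz0 : z ≠ 0 := by rintro rfl; simp at hz1
        exact mem_iUnion.2 ⟨⟨z₀ / z, by simp [hz₀1, hz1]⟩, by simpa [hz0] using hz₀⟩)
    have hu : ∀ (u : sphere (0 : ℂ) 1) z, ‖(u : ℂ) * z‖ = ‖z‖ := fun u z => by
      rw [norm_mul, mem_sphere_zero_iff_norm.1 u.2, one_mul]
    have hd : DiffContOnCl ℂ (fun z => ∏ u ∈ T, (Θ (K ((u : ℂ) * z)) - Θ ξ)) (ball 0 1) := by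
      constructor
      · refine DifferentiableOn.fun_finsetProd fun u _ => DifferentiableOn.sub_const ?_ _
        exact hKd.comp (f := fun z => (u : ℂ) * z) (by fun_prop) fun z hz => by
          simpa [hu] using hz
      · rw [closure_ball _ one_ne_zero]
        refine continuousOn_finsetProd _ fun u _ => ContinuousOn.sub ?_ continuousOn_const
        exact Θ.continuous.comp_continuousOn (hKc.comp (f := fun z => (u : ℂ) * z) (by fun_prop)
          fun z hz => by simpa [hu] using hz)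
    have := norm_le_of_forall_mem_frontier_norm_le isBounded_ball hd (C := 0) (fun z hz => by
      rw [frontier_ball _ one_ne_zero] at hz
      obtain ⟨u, hu1, hu2⟩ := mem_iUnion₂.1 (hT hz)
      rw [norm_le_zero_iff]
      refine Finset.prod_eq_zero hu1 ?_
      rw [h _ hu2 (by rw [hu]; simpa using hz), sub_self]) (subset_closure (mem_ball_self one_pos))
    rw [norm_le_zero_iff, Finset.prod_eq_zero_iff] at this
    obtain ⟨u, -, e⟩ := this
    rw [mul_zero, sub_eq_zero, Θ.injective.eq_iff] at e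
    have a1 := hKb 0 (by simp)
    rw [e, ← h z₀ hz₀ hz₀1, hKs z₀ hz₀1] at a1
    exact lt_irrefl _ a1
  have hinjS : ∀ ζ₁ ζ₂, ‖ζ₁‖ = 1 → ‖ζ₂‖ = 1 → K ζ₁ = K ζ₂ → ζ₁ = ζ₂ := by
    intro ζ₁ ζ₂ h1 h2 e
    by_contra hne
    set ξ := K ζ₂ with hξ
    have hξ1 : ‖ξ‖ = 1 := hKs _ h2
    set d := ζ₂ - ζ₁ with hd
    have hd0 : d ≠ 0 := sub_ne_zero.2 (Ne.symm hne)
    let μ : ℂ → ℝ := fun z => (z * conj d).re
    let ν : ℂ → ℝ := fun z => (z * conj d).im
    have hμc : Continuous μ := by fun_prop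
    have hνc : Continuous ν := by fun_prop
    have hμ : μ ζ₁ < μ ζ₂ := by
      have : μ ζ₂ - μ ζ₁ = normSq d := by
        simp only [μ]; rw [← sub_re, ← sub_mul, ← hd, mul_conj, ofReal_re]
      linarith [normSq_pos.2 hd0]
    have near : ∀ ζ, ‖ζ‖ = 1 → K ζ = ξ → ∀ η > 0, ∀ N ∈ 𝓝 ζ,
        ∃ y ∈ ball (0 : ℂ) 1 ∩ {y : ℂ | 1 - η < (y * conj ξ).re}, j y ∈ N := by
      intro ζ hζ e η hη N hN
      have hζ' := mem_closedBall_zero_iff.2 hζ.le
      have := hnb ζ hζ'
      have hc : ContinuousAt (fun y : ℂ => (y * conj ξ).re) (K ζ) := by fun_prop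
      have a1 : 1 - η < (K ζ * conj ξ).re := by
        rw [e, mul_conj, Complex.normSq_eq_norm_sq, hξ1]; simp [hη]
      obtain ⟨z, ⟨b1, b2⟩, b3⟩ := ((((hKt ζ hζ').eventually (hc.eventually (lt_mem_nhds a1))).and
        self_mem_nhdsWithin).and (mem_nhdsWithin_of_mem_nhds hN)).exists
      exact ⟨k z, ⟨hk b2, b1⟩, by rwa [hjk z b2]⟩
    have chord : ∀ t ∈ Ioo (μ ζ₁) (μ ζ₂), ∃ z, ‖z‖ = 1 ∧ K z = ξ ∧ μ z = t := by
      intro t ht
      by_contra hcon
      have hC : IsCompact (K '' (closedBall 0 1 ∩ μ ⁻¹' {t})) :=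
        ((isCompact_closedBall _ _).inter_right (isClosed_singleton.preimage hμc)).image_of_continuousOn
          (hKc.mono inter_subset_left)
      have hξC : ξ ∉ K '' (closedBall 0 1 ∩ μ ⁻¹' {t}) := by
        rintro ⟨z, ⟨a1, a2⟩, a3⟩
        refine hcon ⟨z, ?_, a3, a2⟩
        refine le_antisymm (mem_closedBall_zero_iff.1 a1) (not_lt.1 fun h => ?_)
        have := hKb z h
        rw [a3, hξ1] at this; exact lt_irrefl _ this
      obtain ⟨r, hr, hr'⟩ := Metric.isOpen_iff.1 hC.isClosed.isOpen_compl ξ hξC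
      obtain ⟨y₁, a1, a2⟩ := near ζ₁ h1 e (r ^ 2 / 2) (by positivity) _
        (hμc.continuousAt.eventually (gt_mem_nhds ht.1))
      obtain ⟨y₂, b1, b2⟩ := near ζ₂ h2 rfl (r ^ 2 / 2) (by positivity) _
        (hμc.continuousAt.eventually (lt_mem_nhds ht.2))
      obtain ⟨y, hy, e'⟩ := ((convex_ball (0 : ℂ) 1).inter (convex_cap ξ _).2).isPreconnected.intermediate_value
        a1 b1 (f := fun y => μ (j y)) (hμc.comp_continuousOn (hjc.mono inter_subset_left))
        (show t ∈ Icc _ _ from ⟨le_of_lt a2, le_of_lt b2⟩)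
      have c1 := cap_small (mem_ball_zero_iff.1 hy.1).le hξ1 hy.2
      refine hr' (mem_ball_iff_norm.2 (lt_of_pow_lt_pow_left₀ 2 hr.le (by linarith)))
        ⟨j y, ⟨ball_subset_closedBall (hj hy.1), e'⟩, ?_⟩
      rw [hKk _ (hj hy.1), hkj y hy.1]
    have hsq : ∀ z, ‖z‖ = 1 → μ z ^ 2 + ν z ^ 2 = ‖d‖ ^ 2 := fun z hz => by
      have : ‖z * conj d‖ ^ 2 = ‖d‖ ^ 2 := by rw [norm_mul, hz, RCLike.norm_conj, one_mul]
      rw [← this, ← Complex.normSq_eq_norm_sq, normSq_apply]; simp only [μ, ν]; ring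
    let T : ℝ → Set ℝ := fun s => μ '' ((sphere 0 1 ∩ K ⁻¹' {ξ}) ∩ {z | 0 ≤ s * ν z})
    have hT : ∀ s, IsClosed (T s) := fun s =>
      ((((isCompact_sphere (0 : ℂ) 1).of_isClosed_subset
        ((hKc.mono sphere_subset_closedBall).preimage_isClosed_of_isClosed isClosed_sphere
          isClosed_singleton) inter_subset_left).inter_right
          (isClosed_le continuous_const (by fun_prop))).image hμc).isClosed
    have side : ∀ s : ℝ, s ^ 2 = 1 → ∀ J : Set ℝ, IsOpen J → J.Nonempty → ¬ J ⊆ T s := by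
      intro s hs J hJ hJn hJT
      obtain ⟨t, ht, ht'⟩ : (J \ {‖d‖, -‖d‖}).Nonempty :=
        ((infinite_of_mem_nhds _ (hJ.mem_nhds hJn.some_mem)).sdiff (toFinite _)).nonempty
      obtain ⟨z₀, ⟨⟨a1, a2⟩, a3⟩, a4⟩ := hJT ht
      have a5 : ‖z₀‖ = 1 := by simpa using a1
      refine noarc (μ ⁻¹' J ∩ {z | 0 < s * ν z}) z₀ ξ
        ((hJ.preimage hμc).inter (isOpen_lt continuous_const (by fun_prop)))
        ⟨by rwa [mem_preimage, a4],
          lt_of_le_of_ne (show 0 ≤ s * ν z₀ from a3) fun h0 => ?_⟩ a5 fun z hz hz1 => ?_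
      · have b1 : ν z₀ = 0 := by
          have : s * (s * ν z₀) = 0 := by rw [← h0, mul_zero]
          rw [← mul_assoc, ← sq, hs, one_mul] at this; exact this
        have b2 := hsq z₀ a5
        rw [b1, a4] at b2
        apply ht'
        simpa [sq_eq_sq_iff_eq_or_eq_neg] using b2
      · obtain ⟨z', ⟨⟨b1, b2⟩, b3⟩, b4⟩ := hJT hz.1
        have b5 : ‖z'‖ = 1 := by simpa using b1
        have b6 : (s * ν z') ^ 2 = (s * ν z) ^ 2 := by
          have c1 := hsq z hz1
          have c2 := hsq z' b5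
          rw [b4] at c2
          rw [mul_pow, mul_pow, hs]; linarith
        have b7 : s * ν z' = s * ν z := (sq_eq_sq₀ b3 (le_of_lt hz.2)).1 b6
        have b8 : ν z' = ν z := mul_left_cancel₀ (by rintro rfl; simp at hs) b7
        have b9 : z' * conj d = z * conj d := Complex.ext b4 b8
        rw [← mul_right_cancel₀ (by simpa using hd0) b9]
        exact b2
    by_cases hall : Ioo (μ ζ₁) (μ ζ₂) ⊆ T 1
    · exact side 1 (by norm_num) _ isOpen_Ioo (nonempty_Ioo.2 hμ) hall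
    · refine side (-1) (by norm_num) (Ioo (μ ζ₁) (μ ζ₂) \ T 1) (isOpen_Ioo.sdiff (hT 1))
        (sdiff_nonempty.2 hall) fun t ht => ?_
      obtain ⟨z, a1, a2, a3⟩ := chord t ht.1
      refine ⟨z, ⟨⟨by simpa using a1, a2⟩, ?_⟩, a3⟩
      by_contra hcon
      refine ht.2 ⟨z, ⟨⟨by simpa using a1, a2⟩, ?_⟩, a3⟩
      simp only [mem_ofPred_eq, not_le] at hcon ⊢
      linarith
  refine ⟨K, hKc, ⟨hKm, fun z hz w hw e => ?_, ?_⟩, hKs, hKb, hKd, ?_⟩
  · rcases (mem_closedBall_zero_iff.1 hz).lt_or_eq with h1 | h1 <;>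
      rcases (mem_closedBall_zero_iff.1 hw).lt_or_eq with h2 | h2
    · rw [hKk z (mem_ball_zero_iff.2 h1), hKk w (mem_ball_zero_iff.2 h2)] at e
      rw [← hjk z (mem_ball_zero_iff.2 h1), e, hjk w (mem_ball_zero_iff.2 h2)]
    · have := hKb z h1; rw [e, hKs w h2] at this; exact absurd this (lt_irrefl _)
    · have := hKb w h2; rw [← e, hKs z h1] at this; exact absurd this (lt_irrefl _)
    · exact hinjS z w h1 h2 e
  · refine hcl.trans (closure_minimal (fun y hy => ⟨j y, ball_subset_closedBall (hj hy), ?_⟩)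
      ((isCompact_closedBall _ _).image_of_continuousOn hKc).isClosed)
    rw [hKk _ (hj hy), hkj y hy]
  · have : (fun z => Θ (K z)) =ᶠ[𝓝 0] g := by
      filter_upwards [ball_mem_nhds (0 : ℂ) one_pos] with z hz
      simp [hKk z hz, k]
    rw [this.deriv_eq, (hgd 0 (mem_ball_self one_pos)).deriv]
    exact inv_ne_zero (hfd _ (hgm (mem_ball_self one_pos)))

end

end Pool.Agent.Lib.MP_21db80_an
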