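import Pool.Agent.Lib.MP_21db80_an.Degree
import Pool.Agent.Lib.MP_21db80_an.Cara

/-!
Flattening homeomorphisms on discs; homotopic homeomorphisms of the sphere are isotopic.
-/

namespace Pool.Agent.Lib.MP_21db80_an

open OnePoint Set Topology Function Filter Metric unitInterval Complex ComplexConjugate

noncomputable section

lemma int_const {Y : Type*} [TopologicalSpace Y] [PreconnectedSpace Y] {g : Y → ℝ}
    (hg : Continuous g) (h : ∀ y, ∃ n : ℤ, g y = n * (2 * Real.pi)) (y y' : Y) : g y = g y' := by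
  have := exp_lift_unique (f := fun y => (g y : ℂ) * Complex.I)
    (g := fun _ => (g y' : ℂ) * Complex.I) (by fun_prop) continuous_const (fun t => by
      obtain ⟨n, hn⟩ := h t
      obtain ⟨m, hm⟩ := h y'
      rw [hn, hm]; push_cast
      rw [mul_assoc (n : ℂ), mul_assoc (m : ℂ), exp_int_mul_two_pi_mul_I,
        exp_int_mul_two_pi_mul_I]) (y₀ := y') rfl
  exact_mod_cast mul_right_cancel₀ I_ne_zero (congrFun this y)

lemma exp_I_eq_iff {s t : ℝ} : exp (s * Complex.I) = exp (t * Complex.I) ↔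
    ∃ n : ℤ, s = t + n * (2 * Real.pi) := by
  rw [exp_eq_exp_iff_exists_int]
  refine exists_congr fun n => ⟨fun h => ?_, fun h => by rw [h]; push_cast; ring⟩
  have := congrArg im h
  simpa using this

/-- Lifting an injective map of the circle to the line. -/
lemma circle_lift {K : ℂ → ℂ} (hc : ContinuousOn K (closedBall 0 1))
    (hi : InjOn K (closedBall 0 1)) (hs : ∀ z, ‖z‖ = 1 → ‖K z‖ = 1) :
    ∃ κ : ℝ → ℝ, Continuous κ ∧ Injective κ ∧
      ∀ t : ℝ, exp (κ t * Complex.I) = K (exp (t * Complex.I)) := by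
  have hm : ∀ t : ℝ, exp (t * Complex.I) ∈ closedBall (0 : ℂ) 1 := fun t => by simp
  have hu : ∀ t : ℝ, K (exp (t * Complex.I)) ∈ Submonoid.unitSphere ℂ := fun t => by
    simpa [Submonoid.unitSphere] using hs _ (norm_exp_ofReal_mul_I t)
  have hc' : Continuous fun t : ℝ => K (exp (t * Complex.I)) :=
    hc.comp_continuous (by fun_prop) hm
  let g : C(ℝ, Circle) := ⟨fun t => ⟨K (exp (t * Complex.I)), hu t⟩, hc'.subtype_mk hu⟩
  obtain ⟨t₀, ht₀⟩ := Circle.exp_surjective (g 0)
  obtain ⟨κ, ⟨-, hκ⟩, -⟩ := Circle.isCoveringMap_exp.existsUnique_continuousMap_lifts g 0 t₀ ht₀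
  have he : ∀ t : ℝ, exp (κ t * Complex.I) = K (exp (t * Complex.I)) := fun t => by
    have := congrArg Subtype.val (congrFun hκ t)
    rw [← Circle.coe_exp]; exact this
  have hinj : ∀ s t : ℝ, κ s = κ t → ∃ n : ℤ, s = t + n * (2 * Real.pi) := fun s t h =>
    exp_I_eq_iff.1 (hi (hm s) (hm t) (by rw [← he, ← he, h]))
  refine ⟨κ, κ.continuous, fun s t h => ?_, he⟩
  obtain ⟨n, hn⟩ := hinj s t h
  by_contra hne
  have hn0 : n ≠ 0 := by rintro rfl; exact hne (by simpa using hn)
  have hper : ∀ u v : ℝ, κ (u + 2 * Real.pi) - κ u = κ (v + 2 * Real.pi) - κ v :=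
    int_const (by fun_prop) fun u => by
      obtain ⟨m, hm⟩ := exp_I_eq_iff.1 (show exp (κ (u + 2 * Real.pi) * Complex.I) =
        exp (κ u * Complex.I) by
          rw [he, he]; congr 1; exact exp_I_eq_iff.2 ⟨1, by simp⟩)
      exact ⟨m, by linarith⟩
  set c := κ (0 + 2 * Real.pi) - κ 0 with hcdef
  have hP : Periodic (fun u => κ u - c / (2 * Real.pi) * u) (2 * Real.pi) := fun u => by
    have := hper u 0
    have h2 : c / (2 * Real.pi) * (2 * Real.pi) = c := by field_simp
    simp only; linarith [mul_add (c / (2 * Real.pi)) u (2 * Real.pi)]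
  have hc0 : c = 0 := by
    have := (hP.int_mul n) t
    rw [← hn, h] at this
    have h3 : c / (2 * Real.pi) * (s - t) = 0 := by linarith
    rcases mul_eq_zero.1 h3 with h4 | h4
    · simpa using h4
    · exact absurd (sub_eq_zero.1 h4) hne
  have hsign : κ (Real.pi + Real.pi) - κ Real.pi = -(κ (0 + Real.pi) - κ 0) := by
    have : κ (0 + 2 * Real.pi) = κ 0 := by linarith
    rw [show Real.pi + Real.pi = 0 + 2 * Real.pi by ring, this]; simp
  obtain ⟨u, hu⟩ : ∃ u, κ (u + Real.pi) - κ u = 0 := by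
    have hcc : Continuous fun u => κ (u + Real.pi) - κ u := by fun_prop
    rcases le_total 0 (κ (0 + Real.pi) - κ 0) with h0 | h0
    · exact intermediate_value_univ Real.pi 0 hcc ⟨by linarith, h0⟩
    · exact intermediate_value_univ 0 Real.pi hcc ⟨h0, by linarith⟩
  obtain ⟨m, hm⟩ := hinj _ _ (sub_eq_zero.1 hu)
  have h5 : (2 * m - 1 : ℝ) * Real.pi = 0 := by linarith
  have h6 : (2 * m - 1 : ℤ) = 0 := by
    exact_mod_cast (mul_eq_zero.1 h5).resolve_right Real.pi_ne_zero
  omega

/-- Extending an orientation preserving homeomorphism of the closed disc. -/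
lemma circle_ext {K : ℂ → ℂ} (hc : ContinuousOn K (closedBall 0 1))
    (hb : BijOn K (closedBall 0 1) (closedBall 0 1)) {κ : ℝ → ℝ} (hκ : Continuous κ)
    (hm : StrictMono κ) (he : ∀ t : ℝ, exp (κ t * Complex.I) = K (exp (t * Complex.I)))
    {R : ℝ} (hR : 1 < R) :
    ∃ T : ℂ ≃ₜ ℂ, (∀ z, ‖z‖ ≤ 1 → T z = K z) ∧ ∀ z, R ≤ ‖z‖ → T z = z := by
  have hmem : ∀ t : ℝ, exp (t * Complex.I) ∈ closedBall (0 : ℂ) 1 := fun t => by simp
  have hpi := Real.pi_pos
  have hper : ∀ u, κ (u + 2 * Real.pi) = κ u + 2 * Real.pi := by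
    intro u
    obtain ⟨m, hm1⟩ := exp_I_eq_iff.1 (show exp (κ (u + 2 * Real.pi) * Complex.I) =
        exp (κ u * Complex.I) by
          rw [he, he]; congr 1; exact exp_I_eq_iff.2 ⟨1, by simp⟩)
    have h1 : κ u < κ (u + 2 * Real.pi) := hm (by linarith)
    have h2 : (0 : ℝ) < m := by
      by_contra h; push Not at h; nlinarith
    have h3 : (1 : ℝ) ≤ m := by exact_mod_cast (show (1 : ℤ) ≤ m by exact_mod_cast h2)
    obtain ⟨t, ht, e⟩ := intermediate_value_Icc (show u ≤ u + 2 * Real.pi by linarith)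
      hκ.continuousOn (show κ u + 2 * Real.pi ∈ Icc (κ u) (κ (u + 2 * Real.pi)) from
        ⟨by linarith, by nlinarith⟩)
    obtain ⟨n, hn⟩ := exp_I_eq_iff.1 (hb.injOn (hmem t) (hmem u) (by
      rw [← he, ← he, e]; exact exp_I_eq_iff.2 ⟨1, by simp⟩))
    have h4 : u < t := hm.lt_iff_lt.1 (by linarith)
    have h5 : (0 : ℝ) < n := by
      by_contra h; push Not at h; nlinarith
    have h6 : (1 : ℝ) ≤ n := by exact_mod_cast (show (1 : ℤ) ≤ n by exact_mod_cast h5)
    have h7 : t = u + 2 * Real.pi := le_antisymm ht.2 (by nlinarith)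
    rw [← h7, e]
  have hP : Periodic (fun u => κ u - u) (2 * Real.pi) := fun u => by
    simp only [hper]; ring
  let D : ℂ → ℝ := fun z => κ (arg z) - arg z
  have hD : ∀ z : ℂ, z ≠ 0 → ContinuousAt D z := by
    intro z hz
    have h1 : Continuous (hP.lift : Real.Angle → ℝ) :=
      (QuotientAddGroup.isQuotientMap_mk _).continuous_iff.2 (by
        have : (hP.lift : Real.Angle → ℝ) ∘ QuotientAddGroup.mk = fun u => κ u - u := rfl
        rw [this]; fun_prop)
    exact h1.continuousAt.comp (continuousAt_arg_coe_angle hz)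
  let s : ℝ → ℝ := fun r => max 0 (min 1 ((R - r) / (R - 1)))
  have s0 : ∀ r, 0 ≤ s r := fun r => le_max_left _ _
  have s1 : ∀ r, s r ≤ 1 := fun r => max_le zero_le_one (min_le_left _ _)
  have sc : Continuous s := by fun_prop
  have sR : ∀ r, R ≤ r → s r = 0 := fun r hr => max_eq_left (min_le_of_right_le
    (div_nonpos_of_nonpos_of_nonneg (by linarith) (by linarith)))
  have sone : s 1 = 1 := by
    simp only [s]; rw [div_self (by linarith)]; simp
  let J : ℂ → ℂ := fun z => z * exp ((s ‖z‖ * D z : ℝ) * Complex.I)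
  have Jn : ∀ z, ‖J z‖ = ‖z‖ := fun z => by
    simp only [J]; rw [norm_mul, norm_exp_ofReal_mul_I, mul_one]
  let lam : ℝ → ℝ → ℝ := fun r t => t + s r * (κ t - t)
  have lm : ∀ r, StrictMono (lam r) := fun r a b hab => by
    have := hm hab
    have h1 := s0 r
    have h2 := s1 r
    simp only [lam]
    rcases h1.eq_or_lt with h | h
    · rw [← h]; linarith
    · nlinarith
  have lp : ∀ r t (n : ℤ), lam r (t + n * (2 * Real.pi)) = lam r t + n * (2 * Real.pi) := by
    intro r t n
    have := hP.int_mul n t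
    simp only [lam] at this ⊢
    rw [this]; ring
  have Je : ∀ (r t : ℝ), 0 < r → J (r * exp (t * Complex.I)) =
      r * exp (lam r t * Complex.I) := by
    intro r t hr
    have h1 : ‖(r : ℂ) * exp (t * Complex.I)‖ = r := by
      rw [norm_mul, norm_exp_ofReal_mul_I, mul_one, norm_real, Real.norm_of_nonneg hr.le]
    have h2 := norm_mul_exp_arg_mul_I ((r : ℂ) * exp (t * Complex.I))
    rw [h1] at h2
    obtain ⟨n, hn⟩ := exp_I_eq_iff.1 (mul_left_cancel₀ (ofReal_ne_zero.2 hr.ne') h2)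
    have h3 : D (r * exp (t * Complex.I)) = κ t - t := by
      simp only [D]; rw [hn]; exact hP.int_mul n t
    simp only [J, lam]
    rw [h1, h3, mul_assoc, ← exp_add]; congr 2; push_cast; ring
  let T : ℂ → ℂ := fun z => if ‖z‖ ≤ 1 then K z else J z
  have hJK : ∀ z, ‖z‖ = 1 → K z = J z := by
    intro z hz
    have h1 := norm_mul_exp_arg_mul_I z
    have h2 := Je 1 (arg z) one_pos
    rw [hz] at h1
    rw [h1] at h2
    rw [h2]
    simp only [lam, sone, ofReal_one, one_mul, add_sub_cancel, he]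
    simp only [ofReal_one, one_mul] at h1
    rw [h1]
  have Tc : Continuous T := by
    refine continuous_if_le continuous_norm continuous_const (by simpa [closedBall] using hc) ?_ hJK
    intro z hz
    have hz0 : z ≠ 0 := by
      rintro rfl; have : (1 : ℝ) ≤ ‖(0 : ℂ)‖ := hz; norm_num at this
    refine ContinuousAt.continuousWithinAt ?_
    have := hD z hz0
    simp only [J]; fun_prop
  have Tb : Bijective T := by
    constructor
    · intro z w h
      simp only [T] at h
      split_ifs at h with h1 h2 h2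
      · exact hb.injOn (by simpa using h1) (by simpa using h2) h
      · have := mem_closedBall_zero_iff.1 (hb.mapsTo (mem_closedBall_zero_iff.2 h1))
        rw [h, Jn] at this; exact absurd this h2
      · have := mem_closedBall_zero_iff.1 (hb.mapsTo (mem_closedBall_zero_iff.2 h2))
        rw [← h, Jn] at this; exact absurd this h1
      · have hn : ‖z‖ = ‖w‖ := by rw [← Jn z, h, Jn]
        have hp : 0 < ‖w‖ := by linarith [not_le.1 h2]
        have a1 := norm_mul_exp_arg_mul_I z
        have a2 := norm_mul_exp_arg_mul_I w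
        rw [hn] at a1
        have b1 := Je _ (arg z) hp
        have b2 := Je _ (arg w) hp
        rw [a1] at b1
        rw [a2] at b2
        rw [b1, b2] at h
        obtain ⟨n, hn'⟩ := exp_I_eq_iff.1 (mul_left_cancel₀ (ofReal_ne_zero.2 hp.ne') h)
        rw [← lp] at hn'
        have b3 := exp_I_eq_iff.2 ⟨n, (lm _).injective hn'⟩
        rw [b3] at a1
        exact a1.symm.trans a2
    · intro y
      by_cases hy : ‖y‖ ≤ 1
      · obtain ⟨z, hz, e⟩ := hb.surjOn (mem_closedBall_zero_iff.2 hy)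
        exact ⟨z, by simp only [T]; rw [if_pos (mem_closedBall_zero_iff.1 hz), e]⟩
      · have hp : 0 < ‖y‖ := by linarith [not_le.1 hy]
        obtain ⟨n, hn⟩ : ∃ n : ℤ, arg y - n * (2 * Real.pi) ∈
            Icc (lam ‖y‖ 0) (lam ‖y‖ (2 * Real.pi)) := by
          obtain ⟨n, hn, -⟩ := existsUnique_sub_zsmul_mem_Ico (show 0 < 2 * Real.pi by linarith)
            (arg y) (lam ‖y‖ 0)
          have := lp ‖y‖ 0 1
          simp only [Int.cast_one, one_mul, zero_add] at this
          exact ⟨n, by rw [this]; simpa using Ico_subset_Icc_self hn⟩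
        obtain ⟨t, -, ht⟩ := intermediate_value_Icc (show 0 ≤ 2 * Real.pi by linarith)
          (show ContinuousOn (lam ‖y‖) _ from Continuous.continuousOn (by simp only [lam]; fun_prop))
          hn
        refine ⟨‖y‖ * exp (t * Complex.I), ?_⟩
        simp only [T]
        rw [if_neg (by simpa using hy), Je _ _ hp, ht]
        nth_rewrite 3 [← norm_mul_exp_arg_mul_I y]
        congr 1
        exact exp_I_eq_iff.2 ⟨-n, by push_cast; ring⟩
  have TR : ∀ z, R ≤ ‖z‖ → T z = z := fun z hz => by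
    simp only [T, J]; rw [if_neg (by linarith), sR _ hz]; simp
  obtain ⟨Θ, hΘ⟩ := exists_homeo_of_supp Tc Tb TR
  exact ⟨Θ, fun z hz => by rw [hΘ]; exact if_pos hz, fun z hz => by rw [hΘ]; exact TR z hz⟩

/-- A homeomorphism which is holomorphic near the origin can be made affine on the unit disc. -/
lemma affine_of_diff (Θ : ℂ ≃ₜ ℂ) (hd : DifferentiableOn ℂ Θ (ball 0 1)) (h0 : deriv Θ 0 ≠ 0)
    {R : ℝ} (hR : 1 < R) : ∃ (T : ℂ ≃ₜ ℂ) (a b : ℂ), a ≠ 0 ∧ (∀ z, ‖z‖ ≤ 1 → T z = a * z + b) ∧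
      ∀ z, R ≤ ‖z‖ → T z = Θ z := by
  set a := deriv Θ 0 with ha
  let u : ℂ → ℂ := fun z => (Θ z - Θ 0) / a - z
  have hu : DifferentiableOn ℂ u (ball 0 1) :=
    ((hd.sub_const _).div_const _).sub differentiableOn_id
  have hu0 : u 0 = 0 := by simp [u]
  have hdu : deriv u 0 = 0 := by
    have h1 : HasDerivAt Θ a 0 := (hd.differentiableAt (ball_mem_nhds _ one_pos)).hasDerivAt
    have := ((h1.sub_const (Θ 0)).div_const a).sub (hasDerivAt_id (0 : ℂ))
    rw [div_self h0, sub_self] at this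
    exact this.deriv
  have hcd : ContinuousAt (deriv u) 0 :=
    ((hu.analyticOnNhd isOpen_ball).deriv.continuousOn).continuousAt (ball_mem_nhds _ one_pos)
  obtain ⟨δ, hδ, hδ'⟩ := Metric.continuousAt_iff.1 hcd (1 / 8) (by norm_num)
  set r := min δ 1 / 4 with hr
  have hr0 : 0 < r := by positivity
  have hr1 : 3 * r < δ := by have := min_le_left δ 1; linarith
  have hr2 : 3 * r < 1 := by have := min_le_right δ 1; linarith
  have hl : ∀ z ∈ closedBall (0 : ℂ) (3 * r), ∀ w ∈ closedBall (0 : ℂ) (3 * r),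
      ‖u z - u w‖ ≤ 1 / 8 * ‖z - w‖ := by
    intro z hz w hw
    refine (convex_closedBall (0 : ℂ) (3 * r)).norm_image_sub_le_of_norm_deriv_le (𝕜 := ℂ)
      (fun x hx => hu.differentiableAt (isOpen_ball.mem_nhds ?_)) (fun x hx => ?_) hw hz
    · exact closedBall_subset_ball hr2 hx
    · have := hδ' (x := x) (closedBall_subset_ball hr1 hx)
      rw [hdu, dist_zero_right] at this; exact this.le
  have hsm : ∀ z ∈ closedBall (0 : ℂ) (3 * r), ‖u z‖ ≤ 1 / 8 * ‖z‖ := fun z hz => by
    simpa [hu0] using hl z hz 0 (mem_closedBall_self (by positivity))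
  have key : ∀ z w : ℂ, ‖z‖ ≤ 2 * r → ‖(bump 0 r z : ℂ) * u z - bump 0 r w * u w‖ ≤
      1 / 2 * ‖z - w‖ := by
    intro z w hz
    have hz3 : z ∈ closedBall (0 : ℂ) (3 * r) := mem_closedBall_zero_iff.2 (by linarith)
    have b1 : ‖((bump 0 r z : ℂ) - bump 0 r w) * u z‖ ≤ 1 / 4 * ‖z - w‖ := by
      rw [norm_mul, ← ofReal_sub, norm_real, Real.norm_eq_abs]
      calc _ ≤ ‖z - w‖ / r * (1 / 8 * (2 * r)) :=
            mul_le_mul (bump_lip hr0 z w) ((hsm z hz3).trans (by linarith)) (norm_nonneg _)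
              (by positivity)
        _ = _ := by field_simp; ring
    have b2 : ‖(bump 0 r w : ℂ) * (u z - u w)‖ ≤ 1 / 4 * ‖z - w‖ := by
      by_cases hw : ‖w‖ ≤ 3 * r
      · rw [norm_mul, norm_real, Real.norm_of_nonneg (bump_nonneg _ _ _)]
        calc _ ≤ 1 * (1 / 8 * ‖z - w‖) := mul_le_mul (bump_le _ _ _)
              (hl z hz3 w (mem_closedBall_zero_iff.2 hw)) (norm_nonneg _) zero_le_one
          _ ≤ _ := by nlinarith [norm_nonneg (z - w)]
      · rw [bump_zero hr0 (by simp only [sub_zero]; linarith)]; simp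
    calc _ = ‖((bump 0 r z : ℂ) - bump 0 r w) * u z + (bump 0 r w : ℂ) * (u z - u w)‖ := by
          congr 1; ring
      _ ≤ _ := (norm_add_le _ _).trans (by linarith)
  obtain ⟨g, hg⟩ := lip_homeo (u := fun z => bump 0 r z * u z) fun z w => by
    by_cases hz : ‖z‖ ≤ 2 * r
    · exact key z w hz
    by_cases hw : ‖w‖ ≤ 2 * r
    · rw [norm_sub_rev, norm_sub_rev z]; exact key w z hw
    · rw [bump_zero hr0 (by simp only [sub_zero]; linarith),
        bump_zero hr0 (by simp only [sub_zero]; linarith)]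
      simp
  have g0 : g.symm 0 = 0 := by rw [Homeomorph.symm_apply_eq, hg, hu0]; simp
  obtain ⟨c, hc, hc'⟩ := Metric.continuousAt_iff.1 (g.symm.continuous.continuousAt (x := 0)) r hr0
  obtain ⟨ρ, ρ1, ρ2⟩ := exists_compress (c := min (c / 2) 1) (R := 1) (R2 := R) (by positivity)
    (min_le_right _ _) one_pos hR
  refine ⟨(ρ.trans g.symm).trans Θ, a * (min (c / 2) 1 : ℝ), Θ 0,
    mul_ne_zero h0 (ofReal_ne_zero.2 (by positivity)), fun z hz => ?_, fun z hz => ?_⟩
  · simp only [Homeomorph.trans_apply]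
    rw [ρ1 z hz]
    set y : ℂ := (min (c / 2) 1 : ℝ) * z with hy
    have h1 : dist y 0 < c := by
      rw [dist_zero_right, hy, norm_mul, norm_real, Real.norm_of_nonneg (by positivity)]
      have := min_le_left (c / 2) 1
      nlinarith [norm_nonneg z]
    have h2 := hc' h1
    rw [g0, dist_zero_right] at h2
    have h3 := hg (g.symm y)
    rw [bump_one hr0 (by simpa using h2.le), Homeomorph.apply_symm_apply] at h3
    simp only [u, ofReal_one, one_mul, add_sub_cancel] at h3
    rw [mul_assoc, ← hy]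
    rw [eq_div_iff h0] at h3
    linear_combination -h3
  · simp only [Homeomorph.trans_apply]
    rw [ρ2 z hz]
    congr 1
    rw [Homeomorph.symm_apply_eq, hg, bump_zero hr0 (by simp only [sub_zero]; linarith)]; simp

/-- Every homeomorphism of the plane can be made affine or conjugate affine on the unit disc. -/
lemma plane_flat (Θ : ℂ ≃ₜ ℂ) {R : ℝ} (hR : 1 < R) : ∃ (T : ℂ ≃ₜ ℂ) (a b : ℂ), a ≠ 0 ∧
    (∀ z, R ≤ ‖z‖ → T z = Θ z) ∧
      ((∀ z, ‖z‖ ≤ 1 → T z = a * z + b) ∨ ∀ z, ‖z‖ ≤ 1 → T (conj z) = a * z + b) := by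
  obtain ⟨K, h1, h2, h3, h4, h5, h6⟩ := caratheodory Θ
  obtain ⟨κ, k1, k2, k3⟩ := circle_lift h1 h2.injOn h3
  rcases k1.strictMono_of_inj k2 with hm | hm
  · obtain ⟨T, t1, t2⟩ := circle_ext h1 h2 k1 hm k3 hR
    have e : (T.trans Θ : ℂ → ℂ) =ᶠ[𝓝 0] fun z => Θ (K z) := by
      filter_upwards [ball_mem_nhds (0 : ℂ) one_pos] with z hz
      simp [t1 z (mem_ball_zero_iff.1 hz).le]
    obtain ⟨T', a, b, ha, c1, c2⟩ := affine_of_diff (T.trans Θ)
      (h5.congr fun z hz => by simp [t1 z (mem_ball_zero_iff.1 hz).le]) (by rwa [e.deriv_eq]) hR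
    exact ⟨T', a, b, ha, fun z hz => by simp [c2 z hz, t2 z hz], Or.inl c1⟩
  · have hcb : BijOn (fun z : ℂ => conj z) (closedBall 0 1) (closedBall 0 1) :=
      ⟨fun z hz => by simpa using hz, fun z _ w _ h => star_injective h,
        fun z hz => ⟨conj z, by simpa using hz, by simp⟩⟩
    obtain ⟨T, t1, t2⟩ := circle_ext (K := fun z => K (conj z))
      (h1.comp continuous_conj.continuousOn hcb.mapsTo) (h2.comp hcb) (κ := fun t => κ (-t))
      (by fun_prop) (fun s t h => hm (neg_lt_neg h)) (fun t => by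
        rw [k3, ← exp_conj]; simp) hR
    let C : ℂ ≃ₜ ℂ := conjCLE.toHomeomorph
    have hC : ∀ z, C z = conj z := fun _ => rfl
    have t3 : ∀ z, ‖z‖ < 1 → (C.trans T).trans Θ z = Θ (K z) := fun z hz => by
      simp [hC, t1 (conj z) (by simpa using hz.le)]
    have e : ((C.trans T).trans Θ : ℂ → ℂ) =ᶠ[𝓝 0] fun z => Θ (K z) := by
      filter_upwards [ball_mem_nhds (0 : ℂ) one_pos] with z hz
      exact t3 z (mem_ball_zero_iff.1 hz)
    obtain ⟨T', a, b, ha, c1, c2⟩ := affine_of_diff ((C.trans T).trans Θ)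
      (h5.congr fun z hz => t3 z (mem_ball_zero_iff.1 hz)) (by rwa [e.deriv_eq]) hR
    refine ⟨C.trans T', a, b, ha, fun z hz => ?_, Or.inr fun z hz => ?_⟩
    · simp [hC, c2 (conj z) (by simpa using hz), t2 z hz]
    · simp [hC, c1 z hz]

/-- The Alexander trick. -/
lemma alexander_plane (T : ℂ ≃ₜ ℂ) {R : ℝ} (hR : ∀ z, R ≤ ‖z‖ → T z = z) :
    IsoRel ∅ (OnePoint.map T) := by
  let u : ℂ → ℂ := fun z => T z - z
  have uc : Continuous u := by fun_prop
  obtain ⟨C, hC⟩ : ∃ C, ∀ z, ‖u z‖ ≤ C := by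
    obtain ⟨C, hC⟩ := (isCompact_closedBall (0 : ℂ) R).exists_bound_of_continuousOn uc.continuousOn
    refine ⟨max C 0, fun z => ?_⟩
    by_cases hz : ‖z‖ ≤ R
    · exact (hC z (by simpa using hz)).trans (le_max_left _ _)
    · simp [u, hR z (not_le.1 hz).le]
  let K : I → ℂ → ℂ := fun t z => z + (t : ℝ) * u (z / (t : ℝ))
  have Kc : Continuous fun p : I × ℂ => K p.1 p.2 := by
    refine continuous_snd.add (continuous_iff_continuousAt.2 fun p => ?_)
    by_cases hp : (p.1 : ℝ) = 0
    · rw [ContinuousAt]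
      simp only [hp, ofReal_zero, zero_mul]
      refine squeeze_zero_norm (a := fun q : I × ℂ => ‖((q.1 : ℝ) : ℂ)‖ * C) (fun q => ?_) ?_
      · rw [norm_mul]; exact mul_le_mul_of_nonneg_left (hC _) (norm_nonneg _)
      · have : Continuous fun q : I × ℂ => ‖((q.1 : ℝ) : ℂ)‖ * C := by fun_prop
        simpa [hp] using this.tendsto p
    · have : ((p.1 : ℝ) : ℂ) ≠ 0 := ofReal_ne_zero.2 hp
      fun_prop (disch := exact this)
  have Kb : ∀ t, Bijective (K t) := by
    intro t
    by_cases ht : (t : ℝ) = 0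
    · have : K t = id := funext fun z => by simp [K, ht]
      rw [this]; exact bijective_id
    · have h0 : ((t : ℝ) : ℂ) ≠ 0 := ofReal_ne_zero.2 ht
      have : K t = (fun z : ℂ => (t : ℝ) * z) ∘ T ∘ fun z : ℂ => z / (t : ℝ) := funext fun z => by
        simp only [K, u, Function.comp]; field_simp; ring
      rw [this]
      exact (mulLeft_bijective₀ _ h0).comp (T.bijective.comp (Equiv.divRight₀ _ h0).bijective)
  refine ⟨⟨fun p => OnePoint.map (K p.1) p.2, continuous_map_fam Kc fun R' =>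
    ⟨R' + C, fun t z hz => ?_⟩⟩, fun t => map_bijective (Kb t), fun x => ?_, fun x => ?_, by simp⟩
  · have h1 : ‖((t : ℝ) : ℂ) * u (z / (t : ℝ))‖ ≤ C := by
      rw [norm_mul, norm_real, Real.norm_of_nonneg t.2.1]
      nlinarith [hC (z / (t : ℝ)), norm_nonneg (u (z / (t : ℝ))), t.2.1, t.2.2]
    have h2 := norm_sub_le (K t z) (((t : ℝ) : ℂ) * u (z / (t : ℝ)))
    simp only [K, add_sub_cancel_right] at h2 ⊢
    linarith
  · induction x using OnePoint.rec <;> simp [K]
  · induction x using OnePoint.rec <;> simp [K, u]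

/-- A homeomorphism which is the identity near some point is isotopic to the identity. -/
lemma isoRel_of_eventually (θ : Sph ≃ₜ Sph) {x₀ : Sph} (h : ∀ᶠ x in 𝓝 x₀, θ x = x) :
    IsoRel ∅ θ := by
  obtain ⟨μ, -, hμ⟩ := exists_mob_infty x₀
  have h0 : μ.symm ∞ = x₀ := by rw [Homeomorph.symm_apply_eq, hμ]
  have h1 : ∀ᶠ y in 𝓝 (∞ : Sph), θ (μ.symm y) = μ.symm y :=
    (μ.symm.continuous.tendsto' _ _ h0).eventually h
  obtain ⟨Θ, hΘ⟩ := exists_plane_homeo ((μ.symm.trans θ).trans μ) (by simp [h1.self_of_nhds])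
  obtain ⟨R, -, hR⟩ := exists_out_subset h1
  have h2 := alexander_plane Θ (R := R + 1) fun z hz => by
    have a1 := hΘ z
    have a2 : θ (μ.symm z) = μ.symm z := hR (coe_mem_out.2 (by linarith))
    simpa [a2] using a1.symm
  have h3 := h2.conj (Y := ∅) μ (by simp)
  convert h3 using 1
  funext x
  rw [← hΘ]; simp

lemma isMob_affine {a : ℂ} (ha : a ≠ 0) (b : ℂ) : IsMob (OnePoint.map fun z => a * z + b) := by
  have : (OnePoint.map fun z => a * z + b) = mob a b 0 1 := funext fun x => by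
    induction x using OnePoint.rec with
    | infty => simp [mob_infty]
    | coe z => simp [mob_coe]
  rw [this]; exact isMob_mob (by simpa using ha)

/-- Flattening a homeomorphism on a round disc without changing it outside an open set. -/
theorem annulus (θ : Sph ≃ₜ Sph) (hθ : Hid θ) (μ : Sph ≃ₜ Sph) (hμ : IsMob μ) {O : Set Sph}
    (hO : IsOpen O) (hE : ∀ x, μ x ∉ out 1 → θ x ∈ O) :
    ∃ (θ' : Sph ≃ₜ Sph) (M : Sph ≃ₜ Sph), IsMob M ∧ (∀ x, μ x ∉ out 1 → θ' x = M x) ∧
      (∀ x, θ x ∉ O → θ' x = θ x) ∧ IsoRel ∅ θ' ∧ IsoRel ∅ θ := by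
  obtain ⟨ν, hν, hν'⟩ := exists_mob_infty (θ (μ.symm ∞))
  obtain ⟨Θ, hΘ⟩ := exists_plane_homeo ((μ.symm.trans θ).trans ν) hν'
  obtain ⟨R, hR, hRO⟩ : ∃ R > 1, ∀ z : ℂ, ‖z‖ < R → θ (μ.symm z) ∈ O := by
    have h1 : IsOpen ((fun z : ℂ => θ (μ.symm z)) ⁻¹' O) :=
      hO.preimage (θ.continuous.comp (μ.symm.continuous.comp continuous_coe))
    obtain ⟨δ, hδ, h2⟩ := (isCompact_closedBall (0 : ℂ) 1).exists_thickening_subset_open h1
      fun z hz => hE _ (by simpa using hz)
    rw [thickening_closedBall hδ zero_le_one] at h2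
    exact ⟨δ + 1, by linarith, fun z hz => h2 (by simpa using hz)⟩
  obtain ⟨T, a, b, ha, t1, t2⟩ := plane_flat Θ hR
  obtain ⟨A, hA⟩ := (isMob_affine ha b).exists_homeo
  have hAm : IsMob A := hA ▸ isMob_affine ha b
  have i1 : IsoRel ∅ (T.onePointCongr.trans Θ.onePointCongr.symm) := by
    refine isoRel_of_eventually _ (x₀ := ∞) ?_
    filter_upwards [out_mem_nhds R] with x hx
    induction x using OnePoint.rec with
    | infty => rfl
    | coe z =>
      rw [Homeomorph.trans_apply, Homeomorph.symm_apply_eq]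
      simp [t1 z (coe_mem_out.1 hx).le]
  have hb : ∀ᶠ x : Sph in 𝓝 o0, ∃ z : ℂ, ‖z‖ ≤ 1 ∧ x = (z : Sph) := by
    filter_upwards [(isOpenMap_coe _ isOpen_ball).mem_nhds ⟨0, mem_ball_self one_pos, rfl⟩]
    rintro x ⟨z, hz, rfl⟩
    exact ⟨z, (mem_ball_zero_iff.1 hz).le, rfl⟩
  have eθ : ∀ x, θ x = ν.symm (Θ.onePointCongr (μ x)) := fun x => by
    rw [Homeomorph.eq_symm_apply]
    have := hΘ (μ x)
    simpa using this
  rcases t2 with t2 | t2
  · have i2 : IsoRel ∅ (T.onePointCongr.trans A.symm) := by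
      refine isoRel_of_eventually _ (x₀ := o0) ?_
      filter_upwards [hb]
      rintro x ⟨z, hz, rfl⟩
      rw [Homeomorph.trans_apply, Homeomorph.symm_apply_eq, hA]
      simp [t2 z hz]
    have i3 : IsoRel ∅ T.onePointCongr := by
      convert i2.trans hAm.isoRel using 2
      ext x; simp
    have i4 : IsoRel ∅ Θ.onePointCongr := by
      convert i1.symm.trans i3 using 2
      ext x; induction x using OnePoint.rec <;> simp
    refine ⟨(μ.trans T.onePointCongr).trans ν.symm, (μ.trans A).trans ν.symm,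
      (hμ.trans hAm).trans hν.symm, fun x hx => ?_, fun x hx => ?_,
      (hμ.isoRel.trans i3).trans hν.symm.isoRel, ?_⟩
    · simp only [Homeomorph.trans_apply, hA]
      induction h : μ x using OnePoint.rec with
      | infty => rfl
      | coe z =>
        rw [h, coe_mem_out, not_lt] at hx
        simp [t2 z hx]
    · rw [eθ]
      simp only [Homeomorph.trans_apply]
      induction h : μ x using OnePoint.rec with
      | infty => rfl
      | coe z =>
        have : R ≤ ‖z‖ := by
          by_contra hz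
          apply hx
          have := hRO z (not_le.1 hz)
          rwa [← h, Homeomorph.symm_apply_apply] at this
        simp [t1 z this]
    · convert (hμ.isoRel.trans i4).trans hν.symm.isoRel using 1
      funext x; exact eθ x
  · exfalso
    apply not_hid_cj
    have i2 : IsoRel ∅ ((cj.trans T.onePointCongr).trans A.symm) := by
      refine isoRel_of_eventually _ (x₀ := o0) ?_
      filter_upwards [hb]
      rintro x ⟨z, hz, rfl⟩
      rw [Homeomorph.trans_apply, Homeomorph.symm_apply_eq, hA]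
      simp [t2 z hz]
    have i3 : Hid Θ.onePointCongr := by
      convert (hν.isoRel.hid.comp hθ).comp hμ.symm.isoRel.hid using 1
      funext x
      simp [eθ]
    have i4 : Hid T.onePointCongr := by
      convert i3.comp i1.hid using 1
      funext x; induction x using OnePoint.rec <;> simp
    convert (i4.symm.comp hAm.isoRel.hid).comp i2.hid using 1
    funext x; induction x using OnePoint.rec <;> simp

/-- Homeomorphisms of the sphere homotopic to the identity are isotopic to it. -/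
theorem Hid.isoRel {θ : Sph ≃ₜ Sph} (h : Hid θ) : IsoRel ∅ θ := by
  obtain ⟨-, -, -, -, -, -, h⟩ := annulus θ h (Homeomorph.refl _) isMob_id isOpen_univ
    fun _ _ => trivial
  exact h

end

end Pool.Agent.Lib.MP_21db80_an
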