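import Pool.Agent.Lib.MP_21db80_an.Brown

/-!
The tree structure of markings and density of homeomorphisms.
-/

namespace Pool.Agent.Lib.MP_21db80_an

open OnePoint Set Topology Function Filter Metric unitInterval

noncomputable section

lemma Cell.isPreconnected {A : Set Sph} (h : Cell A) (hc : IsClosed A) : IsPreconnected A := by
  rw [isPreconnected_closed_iff]
  intro t t' ht ht' hA h1 h2
  by_contra hne
  obtain ⟨U, V, hU, hV, a1, a2, a3⟩ := normal_separation (hc.inter ht) (hc.inter ht') (by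
    rw [disjoint_iff_inter_eq_empty]
    exact eq_empty_of_forall_notMem fun x hx => hne ⟨x, hx.1.1, hx.1.2, hx.2.2⟩)
  obtain ⟨e, e1, e2, e3⟩ := h (U ∪ V) (hU.union hV) fun x hx =>
    (hA hx).imp (fun h => a1 ⟨hx, h⟩) fun h => a2 ⟨hx, h⟩
  obtain ⟨x, hx⟩ := h1
  obtain ⟨x', hx'⟩ := h2
  obtain ⟨z, -, hz⟩ := isPreconnected_range e1.continuous U V hU hV e3 ⟨x, e2 hx.1, a1 hx⟩
    ⟨x', e2 hx'.1, a2 hx'⟩
  exact disjoint_left.1 a3 hz.1 hz.2

/-- Continuous surjections which are injective off finitely many fibres. -/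
structure Mono (k : Sph → Sph) (N : Set Sph) : Prop where
  cont : Continuous k
  surj : Surjective k
  fin : N.Finite
  inj : ∀ x x', k x = k x' → k x ∉ N → x = x'

lemma Mono.fibre {k : Sph → Sph} {N : Set Sph} (h : Mono k N) (y : Sph) :
    IsPreconnected (k ⁻¹' {y}) := by
  by_cases hy : y ∈ N
  · exact (cell_fibre h.cont h.surj h.fin h.inj hy).isPreconnected
      (isClosed_singleton.preimage h.cont)
  · exact Set.Subsingleton.isPreconnected fun x hx x' hx' =>
      h.inj x x' (hx.trans hx'.symm) (hx ▸ hy)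

lemma Mono.preimage {k : Sph → Sph} {N : Set Sph} (h : Mono k N) {T : Set Sph}
    (hT : IsPreconnected T) : IsPreconnected (k ⁻¹' T) := by
  rw [isPreconnected_closed_iff] at hT ⊢
  rintro t t' ht ht' hA ⟨x, hx⟩ ⟨x', hx'⟩
  obtain ⟨y, hy, ⟨z, hz, e⟩, z', hz', e'⟩ := hT (k '' t) (k '' t') (h.cont.isClosedMap _ ht)
    (h.cont.isClosedMap _ ht') (fun y hy => by
      obtain ⟨x, rfl⟩ := h.surj y
      exact (hA hy).imp (mem_image_of_mem k) (mem_image_of_mem k))
    ⟨k x, hx.1, x, hx.2, rfl⟩ ⟨k x', hx'.1, x', hx'.2, rfl⟩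
  obtain ⟨w, hw, hw'⟩ := isPreconnected_closed_iff.1 (h.fibre y) t t' ht ht'
    (fun w hw => hA (by rw [mem_preimage, hw]; exact hy)) ⟨z, e, hz⟩ ⟨z', e', hz'⟩
  exact ⟨w, by rw [mem_preimage, hw]; exact hy, hw'⟩

lemma Mono.comp_homeo {k : Sph → Sph} {N : Set Sph} (h : Mono k N) (M : Sph ≃ₜ Sph) :
    Mono (M ∘ k) (M '' N) :=
  ⟨M.continuous.comp h.cont, M.surjective.comp h.surj, h.fin.image _, fun x x' e hx =>
    h.inj x x' (M.injective e) fun h' => hx ⟨_, h', rfl⟩⟩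

lemma const_of_finite {Y : Type*} [TopologicalSpace Y] {W : Set Y} (hW : IsPreconnected W)
    {g : Y → Sph} (hg : ContinuousOn g W) {F : Set Sph} (hF : F.Finite) (h : MapsTo g W F)
    {x y : Y} (hx : x ∈ W) (hy : y ∈ W) : g x = g y :=
  hW.constant_of_mapsTo hF.isDiscrete hg h hx hy

lemma isPreconnected_compl_finite {F : Set Sph} (hF : F.Finite) : IsPreconnected Fᶜ := by
  have h1 : ((fun z : ℂ => (z : Sph)) ⁻¹' F).Finite := hF.preimage coe_injective.injOn
  have h2 := (h1.countable.isPathConnected_compl_of_one_lt_rank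
    (by rw [Complex.rank_real_complex]; norm_num)).isConnected.isPreconnected.image _
    continuous_coe.continuousOn
  refine h2.subset_closure ?_ fun x hx => ?_
  · rintro _ ⟨z, hz, rfl⟩; exact hz
  · induction x using OnePoint.rec with
    | coe z => exact subset_closure ⟨z, hx, rfl⟩
    | infty =>
      rw [mem_closure_iff_nhds]
      intro U hU
      obtain ⟨z, hz⟩ := denseRange_coe.exists_mem_open isOpen_interior
        ⟨_, mem_interior_iff_mem_nhds.2 (inter_mem hU (hF.isClosed.isOpen_compl.mem_nhds hx))⟩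
      exact ⟨z, (interior_subset hz).1, z, (interior_subset hz).2, rfl⟩

lemma dense_compl_finite {F : Set Sph} (hF : F.Finite) : Dense Fᶜ := by
  rw [dense_iff_inter_open]
  intro U hU hne
  obtain ⟨z, hz⟩ := denseRange_coe.exists_mem_open hU hne
  have h1 : ((fun z : ℂ => (z : Sph)) ⁻¹' F).Finite := hF.preimage coe_injective.injOn
  obtain ⟨w, hw, hw'⟩ := ((infinite_of_mem_nhds z ((hU.preimage continuous_coe).mem_nhds hz)).sdiff
    h1).nonempty
  exact ⟨w, hw, hw'⟩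

/-- Maps that agree generically agree somewhere on every fibre. -/
lemma Mono.exists_eq {k : Sph → Sph} {N : Set Sph} (h : Mono k N) {g g' : Sph → Sph}
    (hg : Continuous g) (hg' : Continuous g') {F : Set Sph} (hF : F.Finite)
    (he : ∀ x, k x ∉ F → g x = g' x) (y : Sph) : ∃ x, k x = y ∧ g x = g' x := by
  have h1 : IsClosed (k '' {x | g x = g' x}) := h.cont.isClosedMap _ (isClosed_eq hg hg')
  obtain ⟨x, hx, e⟩ := h1.closure_subset ((dense_compl_finite hF).mono (fun y hy => by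
    obtain ⟨x, rfl⟩ := h.surj y
    exact ⟨x, he x hy, rfl⟩) y)
  exact ⟨x, e, hx⟩

/-- Jordan curves have empty interior. -/
lemma not_open_subset_curve {γ : C(Circle, Sph)} (hγ : Injective γ) {W : Set Sph} (hW : IsOpen W)
    (hne : W.Nonempty) : ¬ W ⊆ range γ := by
  intro hs
  obtain ⟨z, hz⟩ := denseRange_coe.exists_mem_open hW hne
  obtain ⟨r, hr, hr'⟩ := Metric.isOpen_iff.1 (hW.preimage continuous_coe) z hz
  obtain ⟨e, e1, e2, -⟩ := exists_shrink hr z
  have hemb := (γ.continuous.isClosedEmbedding hγ).isEmbedding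
  let J : C(ℂ, Circle) := ⟨fun w => hemb.toHomeomorph.symm ⟨(e w : Sph), hs (hr' (e2 w))⟩,
    hemb.toHomeomorph.symm.continuous.comp ((continuous_coe.comp e1.continuous).subtype_mk _)⟩
  have hJ : Injective J := fun w w' h =>
    e1.injective (coe_injective (congrArg Subtype.val (hemb.toHomeomorph.symm.injective h)))
  obtain ⟨t₀, ht₀⟩ := Circle.exp_surjective (J 0)
  obtain ⟨L, ⟨-, hL⟩, -⟩ := Circle.isCoveringMap_exp.existsUnique_continuousMap_lifts J 0 t₀ ht₀
  have hLi : Injective L := fun w w' h => hJ (by rw [← hL]; simp [h])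
  have hc : Continuous fun t : ℝ => L (Complex.exp (t * Complex.I)) -
      L (-Complex.exp (t * Complex.I)) := by fun_prop
  obtain ⟨u, hu⟩ : ∃ u : ℝ, L (Complex.exp (u * Complex.I)) -
      L (-Complex.exp (u * Complex.I)) = 0 := by
    rcases le_total (L 1) (L (-1)) with h0 | h0
    · exact intermediate_value_univ 0 Real.pi hc ⟨by simpa using h0, by simpa using h0⟩
    · exact intermediate_value_univ Real.pi 0 hc ⟨by simpa using h0, by simpa using h0⟩
  have := hLi (sub_eq_zero.1 hu)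
  exact Complex.exp_ne_zero _ (self_eq_neg.1 this)

lemma isClosed_comp {k : ℕ} (n : Fin k → Fin k → Sph) (v : Fin k) : IsClosed (comp n v) := by
  have : comp n v = ⋂ w, ⋂ (_ : w ≠ v), {y | y w = n w v} := by ext y; simp [comp]
  rw [this]
  exact isClosed_iInter fun w => isClosed_iInter fun _ =>
    isClosed_eq (continuous_apply w) continuous_const

lemma comp_ext {k : ℕ} {n : Fin k → Fin k → Sph} {v : Fin k} {y y' : Fin k → Sph}
    (hy : y ∈ comp n v) (hy' : y' ∈ comp n v) (h : y v = y' v) : y = y' := funext fun w => by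
  by_cases hw : w = v
  · rw [hw, h]
  · rw [hy w hw, hy' w hw]

namespace Marking

variable {X : Set Sph} (m : Marking X)

lemma continuous_pt : Continuous (pt m.φ) := continuous_pi fun v => (m.φ v).continuous

/-- The values of the nodes on a component. -/
def N (v : Fin m.k) : Set Sph := {y | ∃ u, u ≠ v ∧ m.n v u = y}

lemma exists_comp (x : Sph) : ∃ v, pt m.φ x ∈ comp m.n v :=
  mem_iUnion.1 (m.onto ▸ mem_range_self x)

lemma exists_pt {v : Fin m.k} {y : Fin m.k → Sph} (hy : y ∈ comp m.n v) : ∃ x, pt m.φ x = y := by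
  have : y ∈ range (pt m.φ) := m.onto ▸ mem_iUnion.2 ⟨v, hy⟩
  exact this

lemma exists_on (v : Fin m.k) (y : Sph) : ∃ x, pt m.φ x ∈ comp m.n v ∧ m.φ v x = y := by
  have h : update (fun w => m.n w v) v y ∈ comp m.n v := fun w hw => update_of_ne hw _ _
  obtain ⟨x, hx⟩ := m.exists_pt h
  exact ⟨x, hx ▸ h, by simpa [pt] using congrFun hx v⟩

variable {m}

lemma val_of_comp {u v : Fin m.k} {x : Sph} (hx : pt m.φ x ∈ comp m.n u) (h : v ≠ u) :
    m.φ v x = m.n v u := hx v h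

lemma mem_comp {v : Fin m.k} {x : Sph} (hx : m.φ v x ∉ m.N v) : pt m.φ x ∈ comp m.n v := by
  obtain ⟨u, hu⟩ := m.exists_comp x
  by_cases h : u = v
  · exact h ▸ hu
  · exact absurd ⟨u, h, (val_of_comp hu (Ne.symm h)).symm⟩ hx

lemma not_node {v : Fin m.k} {x : Sph} (hx : m.φ v x ∉ m.N v) : pt m.φ x ∉ nodes m.n := by
  rintro ⟨u, w, huw, hu, hw⟩
  by_cases h : u = v
  · exact hx ⟨w, fun e => huw (h.trans e.symm), (val_of_comp hw fun e => huw (h.trans e)).symm⟩
  · exact hx ⟨u, h, (val_of_comp hu (Ne.symm h)).symm⟩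

variable (m)

lemma mono (v : Fin m.k) : Mono (m.φ v) (m.N v) := by
  refine ⟨(m.φ v).continuous, fun y => (m.exists_on v y).imp fun _ h => h.2,
    (finite_range (m.n v)).subset fun y ⟨u, _, h⟩ => ⟨u, h⟩, fun x x' e hx => ?_⟩
  exact m.inj (not_node hx) (not_node (e ▸ hx)) (comp_ext (mem_comp hx) (mem_comp (e ▸ hx)) e)

lemma hid (v : Fin m.k) : Hid (m.φ v) := hid_of_homotopic (m.orient v)

variable {m}

lemma val_of_ne {u v : Fin m.k} (h : u ≠ v) {x : Sph} (hx : m.φ v x ≠ m.n v u) :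
    m.φ u x = m.n u v := by
  obtain ⟨y, hy, -⟩ := exists_third (m.n v u) (m.n v u)
  obtain ⟨x₀, h1, h2⟩ := m.exists_on v y
  rw [← val_of_comp h1 h]
  refine const_of_finite ((m.mono v).preimage (isPreconnected_compl_finite (finite_singleton _)))
    (m.φ u).continuous.continuousOn (m.mono u).fin (fun z hz => ?_) hx (by rwa [mem_preimage, h2])
  by_contra hz'
  exact hz (val_of_comp (mem_comp hz') h.symm)

lemma n_of_ne {u u' v : Fin m.k} (h : u ≠ v) (h' : u' ≠ v) (hn : m.n v u' ≠ m.n v u) :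
    m.n u u' = m.n u v := by
  obtain ⟨x, h1, -⟩ := m.exists_on u' ∞
  rw [← val_of_ne h (by rwa [val_of_comp h1 h'.symm]), val_of_comp h1 fun e => hn (by rw [e])]

lemma cut {T : Set (Fin m.k)} {t t' : Fin m.k} (ht : t ∈ T) (ht' : t' ∉ T) :
    ∃ u ∈ T, ∃ u' ∉ T, ∃ y, y ∈ comp m.n u ∧ y ∈ comp m.n u' := by
  have hc : ∀ S : Set (Fin m.k), IsClosed (⋃ u ∈ S, pt m.φ ⁻¹' comp m.n u) := fun S =>
    (toFinite S).isClosed_biUnion fun u _ => (isClosed_comp _ _).preimage m.continuous_pt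
  obtain ⟨x, hx, -⟩ := m.exists_on t ∞
  obtain ⟨x', hx', -⟩ := m.exists_on t' ∞
  obtain ⟨z, -, h1, h2⟩ := isPreconnected_closed_iff.1 isPreconnected_univ _ _ (hc T) (hc Tᶜ)
    (fun z _ => by
      obtain ⟨u, hu⟩ := m.exists_comp z
      by_cases h : u ∈ T
      · exact Or.inl (mem_biUnion h hu)
      · exact Or.inr (mem_biUnion (show u ∈ Tᶜ from h) hu))
    ⟨x, trivial, mem_biUnion ht hx⟩ ⟨x', trivial, mem_biUnion (show t' ∈ Tᶜ from ht') hx'⟩
  obtain ⟨u, hu, h1⟩ := mem_iUnion₂.1 h1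
  obtain ⟨u', hu', h2⟩ := mem_iUnion₂.1 h2
  exact ⟨u, hu, u', hu', _, h1, h2⟩

lemma not_three {u v w : Fin m.k} (h1 : u ≠ v) (h2 : u ≠ w) (h3 : v ≠ w) {y : Fin m.k → Sph}
    (hu : y ∈ comp m.n u) (hv : y ∈ comp m.n v) (hw : y ∈ comp m.n w) : False := by
  have h4 : ({u, v, w} : Set (Fin m.k)).encard = 3 := encard_eq_three.2 ⟨u, v, w, h1, h2, h3, rfl⟩
  have h5 := (encard_le_encard (show ({u, v, w} : Set (Fin m.k)) ⊆ {t | y ∈ comp m.n t} by
    rintro t (rfl | rfl | rfl) <;> assumption)).trans (m.nodal y)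
  rw [h4] at h5
  exact absurd h5 (by decide)

lemma adj {v w : Fin m.k} (hvw : v ≠ w) {y : Fin m.k → Sph} (hv : y ∈ comp m.n v)
    (hw : y ∈ comp m.n w) {t : Fin m.k} (h1 : t ≠ v) (h2 : t ≠ w) (e1 : m.n v t = m.n v w)
    (e2 : m.n w t = m.n w v) : False := by
  obtain ⟨u, ⟨a1, a2, a3, a4⟩, u', hu', z, z1, z2⟩ := cut (m := m)
    (T := {t | t ≠ v ∧ t ≠ w ∧ m.n v t = m.n v w ∧ m.n w t = m.n w v}) ⟨h1, h2, e1, e2⟩
    (t' := v) fun h => h.1 rfl
  by_cases b1 : u' = v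
  · subst b1
    rw [comp_ext z2 hv ((z1 _ a1.symm).trans (a3.trans (hw _ hvw).symm))] at z1
    exact not_three a1 a2 hvw z1 hv hw
  by_cases b2 : u' = w
  · subst b2
    rw [comp_ext z2 hw ((z1 _ a2.symm).trans (a4.trans (hv _ hvw.symm).symm))] at z1
    exact not_three a1 a2 hvw z1 hv hw
  exact hu' ⟨b1, b2, by rw [← z2 v (Ne.symm b1), z1 v a1.symm, a3],
    by rw [← z2 w (Ne.symm b2), z1 w a2.symm, a4]⟩

lemma adj' {v w : Fin m.k} (hvw : v ≠ w) {y : Fin m.k → Sph} (hv : y ∈ comp m.n v)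
    (hw : y ∈ comp m.n w) {x : Sph} (e1 : m.φ v x = m.n v w) (e2 : m.φ w x = m.n w v) :
    pt m.φ x = y := by
  obtain ⟨t, ht⟩ := m.exists_comp x
  by_cases h1 : t = v
  · subst h1; exact comp_ext ht hv (e1.trans (hw _ hvw).symm)
  by_cases h2 : t = w
  · subst h2; exact comp_ext ht hw (e2.trans (hv _ hvw.symm).symm)
  exact (adj hvw hv hw h1 h2 ((val_of_comp ht (Ne.symm h1)).symm.trans e1)
    ((val_of_comp ht (Ne.symm h2)).symm.trans e2)).elim

lemma exists_node {v : Fin m.k} {e : Sph} (he : e ∈ m.N v) :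
    ∃ w, v ≠ w ∧ m.n v w = e ∧ ∃ y, y ∈ comp m.n v ∧ y ∈ comp m.n w := by
  obtain ⟨u, hu, rfl⟩ := he
  obtain ⟨w, ⟨a1, a2⟩, w', hw', y, y1, y2⟩ := cut (m := m)
    (T := {t | t ≠ v ∧ m.n v t = m.n v u}) ⟨hu, rfl⟩ (t' := v) fun h => h.1 rfl
  by_cases h : w' = v
  · exact ⟨w, a1.symm, a2, y, h ▸ y2, y1⟩
  · exact absurd ⟨h, by rw [← y2 v (Ne.symm h), y1 v a1.symm, a2]⟩ hw'

lemma not_node_of_mem {a : Sph} (ha : a ∈ X) : pt m.φ a ∉ nodes m.n := fun h => by
  obtain ⟨γ, -, h1, h2⟩ := m.curve _ h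
  exact disjoint_left.1 h2 (h1 ▸ rfl) ha

lemma exists_not_mem_N {a : Sph} (ha : a ∈ X) : ∃ v, m.φ v a ∉ m.N v := by
  obtain ⟨v, hv⟩ := m.exists_comp a
  refine ⟨v, fun h => ?_⟩
  obtain ⟨w, h1, h2, y, y1, y2⟩ := exists_node h
  refine not_node_of_mem ha ⟨v, w, h1, hv, ?_⟩
  rwa [comp_ext hv y1 (h2.symm.trans (y2 _ h1).symm)]

variable (m)

/-- Three marked points are separated by some component. -/
lemma median {a b c : Sph} (ha : a ∈ X) (hb : b ∈ X) (hc : c ∈ X) (h : D3 a b c) :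
    ∃ v, D3 (m.φ v a) (m.φ v b) (m.φ v c) := by
  by_contra hno
  push Not at hno
  obtain ⟨v₀, hv₀⟩ := exists_not_mem_N (m := m) ha
  obtain ⟨v, ⟨h1, h2⟩, hmin⟩ := exists_min_image {v | m.φ v a ≠ m.φ v b ∧ m.φ v a ≠ m.φ v c}
    (fun v => {t | t ≠ v ∧ m.n v t = m.φ v b}.ncard) (toFinite _)
    ⟨v₀, fun e => h.1 ((m.mono v₀).inj _ _ e hv₀), fun e => h.2.2 ((m.mono v₀).inj _ _ e hv₀)⟩
  have h3 : m.φ v b = m.φ v c := by
    by_contra h3; exact hno v ⟨h1, h3, h2⟩
  obtain ⟨w, a1, a2, y, y1, y2⟩ := exists_node (m := m) (v := v) (e := m.φ v b) (by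
    by_contra h4; exact h.2.1 ((m.mono v).inj _ _ h3 h4))
  have b1 : m.φ w a = m.n w v := val_of_ne a1.symm (a2 ▸ h1)
  have b2 : m.φ w b ≠ m.n w v := fun e =>
    not_node_of_mem hb ⟨v, w, a1, adj' a1 y1 y2 a2.symm e ▸ y1, adj' a1 y1 y2 a2.symm e ▸ y2⟩
  have b3 : m.φ w c ≠ m.n w v := fun e =>
    not_node_of_mem hc ⟨v, w, a1, adj' a1 y1 y2 (h3 ▸ a2.symm) e ▸ y1,
      adj' a1 y1 y2 (h3 ▸ a2.symm) e ▸ y2⟩
  refine absurd (hmin w ⟨b1 ▸ b2.symm, b1 ▸ b3.symm⟩) (not_le.2 (ncard_lt_ncard ⟨?_, fun hs => ?_⟩))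
  · rintro t ⟨t1, t2⟩
    have t3 : m.n w t ≠ m.n w v := t2 ▸ b2
    exact ⟨fun e => t3 (by rw [e]), by rw [← a2]; exact n_of_ne a1 t1 t3⟩
  · exact (hs ⟨a1.symm, a2⟩).1 rfl

lemma not_open_subset_fibre (y : Fin m.k → Sph) {W : Set Sph} (hW : IsOpen W) (hne : W.Nonempty) :
    ¬ W ⊆ pt m.φ ⁻¹' {y} := by
  by_cases hy : y ∈ nodes m.n
  · obtain ⟨γ, h1, h2, -⟩ := m.curve y hy
    exact h2 ▸ not_open_subset_curve h1 hW hne
  · intro hs
    obtain ⟨x, hx⟩ := hne
    obtain ⟨x', hx', h⟩ := (dense_compl_finite (finite_singleton x)).inter_open_nonempty W hW ⟨x, hx⟩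
    exact h (m.inj (by rw [mem_preimage, hs hx']; exact hy) (by rw [mem_preimage, hs hx]; exact hy)
      ((hs hx').trans (hs hx).symm))

end Marking

lemma exists_round (y : Sph) {δ : ℝ} (hδ : 0 < δ) : ∃ μ : Sph ≃ₜ Sph, IsMob μ ∧ μ y ∈ out 1 ∧
    ∀ x, μ x ∈ out 1 → dist x y < δ := by
  obtain ⟨ν, hν, hy⟩ := exists_mob_infty y
  have h0 : ν.symm ∞ = y := by rw [Homeomorph.symm_apply_eq, hy]
  obtain ⟨R, hR, h⟩ := exists_out_subset ((ν.symm.continuous.tendsto' _ _ h0) (ball_mem_nhds y hδ))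
  have hm := isMob_affine (a := (R : ℂ)⁻¹) (inv_ne_zero (Complex.ofReal_ne_zero.2 hR.ne')) 0
  obtain ⟨A, hA⟩ := hm.exists_homeo
  refine ⟨ν.trans A, hν.trans (hA ▸ hm), by simp [hA, hy, infty_mem_out], fun x hx => ?_⟩
  have : ν x ∈ out R := by
    rw [Homeomorph.trans_apply, hA] at hx
    induction h : ν x using OnePoint.rec with
    | infty => exact infty_mem_out R
    | coe z =>
      rw [h, map_some, coe_mem_out, add_zero, norm_mul, norm_inv, Complex.norm_real,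
        Real.norm_of_nonneg hR.le, ← div_eq_inv_mul, one_lt_div hR] at hx
      exact coe_mem_out.2 hx
  simpa using h this

lemma exists_sep {F : Set Sph} (hF : F.Finite) :
    ∃ δ > 0, ∀ y ∈ F, ∀ z ∈ F, y ≠ z → δ ≤ dist y z := by
  obtain ⟨C, hC, h⟩ := hF.relatively_discrete
  obtain ⟨r, h0, h1, h2⟩ := ENNReal.lt_iff_exists_real_btwn.1 hC
  refine ⟨r, ENNReal.ofReal_pos.1 h1, fun y hy z hz hyz => ?_⟩
  have := h2.le.trans (h y hy z hz hyz)
  rwa [edist_dist, ENNReal.ofReal_le_ofReal_iff dist_nonneg] at this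

/-- Homeomorphisms isotopic to the identity are dense. -/
theorem Marking.dense {X : Set Sph} (m : Marking X) {ε : ℝ} (hε : 0 < ε) :
    ∃ h : Sph ≃ₜ Sph, IsoRel ∅ h ∧ ∀ v, ∃ M, IsMob M ∧ ∀ x, dist (M (h x)) (m.φ v x) < ε := by
  classical
  have hF : (⋃ v, m.N v).Finite := finite_iUnion fun v => (m.mono v).fin
  obtain ⟨δ, hδ, hδε, hsep⟩ : ∃ δ > 0, 2 * δ ≤ ε ∧
      ∀ y ∈ ⋃ v, m.N v, ∀ z ∈ ⋃ v, m.N v, y ≠ z → 2 * δ ≤ dist y z := by
    obtain ⟨δ, hδ, h⟩ := exists_sep hF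
    exact ⟨min δ ε / 2, by positivity, by linarith [min_le_right δ ε],
      fun y hy z hz hyz => by linarith [min_le_left δ ε, h y hy z hz hyz]⟩
  choose μ μ1 μ2 μ3 using fun y => exists_round y hδ
  let O : Sph → Set Sph := fun y => μ y ⁻¹' out 1
  have hO : ∀ y, IsOpen (O y) := fun y => (isOpen_out 1).preimage (μ y).continuous
  have hd : ∀ v, ∀ y ∈ m.N v, ∀ z ∈ m.N v, y ≠ z → Disjoint (O y) (O z) := by
    intro v y hy z hz hyz
    refine disjoint_left.2 fun x h1 h2 => ?_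
    have := hsep y (mem_iUnion.2 ⟨v, hy⟩) z (mem_iUnion.2 ⟨v, hz⟩) hyz
    linarith [dist_triangle_left y z x, μ3 y x h1, μ3 z x h2]
  let Fit : (Sph → Sph) → Fin m.k → Prop := fun h u =>
    (∀ x, (∀ y ∈ m.N u, m.φ u x ∉ O y) → h x = m.φ u x) ∧
      ∀ x, ∀ y ∈ m.N u, m.φ u x ∈ O y → h x ∈ O y
  have conv : ∀ h u, Fit h u → ∀ x, ∀ y ∈ m.N u, h x ∈ O y → m.φ u x ∈ O y := by
    intro h u hf x y hy hx
    by_cases h1 : ∀ y ∈ m.N u, m.φ u x ∉ O y
    · rwa [← hf.1 x h1]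
    · push Not at h1
      obtain ⟨z, hz, h1⟩ := h1
      by_contra h2
      exact disjoint_left.1 (hd u y hy z hz fun e => h2 (e ▸ h1)) hx (hf.2 x z hz h1)
  have hB : ∀ v, ∃ h : Sph ≃ₜ Sph, Hid h ∧ Fit h v := fun v =>
    brown (m.mono v).fin O (fun y _ => hO y) (fun y _ => μ2 y) (hd v) _ (m.mono v).cont
      (m.mono v).surj (m.mono v).inj (m.hid v)
  have main : ∀ j, j < m.k → ∃ P : Finset (Fin m.k), P.card = j + 1 ∧
      (∀ u ∈ P, ∀ v ∈ P, ∀ t, t ≠ u → t ≠ v → m.n t u ≠ m.n t v → t ∈ P) ∧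
      ∃ h : Sph ≃ₜ Sph, Hid h ∧ ∀ u ∈ P, ∃ M : Sph ≃ₜ Sph, IsMob M ∧ Fit (M ∘ h) u := by
    intro j
    induction j with
    | zero =>
      intro hk
      obtain ⟨h, h1, h2⟩ := hB ⟨0, hk⟩
      refine ⟨{⟨0, hk⟩}, rfl, fun u hu v hv t _ _ ht => ?_, h, h1, fun u hu => ?_⟩
      · rw [Finset.mem_singleton.1 hu, Finset.mem_singleton.1 hv] at ht; exact absurd rfl ht
      · rw [Finset.mem_singleton.1 hu]; exact ⟨Homeomorph.refl _, isMob_id, h2⟩
    | succ j ih =>
      intro hj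
      obtain ⟨P, p1, p2, h, h1, h2⟩ := ih (by omega)
      obtain ⟨t, ht⟩ : P.Nonempty := Finset.card_pos.1 (by omega)
      obtain ⟨t', ht'⟩ : ∃ t', t' ∉ P := by
        by_contra hc
        push Not at hc
        rw [Finset.eq_univ_of_forall hc, Finset.card_fin] at p1
        omega
      obtain ⟨v, hv, w, hw, y, y1, y2⟩ := Marking.cut (m := m) (T := (P : Set (Fin m.k))) ht ht'
      have hvw : v ≠ w := fun e => hw (e ▸ hv)
      have hsep' : ∀ u ∈ P, u ≠ v → m.n v u ≠ m.n v w := fun u hu huv e => by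
        have huw : u ≠ w := fun e => hw (e ▸ hu)
        refine Marking.adj hvw y1 y2 huv huw e ?_
        by_contra h3
        exact hw (p2 u hu v hv w huw.symm hvw.symm h3)
      obtain ⟨Mv, m1, m2⟩ := h2 v hv
      obtain ⟨hw', w1, w2⟩ := hB w
      have nv : m.n v w ∈ m.N v := ⟨w, hvw.symm, rfl⟩
      have nw : m.n w v ∈ m.N w := ⟨v, hvw, rfl⟩
      obtain ⟨θ', M', c1, c2, c3, c4, -⟩ := annulus ((hw'.symm.trans h).trans Mv)
        ((m1.isoRel.hid.comp h1).comp w1.symm) (μ (m.n w v)) (μ1 _) (hO (m.n v w)) fun x hx => by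
          refine m2.2 (hw'.symm x) _ nv ?_
          rw [Marking.val_of_ne hvw fun e => hx ?_]
          · exact μ2 _
          · have := w2.2 (hw'.symm x) _ nw (by rw [e]; exact μ2 _)
            rwa [Homeomorph.apply_symm_apply] at this
      let h' : Sph ≃ₜ Sph := (hw'.trans θ').trans Mv.symm
      have d1 : ∀ x, Mv (h x) ∉ O (m.n v w) → h' x = h x := fun x hx => by
        simp only [h', Homeomorph.trans_apply]
        rw [c3 _ (by simpa using hx)]; simp
      have d2 : ∀ x, Mv (h x) ∈ O (m.n v w) → ∃ x', Mv (h x') ∈ O (m.n v w) ∧ h x' = h' x := by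
        intro x hx
        refine ⟨h.symm (h' x), ?_, by simp⟩
        by_contra h3
        have := d1 _ h3
        rw [Homeomorph.apply_symm_apply] at this
        rw [h'.injective this] at h3
        exact h3 hx
      refine ⟨insert w P, by rw [Finset.card_insert_of_notMem hw, p1], ?_, h',
        (m1.symm.isoRel.hid.comp c4.hid).comp w1, fun u hu => ?_⟩
      · have key : ∀ u ∈ P, ∀ t, t ≠ u → t ≠ w → m.n t u ≠ m.n t w → t ∈ P := by
          intro u hu t t1 t2 t3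
          by_cases htv : t = v
          · exact htv ▸ hv
          · exact p2 u hu v hv t t1 htv (by rwa [← y1 t htv, y2 t t2])
        intro u hu u' hu' t t1 t2 t3
        apply Finset.mem_insert_of_mem
        rcases Finset.mem_insert.1 hu with a1 | a1 <;> rcases Finset.mem_insert.1 hu' with a2 | a2
        · exact absurd (by rw [a1, a2]) t3
        · exact key u' a2 t t2 (a1 ▸ t1) (a1 ▸ t3.symm)
        · exact key u a1 t t1 (a2 ▸ t2) (a2 ▸ t3)
        · exact p2 u a1 u' a2 t t1 t2 t3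
      rcases Finset.mem_insert.1 hu with rfl | hu
      · refine ⟨Mv.trans M'.symm, m1.trans c1.symm, ?_⟩
        have d3 : ∀ x, hw' x ∉ O (m.n u v) → (Mv.trans M'.symm ∘ h') x = hw' x := fun x hx => by
          simp [h', c2 _ hx]
        constructor
        · intro x hx
          rw [d3 x fun h3 => hx _ nw (conv _ _ w2 x _ nw h3), w2.1 x hx]
        · intro x z hz hx
          by_cases h3 : hw' x ∈ O (m.n u v)
          · have h4 : z = m.n u v := by
              by_contra h4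
              exact disjoint_left.1 (hd u z hz _ nw h4) (w2.2 x z hz hx) h3
            rw [h4]
            by_contra h5
            have h6 := d3 (hw'.symm ((Mv.trans M'.symm ∘ h') x)) (by simpa using h5)
            rw [Homeomorph.apply_symm_apply] at h6
            have h7 := h'.injective ((Mv.trans M'.symm).injective h6)
            rw [Homeomorph.symm_apply_eq] at h7
            exact h5 (h7 ▸ h3)
          · rw [d3 x h3]; exact w2.2 x z hz hx
      obtain ⟨M, n1, n2⟩ := h2 u hu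
      obtain ⟨e, he, hX⟩ : ∃ e ∈ m.N u, ∀ x, Mv (h x) ∈ O (m.n v w) → m.φ u x ∈ O e := by
        by_cases huv : u = v
        · subst huv
          exact ⟨_, nv, fun x hx => conv _ _ m2 x _ nv hx⟩
        · refine ⟨m.n u v, ⟨v, Ne.symm huv, rfl⟩, fun x hx => ?_⟩
          rw [Marking.val_of_ne huv fun e => ?_]
          · exact μ2 _
          · exact disjoint_left.1 (hd v _ ⟨u, huv, rfl⟩ _ nv (hsep' u hu huv))
              (by rw [← e]; exact e ▸ μ2 _) (conv _ _ m2 x _ nv hx)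
      refine ⟨M, n1, fun x hx => ?_, fun x z hz hx => ?_⟩
      · rw [Function.comp, d1 x fun h3 => hx e he (hX x h3)]
        exact n2.1 x hx
      · by_cases h3 : Mv (h x) ∈ O (m.n v w)
        · obtain ⟨x', a1, a2⟩ := d2 x h3
          have h4 : z = e := by
            by_contra h4
            exact disjoint_left.1 (hd u z hz e he h4) hx (hX x h3)
          rw [Function.comp, ← a2, h4]
          exact n2.2 x' e he (hX x' a1)
        · rw [Function.comp, d1 x h3]; exact n2.2 x z hz hx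
  obtain ⟨v₀, -⟩ := m.exists_comp ∞
  obtain ⟨P, p1, -, h, h1, h2⟩ := main (m.k - 1) (by have := v₀.2; omega)
  have hP : P = Finset.univ := Finset.eq_univ_of_card P (by
    rw [p1, Fintype.card_fin]; have := v₀.2; omega)
  refine ⟨h, h1.isoRel, fun v => ?_⟩
  obtain ⟨M, m1, m2⟩ := h2 v (hP ▸ Finset.mem_univ v)
  refine ⟨M, m1, fun x => ?_⟩
  by_cases hx : ∀ y ∈ m.N v, m.φ v x ∉ O y
  · have := m2.1 x hx
    rw [Function.comp] at this
    rw [this, dist_self]; exact hε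
  · push Not at hx
    obtain ⟨y, hy, hx⟩ := hx
    have := μ3 y _ (m2.2 x y hy hx)
    rw [Function.comp] at this
    linarith [dist_triangle_right (M (h x)) (m.φ v x) y, μ3 y _ hx]

end

end Pool.Agent.Lib.MP_21db80_an
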