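import Pool.Agent.Lib.MP_21db80_an.Quad
import Pool.Agent.Lib.MP_21db80_an.Tree

/-!
Convergence of lifts near a boundary point.
-/

namespace Pool.Agent.Lib.MP_21db80_an

open OnePoint Set Topology Function Filter Metric

noncomputable section

lemma Mono.precomp {k : Sph → Sph} {N : Set Sph} (h : Mono k N) (M : Sph ≃ₜ Sph) :
    Mono (k ∘ M) N :=
  ⟨h.cont.comp M.continuous, h.surj.comp M.surjective, h.fin, fun _ _ e hx =>
    M.injective (h.inj _ _ e hx)⟩

lemma Mono.eq_on_fibre {k : Sph → Sph} {N : Set Sph} (h : Mono k N) {g g' : Sph → Sph}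
    (hg : Continuous g) (hg' : Continuous g') {F : Set Sph} (hF : F.Finite)
    (he : ∀ x, k x ∉ F → g x = g' x) {y : Sph} {F' : Set Sph} (hF' : F'.Finite)
    (h1 : ∀ x, k x = y → g x ∈ F') (h2 : ∀ x x', k x = y → k x' = y → g' x = g' x') {x : Sph}
    (hx : k x = y) : g x = g' x := by
  obtain ⟨x', a1, a2⟩ := h.exists_eq hg hg' hF he y
  rw [const_of_finite (h.fibre y) hg.continuousOn hF' h1 hx a1, a2, h2 x' x a1 hx]

/-- Lifts of approximations of `P` approximate `k` up to Moebius maps. -/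
def Conv (k P : Sph → Sph) : Prop := ∀ η > 0, ∃ ε > 0, ∀ (t : Sph ≃ₜ Sph) (n : Sph → Sph),
  IsMob n → (∀ x, t (ngS x) = ngS (t x)) → t ∞ = ∞ → t o0 = o0 →
    (∀ x, dist (n (sqS (t x))) (P (sqS x)) < ε) → ∃ M, IsMob M ∧ ∀ x, dist (M (t x)) (k x) < η

lemma Conv.of_comp {k P : Sph → Sph} {A B : Sph ≃ₜ Sph} (hA : IsMob A) (hB : IsMob B)
    (h : Conv (A ∘ k) (B ∘ P)) : Conv k P := by
  intro η hη
  obtain ⟨η', h1, h2⟩ := unif_cont A.symm.continuous hη
  obtain ⟨ε', h3, h4⟩ := h η' h1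
  obtain ⟨ε, h5, h6⟩ := unif_cont B.continuous h3
  refine ⟨ε, h5, fun t n a1 a2 a3 a4 a5 => ?_⟩
  obtain ⟨M, m1, m2⟩ := h4 t (B ∘ n) (hB.comp a1) a2 a3 a4 fun x => h6 _ _ (a5 x)
  exact ⟨A.symm ∘ M, hA.symm.comp m1, fun x => by simpa using h2 _ _ (m2 x)⟩

lemma isOpenMap_sqS : IsOpenMap sqS := fun U hU => by
  rw [← (continuous_sqS.isClosedMap.isQuotientMap continuous_sqS sqS_surj).isOpen_preimage]
  convert hU.union (hU.preimage ngS.continuous) using 1
  ext x
  constructor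
  · rintro ⟨y, hy, e⟩
    rcases sqS_eq_iff.1 e with rfl | rfl
    · exact Or.inl hy
    · exact Or.inr hy
  · rintro (h | h)
    · exact ⟨x, h, rfl⟩
    · exact ⟨_, h, sqS_ngS x⟩

lemma sq_unif {η : ℝ} (hη : 0 < η) : ∃ ε > 0, ∀ a b : Sph, dist (sqS a) (sqS b) < ε →
    dist a b < η ∨ dist (ngS a) b < η := by
  obtain ⟨ε, hε, h⟩ := lebesgue_number_lemma_of_metric (s := univ) isCompact_univ
    (c := fun w : Sph => sqS '' (ball w (η / 2) ∩ ngS ⁻¹' ball (ngS w) (η / 2)))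
    (fun w => isOpenMap_sqS _ (isOpen_ball.inter (isOpen_ball.preimage ngS.continuous)))
    fun y _ => by
      obtain ⟨w, rfl⟩ := sqS_surj y
      exact mem_iUnion.2 ⟨w, w, ⟨mem_ball_self (half_pos hη),
        mem_preimage.2 (mem_ball_self (half_pos hη))⟩, rfl⟩
  refine ⟨ε, hε, fun a b hd => ?_⟩
  obtain ⟨w, hw⟩ := h (sqS b) trivial
  obtain ⟨u, ⟨u1, u2⟩, e⟩ := hw hd
  obtain ⟨v, ⟨v1, v2⟩, e'⟩ := hw (mem_ball_self hε)
  rw [mem_preimage, mem_ball] at u2 v2
  rw [mem_ball] at u1 v1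
  rcases sqS_eq_iff.1 e with rfl | rfl <;> rcases sqS_eq_iff.1 e'.symm with rfl | rfl
  · left; linarith [dist_triangle_right u b w]
  · right; linarith [dist_triangle_right (ngS u) (ngS v) (ngS w)]
  · right; linarith [dist_triangle_right (ngS a) b w]
  · left; rw [ngS_ngS] at u2; linarith [dist_triangle_right a (ngS v) (ngS w)]

lemma sq_close {k : Sph → Sph} {N : Set Sph} (hk : Mono k N) {η : ℝ} (hη : 0 < η) :
    ∃ ε > 0, ∀ T : Sph → Sph, Continuous T → (∀ x, dist (sqS (T x)) (sqS (k x)) < ε) →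
      (∀ x, dist (T x) (k x) < η) ∨ ∀ x, dist (ngS (T x)) (k x) < η := by
  have hc : Continuous fun y => dist y (ngS y) := by fun_prop
  obtain ⟨R, hR, hR'⟩ := exists_out_subset (hc.continuousAt.eventually_lt
    (continuousAt_const (y := η / 3)) (x₀ := ∞) (by simpa using hη))
  obtain ⟨r, hr, hr'⟩ := Metric.eventually_nhds_iff.1 ((hc.comp continuous_coe).continuousAt.eventually_lt
    (continuousAt_const (y := η / 3)) (x₀ := 0) (by simpa using hη))
  let W : Set ℂ := {z | r ≤ ‖z‖ ∧ ‖z‖ ≤ R}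
  have hW : IsCompact W := (isCompact_closedBall (0 : ℂ) R).of_isClosed_subset
    ((isClosed_le continuous_const continuous_norm).inter
      (isClosed_le continuous_norm continuous_const)) fun z hz => by simpa using hz.2
  have hWc : IsPreconnected W := by
    have : W = Complex.exp '' {w | Real.log r ≤ w.re ∧ w.re ≤ Real.log R} := by
      ext z
      constructor
      · intro hz
        have h0 : 0 < ‖z‖ := hr.trans_le hz.1
        exact ⟨Complex.log z, ⟨by rw [Complex.log_re]; exact Real.log_le_log hr hz.1,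
          by rw [Complex.log_re]; exact Real.log_le_log h0 hz.2⟩,
          Complex.exp_log (norm_pos_iff.1 h0)⟩
      · rintro ⟨w, hw, rfl⟩
        simp only [W, mem_ofPred_eq, Complex.norm_exp]
        exact ⟨(Real.log_le_iff_le_exp hr).1 hw.1, (Real.le_log_iff_exp_le hR).1 hw.2⟩
    rw [this]
    exact ((convex_halfSpace_re_ge _).inter (convex_halfSpace_re_le _)).isPreconnected.image _
      Complex.continuous_exp.continuousOn
  obtain ⟨m, hm, hm'⟩ := hW.exists_forall_le' (hc.comp continuous_coe).continuousOn (a := 0)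
    fun z hz => dist_pos.2 fun e => by
      rcases ngS_eq_self.1 e.symm with h | h
      · have := hz.1; rw [coe_injective h, norm_zero] at this; linarith
      · exact coe_ne_infty _ h
  obtain ⟨δ, hδ, hδ'⟩ := unif_cont ngS.continuous (η := min (η / 3) (m / 2)) (by positivity)
  obtain ⟨ε, hε, hε'⟩ := sq_unif (η := min δ (min (η / 3) (m / 2))) (by positivity)
  refine ⟨ε, hε, fun T hT hd => ?_⟩
  have h1 : ∀ x, (dist (T x) (k x) < min (η / 3) (m / 2) ∧
      dist (ngS (T x)) (ngS (k x)) < min (η / 3) (m / 2)) ∨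
      (dist (ngS (T x)) (k x) < min (η / 3) (m / 2) ∧
        dist (T x) (ngS (k x)) < min (η / 3) (m / 2)) := fun x =>
    (hε' _ _ (hd x)).imp (fun h => ⟨(lt_min_iff.1 h).2, hδ' _ _ (lt_min_iff.1 h).1⟩)
      fun h => ⟨(lt_min_iff.1 h).2, by simpa using hδ' _ _ (lt_min_iff.1 h).1⟩
  simp only [lt_min_iff] at h1
  have h2 : ∀ x, x ∉ k ⁻¹' ((fun z : ℂ => (z : Sph)) '' W) →
      dist (T x) (k x) < η ∧ dist (ngS (T x)) (k x) < η := by
    intro x hx
    have a1 : dist (k x) (ngS (k x)) < η / 3 := by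
      induction h : k x using OnePoint.rec with
      | infty => simpa using hη
      | coe z =>
        by_cases a : r ≤ ‖z‖
        · exact hR' (coe_mem_out.2 (not_le.1 fun b => hx ⟨z, ⟨a, b⟩, h.symm⟩))
        · exact hr' (by simpa using not_le.1 a)
    rcases h1 x with a | a
    · exact ⟨by linarith, by linarith [dist_triangle_right (ngS (T x)) (k x) (ngS (k x))]⟩
    · exact ⟨by linarith [dist_triangle_right (T x) (k x) (ngS (k x))], by linarith⟩
  have h3 : ∀ x ∈ k ⁻¹' ((fun z : ℂ => (z : Sph)) '' W), m ≤ dist (k x) (ngS (k x)) := by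
    rintro x ⟨z, hz, e⟩; rw [← e]; exact hm' z hz
  rcases (hk.preimage (hWc.image _ continuous_coe.continuousOn)).mapsTo_Ioi_or_Iio
    (f := fun x => dist (T x) (k x)) (b := m / 2) (hT.dist hk.cont).continuousOn (fun x hx => by
      rcases h1 x with a | a
      · exact a.1.2.ne
      · exact ne_of_gt (by linarith [dist_triangle_left (k x) (ngS (k x)) (T x), h3 x hx])) with h | h
  · refine Or.inr fun x => ?_
    by_cases hx : x ∈ k ⁻¹' ((fun z : ℂ => (z : Sph)) '' W)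
    · rcases h1 x with a | a
      · exact absurd (h hx) (not_lt.2 a.1.2.le)
      · linarith
    · exact (h2 x hx).2
  · refine Or.inl fun x => ?_
    by_cases hx : x ∈ k ⁻¹' ((fun z : ℂ => (z : Sph)) '' W)
    · rcases h1 x with a | a
      · linarith
      · have := mem_Iio.1 (h hx)
        linarith [dist_triangle_left (k x) (ngS (k x)) (T x), h3 x hx]
    · exact (h2 x hx).1

lemma conv_sep {k P : Sph → Sph} {N : Set Sph} (hk : Mono k N) (e : ∀ x, P (sqS x) = sqS (k x))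
    (hi : k ∞ = ∞) (h0 : k o0 = o0) : Conv k P := by
  intro η hη
  obtain ⟨ε₁, h1, h2⟩ := sq_close hk hη
  obtain ⟨ε, h3, h4⟩ := nrm_close d3_std h1
  refine ⟨ε, h3, fun t n a1 a2 a3 a4 a5 => ?_⟩
  have b0 := a5 o0
  have bi := a5 ∞
  rw [a4, e, h0, sqS_o0] at b0
  rw [a3, e, hi, sqS_infty] at bi
  have b1 := fun x => h4 (n o0) o1 (n ∞) _ _ b0 (by simpa using h3) bi (a5 x)
  obtain ⟨a, b, ha, hA⟩ := ((isMob_nrm (b1 ∞).1).comp a1).affine (nrm_trd _ _ _)
  have hb : b = 0 := by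
    have := hA 0
    rw [Function.comp, nrm_fst (b1 ∞).1] at this
    simpa using (coe_injective this).symm
  obtain ⟨s, hs⟩ := IsAlgClosed.exists_pow_nat_eq a two_pos
  have hs0 : s ≠ 0 := by rintro rfl; exact ha (by simpa using hs.symm)
  have hM := isMob_affine hs0 0
  have b2 : ∀ y, sqS (OnePoint.map (fun z => s * z + 0) y) = nrm (n o0) o1 (n ∞) (n (sqS y)) := by
    intro y
    induction y using OnePoint.rec with
    | infty => exact (nrm_trd _ _ _).symm
    | coe z =>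
      have := hA (z ^ 2)
      rw [Function.comp] at this
      rw [sqS_coe, this, map_some, sqS_coe, hb, ← hs]; congr 1; ring
  rcases h2 _ (hM.continuous.comp t.continuous) (fun x => by
    have := (b1 x).2
    rwa [nrm_std, e, ← b2] at this) with h | h
  · exact ⟨_, hM, h⟩
  · exact ⟨_, isMob_ngS.comp hM, h⟩

lemma conv_same {k P : Sph → Sph} {N : Set Sph} (hk : Mono k N) (e : ∀ x, P (sqS x) = sqS (k x))
    (e' : ∀ x, k (ngS x) = ngS (k x)) (hi : k ∞ = ∞) (h0 : k o0 = ∞) : Conv k P := by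
  intro η _
  obtain ⟨ε₁, h1, h2⟩ := Metric.mem_nhds_iff.1 (out_mem_nhds 1)
  obtain ⟨ε₂, h3, h4⟩ := plane_close 0 one_pos
  refine ⟨min ε₁ ε₂, lt_min h1 h3, fun t n a1 a2 a3 a4 a5 => ?_⟩
  exfalso
  obtain ⟨n, rfl⟩ := a1.exists_homeo
  have b0 := a5 o0
  have bi := a5 ∞
  rw [a4, e, h0, sqS_o0] at b0
  rw [a3, e, hi, sqS_infty] at bi
  have c0' := h2 (lt_min_iff.1 b0).1
  have ci' := h2 (lt_min_iff.1 bi).1
  have n1 : ∀ z ∈ ball (0 : ℂ) 1, n.symm z ≠ o0 ∧ n.symm z ≠ ∞ := fun z hz => by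
    rw [mem_ball_zero_iff] at hz
    constructor <;> intro h <;> rw [Homeomorph.symm_apply_eq] at h
    · rw [← h, coe_mem_out] at c0'; linarith
    · rw [← h, coe_mem_out] at ci'; linarith
  have hsc : IsSimplyConnected (ball (0 : ℂ) 1) := by
    have := (convex_ball (0 : ℂ) 1).contractibleSpace (nonempty_ball.2 one_pos)
    exact SimplyConnectedSpace.ofContractible _
  obtain ⟨s, s1, s2⟩ := Complex.exists_continuousOn_pow_eq hsc isOpen_ball
    (g := fun z => c0 (n.symm z)) (fun z hz => ((continuousAt_c0 (n1 z hz).2).comp_of_eq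
      (n.symm.continuous.comp continuous_coe).continuousAt rfl).continuousWithinAt) (by
        rintro ⟨z, hz, h⟩
        exact (n1 z hz).1 (by rw [← coe_c0 (n1 z hz).2]; exact congrArg _ h)) two_ne_zero
  have d1 : ∀ x ∈ k ⁻¹' {o0}, ∃ z ∈ ball (0 : ℂ) 1, n (sqS (t x)) = z := fun x hx => by
    have := (lt_min_iff.1 (a5 x)).2
    rw [e, hx, sqS_o0] at this
    obtain ⟨z, b1, b2⟩ := h4 0 _ (by simp) this
    exact ⟨z, by simpa using b2, b1⟩
  let b : Sph → Sph := fun x => (s (c0 (n (sqS (t x)))) : Sph)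
  have d2 : ContinuousOn b (k ⁻¹' {o0}) := by
    refine continuous_coe.comp_continuousOn (s1.comp (fun x hx => ?_) fun x hx => ?_)
    · obtain ⟨z, -, h⟩ := d1 x hx
      exact ((continuousAt_c0 (x := n (sqS (t x))) (h ▸ coe_ne_infty z)).comp_of_eq (n.continuous.comp
        (continuous_sqS.comp t.continuous)).continuousAt rfl).continuousWithinAt
    · obtain ⟨z, hz, h⟩ := d1 x hx
      rwa [h]
  have d3 : ∀ x ∈ k ⁻¹' {o0}, sqS (t x) = sqS (b x) := fun x hx => by
    obtain ⟨z, hz, h⟩ := d1 x hx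
    simp only [b]
    rw [sqS_coe, s2, h, c0_coe, coe_c0 (n1 z hz).2, ← h]; simp
  have d4 : ∀ x ∈ k ⁻¹' {o0}, t x ≠ o0 ∧ t x ≠ ∞ := fun x hx =>
    ⟨fun h => o0_ne_infty (by rw [t.injective (h.trans a4.symm)] at hx; exact hx.symm.trans h0),
      fun h => o0_ne_infty (by rw [t.injective (h.trans a3.symm)] at hx; exact hx.symm.trans hi)⟩
  obtain ⟨x₀, hx₀⟩ := hk.surj o0
  have hx₁ : ngS x₀ ∈ k ⁻¹' {o0} := by rw [mem_preimage, e', hx₀]; simp
  have d5 : b (ngS x₀) = b x₀ := by simp only [b, a2, sqS_ngS]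
  have d6 : t (ngS x₀) = t x₀ := by
    rcases sqS_eq_iff.1 (d3 x₀ hx₀) with h | h
    · have := sq_path (hk.fibre o0) t.continuous.continuousOn d2 d3 (fun x hx => (d4 x hx).1)
        (fun x hx => (d4 x hx).2) hx₀ h
      rw [this _ hx₁, d5, h]
    · have := sq_path (hk.fibre o0) t.continuous.continuousOn
        (ngS.continuous.comp_continuousOn d2) (fun x hx => by simpa using d3 x hx)
        (fun x hx => (d4 x hx).1) (fun x hx => (d4 x hx).2) hx₀ h
      rw [this _ hx₁, Function.comp, d5, h]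
  rw [a2] at d6
  exact (ngS_eq_self.1 d6).elim (d4 x₀ hx₀).1 (d4 x₀ hx₀).2

lemma ngS_invS (x : Sph) : ngS (invS x) = invS (ngS x) := by
  induction x using OnePoint.rec with
  | infty => simp [invS_infty]
  | coe z =>
    rw [ngS_coe, ← pr_one_right, ← pr_one_right (-z), invS_pr (by simp), invS_pr (by simp)]
    by_cases hz : z = 0
    · simp [hz]
    · simp [pr_of_ne hz, pr_of_ne (neg_ne_zero.2 hz)]

lemma conv_two {k P : Sph → Sph} {N N' : Set Sph} (hk : Mono k N) (hP : Mono P N')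
    (e : ∀ x, k x ∉ N → P (sqS x) = sqS (k x)) : Conv k P := by
  let F : Set Sph := N ∪ ngS ⁻¹' N ∪ sqS ⁻¹' (N' ∪ {o0, ∞})
  have hF : F.Finite := (hk.fin.union (hk.fin.preimage ngS.injective.injOn)).union
    ((hP.fin.union (toFinite _)).preimage' fun y _ => by
      obtain ⟨x, rfl⟩ := sqS_surj y
      exact (toFinite {x, ngS x}).subset fun z hz => sqS_eq_iff.1 hz)
  have F1 : ∀ y, y ∉ F → ngS y ∉ F := fun y hy => by
    simp only [F, mem_union, mem_preimage, ngS_ngS, sqS_ngS] at hy ⊢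
    tauto
  have e1 : ∀ x, k x ∉ F → k (ngS x) = ngS (k x) := fun x hx => by
    obtain ⟨x', hx'⟩ := hk.surj (ngS (k x))
    simp only [F, mem_union, mem_preimage, not_or] at hx
    have a1 : P (sqS x') = P (sqS x) := by
      rw [e x hx.1.1, e x' (hx' ▸ hx.1.2), hx', sqS_ngS]
    rcases sqS_eq_iff.1 (hP.inj _ _ a1.symm (e x hx.1.1 ▸ hx.2.1)).symm with h | h
    · rw [h] at hx'
      rcases ngS_eq_self.1 hx'.symm with h | h <;> simp [h] at hx
    · rw [← h, hx']
  have e2 : ∀ x, k (ngS x) = ngS (k x) := fun x => by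
    by_cases hx : k x ∈ F
    · refine hk.eq_on_fibre (hk.cont.comp ngS.continuous) (ngS.continuous.comp hk.cont) hF e1 hF
        (fun z hz => ?_) (fun z z' h h' => by simp [h, h']) rfl
      by_contra h
      have := e1 _ h
      rw [ngS_ngS] at this
      exact F1 _ h (this ▸ hz ▸ hx)
    · exact e1 x hx
  have e3 : ∀ x, P (sqS x) = sqS (k x) := fun x => by
    by_cases hx : k x ∈ F
    · refine hk.eq_on_fibre (hP.cont.comp continuous_sqS) (continuous_sqS.comp hk.cont) hk.fin e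
        (hP.fin.union (hF.image sqS)) (fun z hz => ?_) (fun z z' h h' => by simp [h, h']) rfl
      by_contra h
      obtain ⟨s, hs⟩ := sqS_surj (P (sqS z))
      obtain ⟨x', rfl⟩ := hk.surj s
      have a1 : k x' ∉ F := fun h' => h (Or.inr ⟨_, h', hs⟩)
      rw [← e x' fun h' => a1 (Or.inl (Or.inl h'))] at hs
      rcases sqS_eq_iff.1 (hP.inj _ _ hs.symm fun h' => h (Or.inl h')) with h' | h'
      · exact a1 (h' ▸ hz ▸ hx)
      · exact F1 _ a1 (e2 x' ▸ h' ▸ hz ▸ hx)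
    · exact e x fun h => hx (Or.inl (Or.inl h))
  have hi := ngS_eq_self.1 (e2 ∞).symm
  have h0 := ngS_eq_self.1 (by simpa using (e2 o0).symm : ngS (k o0) = k o0)
  have e4 : ∀ x, (invS ∘ P) (sqS x) = sqS ((invS ∘ k) x) := fun x => by simp [e3, sqS_invS]
  rcases hi with hi | hi <;> rcases h0 with h0 | h0
  · exact .of_comp isMob_invS isMob_invS (conv_same (hk.comp_homeo invS) e4
      (fun x => by simp [e2, ngS_invS]) (by simp [hi, invS_o0]) (by simp [h0, invS_o0]))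
  · exact .of_comp isMob_invS isMob_invS (conv_sep (hk.comp_homeo invS) e4
      (by simp [hi, invS_o0]) (by simp [h0, invS_infty]))
  · exact conv_sep hk e3 hi h0
  · exact conv_same hk e3 e2 hi h0

lemma jouk {R δ : ℝ} (hδ : 0 < δ) : ∃ θ > 0, ∀ a b d m y y' : ℂ, ‖a‖ < θ → ‖b‖ < θ → ‖d‖ < θ →
    ‖m‖ ≤ R → ‖y‖ ≤ R → ‖y'‖ ≤ R →
    y - d * y' = m * (1 + (b - a) * m / 4) * (y' - b * y) * (1 - d * a) → ‖y - m * y'‖ < δ := by
  let E : (ℂ × ℂ × ℂ) × ℂ × ℂ × ℂ → ℂ := fun p => p.2.1 * (1 + (p.1.2.1 - p.1.1) * p.2.1 / 4) *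
    (p.2.2.2 - p.1.2.1 * p.2.2.1) * (1 - p.1.2.2 * p.1.1) + p.1.2.2 * p.2.2.2 - p.2.1 * p.2.2.2
  have hE : Continuous fun p => ‖E p‖ := by fun_prop
  have := (isCompact_closedBall (0 : ℂ × ℂ × ℂ) R).eventually_forall_of_forall_eventually
    (x₀ := (0 : ℂ × ℂ × ℂ)) (P := fun p q => ‖E (p, q)‖ < δ) fun q _ =>
      hE.continuousAt.eventually_lt continuousAt_const (by simpa [E] using hδ)
  obtain ⟨θ, hθ, h⟩ := Metric.eventually_nhds_iff.1 this
  refine ⟨θ, hθ, fun a b d m y y' h1 h2 h3 h4 h5 h6 e => ?_⟩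
  have := h (y := (a, b, d)) (by simp [Prod.norm_def, h1, h2, h3]) (m, y, y')
    (by simp [Prod.norm_def, h4, h5, h6])
  simp only [E] at this
  rwa [← e, show y - d * y' + d * y' - m * y' = y - m * y' by ring] at this

lemma pr_eq_coe' {w : ℂ × ℂ} {z : ℂ} (h : pr w = z) : w.1 = z * w.2 := by
  by_cases hw : w = 0
  · simp [hw]
  · exact (pr_eq_coe_iff hw).1 h

lemma jouk_id {n : Sph → Sph} (hn : IsMob n) {a b d s₀ s : ℂ} {v : ℂ × ℂ} (hv : v ≠ 0)
    (ea : pr (1, a) = n o0) (eb : pr (1, b) = n ∞) (ed : n (sqS s₀) = d) (hs : s₀ ≠ 0)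
    (hab : b - a ≠ 0) (ev : pr v = n (sqS s)) {m : ℂ} (hm : m = 2 / (s₀ * (b - a)) * s + -2 / (b - a)) :
    v.1 - d * v.2 = m * (1 + (b - a) * m / 4) * (v.2 - b * v.1) * (1 - d * a) := by
  have h1 := nrm_mob hn (a := o0) (b := sqS s₀) (c := ∞)
    ⟨fun h => hs (coe_injective (sqS_eq_zero h.symm)), coe_ne_infty _, o0_ne_infty⟩ (sqS s)
  have h2 : nrm o0 (sqS s₀) ∞ (sqS s) = ((s ^ 2 / s₀ ^ 2 : ℂ) : Sph) := by
    simp only [nrm, sqS_coe, lft_coe, lft_infty, dt]
    rw [pr_of_ne (by simpa using hs)]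
    congr 1; field_simp; ring
  rw [h2, ← ea, ← eb, ed, ← ev, ← pr_one_right d,
    nrm_pr (by simp) (by simp) (by simp) hv] at h1
  have h3 := pr_eq_coe' h1
  have h4 : s ^ 2 / s₀ ^ 2 = 1 + (b - a) * (m * (1 + (b - a) * m / 4)) := by
    rw [hm]; field_simp; ring
  rw [h4] at h3
  simp only [dt] at h3
  exact mul_left_cancel₀ hab (by linear_combination h3)

lemma conv_one_aux {k P : Sph → Sph} {N : Set Sph} (hk : Mono k N)
    (eA : ∀ x, k x ≠ ∞ → P (sqS x) = k x) (eB : ∀ x, k x = ∞ → k (ngS x) = ∞ → P (sqS x) = ∞)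
    (hi : k ∞ = ∞) (h0 : k o0 = ∞) : Conv k P := by
  intro η hη
  obtain ⟨R, hR, δ, hδ, c1, c2⟩ := sph_close hη
  obtain ⟨δ', p0, p1, p3⟩ : ∃ δ' > 0, δ' ≤ δ / 2 ∧ δ' * (R + 1 / 2) ≤ 1 / 2 :=
    ⟨min (δ / 2) (1 / 2 / (R + 1 / 2)), by positivity, min_le_left _ _,
      (le_div_iff₀ (by positivity)).1 (min_le_right _ _)⟩
  have p5 : δ' ≤ 1 := by nlinarith
  obtain ⟨θ₀, hθ₀, hJ⟩ := jouk (R := R + 3) p0
  obtain ⟨θ, q0, q1, q2⟩ : ∃ θ > 0, θ ≤ θ₀ ∧ θ * (R + 3) ≤ 1 :=
    ⟨min θ₀ (1 / (R + 3)), by positivity, min_le_left _ _,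
      (le_div_iff₀ (by positivity)).1 (min_le_right _ _)⟩
  obtain ⟨ε₁, h1, h2⟩ := Metric.eventually_nhds_iff.1
    (((continuousAt_ci o0_ne_infty.symm).norm.eventually_lt continuousAt_const
      (by simpa using q0)).and (isOpen_ne.mem_nhds o0_ne_infty.symm))
  obtain ⟨ε₂, h3, h4⟩ := plane_close (R + 1) (δ := min θ (min (δ / 2) (1 / 2))) (by positivity)
  refine ⟨min ε₁ ε₂, lt_min h1 h3, fun t n a1 a2 a3 a4 a5 => ?_⟩
  simp only [lt_min_iff] at a5 h4
  have b0 := (a5 o0).1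
  have bi := (a5 ∞).1
  rw [a4, eB _ h0 (by simpa using h0), sqS_o0] at b0
  rw [a3, eB _ hi hi, sqS_infty] at bi
  obtain ⟨na, na'⟩ := h2 b0
  obtain ⟨nb, nb'⟩ := h2 bi
  have ea := pr_one_ci na'
  have eb := pr_one_ci nb'
  generalize ci (n o0) = a at na ea
  generalize ci (n ∞) = b at nb eb
  have hab : b - a ≠ 0 := sub_ne_zero.2 fun h => o0_ne_infty (a1.injective (by rw [← ea, ← eb, h]))
  have fin : ∀ x, k x ≠ ∞ → t x ≠ ∞ := fun x hx h =>
    hx (by rw [t.injective (h.trans a3.symm), hi])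
  obtain ⟨x₀, hx₀⟩ := hk.surj o0
  have e0 := coe_c0 (fin x₀ (hx₀ ▸ o0_ne_infty))
  generalize c0 (t x₀) = s₀ at e0
  have hs₀ : s₀ ≠ 0 := fun h => o0_ne_infty (by
    rw [h] at e0; rw [t.injective (e0.symm.trans a4.symm)] at hx₀; exact hx₀.symm.trans h0)
  obtain ⟨d, ed, nd, -⟩ := h4 0 (n (sqS (t x₀))) (by simp; linarith) (by
    have := (a5 x₀).2
    rwa [eA x₀ (hx₀ ▸ o0_ne_infty), hx₀] at this)
  rw [sub_zero] at nd
  rw [← e0] at ed
  let mf : ℂ → ℂ := fun s => 2 / (s₀ * (b - a)) * s + -2 / (b - a)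
  have key : ∀ (s : ℂ) (v : ℂ × ℂ), v ≠ 0 → pr v = n (sqS s) → ‖mf s‖ ≤ R + 3 → ‖v.1‖ ≤ R + 3 →
      ‖v.2‖ ≤ R + 3 → ‖v.1 - mf s * v.2‖ < δ' := fun s v hv ev d1 d2 d3 =>
    hJ a b d _ _ _ (by linarith) (by linarith) (by linarith) d1 d2 d3
      (jouk_id a1 hv ea eb ed hs₀ hab ev rfl)
  let K := k ⁻¹' ((fun z : ℂ => (z : Sph)) '' closedBall 0 (R + 1))
  have hK : IsPreconnected K :=
    hk.preimage ((convex_closedBall _ _).isPreconnected.image _ continuous_coe.continuousOn)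
  have kK : ∀ x ∈ K, k x ≠ ∞ := by
    rintro x ⟨z, -, e⟩; rw [← e]; exact coe_ne_infty z
  have k1 : ∀ x ∈ K, ‖mf (c0 (t x))‖ ≤ R + 3 → ∃ z : ℂ, k x = z ∧ ‖z‖ ≤ R + 1 ∧
      ‖z - mf (c0 (t x))‖ < δ ∧ ‖mf (c0 (t x))‖ < R + 3 := by
    intro x hx hm
    obtain ⟨z, hz, e⟩ := id hx
    rw [mem_closedBall_zero_iff] at hz
    obtain ⟨y, d1, -, d2, d3⟩ := h4 z (n (sqS (t x))) hz (by
      have := (a5 x).2
      rwa [eA x (kK x hx), ← e] at this)
    have d4 := norm_add_le (y - z) z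
    rw [sub_add_cancel] at d4
    have d5 := key (c0 (t x)) (y, 1) (by simp) (by rw [coe_c0 (fin x (kK x hx)), d1]; simp) hm
      (by linarith) (by simp; linarith)
    simp only [mul_one] at d5
    have d6 := norm_sub_le (y - mf (c0 (t x))) (y - z)
    have d7 := norm_sub_le y (y - mf (c0 (t x)))
    rw [sub_sub_sub_cancel_left] at d6
    rw [sub_sub_cancel] at d7
    exact ⟨z, e.symm, hz, by linarith, by linarith⟩
  have k2 : ∀ x ∈ K, ‖mf (c0 (t x))‖ < R + 3 := fun x hx => by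
    refine hK.gt_of_ne (f := fun x => ‖mf (c0 (t x))‖) (fun z hz => ?_) (fun z hz e => ?_)
      ⟨x₀, ⟨0, by simp; linarith, hx₀.symm⟩, ?_⟩ hx
    · have := (continuousAt_c0 (fin z (kK z hz))).comp t.continuous.continuousAt
      exact ((continuousAt_const.mul this).add continuousAt_const).norm.continuousWithinAt
    · obtain ⟨-, -, -, -, h⟩ := k1 z hz e.le
      exact h.ne e
    · have : mf s₀ = 0 := by simp only [mf]; field_simp; ring
      rw [← e0, c0_coe, this, norm_zero]; linarith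
  refine ⟨OnePoint.map mf, isMob_affine (by simp [hs₀, hab]) _, fun x => ?_⟩
  by_cases hx : x ∈ K
  · obtain ⟨z, d1, d2, d3, -⟩ := k1 x hx (k2 x hx).le
    rw [← coe_c0 (fin x (kK x hx)), map_some, d1, dist_comm]
    exact c1 _ _ d2 d3
  have hx' : k x ∈ out (R + 1) := by
    by_contra h
    apply hx
    show k x ∈ (fun z : ℂ => (z : Sph)) '' closedBall 0 (R + 1)
    rw [← compl_out]; exact h
  refine c2 _ _ ?_ fun z e => by linarith [hx' z e]
  induction hs : t x using OnePoint.rec with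
  | infty => exact infty_mem_out R
  | coe s =>
    rw [map_some, coe_mem_out]
    by_contra hm
    push Not at hm
    by_cases hP : P (sqS x) ∈ out (R + 1)
    · have d1 : n (sqS (t x)) ∈ out (R + 1 / 2) := fun y e => by
        by_contra hy
        obtain ⟨z, d2, -, -, d3⟩ := h4 y (P (sqS x)) (by linarith) (by
          rw [dist_comm, ← e]; exact (a5 x).2)
        have d4 := norm_add_le (z - y) y
        rw [sub_add_cancel] at d4
        linarith [hP z d2]
      have d2 : n (sqS (t x)) ≠ o0 := fun e => by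
        have := d1 0 e; rw [norm_zero] at this; linarith
      have d3 : ‖ci (n (sqS (t x)))‖ * (R + 1 / 2) ≤ 1 := by
        induction h : n (sqS (t x)) using OnePoint.rec with
        | infty => simp
        | coe y =>
          have := d1 y h
          rw [ci_coe, norm_inv, inv_mul_le_iff₀ (by linarith)]; linarith
      have d4 := norm_nonneg (ci (n (sqS (t x))))
      have d5 := key s (1, ci (n (sqS (t x)))) (by simp) (by rw [pr_one_ci d2, hs]) (by linarith)
        (by simp; linarith) (by simp only; nlinarith)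
      have d6 := norm_add_le (1 - mf s * ci (n (sqS (t x)))) (mf s * ci (n (sqS (t x))))
      rw [sub_add_cancel, norm_one, norm_mul] at d6
      simp only at d5
      nlinarith [mul_le_mul_of_nonneg_right hm d4]
    · have d1 : k x = ∞ := by
        by_contra h; exact hP (eA x h ▸ hx')
      have d2 : k (ngS x) ≠ ∞ := fun h => hP (eB x d1 h ▸ infty_mem_out _)
      have d3 : ngS x ∈ K := by
        change k (ngS x) ∈ (fun z : ℂ => (z : Sph)) '' closedBall 0 (R + 1)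
        rw [← eA _ d2, sqS_ngS, ← compl_out]; exact hP
      have d4 := k2 _ d3
      rw [a2, hs, ngS_coe, c0_coe] at d4
      have d5 : (b - a) * (mf s + mf (-s)) = -4 := by simp only [mf]; field_simp; ring
      have d6 := congrArg norm d5
      rw [norm_mul, norm_neg, Complex.norm_ofNat] at d6
      nlinarith [norm_sub_le b a, norm_add_le (mf s) (mf (-s)), norm_nonneg (b - a),
        norm_nonneg (mf s + mf (-s))]

lemma conv_one {k P : Sph → Sph} {N N' : Set Sph} (hk : Mono k N) (hP : Mono P N')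
    (e : ∀ x, k x ∉ N → P (sqS x) = k x) : Conv k P := by
  have hS : IsOpen (k ⁻¹' Nᶜ) := hk.fin.isClosed.isOpen_compl.preimage hk.cont
  have e1 : ∀ x, k x ∉ N → k (ngS x) ∈ N := fun x hx => by
    by_contra h
    obtain ⟨z, ⟨z1, z2⟩, z3⟩ := (dense_compl_finite (toFinite {o0, ∞})).inter_open_nonempty _
      (hS.inter (hS.preimage ngS.continuous)) ⟨x, hx, h⟩
    exact z3 (ngS_eq_self.1 (hk.inj _ _ (by rw [← e _ z2, sqS_ngS, e _ z1]) z2))
  obtain ⟨y₀, hy₀⟩ := exists_ne_of_finite hk.fin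
  obtain ⟨x₀, rfl⟩ := hk.surj y₀
  have e2 : ∀ x, k x ∉ N → k (ngS x) = k (ngS x₀) := fun x hx =>
    const_of_finite (hk.preimage (isPreconnected_compl_finite hk.fin))
      (hk.cont.comp ngS.continuous).continuousOn hk.fin e1 hx hy₀
  generalize k (ngS x₀) = c at e2
  have e3 : ∀ x, k x ≠ c → k (ngS x) = c := fun x hx => by
    by_cases h : k x ∈ N
    · refine hk.eq_on_fibre (hk.cont.comp ngS.continuous) continuous_const hk.fin e2 hk.fin
        (fun z hz => ?_) (fun _ _ _ _ => rfl) rfl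
      by_contra h'
      have := e2 _ h'
      rw [ngS_ngS, hz] at this
      exact hx this
    · exact e2 x h
  have e4 : ∀ x, k x ≠ c → P (sqS x) = k x := fun x hx => by
    by_cases h : k x ∈ N
    · refine hk.eq_on_fibre (hP.cont.comp continuous_sqS) hk.cont hk.fin e (hP.fin.union hk.fin)
        (fun z hz => ?_) (fun _ _ a b => a.trans b.symm) rfl
      by_contra h'
      obtain ⟨x', hx'⟩ := hk.surj (P (sqS z))
      have a1 : k x' ∉ N := fun a => h' (Or.inr (by rw [Function.comp, ← hx']; exact a))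
      rw [← e x' a1] at hx'
      rcases sqS_eq_iff.1 (hP.inj _ _ hx'.symm fun a => h' (Or.inl a)) with a | a
      · exact a1 (a ▸ hz ▸ h)
      · exact hx (hz ▸ a ▸ e2 x' a1)
    · exact e x h
  have e5 : ∀ x, k x = c → k (ngS x) = c → P (sqS x) = c := fun x h1 h2 => by
    by_contra h
    have hc := hP.cont.comp continuous_sqS
    obtain ⟨x', hx'⟩ := hk.surj (P (sqS x))
    obtain ⟨_, -, ⟨z, z1, rfl⟩, z', z2, z3⟩ := isPreconnected_closed_iff.1 (hP.fibre (P (sqS x)))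
      (sqS '' (k ⁻¹' {P (sqS x)})) (sqS '' {z | k z = c ∧ k (ngS z) = c})
      (continuous_sqS.isClosedMap _ (isClosed_singleton.preimage hk.cont))
      (continuous_sqS.isClosedMap _ ((isClosed_eq hk.cont continuous_const).inter
        (isClosed_eq (hk.cont.comp ngS.continuous) continuous_const))) (fun y hy => by
          obtain ⟨z, rfl⟩ := sqS_surj y
          by_cases a1 : k z = c
          · by_cases a2 : k (ngS z) = c
            · exact Or.inr ⟨z, ⟨a1, a2⟩, rfl⟩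
            · exact Or.inl ⟨ngS z, by rw [mem_preimage, ← e4 _ a2, sqS_ngS]; exact hy, sqS_ngS z⟩
          · exact Or.inl ⟨z, by rw [mem_preimage, ← e4 _ a1]; exact hy, rfl⟩)
      ⟨sqS x', by rw [mem_preimage, e4 x' (hx' ▸ h), hx']; rfl, x', hx', rfl⟩
      ⟨sqS x, rfl, x, ⟨h1, h2⟩, rfl⟩
    rcases sqS_eq_iff.1 z3.symm with a | a
    · exact h (z1.symm.trans (a ▸ z2.1))
    · exact h (z1.symm.trans (a ▸ z2.2))
  have e6 : ∀ x, ngS x = x → k x = c := fun x hx => by
    by_contra h; exact h (hx ▸ e3 x h)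
  obtain ⟨A, hA, hc⟩ := exists_mob_infty c
  refine .of_comp hA hA (conv_one_aux (hk.comp_homeo A) (fun x hx => congrArg A (e4 x fun h =>
    hx (by simp [h, hc]))) (fun x h1 h2 => ?_) (by simp [e6 _ ngS_infty, hc])
    (by simp [e6 o0 (by simp), hc]))
  rw [← hc] at h1 h2 ⊢
  exact congrArg A (e5 x (A.injective h1) (A.injective h2))

lemma conv_of_ratDeg {k P R : Sph → Sph} {N N' : Set Sph} (hk : Mono k N) (hP : Mono P N') {d : ℕ}
    (hR : RatDeg R d) (hd : d ≠ 0) (e : ∀ x, k x ∉ N → P (sqS x) = R (k x)) : Conv k P := by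
  rcases (show d = 1 ∨ d = 2 ∨ 3 ≤ d by omega) with rfl | rfl | h
  · obtain ⟨A, rfl⟩ := hR.isMob.exists_homeo
    exact .of_comp hR.isMob (B := Homeomorph.refl _) isMob_id (conv_one (hk.comp_homeo A) hP
      fun x hx => e x fun h => hx ⟨_, h, rfl⟩)
  · obtain ⟨μ, ν, hμ, hν, e'⟩ := hR.nf
    exact .of_comp hν hμ.symm (conv_two (hk.comp_homeo ν) (hP.comp_homeo μ.symm) fun x hx => by
      simp [e x fun h => hx ⟨_, h, rfl⟩, e'])
  · exfalso
    obtain ⟨F, hF, h1⟩ := hR.three h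
    obtain ⟨y, hy⟩ := exists_ne_of_finite ((hF.union hP.fin).union (hk.fin.image R))
    simp only [mem_union, not_or] at hy
    obtain ⟨a, b, c, hD, ha, hb, hc⟩ := h1 y hy.1.1
    obtain ⟨a, rfl⟩ := hk.surj a
    obtain ⟨b, rfl⟩ := hk.surj b
    obtain ⟨c, rfl⟩ := hk.surj c
    rw [← e _ fun h => hy.2 ⟨_, h, by assumption⟩] at ha hb hc
    have hD' := hD.of_map
    have a1 := (sqS_eq_iff.1 (hP.inj _ _ (ha.trans hc.symm) (ha ▸ hy.1.2))).resolve_left hD'.2.2
    have a2 := (sqS_eq_iff.1 (hP.inj _ _ (hb.trans hc.symm) (hb ▸ hy.1.2))).resolve_left hD'.2.1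
    exact hD'.1 (a1.trans a2.symm)

/-- Convergence of the lifts. -/
theorem bdry {f k P R : Sph → Sph} {μ ν : Sph ≃ₜ Sph} (ef : ∀ x, f x = μ (sqS (ν x)))
    {N N' : Set Sph} (hk : Mono k N) (hP : Mono P N') {d : ℕ} (hR : RatDeg R d) (hd : d ≠ 0)
    (e : ∀ x, k x ∉ N → P (f x) = R (k x)) {η : ℝ} (hη : 0 < η) :
    ∃ ε > 0, ∀ (t H : Sph ≃ₜ Sph) (n : Sph → Sph), IsMob n → (∀ x, sqS (t x) = H (f x)) →
      (∀ x, dist (n (sqS (t x))) (P (f x)) < ε) → ∃ M, IsMob M ∧ ∀ x, dist (M (t x)) (k x) < η := by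
  obtain ⟨ε, hε, h⟩ := conv_of_ratDeg (hk.precomp ν.symm) (hP.precomp μ) hR hd
    (fun x hx => by simpa [ef] using e _ hx) η hη
  refine ⟨ε, hε, fun t H n hn e1 e2 => ?_⟩
  have a1 : ∀ x, t (ν.symm (ngS x)) = ngS (t (ν.symm x)) := by
    refine congrFun (Continuous.ext_on (dense_compl_finite (toFinite {o0, ∞})) (by fun_prop)
      (by fun_prop) fun x hx => ?_)
    refine (sqS_eq_iff.1 (by simp [e1, ef])).resolve_left fun h => hx (ngS_eq_self.1 ?_)
    exact ν.symm.injective (t.injective h)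
  have a2 := ngS_eq_self.1 (a1 ∞).symm
  have a3 := ngS_eq_self.1 (by simpa using (a1 o0).symm : ngS (t (ν.symm o0)) = t (ν.symm o0))
  have a4 : t (ν.symm o0) ≠ t (ν.symm ∞) := fun h => o0_ne_infty (ν.symm.injective (t.injective h))
  rcases a2 with a2 | a2
  · obtain ⟨M, m1, m2⟩ := h ((ν.symm.trans t).trans invS) (n ∘ invS.symm) (hn.comp isMob_invS.symm)
      (fun x => by simp [a1, ngS_invS]) (by simp [a2, invS_o0])
      (by simp [a3.resolve_left fun h => a4 (h.trans a2.symm), invS_infty])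
      fun x => by simpa [sqS_invS, ef] using e2 (ν.symm x)
    exact ⟨M ∘ invS, m1.comp isMob_invS, fun x => by simpa using m2 (ν x)⟩
  · obtain ⟨M, m1, m2⟩ := h (ν.symm.trans t) n hn a1 a2
      (a3.resolve_right fun h => a4 (h.trans a2.symm)) fun x => by simpa [ef] using e2 (ν.symm x)
    exact ⟨M, m1, fun x => by simpa using m2 (ν x)⟩

end

end Pool.Agent.Lib.MP_21db80_an
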