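import Pool.Agent.Lib.MP_21db80_an.Annulus

/-!
Maps of the sphere with finitely many nontrivial fibres are approximable by homeomorphisms
(after Morton Brown).
-/

namespace Pool.Agent.Lib.MP_21db80_an

open OnePoint Set Topology Function Filter Metric unitInterval

noncomputable section

/-- Maps of the plane which are open embeddings up to finitely many fibres. -/
structure PE (g : ℂ → ℂ) (N : Finset ℂ) : Prop where
  cont : Continuous g
  inj : ∀ x x', g x = g x' → g x ∉ N → x = x'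
  opn : ∀ U, IsOpen U → (∀ x ∈ U, ∀ x', g x' = g x → x' ∈ U) → IsOpen (g '' U)

open Classical in
lemma PE.reduce {g : ℂ → ℂ} {N : Finset ℂ} (h : PE g N) {a : ℂ} {r : ℝ} (hr : 0 < r)
    (h1 : ball a r ⊆ range g) (h2 : ∀ y ∈ N, y ∈ ball a r → y = a) :
    ∃ (g' : ℂ → ℂ) (s : ℂ → ℂ), PE g' ((N.erase a).image s) ∧ (∀ x, g (g' x) ∈ ball a r) ∧
      (∀ x, g x = a → g' x = x) ∧ ∀ x x', g x ≠ a → (g' x' = g' x ↔ g x' = g x) := by
  obtain ⟨k, k1, k2, k3⟩ := exists_shrink hr a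
  have ka : k a = a := k3 a (mem_ball_self (by positivity))
  have kne : ∀ y, y ≠ a → k y ≠ a := fun y hy e => hy (k1.injective (e.trans ka.symm))
  have kN : ∀ y, y ≠ a → k y ∉ N := fun y hy e => kne y hy (h2 _ e (k2 y))
  let g' : ℂ → ℂ := fun x => if g x = a then x else invFun g (k (g x))
  have e1 : ∀ x, g (g' x) = k (g x) := fun x => by
    simp only [g']
    split_ifs with hx
    · rw [hx, ka]
    · exact invFun_eq (h1 (k2 _))
  have e2 : ∀ x, g x = a → g' x = x := fun x hx => if_pos hx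
  have e3 : ∀ x, g x ∈ ball a (r / 2) → g' x = x := fun x hx => by
    by_cases ha : g x = a
    · exact e2 x ha
    · exact h.inj _ _ (by rw [e1, k3 _ hx]) (by rw [e1]; exact kN _ ha)
  have e4 : ∀ x x', g x ≠ a → (g' x' = g' x ↔ g x' = g x) := fun x x' hx =>
    ⟨fun e => k1.injective (by rw [← e1, ← e1, e]), fun e => by
      simp only [g']; rw [if_neg hx, if_neg (e ▸ hx), e]⟩
  have hV : IsOpen (g ⁻¹' ball a (r / 2)) := isOpen_ball.preimage h.cont
  have hA : IsOpen (g ⁻¹' {a}ᶜ) := isOpen_compl_singleton.preimage h.cont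
  refine ⟨g', fun y => invFun g (k y), ⟨?_, ?_, ?_⟩, fun x => by rw [e1]; exact k2 _, e2, e4⟩
  · refine continuous_def.2 fun U hU => ?_
    have hW : IsOpen (g '' (U ∩ g ⁻¹' (ball a r \ {a}))) := by
      refine h.opn _ (hU.inter ((isOpen_ball.sdiff isClosed_singleton).preimage h.cont)) ?_
      rintro x ⟨hx, hx'⟩ x' e
      rw [← h.inj x x' e.symm fun hN => hx'.2 (h2 _ hN hx'.1)]
      exact ⟨hx, hx'⟩
    have : g' ⁻¹' U = (U ∩ g ⁻¹' ball a (r / 2)) ∪
        (g ⁻¹' {a}ᶜ ∩ (k ∘ g) ⁻¹' (g '' (U ∩ g ⁻¹' (ball a r \ {a})))) := by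
      ext x
      constructor
      · intro hx
        by_cases ha : g x = a
        · left
          exact ⟨by rw [← e2 x ha]; exact hx, by
            rw [mem_preimage, ha]; exact mem_ball_self (by positivity)⟩
        · right
          exact ⟨ha, g' x, ⟨hx, by rw [mem_preimage, e1]; exact ⟨k2 _, kne _ ha⟩⟩, e1 x⟩
      · rintro (⟨hx, hx'⟩ | ⟨ha, z, hz, e⟩)
        · rw [mem_preimage, e3 x hx']; exact hx
        · have : z = g' x := h.inj _ _ (by rw [e1]; exact e) (by rw [e]; exact kN _ ha)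
          rw [mem_preimage, ← this]; exact hz.1
    rw [this]
    exact (hU.inter hV).union (hA.inter (hW.preimage (k1.continuous.comp h.cont)))
  · intro x x' e hN
    by_cases ha : g x = a
    · have : g x' = a := k1.injective (by rw [← e1, ← e, e1, ha])
      rw [← e2 x ha, e, e2 x' this]
    · refine h.inj _ _ ((e4 x x' ha).1 e.symm).symm fun hN' => hN ?_
      exact Finset.mem_image.2 ⟨g x, Finset.mem_erase.2 ⟨ha, hN'⟩, (if_neg ha).symm⟩
  · intro U hU hs
    have hW : IsOpen (g '' (U ∩ g ⁻¹' {a}ᶜ)) := by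
      refine h.opn _ (hU.inter hA) ?_
      rintro x ⟨hx, hx'⟩ x' e
      exact ⟨hs x hx x' ((e4 x x' hx').2 e), by rw [mem_preimage, e]; exact hx'⟩
    have : g' '' U = (U ∩ g ⁻¹' ball a (r / 2)) ∪ g ⁻¹' (k '' (g '' (U ∩ g ⁻¹' {a}ᶜ))) := by
      ext y
      constructor
      · rintro ⟨x, hx, rfl⟩
        by_cases ha : g x = a
        · left
          rw [e2 x ha]
          exact ⟨hx, by rw [mem_preimage, ha]; exact mem_ball_self (by positivity)⟩
        · right
          exact ⟨g x, ⟨x, ⟨hx, ha⟩, rfl⟩, (e1 x).symm⟩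
      · rintro (⟨hy, hy'⟩ | ⟨_, ⟨x, hx, rfl⟩, e⟩)
        · exact ⟨y, hy, e3 y hy'⟩
        · exact ⟨x, hx.1, h.inj _ _ (by rw [e1]; exact e) (by rw [e1]; exact kN _ hx.2)⟩
    rw [this]
    exact (hU.inter hV).union ((k1.isOpenMap _ hW).preimage h.cont)

lemma exists_ball_sep (N : Finset ℂ) {a : ℂ} {W : Set ℂ} (hW : W ∈ 𝓝 a) :
    ∃ r > 0, ball a r ⊆ W ∧ ∀ y ∈ N, y ∈ ball a r → y = a := by
  have h1 : ((N : Set ℂ) \ {a})ᶜ ∈ 𝓝 a :=
    (N.finite_toSet.subset sdiff_subset).isClosed.isOpen_compl.mem_nhds fun h => h.2 rfl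
  obtain ⟨r, hr, h⟩ := Metric.mem_nhds_iff.1 (inter_mem hW h1)
  exact ⟨r, hr, fun z hz => (h hz).1, fun y hy hy' => by
    by_contra hne; exact (h hy').2 ⟨hy, hne⟩⟩

open Classical in
lemma PE.cell (n : ℕ) : ∀ {g : ℂ → ℂ} {N : Finset ℂ}, PE g N → N.card ≤ n → ∀ x₀ U, IsOpen U →
    (∀ x, g x = g x₀ → x ∈ U) → ∃ e : ℂ → ℂ, IsOpenEmbedding e ∧
      (∀ x, g x = g x₀ → x ∈ range e) ∧ range e ⊆ U := by
  have base : ∀ {g : ℂ → ℂ} {N : Finset ℂ}, PE g N → ∀ x₀, (∀ y ∈ N, y = g x₀) → ∀ U, IsOpen U →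
      (∀ x, g x = g x₀ → x ∈ U) → ∃ e : ℂ → ℂ, IsOpenEmbedding e ∧
        (∀ x, g x = g x₀ → x ∈ range e) ∧ range e ⊆ U := by
    intro g N h x₀ hN U hU hxU
    have hs : ∀ x ∈ U, ∀ x', g x' = g x → x' ∈ U := fun x hx x' e => by
      by_cases hx' : g x' ∈ N
      · exact hxU _ (hN _ hx')
      · rwa [h.inj _ _ e hx']
    obtain ⟨r, hr, r1, r2⟩ := exists_ball_sep N ((h.opn U hU hs).mem_nhds ⟨x₀, hxU _ rfl, rfl⟩)
    obtain ⟨g', s, p1, p2, p3, -⟩ := h.reduce hr (r1.trans (image_subset_range _ _)) r2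
    have hi : Injective g' := fun x x' e => p1.inj _ _ e fun hm => by
      obtain ⟨y, hy, -⟩ := Finset.mem_image.1 hm
      exact (Finset.mem_erase.1 hy).1 (hN y (Finset.mem_erase.1 hy).2)
    refine ⟨g', .of_continuous_injective_isOpenMap p1.cont hi fun V hV => p1.opn V hV
      fun x hx x' e => by rwa [hi e], fun x hx => ⟨x, p3 x hx⟩, ?_⟩
    rintro _ ⟨x, rfl⟩
    obtain ⟨z, hz, e⟩ := r1 (p2 x)
    exact hs z hz _ e.symm
  induction n with
  | zero =>
    intro g N h hn x₀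
    exact base h x₀ fun y hy => by simp [Finset.card_eq_zero.1 (Nat.le_zero.1 hn)] at hy
  | succ n ih =>
    intro g N h hn x₀ U hU hxU
    by_cases hN : ∀ y ∈ N, y = g x₀
    · exact base h x₀ hN U hU hxU
    push Not at hN
    obtain ⟨a, ha, hne⟩ := hN
    have hc : (N.erase a).card ≤ n := by rw [Finset.card_erase_of_mem ha]; omega
    by_cases har : a ∈ range g
    · have h0 := h.opn univ isOpen_univ fun _ _ _ _ => trivial
      rw [image_univ] at h0
      obtain ⟨r, hr, r1, r2⟩ := exists_ball_sep N (h0.mem_nhds har)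
      obtain ⟨g', s, p1, -, -, p4⟩ := h.reduce hr r1 r2
      obtain ⟨e, e1, e2, e3⟩ := ih p1 (Finset.card_image_le.trans hc) x₀ U hU
        fun x hx => hxU x ((p4 x₀ x hne.symm).1 hx)
      exact ⟨e, e1, fun x hx => e2 x ((p4 x₀ x hne.symm).2 hx), e3⟩
    · exact ih (N := N.erase a) ⟨h.cont, fun x x' e hx => h.inj x x' e fun hN =>
        hx (Finset.mem_erase.2 ⟨fun e' => har ⟨x, e'⟩, hN⟩), h.opn⟩ hc x₀ U hU hxU

open Classical in
/-- Transplanting a compactly supported homeomorphism of the plane into an open cell. -/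
lemma transplant {e : ℂ → Sph} (he : IsOpenEmbedding e) (ρ : ℂ ≃ₜ ℂ) {R : ℝ}
    (hρ : ∀ z, R ≤ ‖z‖ → ρ z = z) :
    ∃ c : Sph ≃ₜ Sph, (∀ z, c (e z) = e (ρ z)) ∧ ∀ x, x ∉ range e → c x = x := by
  let c : Sph → Sph := fun x => if x ∈ range e then e (ρ (invFun e x)) else x
  have c1 : ∀ z, c (e z) = e (ρ z) := fun z => by
    simp only [c]; rw [if_pos ⟨z, rfl⟩, leftInverse_invFun he.injective]
  have c2 : ∀ x, x ∉ range e → c x = x := fun x hx => if_neg hx
  have hc : Continuous c := by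
    refine continuous_iff_continuousAt.2 fun x => ?_
    by_cases hx : x ∈ range e
    · obtain ⟨z, rfl⟩ := hx
      rw [← he.continuousAt_iff]
      have : c ∘ e = e ∘ ρ := funext c1
      rw [this]
      exact (he.continuous.comp ρ.continuous).continuousAt
    · have hK : IsClosed (e '' closedBall 0 R) :=
        ((isCompact_closedBall _ _).image he.continuous).isClosed
      refine continuousAt_id.congr ?_
      filter_upwards [hK.isOpen_compl.mem_nhds fun h => hx (image_subset_range _ _ h)] with y hy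
      by_cases hy' : y ∈ range e
      · obtain ⟨z, rfl⟩ := hy'
        rw [c1, hρ z]; · rfl
        by_contra hz
        exact hy ⟨z, by simpa using (not_le.1 hz).le, rfl⟩
      · exact (c2 y hy').symm
  have hb : Bijective c := by
    constructor
    · intro x y h
      by_cases hx : x ∈ range e <;> by_cases hy : y ∈ range e
      · obtain ⟨z, rfl⟩ := hx
        obtain ⟨w, rfl⟩ := hy
        rw [c1, c1] at h
        rw [ρ.injective (he.injective h)]
      · obtain ⟨z, rfl⟩ := hx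
        rw [c1, c2 y hy] at h
        exact absurd ⟨_, h⟩ hy
      · obtain ⟨z, rfl⟩ := hy
        rw [c1, c2 x hx] at h
        exact absurd ⟨_, h.symm⟩ hx
      · rwa [c2 x hx, c2 y hy] at h
    · intro y
      by_cases hy : y ∈ range e
      · obtain ⟨z, rfl⟩ := hy
        exact ⟨e (ρ.symm z), by rw [c1, Homeomorph.apply_symm_apply]⟩
      · exact ⟨y, c2 y hy⟩
  exact ⟨homeoOf c hc hb, c1, c2⟩

/-- Cellular sets. -/
def Cell (A : Set Sph) : Prop :=
  ∀ U, IsOpen U → A ⊆ U → ∃ e : ℂ → Sph, IsOpenEmbedding e ∧ A ⊆ range e ∧ range e ⊆ U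

lemma Cell.step {A : Set Sph} (hA : Cell A) (hc : IsCompact A) (τ : Sph ≃ₜ Sph) {V : Set Sph}
    (hV : IsOpen V) (hAV : A ⊆ V) {ε : ℝ} (hε : 0 < ε) :
    ∃ (τ' : Sph ≃ₜ Sph) (V' K : Set Sph), IsOpen V' ∧ A ⊆ V' ∧ V' ⊆ K ∧ IsCompact K ∧ K ⊆ V ∧
      V' ⊆ thickening ε A ∧ (∀ x, x ∉ V → τ' x = τ x) ∧
        ∀ x ∈ V', ∀ y ∈ V', dist (τ' x) (τ' y) ≤ ε := by
  obtain ⟨e, e1, e2, e3⟩ := hA _ (hV.inter isOpen_thickening)
    (subset_inter hAV (self_subset_thickening hε A))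
  obtain ⟨R, hR0, hR⟩ : ∃ R > 0, e ⁻¹' A ⊆ ball 0 R := by
    have : IsCompact (e ⁻¹' A) := e1.isInducing.isCompact_preimage' hc e2
    obtain ⟨R, hR, h⟩ := this.isBounded.subset_ball_lt 0 0
    exact ⟨R, hR, h⟩
  have hτe : IsOpenEmbedding (τ ∘ e) := τ.isOpenEmbedding.comp e1
  obtain ⟨δ, hδ, hδ'⟩ := Metric.continuousAt_iff.1 (hτe.continuous.continuousAt (x := 0)) (ε / 2)
    (by positivity)
  obtain ⟨ρ, ρ1, ρ2⟩ := exists_compress (c := min (δ / R) 1) (R := R) (R2 := R + 1) (by positivity)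
    (min_le_right _ _) hR0 (by linarith)
  obtain ⟨c, c1, c2⟩ := transplant hτe ρ ρ2
  have key : ∀ z ∈ ball (0 : ℂ) R, dist (c (τ (e z))) (τ (e 0)) < ε / 2 := by
    intro z hz
    rw [mem_ball_zero_iff] at hz
    have := c1 z
    simp only [Function.comp] at this
    rw [this, ρ1 z hz.le]
    apply hδ'
    rw [dist_zero_right, norm_mul, Complex.norm_real, Real.norm_of_nonneg (by positivity)]
    calc _ ≤ δ / R * ‖z‖ := mul_le_mul_of_nonneg_right (min_le_left _ _) (norm_nonneg _)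
      _ < δ / R * R := mul_lt_mul_of_pos_left hz (by positivity)
      _ = δ := by field_simp
  refine ⟨τ.trans c, e '' ball 0 R, e '' closedBall 0 R, e1.isOpenMap _ isOpen_ball, fun x hx => ?_,
    image_mono ball_subset_closedBall, (isCompact_closedBall _ _).image e1.continuous,
    fun x hx => (e3 (image_subset_range _ _ hx)).1, fun x hx => (e3 (image_subset_range _ _ hx)).2,
    fun x hx => c2 _ ?_, ?_⟩
  · obtain ⟨z, rfl⟩ := e2 hx
    exact ⟨z, hR hx, rfl⟩
  · rintro ⟨z, hz⟩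
    exact hx (τ.injective hz ▸ (e3 ⟨z, rfl⟩).1)
  · rintro _ ⟨z, hz, rfl⟩ _ ⟨w, hw, rfl⟩
    have := dist_triangle_right (c (τ (e z))) (c (τ (e w))) (τ (e 0))
    simp only [Homeomorph.trans_apply]
    linarith [key z hz, key w hw]

lemma Cell.seq {A : Set Sph} (hA : Cell A) (hc : IsCompact A) {U : Set Sph} (hU : IsOpen U)
    (hAU : A ⊆ U) : ∃ (τ : ℕ → Sph ≃ₜ Sph) (V K : ℕ → Set Sph), (∀ x, τ 0 x = x) ∧ V 0 = U ∧
      (∀ n, A ⊆ V n) ∧ (∀ n, V (n + 1) ⊆ K n) ∧ (∀ n, IsCompact (K n)) ∧ (∀ n, K n ⊆ V n) ∧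
      (∀ n, V (n + 1) ⊆ thickening ((1 / 2) ^ n) A) ∧ (∀ n x, x ∉ V n → τ (n + 1) x = τ n x) ∧
      ∀ n, ∀ x ∈ V (n + 1), ∀ y ∈ V (n + 1), dist (τ (n + 1) x) (τ (n + 1) y) ≤ (1 / 2) ^ n := by
  let St := {p : (Sph ≃ₜ Sph) × Set Sph // IsOpen p.2 ∧ A ⊆ p.2}
  have hs : ∀ (n : ℕ) (p : St), ∃ (p' : St) (K : Set Sph), p'.1.2 ⊆ K ∧ IsCompact K ∧ K ⊆ p.1.2 ∧
      p'.1.2 ⊆ thickening ((1 / 2) ^ n) A ∧ (∀ x, x ∉ p.1.2 → p'.1.1 x = p.1.1 x) ∧
        ∀ x ∈ p'.1.2, ∀ y ∈ p'.1.2, dist (p'.1.1 x) (p'.1.1 y) ≤ (1 / 2) ^ n := by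
    intro n p
    obtain ⟨τ', V', K, a1, a2, a3⟩ := hA.step hc p.1.1 p.2.1 p.2.2 (ε := (1 / 2) ^ n)
      (by positivity)
    exact ⟨⟨(τ', V'), a1, a2⟩, K, a3⟩
  choose F K f1 f2 f3 f4 f5 f6 using hs
  let s : ℕ → St := fun n => Nat.rec ⟨(Homeomorph.refl _, U), hU, hAU⟩ (fun n p => F n p) n
  exact ⟨fun n => (s n).1.1, fun n => (s n).1.2, fun n => K n (s n), fun _ => rfl, rfl,
    fun n => (s n).2.2, fun n => f1 n (s n), fun n => f2 n (s n), fun n => f3 n (s n),
    fun n => f4 n (s n), fun n => f5 n (s n), fun n => f6 n (s n)⟩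

/-- Shrinking a cellular set to a point. -/
lemma Cell.shrink {A : Set Sph} (hA : Cell A) (hc : IsCompact A) {U : Set Sph} (hU : IsOpen U)
    (hAU : A ⊆ U) : ∃ q : Sph → Sph, Continuous q ∧ Surjective q ∧ (∀ x, x ∉ U → q x = x) ∧
      ∀ x y, q x = q y ↔ x = y ∨ (x ∈ A ∧ y ∈ A) := by
  obtain ⟨τ, V, K, t0, v0, f0, f1, f2, f3, f4, f5, f6⟩ := hA.seq hc hU hAU
  have hVa : Antitone V := antitone_nat_of_succ_le fun n => (f1 n).trans (f3 n)
  have hst : ∀ n m, n ≤ m → ∀ x, x ∉ V n → τ m x = τ n x := by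
    intro n m hnm x hx
    induction hnm with
    | refl => rfl
    | step h ih => rw [← ih]; exact f5 _ x fun h' => hx (hVa h h')
  have himg : ∀ n m, n ≤ m → ∀ x ∈ V n, ∃ y ∈ V n, τ n y = τ m x := by
    intro n m hnm x hx
    refine ⟨(τ n).symm (τ m x), ?_, by simp⟩
    by_contra hy
    have := hst n m hnm _ hy
    rw [Homeomorph.apply_symm_apply] at this
    rw [(τ m).injective this] at hy
    exact hy hx
  have hd : ∀ n m, n + 1 ≤ m → ∀ x, dist (τ m x) (τ (n + 1) x) ≤ (1 / 2) ^ n := by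
    intro n m hnm x
    by_cases hx : x ∈ V (n + 1)
    · obtain ⟨y, hy, e⟩ := himg _ _ hnm x hx
      rw [← e]; exact f6 n y hy x hx
    · rw [hst _ _ hnm x hx, dist_self]; positivity
  let T : ℕ → C(Sph, Sph) := fun n => ⟨τ (n + 1), (τ (n + 1)).continuous⟩
  have hT : CauchySeq T := cauchySeq_of_le_geometric (1 / 2) 1 (by norm_num) fun n => by
    rw [dist_comm, one_mul, ContinuousMap.dist_le (by positivity)]
    exact hd n (n + 2) (by omega)
  obtain ⟨q, hq⟩ := cauchySeq_tendsto_of_complete hT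
  have hq' : ∀ x, Tendsto (fun n => τ (n + 1) x) atTop (𝓝 (q x)) := fun x =>
    ((continuous_eval_const x).tendsto q).comp hq
  have hqd : ∀ n x, dist (q x) (τ (n + 1) x) ≤ (1 / 2) ^ n := fun n x =>
    le_of_tendsto ((hq' x).dist tendsto_const_nhds)
      (eventually_atTop.2 ⟨n, fun m hm => hd n _ (by omega) x⟩)
  have hqs : ∀ n x, x ∉ V n → q x = τ n x := fun n x hx =>
    tendsto_nhds_unique (hq' x) (tendsto_const_nhds.congr' (eventually_atTop.2
      ⟨n, fun m hm => (hst n (m + 1) (by omega) x hx).symm⟩))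
  have hlim : Tendsto (fun n : ℕ => (1 / 2 : ℝ) ^ n) atTop (𝓝 0) :=
    tendsto_pow_atTop_nhds_zero_of_lt_one (by norm_num) (by norm_num)
  have hout : ∀ x, x ∉ A → ∃ n, x ∉ V n := by
    intro x hx
    by_contra hcon
    push Not at hcon
    apply hx
    rw [← hc.isClosed.closure_eq, Metric.mem_closure_iff]
    intro ε hε
    obtain ⟨n, hn⟩ := (hlim.eventually (gt_mem_nhds hε)).exists
    obtain ⟨z, hz, h⟩ := mem_thickening_iff.1 (f4 n (hcon (n + 1)))
    exact ⟨z, hz, h.trans hn⟩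
  have hin : ∀ n, ∀ x ∈ A, ∃ y ∈ V n, τ (n + 1) y = q x := by
    intro n x hx
    have h1 : IsClosed (τ (n + 1) '' K n) := ((f2 n).image (τ _).continuous).isClosed
    obtain ⟨y, hy, e⟩ := h1.mem_of_tendsto (hq' x) (eventually_atTop.2 ⟨n, fun m hm => by
      obtain ⟨y, hy, e⟩ := himg (n + 1) (m + 1) (by omega) x (f0 _ hx)
      exact ⟨y, f1 n hy, e⟩⟩)
    exact ⟨y, f3 n hy, e⟩
  have hne : ∀ x, x ∉ A → ∀ y ∈ A, q x ≠ q y := by
    intro x hx y hy e
    obtain ⟨n, hn⟩ := hout x hx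
    obtain ⟨z, hz, e'⟩ := hin n y hy
    rw [← e, hqs (n + 1) x fun h => hn (hVa (Nat.le_succ n) h)] at e'
    exact hn ((τ _).injective e' ▸ hz)
  refine ⟨q, q.continuous, fun y => ?_, fun x hx => (hqs 0 x (v0 ▸ hx)).trans (t0 x), fun x y => ⟨fun e => ?_, ?_⟩⟩
  · have h1 : IsClosed (range q) := (isCompact_range q.continuous).isClosed
    refine h1.closure_subset (Metric.mem_closure_iff.2 fun ε hε => ?_)
    obtain ⟨n, hn⟩ := (hlim.eventually (gt_mem_nhds hε)).exists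
    refine ⟨_, ⟨(τ (n + 1)).symm y, rfl⟩, ?_⟩
    have := hqd n ((τ (n + 1)).symm y)
    rw [Homeomorph.apply_symm_apply, dist_comm] at this
    exact this.trans_lt hn
  · by_cases hx : x ∈ A <;> by_cases hy : y ∈ A
    · exact Or.inr ⟨hx, hy⟩
    · exact absurd e.symm (hne y hy x hx)
    · exact absurd e (hne x hx y hy)
    · obtain ⟨n, hn⟩ := hout x hx
      obtain ⟨m, hm⟩ := hout y hy
      rw [hqs (max n m) x fun h => hn (hVa (le_max_left _ _) h),
        hqs (max n m) y fun h => hm (hVa (le_max_right _ _) h)] at e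
      exact Or.inl ((τ _).injective e)
  · rintro (rfl | ⟨hx, hy⟩)
    · rfl
    · refine eq_of_forall_dist_le fun ε hε => ?_
      obtain ⟨n, hn⟩ := (hlim.eventually (gt_mem_nhds (show 0 < ε / 3 by positivity))).exists
      have a1 := hqd n x
      have a2 := hqd n y
      have a3 : dist (τ (n + 1) x) (τ (n + 1) y) ≤ (1 / 2) ^ n :=
        f6 n x (f0 _ hx) y (f0 _ hy)
      have := dist_triangle4_right (q x) (q y) (τ (n + 1) x) (τ (n + 1) y)
      linarith

lemma hid_of_eventually {q : Sph → Sph} (hq : Continuous q) {x₀ : Sph} (h : ∀ᶠ x in 𝓝 x₀, q x = x)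
    (h0 : ∀ x, q x = x₀ → x = x₀) : Hid q := by
  obtain ⟨μ, hμm, hμ⟩ := exists_mob_infty x₀
  have h0' : μ.symm ∞ = x₀ := by rw [Homeomorph.symm_apply_eq, hμ]
  have h1 : ∀ᶠ y in 𝓝 (∞ : Sph), q (μ.symm y) = μ.symm y :=
    (μ.symm.continuous.tendsto' _ _ h0').eventually h
  obtain ⟨R, -, hR⟩ := exists_out_subset h1
  have n1 : ∀ z : ℂ, μ (q (μ.symm z)) ≠ ∞ := fun z e => by
    rw [← hμ] at e
    have := h0 _ (μ.injective e)
    rw [← h0'] at this
    exact coe_ne_infty z (μ.symm.injective this)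
  let Q : ℂ → ℂ := fun z => c0 (μ (q (μ.symm z)))
  have Qc : Continuous Q := continuous_iff_continuousAt.2 fun z =>
    (continuousAt_c0 (n1 z)).comp_of_eq
      (μ.continuous.comp (hq.comp (μ.symm.continuous.comp continuous_coe))).continuousAt rfl
  have QR : ∀ z, R < ‖z‖ → Q z = z := fun z hz => by
    have : q (μ.symm z) = μ.symm z := hR (coe_mem_out.2 hz)
    simp [Q, this]
  have h2 : Hid (OnePoint.map Q) := by
    refine ⟨fun p => OnePoint.map (fun z => z + (p.1 : ℝ) * (Q z - z)) p.2,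
      continuous_map_fam (K := fun t z => z + (t : ℝ) * (Q z - z)) (by fun_prop) fun R' =>
        ⟨max R R', fun t z hz => ?_⟩, fun x => ?_, fun x => ?_⟩
    · rw [QR z ((le_max_left _ _).trans_lt hz)]
      simpa using (le_max_right _ _).trans_lt hz
    · induction x using OnePoint.rec <;> simp
    · induction x using OnePoint.rec <;> simp
  convert (hμm.symm.isoRel.hid.comp h2).comp hμm.isoRel.hid using 1
  funext x
  simp only [Function.comp]
  rw [Homeomorph.eq_symm_apply]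
  obtain ⟨y, rfl⟩ := μ.symm.surjective x
  rw [Homeomorph.apply_symm_apply]
  induction y using OnePoint.rec with
  | infty => rw [h1.self_of_nhds]; simp
  | coe z => exact (coe_c0 (n1 z)).symm

lemma cell_fibre {φ : Sph → Sph} (hc : Continuous φ) (hs : Surjective φ) {N : Set Sph}
    (hN : N.Finite) (hi : ∀ x x', φ x = φ x' → φ x ∉ N → x = x') {y : Sph} (hy : y ∈ N) :
    Cell (φ ⁻¹' {y}) := by
  obtain ⟨y₀, hy₀⟩ := exists_ne_of_finite hN
  obtain ⟨x₀, rfl⟩ := hs y₀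
  obtain ⟨μ, -, hμ⟩ := exists_mob_infty x₀
  obtain ⟨ν, -, hν⟩ := exists_mob_infty (φ x₀)
  have h0 : μ.symm ∞ = x₀ := by rw [Homeomorph.symm_apply_eq, hμ]
  have n1 : ∀ z : ℂ, ν (φ (μ.symm z)) ≠ ∞ := fun z e => by
    rw [← hν] at e
    have := hi _ _ (ν.injective e).symm hy₀
    rw [← h0] at this
    exact coe_ne_infty z (μ.symm.injective this).symm
  let g : ℂ → ℂ := fun z => c0 (ν (φ (μ.symm z)))
  have hg : ∀ z, (g z : Sph) = ν (φ (μ.symm z)) := fun z => coe_c0 (n1 z)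
  have hgg : ∀ z w, g z = g w ↔ φ (μ.symm z) = φ (μ.symm w) := fun z w =>
    ⟨fun e => ν.injective (by rw [← hg, ← hg, e]), fun e => by simp only [g, e]⟩
  have he : IsOpenEmbedding fun z : ℂ => μ.symm z := μ.symm.isOpenEmbedding.comp isOpenEmbedding_coe
  have hre : ∀ x, x ≠ x₀ → ∃ z : ℂ, μ.symm z = x := fun x hx =>
    ⟨c0 (μ x), by rw [coe_c0 fun e => hx (μ.injective (e.trans hμ.symm))]; simp⟩
  have hP : PE g (hN.image fun y => c0 (ν y)).toFinset := by
    refine ⟨continuous_iff_continuousAt.2 fun z => (continuousAt_c0 (n1 z)).comp_of_eq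
      (ν.continuous.comp (hc.comp he.continuous)).continuousAt rfl, fun z w e hz => ?_,
      fun U hU hs' => ?_⟩
    · refine he.injective (hi _ _ ((hgg z w).1 e) fun h => hz ?_)
      rw [Finite.mem_toFinset]
      exact ⟨_, h, rfl⟩
    · have h1 : IsClosed (ν '' (φ '' ((fun z : ℂ => μ.symm z) '' U)ᶜ)) :=
        (((he.isOpenMap U hU).isClosed_compl.isCompact.image hc).image ν.continuous).isClosed
      convert h1.isOpen_compl.preimage continuous_coe using 1
      ext w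
      constructor
      · rintro ⟨z, hz, rfl⟩ ⟨_, ⟨x, hx, rfl⟩, e⟩
        have hx0 : x ≠ x₀ := by rintro rfl; exact coe_ne_infty _ (e.symm.trans hν)
        obtain ⟨z', rfl⟩ := hre x hx0
        exact hx ⟨z', hs' z hz z' (by rw [← hg] at e; exact coe_injective e), rfl⟩
      · intro hw
        obtain ⟨x, hx⟩ := hs (ν.symm w)
        have e : ν (φ x) = w := by rw [hx]; simp
        by_cases hx' : x ∈ (fun z : ℂ => μ.symm z) '' U
        · obtain ⟨z, hz, rfl⟩ := hx'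
          exact ⟨z, hz, coe_injective (by rw [hg]; exact e)⟩
        · exact absurd ⟨_, ⟨x, hx', rfl⟩, e⟩ hw
  intro U hU hAU
  obtain ⟨x₁, rfl⟩ := hs y
  obtain ⟨z₁, rfl⟩ := hre x₁ (by rintro rfl; exact hy₀ hy)
  obtain ⟨e, e1, e2, e3⟩ := PE.cell _ hP le_rfl z₁ _ (hU.preimage he.continuous)
    fun z hz => hAU ((hgg _ _).1 hz)
  refine ⟨_, he.comp e1, fun x hx => ?_, ?_⟩
  · obtain ⟨z, rfl⟩ := hre x (by rintro rfl; exact hy₀ (hx ▸ hy))
    obtain ⟨w, rfl⟩ := e2 z ((hgg _ _).2 hx)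
    exact ⟨w, rfl⟩
  · rintro _ ⟨w, rfl⟩
    exact e3 ⟨w, rfl⟩

/-- Approximation by homeomorphisms. -/
theorem brown {N : Set Sph} (hN : N.Finite) (O : Sph → Set Sph) (hO : ∀ y ∈ N, IsOpen (O y))
    (hy : ∀ y ∈ N, y ∈ O y) (hd : ∀ y ∈ N, ∀ z ∈ N, y ≠ z → Disjoint (O y) (O z)) :
    ∀ φ : Sph → Sph, Continuous φ → Surjective φ → (∀ x x', φ x = φ x' → φ x ∉ N → x = x') →
      Hid φ → ∃ h : Sph ≃ₜ Sph, Hid h ∧ (∀ x, (∀ y ∈ N, φ x ∉ O y) → h x = φ x) ∧
        ∀ x, ∀ y ∈ N, φ x ∈ O y → h x ∈ O y := by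
  induction N, hN using Finite.induction_on with
  | empty =>
    intro φ hc hs hi hh
    exact ⟨homeoOf φ hc ⟨fun x x' e => hi x x' e (notMem_empty _), hs⟩, hh, fun _ _ => rfl,
      fun _ _ h => absurd h (notMem_empty _)⟩
  | @insert y N hyN hN ih =>
    intro φ hc hs hi hh
    have hN' := hN.insert y
    obtain ⟨y₀, hy₀⟩ := exists_ne_of_finite hN'
    obtain ⟨x₀, rfl⟩ := hs y₀
    have hA : IsClosed (φ ⁻¹' {y}) := isClosed_singleton.preimage hc
    have hx₀ : x₀ ∉ φ ⁻¹' {y} := fun h => hy₀ (Or.inl h)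
    obtain ⟨r, hr, hr'⟩ := (Metric.nhds_basis_closedBall.mem_iff).1 (hA.isOpen_compl.mem_nhds hx₀)
    obtain ⟨q, q1, q2, q3, q4⟩ := (cell_fibre hc hs hN' hi (mem_insert y N)).shrink hA.isCompact
      (U := φ ⁻¹' O y ∩ (closedBall x₀ r)ᶜ)
      (((hO y (mem_insert _ _)).preimage hc).inter isClosed_closedBall.isOpen_compl)
      fun x hx => ⟨by rw [mem_preimage, hx]; exact hy y (mem_insert _ _), fun h => hr' h hx⟩
    have hq0 : q x₀ = x₀ := q3 _ fun h => h.2 (mem_closedBall_self hr.le)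
    have qh : Hid q := hid_of_eventually q1 (x₀ := x₀) (by
      filter_upwards [closedBall_mem_nhds x₀ hr] with x hx
      exact q3 _ fun h => h.2 hx) fun x hx => by
        rcases (q4 x x₀).1 (hx.trans hq0.symm) with h | h
        · exact h
        · exact absurd h.2 hx₀
    let φ' : Sph → Sph := fun x => φ (surjInv q2 x)
    have e1 : ∀ x, φ' (q x) = φ x := fun x => by
      rcases (q4 _ x).1 (surjInv_eq q2 (q x)) with h | h
      · simp only [φ', h]
      · exact h.1.trans h.2.symm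
    have e0 : φ' ∘ q = φ := funext e1
    have c' : Continuous φ' := by
      rw [(q1.isClosedMap.isQuotientMap q1 q2).continuous_iff, e0]; exact hc
    have e2 : ∀ x, φ x ∉ O y → φ' x = φ x := fun x hx => by
      rw [← e1 x, q3 x fun h => hx h.1]
    have e3 : ∀ x, φ x ∈ O y → φ' x ∈ O y := fun x hx => by
      obtain ⟨x', rfl⟩ := q2 x
      rw [e1]
      by_contra h
      rw [q3 x' fun h' => h h'.1] at hx
      exact h hx
    obtain ⟨h, h1, h2, h3⟩ := ih (fun z hz => hO z (Or.inr hz)) (fun z hz => hy z (Or.inr hz))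
      (fun z hz w hw => hd z (Or.inr hz) w (Or.inr hw)) φ' c'
      (fun z => by obtain ⟨x, rfl⟩ := hs z; exact ⟨q x, e1 x⟩)
      (fun x x' e hx => by
        obtain ⟨x, rfl⟩ := q2 x
        obtain ⟨x', rfl⟩ := q2 x'
        rw [e1] at hx
        rw [e1, e1] at e
        by_cases hxy : φ x = y
        · exact (q4 _ _).2 (Or.inr ⟨hxy, e.symm.trans hxy⟩)
        · rw [hi x x' e fun h => h.elim hxy hx])
      (Hid.of_comp c' (e0 ▸ hh) qh)
    refine ⟨h, h1, fun x hx => ?_, fun x z hz hx => ?_⟩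
    · have := e2 x (hx y (mem_insert _ _))
      rw [h2 x fun z hz => this ▸ hx z (Or.inr hz), this]
    · rcases hz with rfl | hz
      · rw [h2 x fun w hw hxw => ?_]
        · exact e3 x hx
        · exact disjoint_left.1 (hd z (mem_insert _ _) w (Or.inr hw) fun e => hyN (e ▸ hw))
            (e3 x hx) hxw
      · refine h3 x z hz ?_
        rwa [e2 x fun h' => disjoint_left.1
          (hd y (mem_insert _ _) z (Or.inr hz) fun e => hyN (e ▸ hz)) h' hx]

end

end Pool.Agent.Lib.MP_21db80_an
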