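import Mathlib

/-!
Definitions for MP_21db80_an: augmented deformation spaces of rational maps.
-/

namespace Pool.Agent.Lib.MP_21db80_an

open OnePoint Set Topology Function

noncomputable section

/-- The sphere, as the Riemann sphere. -/
abbrev Sph : Type := OnePoint ℂ

/-- `R` is a holomorphic self-map of the Riemann sphere (a rational map) of degree `d`. -/
def RatDeg (R : Sph → Sph) (d : ℕ) : Prop :=
  Continuous R ∧ ∃ p q : Polynomial ℂ, IsCoprime p q ∧ max p.natDegree q.natDegree = d ∧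
    ∀ z : ℂ, R (z : Sph) =
      if q.eval z = 0 then (∞ : Sph) else ((p.eval z / q.eval z : ℂ) : Sph)

/-- Component `v` of a curve drawn in a product of spheres: all coordinates `w ≠ v` are frozen
at the point `n w v` of the sphere `w` (the node of `w` pointing towards `v`). -/
def comp {k : ℕ} (n : Fin k → Fin k → Sph) (v : Fin k) : Set (Fin k → Sph) :=
  {y | ∀ w, w ≠ v → y w = n w v}

/-- The points lying on two different components. -/
def nodes {k : ℕ} (n : Fin k → Fin k → Sph) : Set (Fin k → Sph) :=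
  {y | ∃ v w, v ≠ w ∧ y ∈ comp n v ∧ y ∈ comp n w}

/-- The map to the product with the given coordinates. -/
def pt {k : ℕ} (φ : Fin k → C(Sph, Sph)) (x : Sph) : Fin k → Sph := fun v => φ v x

/-- A pre-stable rational curve (a connected nodal union of components, hence a tree of spheres)
with an orientation preserving marking by `(S^2, X)`. -/
structure Marking (X : Set Sph) where
  k : ℕ
  n : Fin k → Fin k → Sph
  φ : Fin k → C(Sph, Sph)
  nodal : ∀ y, {v | y ∈ comp n v}.encard ≤ 2
  onto : range (pt φ) = ⋃ v, comp n v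
  curve : ∀ y ∈ nodes n, ∃ γ : C(Circle, Sph),
    Injective γ ∧ range γ = pt φ ⁻¹' {y} ∧ Disjoint (range γ) X
  inj : InjOn (pt φ) (pt φ ⁻¹' (nodes n)ᶜ)
  orient : ∀ v, (φ v).Homotopic (ContinuousMap.id Sph)

/-- `β` is isotopic to the identity relative to `X`. -/
def IsoRel (X : Set Sph) (β : Sph → Sph) : Prop :=
  ∃ H : C(unitInterval × Sph, Sph), (∀ t, Bijective fun x => H (t, x)) ∧
    (∀ x, H (0, x) = x) ∧ (∀ x, H (1, x) = β x) ∧ ∀ t, ∀ x ∈ X, H (t, x) = x

/-- Markings that agree up to an isomorphism of curves and isotopy relative to `X`. -/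
def Equivalent {X : Set Sph} (m m' : Marking X) : Prop :=
  ∃ (σ : Fin m.k ≃ Fin m'.k) (g : Fin m.k → GL (Fin 2) ℂ) (β : Sph → Sph),
    IsoRel X β ∧ ∀ v x, m'.φ (σ v) (β x) = g v • m.φ v x

/-- Every component carries at least three nodes or marked points. -/
def Stable {X : Set Sph} (m : Marking X) : Prop :=
  ∀ v, 3 ≤ (comp m.n v ∩ (nodes m.n ∪ pt m.φ '' X)).encard

/-- Augmented Teichmueller space. -/
def AT (X : Set Sph) : Type :=
  Quot fun m m' : {m : Marking X // Stable m} => Equivalent m.1 m'.1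

/-- The Bers topology: markings are close when, component by component and up to Moebius maps,
representatives are uniformly close. -/
@[reducible] def bers (X : Set Sph) : TopologicalSpace (AT X) :=
  TopologicalSpace.generateFrom
    {U | ∃ (j : ℕ) (O : Fin j → Set C(Sph, Sph)), (∀ i, IsOpen (O i)) ∧
      U = Quot.mk _ '' {m : {m : Marking X // Stable m} |
        ∀ i, ∃ h ∈ O i, ∃ (v : Fin m.1.k) (g : GL (Fin 2) ℂ), ∀ x, h x = g • m.1.φ v x}}

/-- `F` is a surjective holomorphic map between the curves, sends nodes to nodes and has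
generically constant degree, globally and near each node. -/
def Admissible {A B : Set Sph} (ψ : Marking A) (φ : Marking B)
    (F : (Fin ψ.k → Sph) → (Fin φ.k → Sph)) : Prop :=
  (∀ v, ∃ w R d, RatDeg R d ∧ ∀ y ∈ comp ψ.n v, F y ∈ comp φ.n w ∧ F y w = R (y v)) ∧
  SurjOn F (range (pt ψ.φ)) (range (pt φ.φ)) ∧ MapsTo F (nodes ψ.n) (nodes φ.n) ∧
  (∃ d : ℕ, {z ∈ range (pt φ.φ) | (range (pt ψ.φ) ∩ F ⁻¹' {z}).encard ≠ d}.Finite) ∧
  ∀ y ∈ nodes ψ.n, ∃ d : ℕ, ∃ U₀ ∈ 𝓝 y, ∀ U ∈ 𝓝 y, U ⊆ U₀ →
    ∀ᶠ z in 𝓝[range (pt φ.φ) \ {F y}] (F y), (range (pt ψ.φ) ∩ U ∩ F ⁻¹' {z}).encard = d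

/-- `χ` represents the stabilisation of `m` as a marking by `(S^2, A)`: the components of `χ` are
the components of `m` that see three directions containing points of `A`, and the contraction of
`m` onto them is a uniform limit of markings isotopic to `χ` relative to `A`. -/
def IsStab (A : Set Sph) {X : Set Sph} (m : Marking X) (χ : Marking A) : Prop :=
  ∃ (σ : Fin χ.k → Fin m.k) (g : Fin χ.k → GL (Fin 2) ℂ), Injective σ ∧
    range σ = {v | 3 ≤ (m.φ v '' A).encard} ∧
    ∀ E ∈ 𝓝ˢ (diagonal Sph), ∃ β, IsoRel A β ∧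
      ∀ v x, (χ.φ v (β x), g v • m.φ (σ v) x) ∈ E

/-- The augmented deformation space of `f : (S^2, A) → (S^2, B)` with `ι` the identity. -/
def AD (f : Sph → Sph) (A B : Set Sph) : Set (AT B) :=
  {τ | ∃ φ : {m : Marking B // Stable m}, τ = Quot.mk _ φ ∧
    ∃ (ψ : Marking A) (F : (Fin ψ.k → Sph) → (Fin φ.1.k → Sph)),
      Admissible ψ φ.1 F ∧ (∀ x, F (pt ψ.φ x) = pt φ.1.φ (f x)) ∧
      ∃ χ : Marking A, Stable χ ∧ IsStab A ψ χ ∧ IsStab A φ.1 χ}

/-- Critical point: `f` is not injective on any neighbourhood. -/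
def Crit (f : Sph → Sph) (c : Sph) : Prop := ∀ U ∈ 𝓝 c, ¬ InjOn f U

/-- `f` is a quadratic rational map with critical points `c`, `c'`, where `c` has period four and
the critical value `f c'` is not in the cycle of `c`. -/
def Per4 (f : Sph → Sph) (c c' : Sph) : Prop :=
  RatDeg f 2 ∧ Crit f c ∧ Crit f c' ∧ c ≠ c' ∧ minimalPeriod f c = 4 ∧
    f c' ∉ range fun i : ℕ => f^[i] c

end

end Pool.Agent.Lib.MP_21db80_an
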