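import Pool.Agent.Lib.MP_21db80_an.Iso

/-!
Winding numbers; complex conjugation is not homotopic to the identity of the sphere.
-/

namespace Pool.Agent.Lib.MP_21db80_an

open OnePoint Set Topology Function Filter Metric unitInterval Complex ComplexConjugate

noncomputable section

lemma lift_exp {A : Type*} [TopologicalSpace A] {G : I × A → ℂ} (hG : Continuous G)
    (h0 : ∀ p, G p ≠ 0) {L₀ : A → ℂ} (hL : Continuous L₀) (he : ∀ a, exp (L₀ a) = G (0, a)) :
    ∃ L : I × A → ℂ, Continuous L ∧ (∀ p, exp (L p) = G p) ∧ ∀ a, L (0, a) = L₀ a := by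
  let H : C(I × A, {z : ℂ // z ≠ 0}) := ⟨fun p => ⟨G p, h0 p⟩, hG.subtype_mk _⟩
  have hh : ∀ a, H (0, a) = ⟨exp ((⟨L₀, hL⟩ : C(A, ℂ)) a), exp_ne_zero _⟩ :=
    fun a => Subtype.ext (he a).symm
  refine ⟨isCoveringMap_exp.liftHomotopy H ⟨L₀, hL⟩ hh, ContinuousMap.continuous _, fun p => ?_,
    fun a => isCoveringMap_exp.liftHomotopy_zero H ⟨L₀, hL⟩ hh a⟩
  exact congrArg Subtype.val (congrFun (isCoveringMap_exp.liftHomotopy_lifts H ⟨L₀, hL⟩ hh) p)

lemma exp_lift_unique {Y : Type*} [TopologicalSpace Y] [PreconnectedSpace Y] {f g : Y → ℂ}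
    (hf : Continuous f) (hg : Continuous g) (h : ∀ y, exp (f y) = exp (g y)) {y₀ : Y}
    (h0 : f y₀ = g y₀) : f = g :=
  isCoveringMap_exp.eq_of_comp_eq hf hg (funext fun y => Subtype.ext (h y)) y₀ h0

/-- The loop `γ` has winding number `n`. -/
def Wind (γ : I → ℂ) (n : ℤ) : Prop :=
  ∃ L : I → ℂ, Continuous L ∧ (∀ t, exp (L t) = γ t) ∧ L 1 - L 0 = n * (2 * Real.pi * Complex.I)

lemma Wind.unique {γ : I → ℂ} {n m : ℤ} (h : Wind γ n) (k : Wind γ m) : n = m := by
  obtain ⟨L, h1, h2, h3⟩ := h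
  obtain ⟨M, k1, k2, k3⟩ := k
  have := exp_lift_unique (f := fun t => L t - L 0) (g := fun t => M t - M 0) (by fun_prop)
    (by fun_prop) (fun t => by simp only [exp_sub, h2, k2]) (y₀ := 0) (by simp)
  have e := congrFun this 1
  simp only [h3, k3] at e
  exact_mod_cast mul_right_cancel₀ two_pi_I_ne_zero e

lemma Wind.mul {γ δ : I → ℂ} {n m : ℤ} (h : Wind γ n) (k : Wind δ m) :
    Wind (fun t => γ t * δ t) (n + m) := by
  obtain ⟨L, h1, h2, h3⟩ := h
  obtain ⟨M, k1, k2, k3⟩ := k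
  exact ⟨fun t => L t + M t, by fun_prop, fun t => by simp only [exp_add, h2, k2],
    by push_cast; linear_combination h3 + k3⟩

lemma Wind.congr {γ δ : I → ℂ} {n : ℤ} (h : Wind γ n) (e : ∀ t, γ t = δ t) : Wind δ n := by
  rwa [← funext e]

lemma Wind.homotopy {G : I × I → ℂ} (hG : Continuous G) (h0 : ∀ p, G p ≠ 0)
    (hl : ∀ s, G (s, 0) = G (s, 1)) {n : ℤ} (h : Wind (fun t => G (0, t)) n) :
    Wind (fun t => G (1, t)) n := by
  obtain ⟨L₀, h1, h2, h3⟩ := h
  obtain ⟨L, k1, k2, k3⟩ := lift_exp hG h0 h1 h2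
  refine ⟨fun t => L (1, t), by fun_prop, fun t => k2 _, ?_⟩
  have := exp_lift_unique (f := fun s : I => L (s, 1) - L (s, 0))
    (g := fun _ => n * (2 * Real.pi * Complex.I)) (by fun_prop) continuous_const
    (fun s => by rw [exp_sub, k2, k2, hl, div_self (h0 _), exp_int_mul_two_pi_mul_I]) (y₀ := 0)
    (by simp only [k3, h3])
  exact congrFun this 1

/-- The standard loop. -/
def circ (t : I) : ℂ := exp (t * (2 * Real.pi * Complex.I))

lemma continuous_circ : Continuous circ := by unfold circ; fun_prop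
lemma norm_circ (t : I) : ‖circ t‖ = 1 := by
  rw [circ, show ((t : ℝ) : ℂ) * (2 * Real.pi * Complex.I) = ((t * (2 * Real.pi) : ℝ) : ℂ) *
    Complex.I by push_cast; ring, norm_exp_ofReal_mul_I]
lemma circ_zero : circ 0 = 1 := by simp [circ]
lemma circ_one : circ 1 = 1 := by simp [circ]
lemma circ_ne (t : I) : circ t ≠ 0 := exp_ne_zero _
lemma conj_circ (t : I) : conj (circ t) = (circ t)⁻¹ := by
  rw [inv_eq_conj (norm_circ t)]

lemma wind_circ : Wind circ 1 := ⟨fun t => t * (2 * Real.pi * Complex.I), by fun_prop,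
  fun _ => rfl, by simp⟩

lemma wind_circ_inv : Wind (fun t => (circ t)⁻¹) (-1) :=
  ⟨fun t => -(t * (2 * Real.pi * Complex.I)), by fun_prop, fun _ => by rw [exp_neg]; rfl, by simp⟩

lemma wind_zero_of_disc {α : closedBall (0 : ℂ) 1 → ℂ} (hα : Continuous α) (h0 : ∀ z, α z ≠ 0)
    {c : I → closedBall (0 : ℂ) 1} (hc : Continuous c) (hl : c 0 = c 1) :
    Wind (fun t => α (c t)) 0 := by
  have hm : ∀ p : I × I, ((p.1 : ℝ) : ℂ) * (c p.2 : ℂ) ∈ closedBall (0 : ℂ) 1 := by
    intro p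
    have := mem_closedBall_zero_iff.1 (c p.2).2
    rw [mem_closedBall_zero_iff, norm_mul, norm_real, Real.norm_of_nonneg p.1.2.1]
    exact mul_le_one₀ p.1.2.2 (norm_nonneg _) this
  have := Wind.homotopy (G := fun p => α ⟨_, hm p⟩) (n := 0) (by fun_prop) (fun _ => h0 _)
    (fun s => by simp only [hl]) ⟨fun _ => log (α ⟨0, by simp⟩), continuous_const,
      fun t => by rw [exp_log (h0 _)]; simp, by simp⟩
  exact this.congr fun t => by simp

/-- Hermitian product. -/
def herm (v w : ℂ × ℂ) : ℂ := v.1 * conj w.1 + v.2 * conj w.2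

lemma herm_self_ne {v : ℂ × ℂ} (hv : v ≠ 0) : herm v v ≠ 0 := by
  rw [herm, mul_conj, mul_conj, ← ofReal_add, ofReal_ne_zero]
  rcases ne_zero_iff.1 hv with h | h
  · have := normSq_pos.2 h; have := normSq_nonneg v.2; positivity
  · have := normSq_pos.2 h; have := normSq_nonneg v.1; positivity

lemma herm_smul (s t : ℂ) (v w : ℂ × ℂ) : herm (s • v) (t • w) = s * conj t * herm v w := by
  simp [herm]; ring

/-- Orthogonal projection on the line `x`. -/
def tp (x : Sph) (v : ℂ × ℂ) : ℂ × ℂ := (herm v (lft x) / herm (lft x) (lft x)) • lft x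

lemma tp_pr {w : ℂ × ℂ} (hw : w ≠ 0) (v : ℂ × ℂ) :
    tp (pr w) v = (herm v w / herm w w) • w := by
  obtain ⟨t, ht, e⟩ := exists_smul_of_pr_eq hw (lft_ne (pr w)) (pr_lft _).symm
  have h1 : herm v (t • w) = conj t * herm v w := by simpa using herm_smul 1 t v w
  have h2 := herm_self_ne hw
  have h3 : conj t ≠ 0 := by simpa using ht
  rw [tp, e, h1, herm_smul, smul_smul]
  congr 1
  field_simp

lemma continuousAt_tp {Y : Type*} [TopologicalSpace Y] {x : Y → Sph} {v : Y → ℂ × ℂ} {y₀ : Y}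
    (hx : ContinuousAt x y₀) (hv : ContinuousAt v y₀) :
    ContinuousAt (fun y => tp (x y) (v y)) y₀ := by
  obtain ⟨w, hw, hw'⟩ := lift_map hx
  have h0 := hw'.self_of_nhds
  have : ContinuousAt (fun y => (herm (v y) (w y) / herm (w y) (w y)) • w y) y₀ := by
    have : ContinuousAt (fun y => herm (v y) (w y) / herm (w y) (w y)) y₀ := by
      refine ContinuousAt.div ?_ ?_ (herm_self_ne h0.1) <;> unfold herm <;> fun_prop
    exact this.smul hw
  refine this.congr ?_
  filter_upwards [hw'] with y hy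
  rw [← hy.2, tp_pr hy.1]

lemma exists_nonorth : ∃ ε > 0, ∀ v w : ℂ × ℂ, v ≠ 0 → w ≠ 0 → dist (pr v) (pr w) < ε →
    herm v w ≠ 0 := by
  let E : Set (Sph × Sph) := {p | herm (lft p.1) (lft p.2) ≠ 0}
  have key : ∀ v w : ℂ × ℂ, v ≠ 0 → w ≠ 0 → ((pr v, pr w) ∈ E ↔ herm v w ≠ 0) := by
    intro v w hv hw
    obtain ⟨s, hs, e1⟩ := exists_smul_of_pr_eq hv (lft_ne (pr v)) (pr_lft _).symm
    obtain ⟨t, ht, e2⟩ := exists_smul_of_pr_eq hw (lft_ne (pr w)) (pr_lft _).symm
    simp only [E, mem_ofPred_eq, e1, e2, herm_smul]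
    simp [hs, ht]
  have hE : IsOpen E := by
    rw [isOpen_iff_mem_nhds]
    intro p hp
    obtain ⟨v, hv, hv'⟩ := lift_map (continuousAt_fst (p := p))
    obtain ⟨w, hw, hw'⟩ := lift_map (continuousAt_snd (p := p))
    have hv0 := hv'.self_of_nhds
    have hw0 := hw'.self_of_nhds
    have h1 : herm (v p) (w p) ≠ 0 := by
      rw [← key _ _ hv0.1 hw0.1, hv0.2, hw0.2]; exact hp
    have h2 : ContinuousAt (fun q => herm (v q) (w q)) p := by unfold herm; fun_prop
    filter_upwards [hv', hw', h2.eventually_ne h1] with q a1 a2 a3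
    have := (key _ _ a1.1 a2.1).2 a3
    rwa [a1.2, a2.2] at this
  obtain ⟨ε, hε, h⟩ := (isClosed_diagonal (X := Sph)).isCompact.exists_thickening_subset_open hE
    (by rintro ⟨x, y⟩ (rfl : x = y); exact herm_self_ne (lft_ne x))
  refine ⟨ε, hε, fun v w hv hw hd => (key v w hv hw).1 (h ?_)⟩
  exact mem_thickening_iff.2 ⟨(pr w, pr w), rfl, by simpa [Prod.dist_eq, hε] using hd⟩

/-- Homotopy lifting to homogeneous coordinates. -/
lemma lift_hom {Y : Type*} [PseudoMetricSpace Y] [CompactSpace Y] {X : I × Y → Sph}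
    (hX : Continuous X) {v₀ : Y → ℂ × ℂ} (hv : Continuous v₀) (h0 : ∀ y, v₀ y ≠ 0)
    (hp : ∀ y, pr (v₀ y) = X (0, y)) : ∃ V : I × Y → ℂ × ℂ, Continuous V ∧ (∀ p, V p ≠ 0) ∧
      (∀ p, pr (V p) = X p) ∧ ∀ y, V (0, y) = v₀ y := by
  obtain ⟨ε, hε, hE⟩ := exists_nonorth
  obtain ⟨δ, hδ, hδ'⟩ := Metric.uniformContinuous_iff.1
    (CompactSpace.uniformContinuous_of_continuous hX) ε hε
  let cl : ℕ → I → I := fun j t => projIcc 0 1 zero_le_one (min (t : ℝ) (j * (δ / 2)))
  have hcl : ∀ j, Continuous (cl j) := fun j => continuous_projIcc.comp (by fun_prop)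
  have hcl0 : ∀ j, cl j 0 = 0 := fun j => by
    simp only [cl]
    rw [show min ((0 : I) : ℝ) (j * (δ / 2)) = 0 from min_eq_left (by simp; positivity)]
    simp
  have key : ∀ j : ℕ, ∃ V : I × Y → ℂ × ℂ, Continuous V ∧ (∀ p, V p ≠ 0) ∧
      (∀ p, pr (V p) = X (cl j p.1, p.2)) ∧ ∀ y, V (0, y) = v₀ y := by
    intro j
    induction j with
    | zero =>
      refine ⟨fun p => v₀ p.2, by fun_prop, fun p => h0 _, fun p => ?_, fun _ => rfl⟩
      rw [hp]
      simp only [cl, Nat.cast_zero, zero_mul]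
      rw [min_eq_right p.1.2.1]; simp
    | succ j ih =>
      obtain ⟨V, h1, h2, h3, h4⟩ := ih
      have hne : ∀ p : I × Y, herm (V p) (lft (X (cl (j + 1) p.1, p.2))) ≠ 0 := by
        intro p
        refine hE _ _ (h2 p) (lft_ne _) ?_
        rw [h3, pr_lft]
        apply hδ'
        rw [Prod.dist_eq, dist_self, max_lt_iff]
        refine ⟨?_, hδ⟩
        refine ((LipschitzWith.projIcc zero_le_one).dist_le_mul _ _).trans_lt ?_
        rw [Real.dist_eq, NNReal.coe_one, one_mul]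
        refine lt_of_le_of_lt (abs_min_sub_min_le_max _ _ _ _) ?_
        push_cast
        rw [show (j : ℝ) * (δ / 2) - (j + 1) * (δ / 2) = -(δ / 2) by ring, abs_neg,
          abs_of_pos (half_pos hδ), sub_self, abs_zero, max_lt_iff]
        constructor <;> linarith
      have hs : ∀ p : I × Y, herm (V p) (lft (X (cl (j + 1) p.1, p.2))) /
          herm (lft (X (cl (j + 1) p.1, p.2))) (lft (X (cl (j + 1) p.1, p.2))) ≠ 0 :=
        fun p => div_ne_zero (hne p) (herm_self_ne (lft_ne _))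
      refine ⟨fun p => tp (X (cl (j + 1) p.1, p.2)) (V p), ?_, fun p => ?_, fun p => ?_,
        fun y => ?_⟩
      · exact continuous_iff_continuousAt.2 fun p => continuousAt_tp
          (hX.comp (((hcl _).comp continuous_fst).prodMk continuous_snd)).continuousAt
          h1.continuousAt
      · exact smul_ne_zero (hs p) (lft_ne _)
      · simp only [tp]; rw [pr_smul (hs p), pr_lft]
      · simp only [hcl0, h4]
        rw [← hp, tp_pr (h0 y), div_self (herm_self_ne (h0 y)), one_smul]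
  obtain ⟨N, hN⟩ := exists_nat_ge (1 / (δ / 2))
  obtain ⟨V, h1, h2, h3, h4⟩ := key N
  refine ⟨V, h1, h2, fun p => ?_, h4⟩
  rw [h3]
  have : (p.1 : ℝ) ≤ N * (δ / 2) := by
    rw [div_le_iff₀ (half_pos hδ)] at hN; linarith [p.1.2.2]
  simp only [cl]
  rw [min_eq_left this]; simp

/-- Complex conjugation on the sphere. -/
def cj : Sph ≃ₜ Sph := (conjCLE.toHomeomorph).onePointCongr

@[simp] lemma cj_coe (z : ℂ) : cj (z : Sph) = ((conj z : ℂ) : Sph) := rfl
@[simp] lemma cj_infty : cj ∞ = ∞ := rfl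

lemma cj_pr (v : ℂ × ℂ) : cj (pr v) = pr (conj v.1, conj v.2) := by
  unfold pr; split_ifs with h1 h2 h2 <;> simp_all

lemma ratio_cont {Y : Type*} [TopologicalSpace Y] {v w : Y → ℂ × ℂ} (hv : Continuous v)
    (hw : Continuous w) (h1 : ∀ y, v y ≠ 0) (h2 : ∀ y, w y ≠ 0) (h : ∀ y, pr (v y) = pr (w y)) :
    ∃ g : Y → ℂ, Continuous g ∧ (∀ y, g y ≠ 0) ∧ ∀ y, v y = g y • w y := by
  have key : ∀ y, herm (v y) (w y) / herm (w y) (w y) ≠ 0 ∧
      v y = (herm (v y) (w y) / herm (w y) (w y)) • w y := by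
    intro y
    obtain ⟨t, ht, e⟩ := exists_smul_of_pr_eq (h2 y) (h1 y) (h y).symm
    have : herm (v y) (w y) / herm (w y) (w y) = t := by
      have h3 := herm_smul t 1 (w y) (w y)
      rw [e, div_eq_iff (herm_self_ne (h2 y))]; simpa using h3
    rw [this]; exact ⟨ht, e⟩
  refine ⟨fun y => herm (v y) (w y) / herm (w y) (w y), ?_, fun y => (key y).1, fun y => (key y).2⟩
  refine Continuous.div ?_ ?_ fun y => herm_self_ne (h2 y) <;> unfold herm <;> fun_prop

theorem not_hid_cj : ¬ Hid cj := by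
  rintro ⟨H, hH, h0, h1⟩
  have c1 : Continuous fun z : closedBall (0 : ℂ) 1 => pr ((z : ℂ), 1) :=
    continuous_iff_continuousAt.2 fun z => (continuousAt_pr (by simp)).comp
      (f := fun z : closedBall (0 : ℂ) 1 => ((z : ℂ), (1 : ℂ))) (by fun_prop)
  have c2 : Continuous fun z : closedBall (0 : ℂ) 1 => pr (1, (z : ℂ)) :=
    continuous_iff_continuousAt.2 fun z => (continuousAt_pr (by simp)).comp
      (f := fun z : closedBall (0 : ℂ) 1 => ((1 : ℂ), (z : ℂ))) (by fun_prop)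
  obtain ⟨V, v1, v2, v3, v4⟩ := lift_hom
    (X := fun p : I × closedBall (0 : ℂ) 1 => H (p.1, pr ((p.2 : ℂ), 1)))
    (hH.comp (continuous_fst.prodMk (c1.comp continuous_snd)))
    (v₀ := fun z => ((z : ℂ), 1)) (by fun_prop) (by simp) (fun z => by rw [h0])
  obtain ⟨W, w1, w2, w3, w4⟩ := lift_hom
    (X := fun p : I × closedBall (0 : ℂ) 1 => H (p.1, pr (1, (p.2 : ℂ))))
    (hH.comp (continuous_fst.prodMk (c2.comp continuous_snd)))
    (v₀ := fun z => (1, (z : ℂ))) (by fun_prop) (by simp) (fun z => by rw [h0])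
  let c : I → closedBall (0 : ℂ) 1 := fun t => ⟨circ t, by simp [norm_circ]⟩
  let c' : I → closedBall (0 : ℂ) 1 := fun t => ⟨(circ t)⁻¹, by simp [norm_circ]⟩
  have hc : Continuous c := continuous_circ.subtype_mk _
  have hc' : Continuous c' := (continuous_circ.inv₀ circ_ne).subtype_mk _
  have hl : c 0 = c 1 := by simp [c, circ_zero, circ_one]
  have hl' : c' 0 = c' 1 := by simp [c', circ_zero, circ_one]
  obtain ⟨g, g1, g2, g3⟩ := ratio_cont (v := fun p : I × I => V (p.1, c p.2))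
    (w := fun p => W (p.1, c' p.2)) (by fun_prop) (by fun_prop) (fun _ => v2 _) (fun _ => w2 _)
    fun p => by
      rw [v3, w3]
      simp only [c, c']
      rw [pr_of_ne (inv_ne_zero (circ_ne _))]; simp
  obtain ⟨α, a1, a2, a3⟩ := ratio_cont (v := fun z : closedBall (0 : ℂ) 1 => V (1, z))
    (w := fun z => (conj (z : ℂ), 1)) (by fun_prop) (by fun_prop) (fun _ => v2 _) (by simp)
    fun z => by rw [v3, h1, cj_pr]; simp
  obtain ⟨β, b1, b2, b3⟩ := ratio_cont (v := fun z : closedBall (0 : ℂ) 1 => W (1, z))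
    (w := fun z => (1, conj (z : ℂ))) (by fun_prop) (by fun_prop) (fun _ => w2 _) (by simp)
    fun z => by rw [w3, h1, cj_pr]; simp
  have e0 : Wind (fun t => g (0, t)) 1 := wind_circ.congr fun t => by
    have := congrArg Prod.fst (g3 (0, t))
    simpa [v4, w4, c] using this
  have e1 := Wind.homotopy g1 g2 (fun s => by
    have h2 := g3 (s, 0)
    have h3 := g3 (s, 1)
    simp only [hl, hl'] at h2
    rw [h2] at h3
    exact smul_left_injective ℂ (w2 _) h3) e0
  have e2 := e1.mul (wind_zero_of_disc b1 b2 hc' hl')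
  have e3 := (wind_zero_of_disc a1 a2 hc hl).mul wind_circ_inv
  have := (e2.congr (δ := fun t => α (c t) * (circ t)⁻¹) fun t => by
    have h2 := congrArg Prod.fst (g3 (1, t))
    rw [a3, b3] at h2
    simpa [c, conj_circ] using h2.symm).unique e3
  simp at this

end

end Pool.Agent.Lib.MP_21db80_an
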