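import Pool.Agent.Lib.MP_21db80_an.Key

/-!
The augmented deformation space is disconnected.
-/

namespace Pool.Agent.Lib.MP_21db80_an

open OnePoint Set Topology Function Filter Metric unitInterval

noncomputable section

/-- The marking with one component given by a homeomorphism. -/
def one (X : Set Sph) (h : Sph ≃ₜ Sph) (hh : IsoRel ∅ h) : Marking X where
  k := 1
  n := fun _ _ => ∞
  φ := fun _ => (h : C(Sph, Sph))
  nodal y := (encard_le_encard (subset_univ _)).trans (by simp)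
  onto := by
    ext y
    simp only [mem_iUnion]
    refine ⟨fun _ => ⟨0, fun w hw => (hw (Subsingleton.elim _ _)).elim⟩, fun _ =>
      ⟨h.symm (y 0), funext fun v => ?_⟩⟩
    rw [Subsingleton.elim v 0]; simp [pt]
  curve := fun y ⟨v, w, h1, _⟩ => (h1 (Subsingleton.elim _ _)).elim
  inj := fun x _ y _ e => h.injective (congrFun e 0)
  orient := fun _ => Hid.homotopic hh.hid

instance oneSub (X : Set Sph) (h : Sph ≃ₜ Sph) (hh : IsoRel ∅ h) :
    Subsingleton (Fin (one X h hh).k) := inferInstanceAs (Subsingleton (Fin 1))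

lemma one_comp {X : Set Sph} {h : Sph ≃ₜ Sph} {hh : IsoRel ∅ h} (v) (y) :
    y ∈ comp (one X h hh).n v := fun _ hw => (hw (Subsingleton.elim _ _)).elim

lemma one_nodes {X : Set Sph} {h : Sph ≃ₜ Sph} {hh : IsoRel ∅ h} {y} :
    y ∉ nodes (one X h hh).n := fun ⟨_, _, h1, _⟩ => h1 (Subsingleton.elim _ _)

lemma one_inj {X : Set Sph} {h : Sph ≃ₜ Sph} {hh : IsoRel ∅ h} : Injective (pt (one X h hh).φ) :=
  fun _ _ e => h.injective (congrFun e (0 : Fin 1))

lemma one_stable {X : Set Sph} (hX : 3 ≤ X.encard) {h : Sph ≃ₜ Sph} {hh : IsoRel ∅ h} :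
    Stable (one X h hh) := fun v => by
  refine hX.trans ?_
  rw [← one_inj.encard_image]
  exact encard_le_encard fun y hy => ⟨one_comp v y, Or.inr hy⟩

lemma one_isStab {A X : Set Sph} (hA : 3 ≤ A.encard) {h : Sph ≃ₜ Sph} (hh : IsoRel A h) :
    IsStab A (one X h (hh.mono (empty_subset _))) (one A (.refl _) (isoRel_id _)) := by
  refine ⟨id, fun _ => 1, injective_id, ?_, fun E hE => ⟨h, hh, fun v x => ?_⟩⟩
  · refine range_id.trans (eq_univ_iff_forall.2 fun v => ?_).symm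
    exact hA.trans_eq (h.injective.encard_image A).symm
  · rw [one_smul]
    exact subset_of_mem_nhdsSet hE rfl

lemma one_near {X : Set Sph} {h : Sph ≃ₜ Sph} {hh : IsoRel ∅ h} {ε : ℝ} (hε : 0 < ε) :
    Near (one X h hh) ε h := ⟨hh, fun _ => ⟨id, isMob_id, fun _ => (dist_self _).trans_lt hε⟩⟩

namespace Setup

variable (S : Setup)

lemma card : 3 ≤ S.A.encard := by
  have : ({S.a3, S.a0, S.a2} : Set Sph).encard = 3 :=
    encard_eq_three.2 ⟨_, _, _, S.dL.1, S.dL.2.2, S.dL.2.1, rfl⟩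
  rw [← this]
  refine encard_le_encard ?_
  rintro x (rfl | rfl | rfl)
  exacts [S.m3, S.m0, S.m2]

lemma cardB : 3 ≤ S.B.encard := S.card.trans (encard_le_encard S.hAB)

lemma surj : Surjective S.f := by
  rw [funext S.ef]; exact S.μ.surjective.comp (sqS_surj.comp S.ν.surjective)

lemma mem_AD {φ ψ : Sph ≃ₜ Sph} (hφ : IsoRel S.A φ) (hψ : IsoRel S.A ψ)
    (e : ∀ x, S.f (ψ x) = φ (S.f x)) :
    Quot.mk _ ⟨one S.B φ (hφ.mono (empty_subset _)), one_stable S.cardB⟩ ∈ AD S.f S.A S.B := by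
  refine ⟨_, rfl, one S.A ψ (hψ.mono (empty_subset _)), fun y _ => S.f (y (0 : Fin 1)),
    ⟨fun v => ⟨(0 : Fin 1), S.f, 2, S.deg, fun y _ =>
      ⟨one_comp (hh := hφ.mono (empty_subset _)) _ _, ?_⟩⟩, ?_,
      fun y hy => (one_nodes hy).elim, ⟨2, ?_⟩, fun y hy => (one_nodes hy).elim⟩,
    fun x => funext fun _ => e x, _, one_stable S.card, one_isStab S.card hψ, one_isStab S.card hφ⟩
  · rw [Subsingleton.elim v (0 : Fin 1)]
  · rintro _ ⟨x, rfl⟩
    obtain ⟨x, rfl⟩ := S.surj x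
    exact ⟨_, ⟨x, rfl⟩, funext fun _ => e x⟩
  · refine (toFinite {fun _ => S.μ o0, fun _ => S.μ ∞}).subset ?_
    rintro _ ⟨⟨x, rfl⟩, hx⟩
    by_contra hn
    obtain ⟨s, hs⟩ := sqS_surj (S.μ.symm (φ x))
    have h1 : ngS s ≠ s := fun h => hn (by
      rcases ngS_eq_self.1 h with rfl | rfl
      · exact Or.inl (funext fun _ => by
          rw [sqS_o0, Homeomorph.eq_symm_apply] at hs; exact hs.symm)
      · exact Or.inr (funext fun _ => by
          rw [sqS_infty, Homeomorph.eq_symm_apply] at hs; exact hs.symm))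
    refine hx (encard_eq_two.2 ⟨fun _ => S.ν.symm s, fun _ => S.ν.symm (ngS s),
      fun h => h1 (S.ν.symm.injective (congrFun h (0 : Fin 1))).symm, ?_⟩)
    ext y
    have h2 : y ∈ range (pt (one S.A ψ (hψ.mono (empty_subset _))).φ) := by
      rw [Marking.onto]; exact mem_iUnion.2 ⟨(0 : Fin 1), one_comp _ _⟩
    have h3 : ∀ z, y = (fun _ => z) ↔ y (0 : Fin 1) = z := fun z =>
      ⟨fun h => congrFun h _, fun h => funext fun v => by rw [Subsingleton.elim v (0 : Fin 1), h]⟩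
    have h4 : (fun _ => S.f (y (0 : Fin 1))) = pt (one S.B φ (hφ.mono (empty_subset _))).φ x ↔
        S.f (y (0 : Fin 1)) = φ x := ⟨fun h => congrFun h (0 : Fin 1), fun h => funext fun _ => h⟩
    simp only [mem_inter_iff, h2, true_and, mem_preimage, mem_singleton_iff, mem_insert_iff, h3]
    refine h4.trans ?_
    rw [S.ef, ← Homeomorph.eq_symm_apply, ← hs, sqS_eq_iff, Homeomorph.eq_symm_apply,
      Homeomorph.eq_symm_apply]

/-- The set where the invariant takes the value `n`. -/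
def O (n : ℤ) : Set (AT S.B) := {τ | Quot.lift (fun m : {m : Marking S.B // Stable m} => S.Val m.1 n)
  (fun _ _ h => propext ⟨Val.of_equiv h.symm, Val.of_equiv h⟩) τ}

lemma isOpen_O (n : ℤ) : IsOpen[bers S.B] (S.O n) := by
  let _ := bers S.B
  refine isOpen_iff_forall_mem_open.2 ?_
  rintro ⟨m⟩ ⟨ε, hε, H⟩
  refine ⟨_, ?_, TopologicalSpace.GenerateOpen.basic _ ⟨m.1.k, fun i => ball (m.1.φ i) (ε / 2),
    fun _ => isOpen_ball, rfl⟩, m, fun i => ⟨_, mem_ball_self (by positivity), i, 1, by simp⟩, rfl⟩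
  rintro _ ⟨m', hm', rfl⟩
  choose k k1 v g k2 using hm'
  obtain ⟨ε', hε', K⟩ := unif_fin g (η := ε / 2) (by positivity)
  refine ⟨ε', hε', fun h hn => H h ⟨hn.1, fun i => ?_⟩⟩
  obtain ⟨M, hM, hd⟩ := hn.2 (v i)
  refine ⟨_, (isMob_smul (g i)).comp hM, fun x => ?_⟩
  have a1 := K i _ _ (hd x)
  have a2 := (ContinuousMap.dist_apply_le_dist x).trans_lt (mem_ball.1 (k1 i))
  rw [← k2] at a1
  exact (dist_triangle _ _ _).trans_lt (by simp only [Function.comp]; linarith)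

lemma cover {τ : AT S.B} (h : τ ∈ AD S.f S.A S.B) : ∃ n, τ ∈ S.O n := by
  obtain ⟨φ, rfl, ψ, F, hF, e, χ, -, h1, h2⟩ := h
  exact key hF e h1 h2

lemma point {φ ψ : Sph ≃ₜ Sph} (hφ : IsoRel S.A φ) (hψ : IsoRel S.A ψ)
    (e : ∀ x, S.f (ψ x) = φ (S.f x)) {ζ : ℂ} (hζ : S.VH φ ζ) :
    ∃ τ ∈ AD S.f S.A S.B, ∃ n, τ ∈ S.O n ∧ ‖ζ - n * (2 * Real.pi * Complex.I)‖ < 1 := by
  obtain ⟨n, ε, hε, H⟩ := S.cover (S.mem_AD hφ hψ e)
  exact ⟨_, S.mem_AD hφ hψ e, n, ⟨ε, hε, H⟩, H φ (one_near (hh := hφ.mono (empty_subset _)) hε) ζ hζ⟩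

lemma point_zero : ∃ τ ∈ AD S.f S.A S.B, τ ∈ S.O 0 := by
  obtain ⟨τ, h1, n, h2, h3⟩ := S.point (φ := .refl _) (ψ := .refl _) (isoRel_id _) (isoRel_id _)
    (fun _ => rfl) ⟨_, _, _, _, _, _, S.q3, Data.refl _, fun x => S.NL_apply x, rfl⟩
  rw [zero_sub, norm_neg] at h3
  have h4 := eq_zero_of_exp (Complex.exp_int_mul_two_pi_mul_I _) (h3.trans one_lt_two)
  rw [mul_eq_zero, or_iff_left Complex.two_pi_I_ne_zero, Int.cast_eq_zero] at h4
  exact ⟨τ, h1, h4 ▸ h2⟩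

lemma point_one : ∃ τ ∈ AD S.f S.A S.B, ∃ n ≠ 0, τ ∈ S.O n := by
  obtain ⟨u, l, U, L, Λ, hD, hΛ, hu, hl⟩ := exists_twist S.q3 S.mobL S.mobU S.eG
    (p := S.w0.1) (q := S.w0.2) (by rw [pw_p]; simp [S.crit])
    (by rw [Homeomorph.trans_apply, μ_infty, pw_q]) S.pB S.qB S.vB
  have hφ : IsoRel S.A ((S.NL.trans l).trans S.NL.symm) := hl.conj S.NL (by
    rw [S.hA]
    rintro x (rfl | rfl | rfl | rfl)
    · rw [NL_apply, nrm_snd S.dL]; exact Or.inr o1_mem
    · exact Or.inl S.pw_q.symm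
    · rw [NL_apply, nrm_trd]; exact Or.inr infty_mem
    · rw [NL_apply, nrm_fst S.dL]; exact Or.inr o0_mem)
  have hψ : IsoRel S.A ((S.NU.trans u).trans S.NU.symm) := hu.conj S.NU (by
    rw [S.hA]
    rintro x (rfl | rfl | rfl | rfl)
    · exact Or.inl S.pw_p.symm
    · rw [NU_apply, nrm_trd]; exact Or.inr infty_mem
    · rw [NU_apply, nrm_fst S.dU]; exact Or.inr o0_mem
    · rw [NU_apply, nrm_snd S.dU]; exact Or.inr o1_mem)
  obtain ⟨τ, h1, n, h2, h3⟩ := S.point hφ hψ (fun x => by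
    simp only [Homeomorph.trans_apply]
    rw [Homeomorph.eq_symm_apply, ← G0_NU, ← G0_NU, ← hD.comm, Homeomorph.apply_symm_apply])
    ⟨_, _, _, _, _, _, S.q3, hD, fun x => by
      rw [nm, hφ.fix S.m3, hφ.fix S.m0, hφ.fix S.m2, ← NL_apply]; simp, hΛ⟩
  refine ⟨τ, h1, n, ?_, h2⟩
  rintro rfl
  exact Complex.two_pi_I_ne_zero (eq_zero_of_exp Complex.exp_two_pi_mul_I
    (by simp only [Int.cast_zero, zero_mul, sub_zero] at h3; exact h3.trans one_lt_two))

theorem main : ¬ @IsPreconnected _ (bers S.B) (AD S.f S.A S.B) := by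
  let _ := bers S.B
  intro h
  obtain ⟨τ, h1, h2⟩ := S.point_zero
  obtain ⟨τ', h3, n, h4, h5⟩ := S.point_one
  obtain ⟨⟨m⟩, -, h6, h7⟩ := h (S.O 0) (⋃ n ≠ 0, S.O n) (S.isOpen_O 0)
    (isOpen_biUnion fun n _ => S.isOpen_O n) (fun τ hτ => by
      obtain ⟨n, hn⟩ := S.cover hτ
      by_cases e : n = 0
      · exact Or.inl (e ▸ hn)
      · exact Or.inr (mem_biUnion e hn)) ⟨τ, h1, h2⟩ ⟨τ', h3, mem_biUnion h4 h5⟩
  obtain ⟨n, h8, h9⟩ := mem_iUnion₂.1 h7
  exact h8 (Val.unique (m := m.1) h9 h6)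

end Setup

theorem per4_main {f : Sph → Sph} {c c' : Sph} (h : Per4 f c c') {B : Set Sph}
    (hAB : (range fun i : ℕ => f^[i] c) ⊆ B) (hv : f c' ∈ B) :
    ¬ @IsPreconnected _ (bers B) (AD f (range fun i : ℕ => f^[i] c) B) := by
  obtain ⟨h1, h2, h3, h4, h5, h6⟩ := h
  obtain ⟨μ₀, ν₀, hμ₀, hν₀, e₀⟩ := h1.nf
  obtain ⟨μ, ν, hμ, hν, e, n1, n2⟩ := nf_swap hμ₀ hν₀ e₀ ((crit_iff e₀).1 h2) ((crit_iff e₀).1 h3)
    (ν₀.injective.ne h4)
  have ne : ∀ i j, i < 4 → j < 4 → i ≠ j → f^[i] c ≠ f^[j] c := fun i j hi hj hij e =>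
    hij (iterate_injOn_Iio_minimalPeriod (by rwa [h5]) (by rwa [h5]) e)
  have p4 : f (f^[3] c) = f^[0] c := by
    have := iterate_minimalPeriod (f := f) (x := c)
    rwa [h5, iterate_succ_apply'] at this
  obtain ⟨d, d1, d2⟩ := exists_d
  obtain ⟨q, hq⟩ := pw_surj (nrm (f^[3] c) (f^[0] c) (f^[2] c) (f^[1] c))
  have hv' : μ o0 = f c' := by rw [e, n2, sqS_o0]
  refine Setup.main ⟨f, μ, ν, f^[0] c, f^[1] c, f^[2] c, f^[3] c, _, B, q, d, hμ, hν, e, h1, rfl,
    (iterate_succ_apply' _ _ _).symm, (iterate_succ_apply' _ _ _).symm, p4,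
    ⟨ne _ _ (by norm_num) (by norm_num) (by norm_num), ne _ _ (by norm_num) (by norm_num) (by norm_num),
      ne _ _ (by norm_num) (by norm_num) (by norm_num)⟩,
    ⟨ne _ _ (by norm_num) (by norm_num) (by norm_num), ne _ _ (by norm_num) (by norm_num) (by norm_num),
      ne _ _ (by norm_num) (by norm_num) (by norm_num)⟩,
    ne _ _ (by norm_num) (by norm_num) (by norm_num), n1, ?_, hAB, hv' ▸ hv, hv' ▸ h6, hq,
    fun e => d1 (e ▸ zero_mem _), d2⟩
  ext x
  simp only [mem_range, mem_insert_iff, mem_singleton_iff]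
  refine ⟨?_, ?_⟩
  · rintro ⟨i, rfl⟩
    rw [← iterate_mod_minimalPeriod_eq, h5]
    have := Nat.mod_lt i (show 4 > 0 by norm_num)
    generalize i % 4 = j at this
    interval_cases j <;> simp
  · rintro (h | h | h | h) <;> exact ⟨_, h.symm⟩

/-- An explicit example. -/
theorem exists_per4 : ∃ f c c', Per4 f c c' ∧ ∀ x, Crit f x → x = c ∨ x = c' := by
  let μ := mobH 1 (-49) 2 (-50) (by norm_num)
  let ν := mobH 7 (-1) 1 (-1) (by norm_num)
  let f : Sph → Sph := fun x => μ (sqS (ν x))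
  have e : ∀ v : ℂ × ℂ, v ≠ 0 → f (pr v) =
      pr (4 * v.2 ^ 2 - 7 * v.1 * v.2, 4 * v.2 ^ 2 - 6 * v.1 * v.2 - 4 * v.1 ^ 2) := fun v hv => by
    change mob _ _ _ _ (sqS (mob _ _ _ _ _)) = _
    rw [mob_pr _ _ _ _ hv, sqS_pr, mob_pr _ _ _ _ (sq_ne (lin_ne (by norm_num) hv)),
      ← pr_mul (c := -12) (by norm_num) (4 * v.2 ^ 2 - _)]
    congr 2 <;> ring
  have ez : ∀ z : ℂ, f z = pr (4 - 7 * z, 4 - 6 * z - 4 * z ^ 2) := fun z => by
    simpa using e (z, 1) (by simp)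
  have f0 : f o1 = ((1 / 2 : ℂ) : Sph) := by rw [ez, pr_of_ne (by norm_num)]; norm_num
  have f1 : f ((1 / 2 : ℂ) : Sph) = ∞ := by rw [ez, pr_eq_infty_iff]; norm_num
  have f2 : f ∞ = o0 := by
    have := e (1, 0) (by simp)
    rw [pr_zero_right, pr_of_ne (by norm_num)] at this
    rw [this]; norm_num
  have f3 : f o0 = o1 := by rw [ez, pr_of_ne (by norm_num)]; norm_num
  have fv : f ((1 / 7 : ℂ) : Sph) = ((49 / 50 : ℂ) : Sph) := by
    rw [ez, pr_of_ne (by norm_num)]; norm_num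
  have n1 : ν o1 = ∞ := by
    change mob _ _ _ _ _ = _
    rw [mob_coe, pr_eq_infty_iff]; norm_num
  have n2 : ν ((1 / 7 : ℂ) : Sph) = o0 := by
    change mob _ _ _ _ _ = _
    rw [mob_coe, pr_of_ne (by norm_num)]; norm_num
  have p4 : IsPeriodicPt f 4 o1 := by
    simp only [IsPeriodicPt, IsFixedPt, iterate_succ_apply, iterate_zero_apply, f0, f1, f2, f3]
  have hc := fun x => crit_iff (f := f) (μ := μ) (ν := ν) (fun _ => rfl) (c := x)
  refine ⟨f, o1, ((1 / 7 : ℂ) : Sph), ⟨⟨μ.continuous.comp (continuous_sqS.comp ν.continuous),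
    4 - 7 * Polynomial.X, 4 - 6 * Polynomial.X - 4 * Polynomial.X ^ 2,
    ⟨Polynomial.C (1 / 36) * (28 * Polynomial.X + 58), Polynomial.C (1 / 36) * (-49), ?_⟩, ?_,
    fun z => by rw [ez]; simp [pr]⟩, (hc _).2 (Or.inr n1), (hc _).2 (Or.inl n2), by
      rw [Ne, coe_eq_coe]; norm_num, ?_, ?_⟩, fun x hx => ?_⟩
  · have : (Polynomial.C (1 / 36 : ℂ)) * 36 = 1 := by
      rw [← map_ofNat Polynomial.C, ← map_mul]; norm_num
    linear_combination this
  · have a1 : (4 - 7 * Polynomial.X : Polynomial ℂ).natDegree = 1 := by compute_degree!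
    have a2 : (4 - 6 * Polynomial.X - 4 * Polynomial.X ^ 2 : Polynomial ℂ).natDegree = 2 := by
      compute_degree!
    rw [a1, a2]; rfl
  · have := minimalPeriod_eq_prime_pow (p := 2) (k := 1) (f := f) (x := o1) (by
      simp only [IsPeriodicPt, IsFixedPt, pow_one, iterate_succ_apply, iterate_zero_apply, f0, f1]
      exact o1_ne_infty.symm) p4
    exact this
  · rintro ⟨i, hi⟩
    rw [fv] at hi
    simp only at hi
    rw [← p4.iterate_mod_apply] at hi
    have := Nat.mod_lt i (show 4 > 0 by norm_num)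
    generalize i % 4 = j at this hi
    interval_cases j <;> simp only [iterate_succ_apply, iterate_zero_apply, f0, f1, f2, coe_eq_coe,
      infty_ne_coe] at hi <;> norm_num at hi
  · rcases (hc x).1 hx with h | h
    · exact Or.inr (ν.injective (h.trans n2.symm))
    · exact Or.inl (ν.injective (h.trans n1.symm))

end

end Pool.Agent.Lib.MP_21db80_an
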