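import Pool.Agent.Lib.MP_21db80_an.Final

/-!
Every set between the deformation space and the augmented deformation space is disconnected.
-/

namespace Pool.Agent.Lib.MP_21db80_an

open OnePoint Set Topology Function Filter Metric unitInterval

noncomputable section

/-- The points of `AD` that are represented by a curve with one component. -/
abbrev DD (f : Sph → Sph) (A B : Set Sph) : Set (AT B) :=
  {τ ∈ AD f A B | ∃ m : {m : Marking B // Stable m}, τ = Quot.mk _ m ∧ m.1.k = 1}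

namespace Setup

variable (S : Setup)

lemma pointD {φ ψ : Sph ≃ₜ Sph} (hφ : IsoRel S.A φ) (hψ : IsoRel S.A ψ)
    (e : ∀ x, S.f (ψ x) = φ (S.f x)) {ζ : ℂ} (hζ : S.VH φ ζ) :
    ∃ τ ∈ DD S.f S.A S.B, ∃ n, τ ∈ S.O n ∧ ‖ζ - n * (2 * Real.pi * Complex.I)‖ < 1 := by
  obtain ⟨n, ε, hε, H⟩ := S.cover (S.mem_AD hφ hψ e)
  exact ⟨_, ⟨S.mem_AD hφ hψ e, _, rfl, rfl⟩, n, ⟨ε, hε, H⟩, H φ (one_near (hh := hφ.mono (empty_subset _)) hε) ζ hζ⟩

lemma pointD_zero : ∃ τ ∈ DD S.f S.A S.B, τ ∈ S.O 0 := by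
  obtain ⟨τ, h1, n, h2, h3⟩ := S.pointD (φ := .refl _) (ψ := .refl _) (isoRel_id _) (isoRel_id _)
    (fun _ => rfl) ⟨_, _, _, _, _, _, S.q3, Data.refl _, fun x => S.NL_apply x, rfl⟩
  rw [zero_sub, norm_neg] at h3
  have h4 := eq_zero_of_exp (Complex.exp_int_mul_two_pi_mul_I _) (h3.trans one_lt_two)
  rw [mul_eq_zero, or_iff_left Complex.two_pi_I_ne_zero, Int.cast_eq_zero] at h4
  exact ⟨τ, h1, h4 ▸ h2⟩

lemma pointD_one : ∃ τ ∈ DD S.f S.A S.B, ∃ n ≠ 0, τ ∈ S.O n := by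
  obtain ⟨u, l, U, L, Λ, hD, hΛ, hu, hl⟩ := exists_twist S.q3 S.mobL S.mobU S.eG
    (p := S.w0.1) (q := S.w0.2) (by rw [pw_p]; simp [S.crit])
    (by rw [Homeomorph.trans_apply, μ_infty, pw_q]) S.pB S.qB S.vB
  have hφ : IsoRel S.A ((S.NL.trans l).trans S.NL.symm) := hl.conj S.NL (by
    rw [S.hA]
    rintro x (rfl | rfl | rfl | rfl)
    · rw [NL_apply, nrm_snd S.dL]; exact Or.inr o1_mem
    · exact Or.inl S.pw_q.symm
    · rw [NL_apply, nrm_trd]; exact Or.inr infty_mem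
    · rw [NL_apply, nrm_fst S.dL]; exact Or.inr o0_mem)
  have hψ : IsoRel S.A ((S.NU.trans u).trans S.NU.symm) := hu.conj S.NU (by
    rw [S.hA]
    rintro x (rfl | rfl | rfl | rfl)
    · exact Or.inl S.pw_p.symm
    · rw [NU_apply, nrm_trd]; exact Or.inr infty_mem
    · rw [NU_apply, nrm_fst S.dU]; exact Or.inr o0_mem
    · rw [NU_apply, nrm_snd S.dU]; exact Or.inr o1_mem)
  obtain ⟨τ, h1, n, h2, h3⟩ := S.pointD hφ hψ (fun x => by
    simp only [Homeomorph.trans_apply]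
    rw [Homeomorph.eq_symm_apply, ← G0_NU, ← G0_NU, ← hD.comm, Homeomorph.apply_symm_apply])
    ⟨_, _, _, _, _, _, S.q3, hD, fun x => by
      rw [nm, hφ.fix S.m3, hφ.fix S.m0, hφ.fix S.m2, ← NL_apply]; simp, hΛ⟩
  refine ⟨τ, h1, n, ?_, h2⟩
  rintro rfl
  exact Complex.two_pi_I_ne_zero (eq_zero_of_exp Complex.exp_two_pi_mul_I
    (by simp only [Int.cast_zero, zero_mul, sub_zero] at h3; exact h3.trans one_lt_two))

theorem mainD (T : Set (AT S.B)) (hD : DD S.f S.A S.B ⊆ T) (hT : T ⊆ AD S.f S.A S.B) :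
    ¬ @IsPreconnected _ (bers S.B) T := by
  let _ := bers S.B
  intro h
  obtain ⟨τ, h1, h2⟩ := S.pointD_zero
  obtain ⟨τ', h3, n, h4, h5⟩ := S.pointD_one
  obtain ⟨⟨m⟩, -, h6, h7⟩ := h (S.O 0) (⋃ n ≠ 0, S.O n) (S.isOpen_O 0)
    (isOpen_biUnion fun n _ => S.isOpen_O n) (fun τ hτ => by
      obtain ⟨n, hn⟩ := S.cover (hT hτ)
      by_cases e : n = 0
      · exact Or.inl (e ▸ hn)
      · exact Or.inr (mem_biUnion e hn)) ⟨τ, hD h1, h2⟩ ⟨τ', hD h3, mem_biUnion h4 h5⟩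
  obtain ⟨n, h8, h9⟩ := mem_iUnion₂.1 h7
  exact h8 (Val.unique (m := m.1) h9 h6)

end Setup

theorem per4_mainD {f : Sph → Sph} {c c' : Sph} (h : Per4 f c c') {B : Set Sph}
    (hAB : (range fun i : ℕ => f^[i] c) ⊆ B) (hv : f c' ∈ B) :
    ∀ T : Set (AT B), DD f (range fun i : ℕ => f^[i] c) B ⊆ T →
      T ⊆ AD f (range fun i : ℕ => f^[i] c) B → ¬ @IsPreconnected _ (bers B) T := by
  obtain ⟨h1, h2, h3, h4, h5, h6⟩ := h
  obtain ⟨μ₀, ν₀, hμ₀, hν₀, e₀⟩ := h1.nf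
  obtain ⟨μ, ν, hμ, hν, e, n1, n2⟩ := nf_swap hμ₀ hν₀ e₀ ((crit_iff e₀).1 h2) ((crit_iff e₀).1 h3)
    (ν₀.injective.ne h4)
  have ne : ∀ i j, i < 4 → j < 4 → i ≠ j → f^[i] c ≠ f^[j] c := fun i j hi hj hij e =>
    hij (iterate_injOn_Iio_minimalPeriod (by rwa [h5]) (by rwa [h5]) e)
  have p4 : f (f^[3] c) = f^[0] c := by
    have := iterate_minimalPeriod (f := f) (x := c)
    rwa [h5, iterate_succ_apply'] at this
  obtain ⟨d, d1, d2⟩ := exists_d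
  obtain ⟨q, hq⟩ := pw_surj (nrm (f^[3] c) (f^[0] c) (f^[2] c) (f^[1] c))
  have hv' : μ o0 = f c' := by rw [e, n2, sqS_o0]
  refine Setup.mainD ⟨f, μ, ν, f^[0] c, f^[1] c, f^[2] c, f^[3] c, _, B, q, d, hμ, hν, e, h1, rfl,
    (iterate_succ_apply' _ _ _).symm, (iterate_succ_apply' _ _ _).symm, p4,
    ⟨ne _ _ (by norm_num) (by norm_num) (by norm_num), ne _ _ (by norm_num) (by norm_num) (by norm_num),
      ne _ _ (by norm_num) (by norm_num) (by norm_num)⟩,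
    ⟨ne _ _ (by norm_num) (by norm_num) (by norm_num), ne _ _ (by norm_num) (by norm_num) (by norm_num),
      ne _ _ (by norm_num) (by norm_num) (by norm_num)⟩,
    ne _ _ (by norm_num) (by norm_num) (by norm_num), n1, ?_, hAB, hv' ▸ hv, hv' ▸ h6, hq,
    fun e => d1 (e ▸ zero_mem _), d2⟩
  ext x
  simp only [mem_range, mem_insert_iff, mem_singleton_iff]
  refine ⟨?_, ?_⟩
  · rintro ⟨i, rfl⟩
    rw [← iterate_mod_minimalPeriod_eq, h5]
    have := Nat.mod_lt i (show 4 > 0 by norm_num)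
    generalize i % 4 = j at this
    interval_cases j <;> simp
  · rintro (h | h | h | h) <;> exact ⟨_, h.symm⟩

end

end Pool.Agent.Lib.MP_21db80_an
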