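import Pool.Agent.Lib.MP_21db80_an.Mob

/-!
Isotopies of the sphere, radial maps, point pushing.
-/

namespace Pool.Agent.Lib.MP_21db80_an

open OnePoint Set Topology Function Filter Metric unitInterval

noncomputable section

/-- A continuous bijection of the sphere as a homeomorphism. -/
def homeoOf (h : Sph → Sph) (hc : Continuous h) (hb : Bijective h) : Sph ≃ₜ Sph :=
  Continuous.homeoOfEquivCompactToT2 (f := Equiv.ofBijective h hb) hc

@[simp] lemma homeoOf_apply (h : Sph → Sph) (hc : Continuous h) (hb : Bijective h) (x : Sph) :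
    homeoOf h hc hb x = h x := rfl

/-- A continuous family of homeomorphisms. -/
def CFam (H : I → Sph ≃ₜ Sph) : Prop := Continuous fun p : I × Sph => H p.1 p.2

lemma CFam.symm {H : I → Sph ≃ₜ Sph} (h : CFam H) : CFam fun t => (H t).symm := by
  let e : I × Sph ≃ I × Sph :=
    { toFun := fun p => (p.1, H p.1 p.2)
      invFun := fun p => (p.1, (H p.1).symm p.2)
      left_inv := fun p => by simp
      right_inv := fun p => by simp }
  have he : Continuous e := continuous_fst.prodMk h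
  exact continuous_snd.comp (Continuous.homeoOfEquivCompactToT2 he).continuous_symm

lemma CFam.cont {H : I → Sph ≃ₜ Sph} (h : CFam H) {Y : Type*} [TopologicalSpace Y] {t : Y → I}
    {x : Y → Sph} (ht : Continuous t) (hx : Continuous x) : Continuous fun y => H (t y) (x y) :=
  h.comp (ht.prodMk hx)

lemma CFam.trans {H K : I → Sph ≃ₜ Sph} (h : CFam H) (k : CFam K) :
    CFam fun t => (H t).trans (K t) := k.cont continuous_fst h

lemma cfam_const (H : Sph ≃ₜ Sph) : CFam fun _ => H := H.continuous.comp continuous_snd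

lemma CFam.comp {H : I → Sph ≃ₜ Sph} (h : CFam H) {s : I → I} (hs : Continuous s) :
    CFam fun t => H (s t) := h.cont (hs.comp continuous_fst) continuous_snd

lemma isoRel_iff {X : Set Sph} {β : Sph → Sph} : IsoRel X β ↔ ∃ H : I → Sph ≃ₜ Sph, CFam H ∧
    (∀ x, H 0 x = x) ∧ (∀ x, H 1 x = β x) ∧ ∀ t, ∀ x ∈ X, H t x = x := by
  constructor
  · rintro ⟨H, h1, h2, h3, h4⟩
    exact ⟨fun t => homeoOf (fun x => H (t, x)) (by fun_prop) (h1 t), H.continuous, h2, h3, h4⟩
  · rintro ⟨H, h1, h2, h3, h4⟩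
    exact ⟨⟨fun p => H p.1 p.2, h1⟩, fun t => (H t).bijective, h2, h3, h4⟩

lemma IsoRel.exists_homeo {X : Set Sph} {β : Sph → Sph} (h : IsoRel X β) :
    ∃ B : Sph ≃ₜ Sph, ⇑B = β := by
  obtain ⟨H, -, -, h3, -⟩ := isoRel_iff.1 h
  exact ⟨H 1, funext h3⟩

lemma IsoRel.fix {X : Set Sph} {β : Sph → Sph} (h : IsoRel X β) {x : Sph} (hx : x ∈ X) :
    β x = x := by
  obtain ⟨H, -, -, h3, h4⟩ := isoRel_iff.1 h
  rw [← h3, h4 1 x hx]

lemma IsoRel.mono {X Y : Set Sph} {β : Sph → Sph} (h : IsoRel X β) (hY : Y ⊆ X) : IsoRel Y β := by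
  obtain ⟨H, h1, h2, h3, h4⟩ := h
  exact ⟨H, h1, h2, h3, fun t x hx => h4 t x (hY hx)⟩

lemma isoRel_id (X : Set Sph) : IsoRel X id :=
  isoRel_iff.2 ⟨fun _ => Homeomorph.refl _, cfam_const _, fun _ => rfl, fun _ => rfl,
    fun _ _ _ => rfl⟩

lemma IsoRel.comp {X : Set Sph} {β γ : Sph → Sph} (h : IsoRel X β) (k : IsoRel X γ) :
    IsoRel X (β ∘ γ) := by
  obtain ⟨H, h1, h2, h3, h4⟩ := isoRel_iff.1 h
  obtain ⟨K, k1, k2, k3, k4⟩ := isoRel_iff.1 k
  exact isoRel_iff.2 ⟨fun t => (K t).trans (H t), k1.trans h1, fun x => by simp [h2, k2],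
    fun x => by simp [h3, k3], fun t x hx => by simp [h4 t x hx, k4 t x hx]⟩

lemma IsoRel.trans {X : Set Sph} {β γ : Sph ≃ₜ Sph} (h : IsoRel X β) (k : IsoRel X γ) :
    IsoRel X (β.trans γ) := k.comp h

lemma IsoRel.symm {X : Set Sph} {β : Sph ≃ₜ Sph} (h : IsoRel X β) : IsoRel X β.symm := by
  obtain ⟨H, h1, h2, h3, h4⟩ := isoRel_iff.1 h
  refine isoRel_iff.2 ⟨fun t => (H t).symm, h1.symm, fun x => ?_, fun x => ?_, fun t x hx => ?_⟩
  · rw [Homeomorph.symm_apply_eq, h2]
  · rw [Homeomorph.symm_apply_eq, h3]; simp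
  · rw [Homeomorph.symm_apply_eq, h4 t x hx]

lemma IsoRel.conj {X Y : Set Sph} {β : Sph → Sph} (h : IsoRel X β) (θ : Sph ≃ₜ Sph)
    (hθ : ∀ y ∈ Y, θ y ∈ X) : IsoRel Y fun x => θ.symm (β (θ x)) := by
  obtain ⟨H, h1, h2, h3, h4⟩ := isoRel_iff.1 h
  exact isoRel_iff.2 ⟨fun t => (θ.trans (H t)).trans θ.symm,
    ((cfam_const θ).trans h1).trans (cfam_const _), fun x => by simp [h2],
    fun x => by simp [h3], fun t x hx => by simp [h4 t _ (hθ x hx)]⟩

lemma IsMob.isoRel {M : Sph → Sph} (h : IsMob M) : IsoRel ∅ M := by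
  obtain ⟨a, b, c, d, hd, rfl⟩ := h.eq_mob
  let P : Polynomial ℂ := (1 + Polynomial.C (a - 1) * Polynomial.X) *
    (1 + Polynomial.C (d - 1) * Polynomial.X) - Polynomial.C (b * c) * Polynomial.X ^ 2
  have hP : ∀ s, P.eval s = (1 + (a - 1) * s) * (1 + (d - 1) * s) - (b * s) * (c * s) := by
    intro s; simp [P]; ring
  have hP0 : P ≠ 0 := by
    intro h0
    have := hP 0
    rw [h0] at this; simp at this
  have hfin : {s : ℂ | P.eval s = 0}.Finite := Polynomial.finite_setOfPred_isRoot hP0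
  have hpc := hfin.countable.isPathConnected_compl_of_one_lt_rank
    (by rw [Complex.rank_real_complex]; norm_num)
  obtain ⟨γ, hγ⟩ := hpc.joinedIn 0 (by simp [hP]) 1 (by simpa [hP] using hd)
  have hdet : ∀ t, (1 + (a - 1) * γ t) * (1 + (d - 1) * γ t) - (b * γ t) * (c * γ t) ≠ 0 := by
    intro t; have := hγ t; rwa [mem_compl_iff, mem_ofPred_eq, hP] at this
  refine isoRel_iff.2 ⟨fun t => mobH _ _ _ _ (hdet t), ?_, fun x => ?_, fun x => ?_, by simp⟩
  · refine continuous_iff_continuousAt.2 fun p => ?_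
    exact continuousAt_mob (a := fun p : I × Sph => 1 + (a - 1) * γ p.1)
      (b := fun p => b * γ p.1) (c := fun p => c * γ p.1) (d := fun p => 1 + (d - 1) * γ p.1)
      (x := fun p => p.2) (by fun_prop) (by fun_prop) (by fun_prop) (by fun_prop) (by fun_prop)
      (hdet p.1)
  · change mob _ _ _ _ x = x
    obtain ⟨v, hv, rfl⟩ := pr_surj x
    rw [mob_pr _ _ _ _ hv]; simp
  · change mob _ _ _ _ x = _
    simp

/-- Homotopic to the identity. -/
def Hid (h : Sph → Sph) : Prop :=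
  ∃ H : I × Sph → Sph, Continuous H ∧ (∀ x, H (0, x) = x) ∧ ∀ x, H (1, x) = h x

lemma IsoRel.hid {X : Set Sph} {β : Sph → Sph} (h : IsoRel X β) : Hid β := by
  obtain ⟨H, -, h2, h3, -⟩ := h
  exact ⟨H, H.continuous, h2, h3⟩

lemma hid_of_homotopic {h : C(Sph, Sph)} (hh : h.Homotopic (ContinuousMap.id Sph)) : Hid h := by
  obtain ⟨H⟩ := hh.symm
  exact ⟨H, H.continuous, fun x => by simp, fun x => by simp⟩

lemma Hid.homotopic {h : C(Sph, Sph)} (hh : Hid h) : h.Homotopic (ContinuousMap.id Sph) := by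
  obtain ⟨H, h1, h2, h3⟩ := hh
  exact ContinuousMap.Homotopic.symm ⟨⟨⟨H, h1⟩, h2, h3⟩⟩

lemma Hid.comp {h k : Sph → Sph} (hh : Hid h) (hk : Hid k) : Hid (h ∘ k) := by
  obtain ⟨H, h1, h2, h3⟩ := hh
  obtain ⟨K, k1, k2, k3⟩ := hk
  exact ⟨fun p => H (p.1, K p), by fun_prop, fun x => by simp [h2, k2], fun x => by simp [h3, k3]⟩

lemma Hid.symm {h : Sph ≃ₜ Sph} (hh : Hid h) : Hid h.symm := by
  obtain ⟨H, h1, h2, h3⟩ := hh
  exact ⟨fun p => h.symm (H (σ p.1, p.2)), by fun_prop, fun x => by simp [h3],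
    fun x => by simp [h2]⟩

/-- If `h ∘ q` and `q` are homotopic to the identity then so is `h`. -/
lemma Hid.of_comp {h q : Sph → Sph} (hc : Continuous h) (hhq : Hid (h ∘ q)) (hq : Hid q) :
    Hid h := by
  obtain ⟨K, k1, k2, k3⟩ := hq
  have hqc : Continuous q := by
    have : q = fun x => K (1, x) := funext fun x => (k3 x).symm
    rw [this]; fun_prop
  have h1 : (⟨h ∘ q, hc.comp hqc⟩ : C(Sph, Sph)).Homotopic (ContinuousMap.id Sph) :=
    Hid.homotopic hhq
  have h2 : (⟨h, hc⟩ : C(Sph, Sph)).Homotopic ⟨h ∘ q, hc.comp hqc⟩ :=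
    ⟨⟨⟨fun p => h (K p), by fun_prop⟩, fun x => by simp [k2], fun x => by simp [k3]⟩⟩
  exact hid_of_homotopic (h2.trans h1)

/-- Continuity of families of plane maps extended to the sphere. -/
lemma continuousOn_map {Y : Type*} [TopologicalSpace Y] {K : Y → ℂ → ℂ} {W : Set Y}
    (hK : ContinuousOn (fun p : Y × ℂ => K p.1 p.2) (W ×ˢ univ))
    (hp : ∀ R : ℝ, ∃ R' : ℝ, ∀ y ∈ W, ∀ z, R' < ‖z‖ → R < ‖K y z‖) :
    ContinuousOn (fun p : Y × Sph => OnePoint.map (K p.1) p.2) (W ×ˢ univ) := by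
  rintro ⟨y, x⟩ hy
  induction x using OnePoint.rec with
  | infty =>
    rw [ContinuousWithinAt]
    simp only [map_infty]
    rw [tendsto_infty_iff]
    intro R
    obtain ⟨R', hR'⟩ := hp R
    have h1 : ∀ᶠ p : Y × Sph in 𝓝[W ×ˢ univ] (y, ∞), p.2 ∈ out R' :=
      mem_nhdsWithin_of_mem_nhds (continuous_snd.continuousAt (out_mem_nhds R'))
    filter_upwards [h1, self_mem_nhdsWithin] with p h1 h2
    obtain ⟨y', x'⟩ := p
    induction x' using OnePoint.rec with
    | infty => exact infty_mem_out R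
    | coe z => exact coe_mem_out.2 (hR' y' h2.1 z (coe_mem_out.1 h1))
  | coe z =>
    have h1 : ContinuousWithinAt (fun p : Y × Sph => ((K p.1 (c0 p.2) : ℂ) : Sph)) (W ×ˢ univ)
        (y, (z : Sph)) := by
      refine continuous_coe.continuousAt.comp_continuousWithinAt ?_
      have h2 : ContinuousWithinAt (fun p : Y × Sph => (p.1, c0 p.2)) (W ×ˢ univ) (y, (z : Sph)) :=
        (continuousAt_fst.prodMk ((continuousAt_c0 (coe_ne_infty z)).comp_of_eq
          continuousAt_snd rfl)).continuousWithinAt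
      exact ContinuousWithinAt.comp (g := fun p : Y × ℂ => K p.1 p.2)
        (f := fun p : Y × Sph => (p.1, c0 p.2)) (hK (y, z) ⟨hy.1, trivial⟩) h2
        fun p hp => ⟨hp.1, trivial⟩
    refine h1.congr_of_eventuallyEq ?_ rfl
    have h3 : ∀ᶠ p : Y × Sph in 𝓝[W ×ˢ univ] (y, (z : Sph)), p.2 ≠ ∞ :=
      mem_nhdsWithin_of_mem_nhds (continuous_snd.continuousAt.eventually_ne (coe_ne_infty z))
    filter_upwards [h3] with p hp
    obtain ⟨y', x'⟩ := p
    induction x' using OnePoint.rec with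
    | infty => exact absurd rfl hp
    | coe z => rfl

lemma continuous_map_fam {K : I → ℂ → ℂ} (hK : Continuous fun p : I × ℂ => K p.1 p.2)
    (hp : ∀ R : ℝ, ∃ R' : ℝ, ∀ t z, R' < ‖z‖ → R < ‖K t z‖) :
    Continuous fun p : I × Sph => OnePoint.map (K p.1) p.2 := by
  rw [← continuousOn_univ, ← univ_prod_univ]
  exact continuousOn_map hK.continuousOn fun R => (hp R).imp fun R' h y _ => h y

lemma map_bijective {K : ℂ → ℂ} (h : Bijective K) : Bijective (OnePoint.map K) := by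
  constructor
  · intro x y hxy
    induction x using OnePoint.rec <;> induction y using OnePoint.rec
    · rfl
    · simp at hxy
    · simp at hxy
    · simp only [map_some, coe_eq_coe] at hxy; rw [h.1 hxy]
  · intro y
    induction y using OnePoint.rec with
    | infty => exact ⟨∞, rfl⟩
    | coe z => obtain ⟨w, rfl⟩ := h.2 z; exact ⟨w, rfl⟩

/-- A homeomorphism of the sphere fixing infinity restricts to the plane. -/
lemma exists_plane_homeo (θ : Sph ≃ₜ Sph) (h : θ ∞ = ∞) :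
    ∃ Θ : ℂ ≃ₜ ℂ, ∀ x, θ x = OnePoint.map Θ x := by
  have h' : θ.symm ∞ = ∞ := by rw [Homeomorph.symm_apply_eq, h]
  have n1 : ∀ z : ℂ, θ z ≠ ∞ := fun z e => coe_ne_infty z (θ.injective (e.trans h.symm))
  have n2 : ∀ z : ℂ, θ.symm z ≠ ∞ := fun z e => coe_ne_infty z (θ.symm.injective (e.trans h'.symm))
  refine ⟨⟨⟨fun z => c0 (θ z), fun z => c0 (θ.symm z), fun z => ?_, fun z => ?_⟩, ?_, ?_⟩, ?_⟩
  · simp [coe_c0 (n1 z)]
  · simp [coe_c0 (n2 z)]
  · exact continuous_iff_continuousAt.2 fun z => (continuousAt_c0 (n1 z)).comp_of_eq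
      (θ.continuous.comp continuous_coe).continuousAt rfl
  · exact continuous_iff_continuousAt.2 fun z => (continuousAt_c0 (n2 z)).comp_of_eq
      (θ.symm.continuous.comp continuous_coe).continuousAt rfl
  · intro x
    induction x using OnePoint.rec with
    | infty => exact h
    | coe z => exact (coe_c0 (n1 z)).symm

/-- A continuous bijection of the plane which is the identity far out is a homeomorphism. -/
lemma exists_homeo_of_supp {K : ℂ → ℂ} (hc : Continuous K) (hb : Bijective K) {R : ℝ}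
    (hR : ∀ z, R ≤ ‖z‖ → K z = z) : ∃ Θ : ℂ ≃ₜ ℂ, ⇑Θ = K := by
  have h1 : Continuous (OnePoint.map K) := by
    have := continuous_map_fam (K := fun _ => K) (hc.comp continuous_snd) fun R' =>
      ⟨max R R', fun _ z hz => by
        rw [hR z ((le_max_left _ _).trans hz.le)]; exact (le_max_right _ _).trans_lt hz⟩
    exact this.comp (f := fun x : Sph => ((0 : I), x)) (by fun_prop)
  obtain ⟨Θ, hΘ⟩ := exists_plane_homeo (homeoOf _ h1 (map_bijective hb)) rfl
  refine ⟨Θ, funext fun z => ?_⟩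
  simpa using (hΘ z).symm

/-- Radial maps. -/
def rad (α : ℝ → ℝ) (z : ℂ) : ℂ := ((α ‖z‖ / ‖z‖ : ℝ) : ℂ) * z

section rad
variable {α : ℝ → ℝ} (hc : ContinuousOn α (Ici 0)) (hm : StrictMonoOn α (Ici 0)) (h0 : α 0 = 0)

include hm h0 in
lemma rad_nonneg {t : ℝ} (ht : 0 ≤ t) : 0 ≤ α t := by
  rw [← h0]; exact hm.monotoneOn (le_refl (0 : ℝ)) ht ht

include hm h0 in
lemma norm_rad (z : ℂ) : ‖rad α z‖ = α ‖z‖ := by
  by_cases hz : z = 0
  · simp [rad, hz, h0]
  · have : ‖z‖ ≠ 0 := norm_ne_zero_iff.2 hz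
    rw [rad, norm_mul, Complex.norm_real, Real.norm_of_nonneg
      (div_nonneg (rad_nonneg hm h0 (norm_nonneg z)) (norm_nonneg z)), div_mul_cancel₀ _ this]

include hc hm h0 in
lemma continuous_rad : Continuous (rad α) := by
  have hα : Continuous fun z : ℂ => α ‖z‖ :=
    hc.comp_continuous continuous_norm fun z => norm_nonneg z
  refine continuous_iff_continuousAt.2 fun z => ?_
  by_cases hz : z = 0
  · subst hz
    rw [ContinuousAt, show rad α 0 = 0 by simp [rad], tendsto_zero_iff_norm_tendsto_zero]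
    simp only [norm_rad hm h0]
    simpa [h0] using hα.tendsto 0
  · exact (Complex.continuous_ofReal.continuousAt.comp (hα.continuousAt.div
      continuous_norm.continuousAt (norm_ne_zero_iff.2 hz))).mul continuousAt_id

include hm h0 in
lemma injective_rad : Injective (rad α) := by
  intro z w h
  have h1 : ‖z‖ = ‖w‖ := by
    apply hm.injOn (norm_nonneg z) (norm_nonneg w)
    rw [← norm_rad hm h0, ← norm_rad hm h0, h]
  by_cases hz : z = 0
  · subst hz; exact (norm_eq_zero.1 (by simpa using h1.symm)).symm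
  · have hp : 0 < α ‖z‖ := by
      rw [← h0]; exact hm (le_refl (0 : ℝ)) (norm_nonneg z) (norm_pos_iff.2 hz)
    rw [rad, rad, ← h1] at h
    refine mul_left_cancel₀ ?_ h
    exact Complex.ofReal_ne_zero.2 (div_pos hp (norm_pos_iff.2 hz)).ne'

include hc h0 in
lemma exists_rad_eq {T : ℝ} (hT : 0 ≤ T) {y : ℂ} (hy : ‖y‖ ≤ α T) :
    ∃ z, ‖z‖ ≤ T ∧ rad α z = y := by
  by_cases hy0 : y = 0
  · exact ⟨0, by simpa using hT, by simp [rad, hy0]⟩
  obtain ⟨t, ht, e⟩ := intermediate_value_Icc hT (hc.mono Icc_subset_Ici_self)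
    (show ‖y‖ ∈ Icc (α 0) (α T) from ⟨by rw [h0]; exact norm_nonneg y, hy⟩)
  have hn : ‖y‖ ≠ 0 := norm_ne_zero_iff.2 hy0
  have ht0 : t ≠ 0 := by rintro rfl; exact hn (by rw [← e, h0])
  have hz : ‖((t / ‖y‖ : ℝ) : ℂ) * y‖ = t := by
    rw [norm_mul, Complex.norm_real, Real.norm_of_nonneg (div_nonneg ht.1 (norm_nonneg y)),
      div_mul_cancel₀ _ hn]
  refine ⟨((t / ‖y‖ : ℝ) : ℂ) * y, by rw [hz]; exact ht.2, ?_⟩
  rw [rad, hz, e, ← mul_assoc, ← Complex.ofReal_mul]
  have : ‖y‖ / t * (t / ‖y‖) = 1 := by field_simp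
  rw [this]; simp

include hc hm h0 in
lemma isOpenEmbedding_rad : IsOpenEmbedding (rad α) := by
  refine .of_continuous_injective_isOpenMap (continuous_rad hc hm h0) (injective_rad hm h0) ?_
  intro U hU
  rw [isOpen_iff_mem_nhds]
  rintro _ ⟨z, hz, rfl⟩
  have hK : IsClosed (rad α '' (closedBall 0 (‖z‖ + 1) \ U)) :=
    (((isCompact_closedBall _ _).diff hU).image (continuous_rad hc hm h0)).isClosed
  have h1 : rad α z ∈ ball 0 (α (‖z‖ + 1)) \ rad α '' (closedBall 0 (‖z‖ + 1) \ U) := by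
    constructor
    · rw [mem_ball_zero_iff, norm_rad hm h0]
      exact hm (norm_nonneg z) (show (0 : ℝ) ≤ ‖z‖ + 1 by positivity) (by linarith)
    · rintro ⟨w, hw, e⟩
      rw [injective_rad hm h0 e] at hw
      exact hw.2 hz
  refine mem_of_superset ((isOpen_ball.sdiff hK).mem_nhds h1) ?_
  rintro y ⟨hy1, hy2⟩
  obtain ⟨w, hw, rfl⟩ := exists_rad_eq hc h0 (show (0 : ℝ) ≤ ‖z‖ + 1 by positivity)
    (mem_ball_zero_iff.1 hy1).le
  refine ⟨w, ?_, rfl⟩
  by_contra hwU
  exact hy2 ⟨w, ⟨by simpa using hw, hwU⟩, rfl⟩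

end rad

lemma rad_eq_mul {α : ℝ → ℝ} {c : ℝ} {z : ℂ} (h : α ‖z‖ = c * ‖z‖) : rad α z = c * z := by
  by_cases hz : z = 0
  · simp [rad, hz]
  · rw [rad, h, mul_div_assoc, div_self (norm_ne_zero_iff.2 hz), mul_one]

/-- A compactly supported radial compression. -/
lemma exists_compress {c R R2 : ℝ} (hc : 0 < c) (hc1 : c ≤ 1) (hR : 0 < R) (hR2 : R < R2) :
    ∃ ρ : ℂ ≃ₜ ℂ, (∀ z, ‖z‖ ≤ R → ρ z = c * z) ∧ ∀ z, R2 ≤ ‖z‖ → ρ z = z := by
  set m : ℝ := (R2 - c * R) / (R2 - R) with hm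
  have hd : 0 < R2 - R := by linarith
  have hm1 : 1 ≤ m := by rw [hm, le_div_iff₀ hd]; nlinarith
  have hm2 : m * (R2 - R) = R2 - c * R := by rw [hm]; field_simp
  let α : ℝ → ℝ := fun t => min t (max (c * t) (m * (t - R) + c * R))
  have a1 : Continuous α := by fun_prop
  have a2 : StrictMonoOn α (Ici 0) := by
    intro s _ t _ hst
    refine min_lt_min hst (max_lt_max (by nlinarith) (by nlinarith))
  have a4 : ∀ t, 0 ≤ t → t ≤ R → α t = c * t := by
    intro t h0 ht
    have : m * (t - R) + c * R ≤ c * t := by nlinarith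
    simp only [α]
    rw [max_eq_left this, min_eq_right (by nlinarith)]
  have a3 : α 0 = 0 := by simpa using a4 0 le_rfl hR.le
  have a5 : ∀ t, R2 ≤ t → α t = t := by
    intro t ht
    exact min_eq_left (le_max_of_le_right (by nlinarith))
  have hs : Surjective (rad α) := by
    intro y
    obtain ⟨z, -, hz⟩ := exists_rad_eq a1.continuousOn a3 (T := max R2 ‖y‖) (y := y)
      (by positivity) (by rw [a5 _ (le_max_left _ _)]; exact le_max_right _ _)
    exact ⟨z, hz⟩
  refine ⟨(isOpenEmbedding_rad a1.continuousOn a2 a3).isEmbedding.toHomeomorphOfSurjective hs,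
    fun z hz => rad_eq_mul (a4 _ (norm_nonneg z) hz), fun z hz => ?_⟩
  have := rad_eq_mul (α := α) (c := 1) (z := z) (by rw [a5 _ hz, one_mul])
  simpa using this

/-- An open embedding of the plane into a disc which is the identity near the centre. -/
lemma exists_shrink {r : ℝ} (hr : 0 < r) (a : ℂ) : ∃ h : ℂ → ℂ, IsOpenEmbedding h ∧
    (∀ z, h z ∈ ball a r) ∧ ∀ z ∈ ball a (r / 2), h z = z := by
  let α : ℝ → ℝ := fun t => min t (r - r / 2 / (1 + t))
  have a1 : ContinuousOn α (Ici 0) := by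
    refine ContinuousOn.inf continuousOn_id (continuousOn_const.sub (continuousOn_const.div (by fun_prop) ?_))
    intro t ht; have : (0 : ℝ) ≤ t := ht; positivity
  have a2 : StrictMonoOn α (Ici 0) := by
    intro s hs t ht hst
    have hs' : (0 : ℝ) ≤ s := hs
    refine min_lt_min hst ?_
    have : r / 2 / (1 + t) < r / 2 / (1 + s) :=
      div_lt_div_of_pos_left (by positivity) (by positivity) (by linarith)
    linarith
  have a4 : ∀ t, 0 ≤ t → t ≤ r / 2 → α t = t := by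
    intro t h0 ht
    refine min_eq_left ?_
    have : r / 2 / (1 + t) ≤ r / 2 := div_le_self (by positivity) (by linarith)
    linarith
  have a3 : α 0 = 0 := a4 0 le_rfl (by positivity)
  refine ⟨fun z => a + rad α (z - a), ?_, fun z => ?_, fun z hz => ?_⟩
  · exact ((Homeomorph.addLeft a).isOpenEmbedding.comp (isOpenEmbedding_rad a1 a2 a3)).comp
      (Homeomorph.subRight a).isOpenEmbedding
  · rw [mem_ball, dist_eq_norm, add_sub_cancel_left, norm_rad a2 a3]
    refine (min_le_right _ _).trans_lt ?_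
    have : 0 < r / 2 / (1 + ‖z - a‖) := by positivity
    linarith
  · rw [mem_ball, dist_eq_norm] at hz
    have := rad_eq_mul (α := α) (c := 1) (z := z - a) (by rw [a4 _ (norm_nonneg _) hz.le, one_mul])
    simp [this]

/-- Small Lipschitz perturbations of the identity are homeomorphisms. -/
lemma lip_homeo {u : ℂ → ℂ} (hu : ∀ z w, ‖u z - u w‖ ≤ 1 / 2 * ‖z - w‖) :
    ∃ T : ℂ ≃ₜ ℂ, ∀ z, T z = z + u z := by
  have h : ApproximatesLinearOn (fun z => z + u z)
      ((ContinuousLinearEquiv.refl ℝ ℂ : ℂ ≃L[ℝ] ℂ) : ℂ →L[ℝ] ℂ) univ (1 / 2) := by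
    intro x _ y _
    have : x + u x - (y + u y) - (x - y) = u x - u y := by ring
    simpa [this] using hu x y
  refine ⟨h.toHomeomorph _ (Or.inr ?_), fun z => rfl⟩
  have : ‖((ContinuousLinearEquiv.refl ℝ ℂ).symm : ℂ →L[ℝ] ℂ)‖₊ = 1 := by simp
  rw [this]; norm_num

/-- A Lipschitz bump. -/
def bump (a : ℂ) (r : ℝ) (z : ℂ) : ℝ := max 0 (min 1 (2 - ‖z - a‖ / r))

lemma bump_one {a z : ℂ} {r : ℝ} (hr : 0 < r) (h : ‖z - a‖ ≤ r) : bump a r z = 1 := by
  have : ‖z - a‖ / r ≤ 1 := (div_le_one hr).2 h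
  rw [bump, min_eq_left (by linarith), max_eq_right zero_le_one]

lemma bump_zero {a z : ℂ} {r : ℝ} (hr : 0 < r) (h : 2 * r ≤ ‖z - a‖) : bump a r z = 0 := by
  have : 2 ≤ ‖z - a‖ / r := (le_div_iff₀ hr).2 h
  rw [bump, max_eq_left (min_le_of_right_le (by linarith))]

lemma bump_nonneg (a z : ℂ) (r : ℝ) : 0 ≤ bump a r z := le_max_left _ _
lemma bump_le (a z : ℂ) (r : ℝ) : bump a r z ≤ 1 := max_le zero_le_one (min_le_left _ _)

lemma continuous_bump (a : ℂ) (r : ℝ) : Continuous (bump a r) := by unfold bump; fun_prop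

lemma bump_lip {a : ℂ} {r : ℝ} (hr : 0 < r) (z w : ℂ) :
    |bump a r z - bump a r w| ≤ ‖z - w‖ / r := by
  refine (abs_max_sub_max_le_max _ _ _ _).trans (max_le (by simp; positivity) ?_)
  refine (abs_min_sub_min_le_max _ _ _ _).trans (max_le (by simp; positivity) ?_)
  have : 2 - ‖z - a‖ / r - (2 - ‖w - a‖ / r) = (‖w - a‖ - ‖z - a‖) / r := by ring
  rw [this, abs_div, abs_of_pos hr]
  refine div_le_div_of_nonneg_right ((abs_norm_sub_norm_le _ _).trans_eq ?_) hr.le
  rw [← norm_neg]; congr 1; ring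

/-- Local sections for moving one point while fixing a finite set. -/
lemma exists_section {S : Set Sph} (hS : S.Finite) {y₀ : Sph} (hy : y₀ ∉ S) :
    ∃ W ∈ 𝓝 y₀, ∃ s : Sph → Sph ≃ₜ Sph,
      ContinuousOn (fun p : Sph × Sph => s p.1 p.2) (W ×ˢ univ) ∧ (∀ y ∈ W, s y y₀ = y) ∧
      ∀ y, ∀ x ∈ S, s y x = x := by
  obtain ⟨y₁, hy₁, -⟩ := exists_third y₀ y₀
  obtain ⟨μ, -, hμ0, hμ⟩ := exists_mob_two hy₁.symm
  have hO : IsOpen ((fun z : ℂ => μ.symm z) ⁻¹' Sᶜ) :=
    hS.isClosed.isOpen_compl.preimage (μ.symm.continuous.comp continuous_coe)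
  have h0 : (0 : ℂ) ∈ (fun z : ℂ => μ.symm z) ⁻¹' Sᶜ := by
    have : μ.symm o0 = y₀ := by rw [Homeomorph.symm_apply_eq, hμ0]
    simpa [this] using hy
  obtain ⟨r4, hr4, hr⟩ := Metric.isOpen_iff.1 hO 0 h0
  set r := r4 / 4 with hrr
  have hr0 : 0 < r := by positivity
  have hT : ∀ d : ℂ, ∃ T : ℂ ≃ₜ ℂ, (‖d‖ ≤ r / 2 → ∀ z, T z = z + bump 0 r z * d) ∧
      ∀ z, 2 * r ≤ ‖z‖ → T z = z := by
    intro d
    by_cases hd : ‖d‖ ≤ r / 2
    · obtain ⟨T, hT⟩ := lip_homeo (u := fun z => bump 0 r z * d) fun z w => by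
        rw [← sub_mul, norm_mul, ← Complex.ofReal_sub, Complex.norm_real, Real.norm_eq_abs]
        calc _ ≤ ‖z - w‖ / r * (r / 2) :=
              mul_le_mul (bump_lip hr0 z w) hd (norm_nonneg _) (by positivity)
          _ = _ := by field_simp
      exact ⟨T, fun _ => hT, fun z hz => by rw [hT, bump_zero hr0 (by simpa using hz)]; simp⟩
    · exact ⟨Homeomorph.refl _, fun h => absurd h hd, fun _ _ => rfl⟩
  choose T hT1 hT2 using hT
  let W : Set Sph := μ ⁻¹' ((fun z : ℂ => (z : Sph)) '' ball 0 (r / 2))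
  have hW : ∀ y ∈ W, μ y ≠ ∞ ∧ ‖c0 (μ y)‖ ≤ r / 2 := by
    rintro y ⟨z, hz, e⟩
    rw [← e]; exact ⟨coe_ne_infty z, (mem_ball_zero_iff.1 hz).le⟩
  refine ⟨W, ((isOpenMap_coe _ isOpen_ball).preimage μ.continuous).mem_nhds
    ⟨0, mem_ball_self (by positivity), hμ0.symm⟩,
    fun y => (μ.trans (T (c0 (μ y))).onePointCongr).trans μ.symm, ?_, fun y hy => ?_,
    fun y x hx => ?_⟩
  · have h1 := continuousOn_map (K := fun (y : Sph) z => T (c0 (μ y)) z) (W := W) ?_ ?_
    · exact μ.symm.continuous.comp_continuousOn (h1.comp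
        (f := fun p : Sph × Sph => (p.1, μ p.2)) (by fun_prop) fun p hp => ⟨hp.1, trivial⟩)
    · have h2 : ContinuousOn (fun p : Sph × ℂ => p.2 + bump 0 r p.2 * c0 (μ p.1)) (W ×ˢ univ) := by
        refine continuousOn_snd.add (ContinuousOn.mul (Complex.continuous_ofReal.comp
          ((continuous_bump 0 r).comp continuous_snd)).continuousOn fun p hp => ?_)
        exact ((continuousAt_c0 (hW _ hp.1).1).comp_of_eq
          (μ.continuous.comp continuous_fst).continuousAt rfl).continuousWithinAt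
      exact h2.congr fun p hp => hT1 _ (hW _ hp.1).2 _
    · intro R
      refine ⟨max R (2 * r), fun y _ z hz => ?_⟩
      rw [hT2 _ z ((le_max_right _ _).trans hz.le)]
      exact (le_max_left _ _).trans_lt hz
  · simp only [Homeomorph.trans_apply, Homeomorph.onePointCongr_apply, hμ0, map_some]
    rw [hT1 _ (hW y hy).2, bump_one hr0 (by simpa using hr0.le), Homeomorph.symm_apply_eq]
    simpa using coe_c0 (hW y hy).1
  · simp only [Homeomorph.trans_apply, Homeomorph.onePointCongr_apply]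
    rw [Homeomorph.symm_apply_eq]
    induction h : μ x using OnePoint.rec with
    | infty => rfl
    | coe z =>
      rw [map_some, hT2]
      by_contra hz
      have : z ∈ ball (0 : ℂ) r4 := by rw [mem_ball_zero_iff]; linarith
      apply hr this
      change μ.symm z ∈ S
      rw [← h]; simpa using hx

/-- Pushing a point along a path. -/
lemma exists_push {S : Set Sph} (hS : S.Finite) {v : I → Sph} (hv : Continuous v)
    (hvS : ∀ t, v t ∉ S) : ∃ H : I → Sph ≃ₜ Sph, CFam H ∧ (∀ x, H 0 x = x) ∧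
      (∀ t, ∀ x ∈ S, H t x = x) ∧ ∀ t, H t (v 0) = v t := by
  let Reach : I → Prop := fun s => ∃ H : I → Sph ≃ₜ Sph, CFam H ∧ (∀ x, H 0 x = x) ∧
      (∀ t, ∀ x ∈ S, H t x = x) ∧ ∀ t, H t (v 0) = v (min t s)
  have mono : ∀ s s', s' ≤ s → Reach s → Reach s' := by
    rintro s s' hs ⟨H, h1, h2, h3, h4⟩
    refine ⟨fun t => H (min t s'), h1.comp (by fun_prop), fun x => ?_, fun t => h3 _, fun t => ?_⟩
    · simpa using h2 x
    · simp only [h4]; rw [min_assoc, min_eq_left hs]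
  have loc : ∀ t₁ : I, ∃ δ > 0, ∀ s s', dist s t₁ < δ → dist s' t₁ < δ → Reach s → Reach s' := by
    intro t₁
    obtain ⟨W, hW, sg, s1, s2, s3⟩ := exists_section hS (hvS t₁)
    obtain ⟨δ, hδ, hδW⟩ := Metric.mem_nhds_iff.1 (hv.continuousAt hW)
    refine ⟨δ, hδ, fun s s' hs hs' hR => ?_⟩
    rcases le_total s' s with h | h
    · exact mono s s' h hR
    obtain ⟨H, h1, h2, h3, h4⟩ := hR
    have hin : ∀ t : I, v (max s (min t s')) ∈ W := by
      intro t
      apply hδW
      have a1 : s ≤ max s (min t s') := le_max_left _ _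
      have a2 : max s (min t s') ≤ s' := max_le h (min_le_right _ _)
      rw [mem_ball, Subtype.dist_eq, Real.dist_eq, abs_lt] at *
      have a1' : (s : ℝ) ≤ (max s (min t s') : I) := a1
      have a2' : ((max s (min t s') : I) : ℝ) ≤ s' := a2
      constructor <;> linarith [hs.1, hs'.2]
    have hc : CFam fun t => sg (v (max s (min t s'))) :=
      s1.comp_continuous (f := fun p : I × Sph => (v (max s (min p.1 s')), p.2)) (by fun_prop)
        fun p => ⟨hin p.1, trivial⟩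
    refine ⟨fun t => ((H t).trans (sg (v s)).symm).trans (sg (v (max s (min t s')))),
      (h1.trans (cfam_const _)).trans hc, fun x => ?_, fun t x hx => ?_, fun t => ?_⟩
    · simp [h2]
    · have : (sg (v s)).symm x = x := by rw [Homeomorph.symm_apply_eq, s3 _ x hx]
      simp [h3 t x hx, this, s3 _ x hx]
    · simp only [Homeomorph.trans_apply, h4]
      rcases le_total t s with ht | ht
      · rw [min_eq_left ht, min_eq_left (ht.trans h), max_eq_left ht]; simp
      · have e : (sg (v s)).symm (v s) = v t₁ := by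
          rw [Homeomorph.symm_apply_eq, s2 _ (hδW hs)]
        rw [min_eq_right ht, e, s2 _ (hin t), max_eq_right (le_min ht h)]
  have hcl : IsClopen {s | Reach s} := by
    constructor
    · rw [← isOpen_compl_iff, Metric.isOpen_iff]
      intro t ht
      obtain ⟨δ, hδ, h⟩ := loc t
      exact ⟨δ, hδ, fun s hs hR => ht (h s t hs (by simpa using hδ) hR)⟩
    · rw [Metric.isOpen_iff]
      intro t ht
      obtain ⟨δ, hδ, h⟩ := loc t
      exact ⟨δ, hδ, fun s hs => h t s (by simpa using hδ) hs ht⟩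
  have h0 : Reach 0 := ⟨fun _ => Homeomorph.refl _, cfam_const _, fun _ => rfl, fun _ _ _ => rfl,
    fun t => by simp⟩
  have h1 : Reach 1 := by
    have := hcl.eq_univ ⟨0, h0⟩
    exact (this.symm ▸ mem_univ (1 : I) : (1 : I) ∈ {s | Reach s})
  obtain ⟨H, h1, h2, h3, h4⟩ := h1
  exact ⟨H, h1, h2, h3, fun t => by rw [h4, min_eq_left le_one']⟩

end

end Pool.Agent.Lib.MP_21db80_an
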