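import Pool.Agent.Lib.MP_21db80_an.Move
import Pool.Agent.Lib.MP_21db80_an.Bdry

/-!
The locally constant invariant on the augmented deformation space.
-/

namespace Pool.Agent.Lib.MP_21db80_an

open OnePoint Set Topology Function Filter Metric unitInterval

noncomputable section

/-- A map normalised at three points. -/
def nm (a b c : Sph) (k : Sph → Sph) (x : Sph) : Sph := nrm (k a) (k b) (k c) (k x)

lemma nm_mob {M k : Sph → Sph} (hM : IsMob M) {a b c : Sph} (h : D3 (k a) (k b) (k c)) (x : Sph) :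
    nm a b c (fun x => M (k x)) x = nm a b c k x := nrm_mob hM h _

lemma nm_apx {a b c : Sph} {k : Sph → Sph} (h : D3 (k a) (k b) (k c)) {η : ℝ} (hη : 0 < η) :
    ∃ ε > 0, ∀ T M : Sph → Sph, IsMob M → (∀ x, dist (M (T x)) (k x) < ε) →
      ∀ x, dist (nm a b c T x) (nm a b c k x) < η := by
  obtain ⟨ε, hε, H⟩ := nrm_close h hη
  refine ⟨ε, hε, fun T M hM hd x => ?_⟩
  obtain ⟨h1, h2⟩ := H _ _ _ _ _ (hd a) (hd b) (hd c) (hd x)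
  rw [← nm_mob hM h1.of_map]
  exact h2

/-- `h` approximates all the components of `m` up to Moebius maps. -/
def Near {X : Set Sph} (m : Marking X) (ε : ℝ) (h : Sph ≃ₜ Sph) : Prop :=
  IsoRel ∅ h ∧ ∀ v, ∃ M, IsMob M ∧ ∀ x, dist (M (h x)) (m.φ v x) < ε

lemma Near.mono {X : Set Sph} {m : Marking X} {ε ε' : ℝ} {h : Sph ≃ₜ Sph} (a : Near m ε h)
    (e : ε ≤ ε') : Near m ε' h :=
  ⟨a.1, fun v => (a.2 v).imp fun _ b => ⟨b.1, fun x => (b.2 x).trans_le e⟩⟩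

lemma IsStab.apx {A X : Set Sph} {m : Marking X} {χ : Marking A} (h : IsStab A m χ) {a b c : Sph}
    (ha : a ∈ A) (hb : b ∈ A) (hc : c ∈ A) {v : Fin χ.k}
    (hv : D3 (χ.φ v a) (χ.φ v b) (χ.φ v c)) : ∃ w, D3 (m.φ w a) (m.φ w b) (m.φ w c) ∧
      ∀ η > 0, ∃ β, IsoRel A β ∧
        ∀ x, dist (nm a b c (m.φ w) x) (nm a b c (χ.φ v) (β x)) < η := by
  obtain ⟨s, g, -, -, H⟩ := h
  have key : ∀ η > 0, D3 (m.φ (s v) a) (m.φ (s v) b) (m.φ (s v) c) ∧ ∃ β, IsoRel A β ∧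
      ∀ x, dist (nm a b c (m.φ (s v)) x) (nm a b c (χ.φ v) (β x)) < η := fun η hη => by
    obtain ⟨ε, hε, K⟩ := nrm_close hv hη
    obtain ⟨β, h1, h2⟩ := H {p | dist p.2 p.1 < ε} (IsOpen.mem_nhdsSet
      (isOpen_lt (continuous_snd.dist continuous_fst) continuous_const) |>.2 fun p hp => by
        rw [mem_diagonal_iff] at hp
        simpa [hp] using hε)
    have h3 : ∀ y ∈ A, dist (g v • m.φ (s v) y) (χ.φ v y) < ε := fun y hy => by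
      have := h2 v y
      rwa [h1.fix hy] at this
    have h4 := fun x => K _ _ _ _ _ (h3 a ha) (h3 b hb) (h3 c hc) (h2 v x)
    have h5 : D3 (m.φ (s v) a) (m.φ (s v) b) (m.φ (s v) c) :=
      D3.of_map (M := fun x => g v • x) (h4 a).1
    refine ⟨h5, β, h1, fun x => ?_⟩
    rw [← nm_mob (isMob_smul (g v)) h5]
    exact (h4 x).2
  exact ⟨s v, (key 1 one_pos).1, fun η hη => (key η hη).2⟩

lemma Equivalent.symm {X : Set Sph} {m m' : Marking X} (h : Equivalent m m') : Equivalent m' m := by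
  obtain ⟨s, g, β, h1, h2⟩ := h
  obtain ⟨B, rfl⟩ := h1.exists_homeo
  refine ⟨s.symm, fun w => (g (s.symm w))⁻¹, B.symm, h1.symm, fun w y => ?_⟩
  have := h2 (s.symm w) (B.symm y)
  rw [s.apply_symm_apply, B.apply_symm_apply] at this
  rw [this, inv_smul_smul]

lemma unif_fin {ι : Type} [Finite ι] (g : ι → GL (Fin 2) ℂ) {η : ℝ} (hη : 0 < η) :
    ∃ ε > 0, ∀ i (x x' : Sph), dist x x' < ε → dist (g i • x) (g i • x') < η := by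
  choose e h1 h2 using fun i => unif_cont (isMob_smul (g i)).continuous hη
  obtain ⟨ε, hε, h⟩ : ∃ ε > 0, ∀ i, ε ≤ e i := by
    cases isEmpty_or_nonempty ι
    · exact ⟨1, one_pos, fun i => isEmptyElim i⟩
    · obtain ⟨i, hi⟩ := Finite.exists_min e
      exact ⟨e i, h1 i, hi⟩
  exact ⟨ε, hε, fun i x x' hd => h2 i x x' (hd.trans_le (h i))⟩

lemma EqLift.fixB {h : Sph → Sph} {H : ℂ ≃ₜ ℂ} (a : EqLift h H) {y : Sph} (hy : y ∈ B3) :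
    h y = y := by
  obtain ⟨z, rfl⟩ := pw_surj y
  rw [← a.lifts, a.fix z hy]

lemma nrm_not_mem {a b c x : Sph} (h : D3 a b c) (ha : x ≠ a) (hb : x ≠ b) (hc : x ≠ c) :
    nrm a b c x ∉ B3 := by
  have hi := (isMob_nrm h).injective
  rintro (e | e | e)
  · exact ha (hi (e.trans (nrm_fst h).symm))
  · exact hb (hi (e.trans (nrm_snd h).symm))
  · exact hc (hi (e.trans (nrm_trd a b c).symm))

lemma nrmH_symm_o0 {a b c : Sph} (h : D3 a b c) : (nrmH a b c h).symm o0 = a := by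
  rw [Homeomorph.symm_apply_eq, nrmH_apply, nrm_fst h]

lemma nrmH_symm_o1 {a b c : Sph} (h : D3 a b c) : (nrmH a b c h).symm o1 = b := by
  rw [Homeomorph.symm_apply_eq, nrmH_apply, nrm_snd h]

lemma nrmH_symm_infty {a b c : Sph} (h : D3 a b c) : (nrmH a b c h).symm ∞ = c := by
  rw [Homeomorph.symm_apply_eq, nrmH_apply, nrm_trd]

/-- The data of a quadratic map with a critical cycle of period four. -/
structure Setup where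
  f : Sph → Sph
  μ : Sph ≃ₜ Sph
  ν : Sph ≃ₜ Sph
  a0 : Sph
  a1 : Sph
  a2 : Sph
  a3 : Sph
  A : Set Sph
  B : Set Sph
  q : ℂ
  d : ℂ
  hμ : IsMob μ
  hν : IsMob ν
  ef : ∀ x, f x = μ (sqS (ν x))
  deg : RatDeg f 2
  f0 : f a0 = a1
  f1 : f a1 = a2
  f2 : f a2 = a3
  f3 : f a3 = a0
  dL : D3 a3 a0 a2
  dU : D3 a2 a3 a1
  n01 : a0 ≠ a1
  crit : ν a0 = ∞
  hA : A = {a0, a1, a2, a3}
  hAB : A ⊆ B
  hv : μ o0 ∈ B
  hv' : μ o0 ∉ A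
  hq : pw q = nrm a3 a0 a2 a1
  hd : d ≠ 0
  hρ : ∀ z, pw (z + d) = rho (pw z)

namespace Setup

variable (S : Setup)

/-- Normalisation of the target. -/
def NL : Sph ≃ₜ Sph := nrmH _ _ _ S.dL

/-- Normalisation of the source. -/
def NU : Sph ≃ₜ Sph := nrmH _ _ _ S.dU

/-- The normalised map. -/
def G0 (x : Sph) : Sph := S.NL (S.f (S.NU.symm x))

/-- The base point in the lifted graph. -/
def w0 : ℂ × ℂ := (S.q + S.d, S.q)

lemma m0 : S.a0 ∈ S.A := by simp [S.hA]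
lemma m1 : S.a1 ∈ S.A := by simp [S.hA]
lemma m2 : S.a2 ∈ S.A := by simp [S.hA]
lemma m3 : S.a3 ∈ S.A := by simp [S.hA]

lemma NL_apply (x : Sph) : S.NL x = nrm S.a3 S.a0 S.a2 x := nrmH_apply _ _
lemma NU_apply (x : Sph) : S.NU x = nrm S.a2 S.a3 S.a1 x := nrmH_apply _ _

lemma G0_NU (x : Sph) : S.G0 (S.NU x) = S.NL (S.f x) := by simp [G0]

lemma eG (x : Sph) : S.G0 x = (S.μ.trans S.NL) (sqS ((S.NU.symm.trans S.ν) x)) := by
  simp [G0, S.ef]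

lemma mobL : IsMob (S.μ.trans S.NL) := S.hμ.trans (isMob_nrmH _)
lemma mobU : IsMob (S.NU.symm.trans S.ν) := (isMob_nrmH _).symm.trans S.hν

lemma q3 : Q3 S.G0 := ⟨⟨_, _, S.mobL, S.mobU, S.eG⟩, forall_B3
  (by rw [G0, NU, nrmH_symm_o0, S.f2, NL_apply, nrm_fst S.dL])
  (by rw [G0, NU, nrmH_symm_o1, S.f3, NL_apply, nrm_snd S.dL])
  (by rw [G0, NU, nrmH_symm_infty, S.f1, NL_apply, nrm_trd])⟩

lemma cr {h : Sph → Sph} (hi : Injective h) :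
    nm S.a2 S.a3 S.a1 h S.a0 = rho (nm S.a3 S.a0 S.a2 h S.a1) :=
  cross_ratio (S.dL.map hi) (hi.ne S.dU.2.1.symm) (hi.ne S.dU.2.2.symm)

lemma pw_q : pw S.w0.2 = S.NL S.a1 := by rw [NL_apply]; exact S.hq

lemma pw_p : pw S.w0.1 = S.NU S.a0 := by
  rw [NU_apply, w0, S.hρ, S.hq]; exact (S.cr injective_id).symm

lemma qB : pw S.w0.2 ∉ B3 := by
  rw [pw_q, NL_apply]; exact nrm_not_mem S.dL S.dU.2.1.symm S.n01.symm S.dU.2.2.symm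

lemma pB : pw S.w0.1 ∉ B3 := by
  rw [pw_p, NU_apply]; exact nrm_not_mem S.dU S.dL.2.1 S.dL.1.symm S.n01

lemma vB : (S.μ.trans S.NL) o0 ∉ B3 := by
  rw [Homeomorph.trans_apply, NL_apply]
  exact nrm_not_mem S.dL (fun e => S.hv' (e ▸ S.m3)) (fun e => S.hv' (e ▸ S.m0))
    fun e => S.hv' (e ▸ S.m2)

lemma μ_infty : S.μ ∞ = S.a1 := by rw [← S.f0, S.ef, S.crit, sqS_infty]

lemma hw0 : S.w0 ∈ Zg S.G0 :=
  ⟨by rw [pw_p, pw_q, G0_NU, S.f0], fun e => S.hd (by simpa [w0] using e)⟩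

/-- `ζ` is the value of the invariant for the marking `h`. -/
def VH (h : Sph → Sph) (ζ : ℂ) : Prop :=
  ∃ (u l : Sph ≃ₜ Sph) (G : Sph → Sph) (U L : ℂ ≃ₜ ℂ) (Λ : ℂ × ℂ → ℂ), Q3 G ∧
    Data S.G0 G u l U L Λ ∧ (∀ x, l (S.NL x) = nm S.a3 S.a0 S.a2 h x) ∧ Λ S.w0 = ζ

/-- The integer invariant of a marking. -/
def Val {X : Set Sph} (m : Marking X) (n : ℤ) : Prop :=
  ∃ ε > 0, ∀ h, Near m ε h → ∀ ζ, S.VH h ζ → ‖ζ - n * (2 * Real.pi * Complex.I)‖ < 1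

lemma normL {H : I → Sph ≃ₜ Sph} (hc : CFam H) (h0 : ∀ x, H 0 x = x) :
    ∃ l : I → Sph ≃ₜ Sph, CFam l ∧ (∀ x, l 0 x = x) ∧ (∀ t, ∀ x ∈ B3, l t x = x) ∧
      ∀ t x, l t (S.NL x) = nm S.a3 S.a0 S.a2 (H t) x := by
  simpa only [NL, nm, nrmH_symm_o0, nrmH_symm_o1, nrmH_symm_infty] using
    norm_isotopy hc S.NL (isMob_nrmH _) h0

lemma normU {H : I → Sph ≃ₜ Sph} (hc : CFam H) (h0 : ∀ x, H 0 x = x) :
    ∃ l : I → Sph ≃ₜ Sph, CFam l ∧ (∀ x, l 0 x = x) ∧ (∀ t, ∀ x ∈ B3, l t x = x) ∧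
      ∀ t x, l t (S.NU x) = nm S.a2 S.a3 S.a1 (H t) x := by
  simpa only [NU, nm, nrmH_symm_o0, nrmH_symm_o1, nrmH_symm_infty] using
    norm_isotopy hc S.NU (isMob_nrmH _) h0

lemma exists_VH {h : Sph → Sph} (hh : IsoRel ∅ h) : ∃ ζ, S.VH h ζ := by
  obtain ⟨H, h1, h2, h3, -⟩ := isoRel_iff.1 hh
  obtain ⟨l, l1, l2, l3, l4⟩ := S.normL h1 h2
  obtain ⟨u, G, u1, u2, u3, u4, u5, u6⟩ := exists_upper S.q3 l1 l2 l3
  obtain ⟨U, L, Λ, hD, -⟩ := data_of_isotopy u1 l1 u2 l2 u3 l3 u5 (by rw [u4]; exact u6)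
  rw [u4] at hD
  exact ⟨_, _, _, _, _, _, _, u5 1, hD, fun x => by rw [l4, funext h3], rfl⟩

variable {S}

lemma VH.comp {h β : Sph → Sph} {ζ : ℂ} (hh : S.VH h ζ) (hβ : IsoRel S.B β) :
    S.VH (h ∘ β) ζ := by
  obtain ⟨u, l, G, U, L, Λ, hG, hD, hl, rfl⟩ := hh
  obtain ⟨H, h1, h2, h3, h4⟩ := isoRel_iff.1 hβ
  let l' : I → Sph ≃ₜ Sph := fun t => (S.NL.symm.trans (H t)).trans S.NL
  have l1 : CFam l' := ((cfam_const _).trans h1).trans (cfam_const _)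
  have l2 : ∀ x, l' 0 x = x := fun x => by simp [l', h2]
  have l4 : ∀ t, ∀ x ∈ S.B, l' t (S.NL x) = S.NL x := fun t x hx => by simp [l', h4 t x hx]
  have l3 : ∀ t, ∀ x ∈ B3, l' t x = x := fun t => forall_B3
    (by have := l4 t _ (S.hAB S.m3); rwa [NL_apply, nrm_fst S.dL] at this)
    (by have := l4 t _ (S.hAB S.m0); rwa [NL_apply, nrm_snd S.dL] at this)
    (by have := l4 t _ (S.hAB S.m2); rwa [NL_apply, nrm_trd] at this)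
  have l5 : (S.μ.trans S.NL) ∞ = pw S.w0.2 := by rw [Homeomorph.trans_apply, μ_infty, pw_q]
  have l6 : ∀ t, l' t (pw S.w0.2) = pw S.w0.2 := fun t => by
    rw [pw_q]; exact l4 t _ (S.hAB S.m1)
  obtain ⟨u', u1, u2, u3, u4⟩ := exists_upper' (M := fun _ => S.μ.trans S.NL)
    (N := fun _ => S.NU.symm.trans S.ν) (cfam_const _) (cfam_const _) l1 l2 l3
    (fun _ x hx => by rw [← S.eG]; exact S.q3.2 x hx) (fun t => l4 t _ S.hv)
    (fun t => by rw [l5, l6]) S.vB (l5 ▸ S.qB)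
  simp only [← S.eG] at u4
  have u5 : ∀ t, u' t (pw S.w0.1) = pw S.w0.1 := fun t => by
    have a1 := u4 t (pw S.w0.1)
    rw [S.hw0.1, l6, ← l5, S.eG] at a1
    have a2 := sqS_eq_infty ((S.μ.trans S.NL).injective a1)
    refine (S.NU.symm.trans S.ν).injective ?_
    rw [a2, pw_p]; simp [S.crit]
  obtain ⟨U', L', Λ', hD', hp⟩ := data_of_isotopy (G := fun _ => S.G0) u1 l1 u2 l2 u3 l3
    (fun _ => S.q3) u4
  obtain ⟨e1, e2, e3⟩ := hp _ S.hw0 (fun _ => S.w0.1) (fun _ => S.w0.2) (fun _ => 0)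
    continuous_const continuous_const continuous_const rfl rfl rfl S.pB S.qB
    (fun t => (u5 t).symm) (fun t => (l6 t).symm) fun _ => by simp
  refine ⟨_, _, _, _, _, _, hG, hD'.trans hD, fun x => ?_, by simp only [e1, e2, e3, zero_add]⟩
  simp only [Homeomorph.trans_apply, l', Homeomorph.symm_apply_apply, hl, h3, nm, Function.comp,
    hβ.fix (S.hAB S.m3), hβ.fix (S.hAB S.m0), hβ.fix (S.hAB S.m2)]

lemma Val.of_equiv {m m' : Marking S.B} {n : ℤ} (e : Equivalent m m') (h : S.Val m' n) :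
    S.Val m n := by
  obtain ⟨s, g, β, h1, h2⟩ := e
  obtain ⟨B, rfl⟩ := h1.exists_homeo
  obtain ⟨ε, hε, H⟩ := h
  obtain ⟨ε', hε', K⟩ := unif_fin g hε
  refine ⟨ε', hε', fun h hn ζ hζ => H (B.symm.trans h) ⟨(h1.symm.mono (empty_subset _)).trans hn.1,
    fun w => ?_⟩ ζ (hζ.comp h1.symm)⟩
  obtain ⟨v, rfl⟩ := s.surjective w
  obtain ⟨M, hM, hd⟩ := hn.2 v
  refine ⟨_, (isMob_smul (g v)).comp hM, fun y => ?_⟩
  obtain ⟨x, rfl⟩ := B.surjective y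
  rw [h2]
  simpa using K v _ _ (hd x)

lemma Val.unique {X : Set Sph} {m : Marking X} {n n' : ℤ} (h : S.Val m n) (h' : S.Val m n') :
    n = n' := by
  obtain ⟨ε, hε, H⟩ := h
  obtain ⟨ε', hε', H'⟩ := h'
  obtain ⟨h, hn⟩ : ∃ h, Near m (min ε ε') h := m.dense (lt_min hε hε')
  obtain ⟨ζ, hζ⟩ := S.exists_VH hn.1
  have a1 := H h (hn.mono (min_le_left _ _)) ζ hζ
  have a2 := H' h (hn.mono (min_le_right _ _)) ζ hζ
  have a3 := norm_sub_le (ζ - n' * (2 * Real.pi * Complex.I)) (ζ - n * (2 * Real.pi * Complex.I))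
  rw [show ζ - n' * (2 * Real.pi * Complex.I) - (ζ - n * (2 * Real.pi * Complex.I)) =
    ((n - n' : ℤ) : ℂ) * (2 * Real.pi * Complex.I) by push_cast; ring] at a3
  have a4 := eq_zero_of_exp (Complex.exp_int_mul_two_pi_mul_I _) (a3.trans_lt (by linarith))
  rw [mul_eq_zero, or_iff_left Complex.two_pi_I_ne_zero, Int.cast_eq_zero] at a4
  omega

/-- Markings isotopic relative to the cycle have lifts at the exact distance `d`. -/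
lemma rel_lifts {ξ β β' : Sph → Sph} (hξ : IsoRel ∅ ξ) (hβ : IsoRel S.A β) (hβ' : IsoRel S.A β') :
    ∃ (u l : Sph ≃ₜ Sph) (U L : ℂ ≃ₜ ℂ), EqLift u U ∧ EqLift l L ∧
      (∀ x, u (S.NU x) = nm S.a2 S.a3 S.a1 ξ (β x)) ∧
      (∀ x, l (S.NL x) = nm S.a3 S.a0 S.a2 ξ (β' x)) ∧ U S.w0.1 - L S.w0.2 = S.d := by
  obtain ⟨H, h1, h2, h3, -⟩ := isoRel_iff.1 hξ
  obtain ⟨K, k1, k2, k3, k4⟩ := isoRel_iff.1 hβ
  obtain ⟨K', k1', k2', k3', k4'⟩ := isoRel_iff.1 hβ'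
  obtain ⟨u, u1, u2, u3, u4⟩ := S.normU (k1.trans h1) fun x => by simp [h2, k2]
  obtain ⟨l, l1, l2, l3, l4⟩ := S.normL (k1'.trans h1) fun x => by simp [h2, k2']
  simp only [nm, Homeomorph.trans_apply, k4 _ _ S.m1, k4 _ _ S.m2, k4 _ _ S.m3, k4' _ _ S.m0,
    k4' _ _ S.m2, k4' _ _ S.m3] at u4 l4
  obtain ⟨U, U1, U2, U3⟩ := lift_isotopy u1 u2 u3
  obtain ⟨L, L1, L2, L3⟩ := lift_isotopy l1 l2 l3
  refine ⟨u 1, l 1, U 1, L 1, U3 1, L3 1, fun x => by rw [u4]; simp only [h3, k3, nm],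
    fun x => by rw [l4]; simp only [h3, k3', nm], ?_⟩
  rw [sub_eq_iff_eq_add']
  refine path_unique (g := fun t => U t S.w0.1) (g' := fun t => L t S.w0.2 + S.d) (by fun_prop)
    (by fun_prop) (fun t => ?_) (fun t => ?_) (by rw [U2, L2]; rfl) 1
  · rw [S.hρ, (U3 t).lifts, (L3 t).lifts, pw_p, pw_q, u4, l4, k4 _ _ S.m0, k4' _ _ S.m1]
    exact S.cr (H t).injective
  · rw [(U3 t).lifts]; exact not_mem_of_fix (u3 t) S.pB

/-- The upper marking is controlled by the lower one. -/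
lemma upper_apx {ψ : Marking S.A} {φ : Marking S.B} {F : (Fin ψ.k → Sph) → Fin φ.k → Sph}
    (hF : Admissible ψ φ F) (e : ∀ x, F (pt ψ.φ x) = pt φ.φ (S.f x)) {v : Fin ψ.k}
    (hv : D3 (ψ.φ v S.a2) (ψ.φ v S.a3) (ψ.φ v S.a1)) {η : ℝ} (hη : 0 < η) :
    ∃ ε > 0, ∀ h, Near φ ε h → ∀ (u l : Sph ≃ₜ Sph) (G : Sph → Sph), NF G →
      (∀ x ∈ B3, u x = x) → (∀ x, G (u x) = l (S.G0 x)) →
      (∀ x, l (S.NL x) = nm S.a3 S.a0 S.a2 h x) →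
        ∀ x, dist (u (S.NU x)) (nm S.a2 S.a3 S.a1 (ψ.φ v) x) < η := by
  obtain ⟨w, R, d, hR, H⟩ := hF.1 v
  have e1 : ∀ x, ψ.φ v x ∉ ψ.N v → φ.φ w (S.f x) = R (ψ.φ v x) := fun x hx => by
    have := (H _ (Marking.mem_comp hx)).2
    rwa [e] at this
  have hd : d ≠ 0 := by
    rintro rfl
    obtain ⟨y, hy⟩ := hR.const
    obtain ⟨y₀, hy₀⟩ := exists_ne_of_finite (ψ.mono v).fin
    obtain ⟨x₀, rfl⟩ := (ψ.mono v).surj y₀
    have ho : IsOpenMap S.f := by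
      rw [funext S.ef]; exact S.μ.isOpenMap.comp (isOpenMap_sqS.comp S.ν.isOpenMap)
    refine φ.not_open_subset_fibre (pt φ.φ (S.f x₀)) (ho _
      ((ψ.mono v).fin.isClosed.isOpen_compl.preimage (ψ.mono v).cont)) ⟨_, x₀, hy₀, rfl⟩ ?_
    rintro _ ⟨x, hx, rfl⟩
    refine comp_ext (e x ▸ (H _ (Marking.mem_comp hx)).1) (e x₀ ▸ (H _ (Marking.mem_comp hy₀)).1) ?_
    change φ.φ w (S.f x) = φ.φ w (S.f x₀)
    rw [e1 x hx, e1 x₀ hy₀, hy, hy]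
  obtain ⟨ε₁, hε₁, K₁⟩ := nm_apx hv hη
  obtain ⟨ε, hε, K⟩ := bdry S.ef (ψ.mono v) (φ.mono w) hR hd e1 hε₁
  refine ⟨ε, hε, fun h hn u l G ⟨μ, ν, hμ, hν, eG⟩ uf hc hl x => ?_⟩
  obtain ⟨M, hM, hMd⟩ := hn.2 w
  have dh := S.dL.map h.injective
  have e2 : ∀ x, sqS (ν (u (S.NU x))) = μ.symm (l (S.NL (S.f x))) := fun x => by
    rw [Homeomorph.eq_symm_apply, ← eG, hc, G0_NU]
  obtain ⟨M', hM', hd'⟩ := K ((S.NU.trans u).trans ν) ((S.NL.trans l).trans μ.symm)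
    (M ∘ (nrmH _ _ _ dh).symm ∘ μ) (hM.comp ((isMob_nrmH dh).symm.comp hμ)) e2 fun x => by
      simp only [Homeomorph.trans_apply, Function.comp, e2, Homeomorph.apply_symm_apply, hl, nm]
      rw [← nrmH_apply dh, Homeomorph.symm_apply_apply]
      exact hMd _
  have := K₁ (fun x => u (S.NU x)) (M' ∘ ν) (hM'.comp hν) hd' x
  rwa [nm, NU_apply S S.a2, NU_apply S S.a3, NU_apply S S.a1, nrm_fst S.dU, nrm_snd S.dU, nrm_trd,
    uf _ o0_mem, uf _ o1_mem, uf _ infty_mem, nrm_std] at this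

/-- The invariant is defined at every point of the augmented deformation space. -/
theorem key {ψ : Marking S.A} {φ : Marking S.B} {F : (Fin ψ.k → Sph) → Fin φ.k → Sph}
    (hF : Admissible ψ φ F) (e : ∀ x, F (pt ψ.φ x) = pt φ.φ (S.f x)) {χ : Marking S.A}
    (hψ : IsStab S.A ψ χ) (hφ : IsStab S.A φ χ) : ∃ n, S.Val φ n := by
  obtain ⟨vL, hL⟩ := χ.median S.m3 S.m0 S.m2 S.dL
  obtain ⟨vU, hU⟩ := χ.median S.m2 S.m3 S.m1 S.dU
  obtain ⟨wL, dL, aL⟩ := hφ.apx S.m3 S.m0 S.m2 hL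
  obtain ⟨wU, dU, aU⟩ := hψ.apx S.m2 S.m3 S.m1 hU
  have d0 := norm_pos_iff.2 S.hd
  obtain ⟨η, hη, C⟩ := close_lifts (η := ‖S.d‖ / 20) (by positivity)
  obtain ⟨β', b1', b2'⟩ := aL (η / 4) (by positivity)
  obtain ⟨β, b1, b2⟩ := aU (η / 4) (by positivity)
  obtain ⟨e1, he1, c1⟩ := nm_apx hL (η := η / 4) (by positivity)
  obtain ⟨e2, he2, c2⟩ := nm_apx hU (η := η / 4) (by positivity)
  obtain ⟨ξ, hξ⟩ : ∃ h, Near χ (min e1 e2) h := χ.dense (lt_min he1 he2)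
  obtain ⟨u₀, l₀, U₀, L₀, hU₀, hL₀, u1, l1, hV⟩ := rel_lifts hξ.1 b1 b1'
  have u2 : ∀ x, dist (u₀ (S.NU x)) (nm S.a2 S.a3 S.a1 (ψ.φ wU) x) < η / 2 := fun x => by
    obtain ⟨M, hM, hd⟩ := (hξ.mono (min_le_right _ _)).2 vU
    rw [u1]
    linarith [c2 ξ M hM hd (β x), b2 x, dist_triangle_right (nm S.a2 S.a3 S.a1 ξ (β x))
      (nm S.a2 S.a3 S.a1 (ψ.φ wU) x) (nm S.a2 S.a3 S.a1 (χ.φ vU) (β x))]
  have l2 : ∀ x, dist (l₀ (S.NL x)) (nm S.a3 S.a0 S.a2 (φ.φ wL) x) < η / 2 := fun x => by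
    obtain ⟨M, hM, hd⟩ := (hξ.mono (min_le_left _ _)).2 vL
    rw [l1]
    linarith [c1 ξ M hM hd (β' x), b2' x, dist_triangle_right (nm S.a3 S.a0 S.a2 ξ (β' x))
      (nm S.a3 S.a0 S.a2 (φ.φ wL) x) (nm S.a3 S.a0 S.a2 (χ.φ vL) (β' x))]
  obtain ⟨e3, he3, c3⟩ := nm_apx dL (η := η / 2) (by positivity)
  obtain ⟨e4, he4, c4⟩ := upper_apx hF e dU (η := η / 2) (by positivity)
  have cl : ∀ h, Near φ (min e3 e4) h → ∀ u l G U L Λ, Q3 G → Data S.G0 G u l U L Λ →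
      (∀ x, l (S.NL x) = nm S.a3 S.a0 S.a2 h x) →
      (∀ z, ‖U z - U₀ z‖ ≤ ‖S.d‖ / 20) ∧ ∀ z, ‖L z - L₀ z‖ ≤ ‖S.d‖ / 20 := by
    intro h hn u l G U L Λ hG hD hl
    refine ⟨C u₀ u U₀ U hU₀ hD.hU fun y => ?_, C l₀ l L₀ L hL₀ hD.hL fun y => ?_⟩
    · obtain ⟨x, rfl⟩ := S.NU.surjective y
      linarith [u2 x, c4 h (hn.mono (min_le_right _ _)) u l G hG.1 (fun _ => hD.hU.fixB) hD.comm hl x,
        dist_triangle_right (u₀ (S.NU x)) (u (S.NU x)) (nm S.a2 S.a3 S.a1 (ψ.φ wU) x)]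
    · obtain ⟨x, rfl⟩ := S.NL.surjective y
      obtain ⟨M, hM, hd⟩ := (hn.mono (min_le_left _ _)).2 wL
      have := c3 h M hM hd x
      rw [← hl] at this
      linarith [l2 x, dist_triangle_right (l₀ (S.NL x)) (l (S.NL x)) (nm S.a3 S.a0 S.a2 (φ.φ wL) x)]
  have tri : ∀ {a b c : ℂ}, ‖a - c‖ ≤ ‖S.d‖ / 20 → ‖b - c‖ ≤ ‖S.d‖ / 20 → ‖a - b‖ ≤ ‖S.d‖ / 10 :=
    fun {a b c} h1 h2 => by
      have := norm_sub_le (a - c) (b - c)
      rw [sub_sub_sub_cancel_right] at this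
      linarith
  have cV : ∀ U L : ℂ ≃ₜ ℂ, (∀ z, ‖U z - U₀ z‖ ≤ ‖S.d‖ / 20) → (∀ z, ‖L z - L₀ z‖ ≤ ‖S.d‖ / 20) →
      ‖U S.w0.1 - L S.w0.2 - S.d‖ ≤ ‖S.d‖ / 10 := fun U L h1 h2 => by
    have := norm_sub_le (U S.w0.1 - U₀ S.w0.1) (L S.w0.2 - L₀ S.w0.2)
    rw [show U S.w0.1 - U₀ S.w0.1 - (L S.w0.2 - L₀ S.w0.2) =
      U S.w0.1 - L S.w0.2 - (U₀ S.w0.1 - L₀ S.w0.2) by ring, hV] at this
    linarith [h1 S.w0.1, h2 S.w0.2]
  obtain ⟨h₁, hn₁⟩ : ∃ h, Near φ (min e3 e4) h := φ.dense (lt_min he3 he4)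
  obtain ⟨_, u₁, l₁, G₁, U₁, L₁, Λ₁, hG₁, hD₁, hl₁, rfl⟩ := S.exists_VH hn₁.1
  obtain ⟨p1, p2⟩ := cl h₁ hn₁ _ _ _ _ _ _ hG₁ hD₁ hl₁
  have v1 := cV _ _ p1 p2
  have v2 : 9 / 10 * ‖S.d‖ ≤ ‖U₁ S.w0.1 - L₁ S.w0.2‖ := by
    have := norm_sub_le (U₁ S.w0.1 - L₁ S.w0.2) (U₁ S.w0.1 - L₁ S.w0.2 - S.d)
    rw [sub_sub_cancel] at this
    linarith
  obtain ⟨r1, r2⟩ := log_small (ratio_small (s := 1 / 4) d0 (v1.trans (by linarith))) (by norm_num)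
  obtain ⟨n, hn⟩ : ∃ n : ℤ, Λ₁ S.w0 = Complex.log ((U₁ S.w0.1 - L₁ S.w0.2) / S.d) +
      n * (2 * Real.pi * Complex.I) := by
    rw [← Complex.exp_eq_exp_iff_exists_int, Complex.exp_log (Complex.slitPlane_ne_zero r1),
      eq_div_iff S.hd, ← hD₁.ex _ S.hw0]
    simp [w0]
  refine ⟨n, min e3 e4, lt_min he3 he4, ?_⟩
  rintro h hh _ ⟨u, l, G, U, L, Λ, hG, hD, hl, rfl⟩
  obtain ⟨p3, p4⟩ := cl h hh _ _ _ _ _ _ hG hD hl
  have r3 := Data.cmp S.q3 hG₁ hD₁ hD (fun z => tri (p3 z) (p1 z)) (fun z => tri (p4 z) (p2 z))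
    S.hw0 (by linarith)
  have v3 := norm_sub_le (U S.w0.1 - L S.w0.2 - S.d) (U₁ S.w0.1 - L₁ S.w0.2 - S.d)
  rw [sub_sub_sub_cancel_right] at v3
  have r4 := (log_small (ratio_small (s := 1 / 4) (a := U S.w0.1 - L S.w0.2)
    (b := U₁ S.w0.1 - L₁ S.w0.2) (by linarith) (by linarith [cV _ _ p3 p4])) (by norm_num)).2
  rw [← r3] at r4
  have := norm_add_le (Λ S.w0 - Λ₁ S.w0) (Complex.log ((U₁ S.w0.1 - L₁ S.w0.2) / S.d))
  rw [show Λ S.w0 - Λ₁ S.w0 + Complex.log ((U₁ S.w0.1 - L₁ S.w0.2) / S.d) =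
    Λ S.w0 - n * (2 * Real.pi * Complex.I) by rw [hn]; ring] at this
  linarith

end Setup

end

end Pool.Agent.Lib.MP_21db80_an
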