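import Pool.Agent.Lib.MP_21db80_an.Weier
import Pool.Agent.Lib.MP_21db80_an.Degree

/-!
Lifting isotopies through the orbifold covering and through the squaring map.
-/

namespace Pool.Agent.Lib.MP_21db80_an

open OnePoint Set Topology Function Filter Metric unitInterval

noncomputable section

/-- Equivariant lifts. -/
structure EqLift (h : Sph → Sph) (H : ℂ ≃ₜ ℂ) : Prop where
  lifts : ∀ z, pw (H z) = h (pw z)
  eqv : ∀ k l z : ℂ, k ^ 4 = 1 → l ∈ Lam → H (k * z + l) = k * H z + l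
  fix : ∀ z, pw z ∈ B3 → H z = z

lemma eqLift_refl : EqLift id (Homeomorph.refl ℂ) := ⟨fun _ => rfl, fun _ _ _ _ _ => rfl,
  fun _ _ => rfl⟩

lemma EqLift.trans {h k : Sph → Sph} {H K : ℂ ≃ₜ ℂ} (a : EqLift h H) (b : EqLift k K) :
    EqLift (k ∘ h) (H.trans K) :=
  ⟨fun z => by simp [a.lifts, b.lifts], fun c l z h1 h2 => by simp [a.eqv c l _ h1 h2,
    b.eqv c l _ h1 h2], fun z hz => by simp [a.fix z hz, b.fix z hz]⟩

lemma EqLift.symm {h : Sph ≃ₜ Sph} {H : ℂ ≃ₜ ℂ} (a : EqLift h H) : EqLift h.symm H.symm :=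
  ⟨fun z => by rw [Homeomorph.eq_symm_apply, ← a.lifts]; simp, fun c l z h1 h2 => by
    rw [Homeomorph.symm_apply_eq, a.eqv c l _ h1 h2]; simp,
    fun z hz => by rw [Homeomorph.symm_apply_eq, a.fix z hz]⟩

lemma EqLift.congr {h k : Sph → Sph} {H : ℂ ≃ₜ ℂ} (a : EqLift h H) (e : ∀ x, h x = k x) :
    EqLift k H := funext e ▸ a

lemma EqLift.add {h : Sph → Sph} {H : ℂ ≃ₜ ℂ} (a : EqLift h H) {l : ℂ} (hl : l ∈ Lam) (z : ℂ) :
    H (z + l) = H z + l := by simpa using a.eqv 1 l z (by simp) hl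

lemma path_unique {g g' : I → ℂ} (hg : Continuous g) (hg' : Continuous g')
    (e : ∀ t, pw (g t) = pw (g' t)) (hB : ∀ t, pw (g t) ∉ B3) (h0 : g 0 = g' 0) (t : I) :
    g t = g' t := by
  have := cov_pw.isCoveringMap_restrictPreimage.eq_of_comp_eq
    (g₁ := fun t => (⟨g t, hB t⟩ : pw ⁻¹' B3ᶜ)) (g₂ := fun t => ⟨g' t, fun h => hB t (e t ▸ h)⟩)
    (hg.subtype_mk _) (hg'.subtype_mk _) (funext fun t => Subtype.ext (e t)) 0 (Subtype.ext h0)
  exact congrArg Subtype.val (congrFun this t)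

lemma continuousAt_of_open {X Y : Type*} [TopologicalSpace X] [TopologicalSpace Y] {E : Set X}
    (hE : IsOpen E) {F : I × X → Y} (hF : Continuous fun p : I × E => F (p.1, p.2)) {p : I × X}
    (hp : p.2 ∈ E) : ContinuousAt F p :=
  ((IsOpenEmbedding.id.prodMap hE.isOpenEmbedding_subtypeVal).continuousAt_iff
    (x := (p.1, ⟨p.2, hp⟩))).1 hF.continuousAt

lemma not_mem_of_fix {S : Set Sph} {h : Sph ≃ₜ Sph} (hf : ∀ x ∈ S, h x = x) {x : Sph}
    (hx : x ∉ S) : h x ∉ S := fun h' => hx (h.injective (hf _ h') ▸ h')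

open Classical in
lemma lift_fun {H : I → Sph ≃ₜ Sph} (hc : CFam H) (h0 : ∀ x, H 0 x = x)
    (hf : ∀ t, ∀ x ∈ B3, H t x = x) : ∃ K : I × ℂ → ℂ, Continuous K ∧
      (∀ t z, pw (K (t, z)) = H t (pw z)) ∧ (∀ z, K (0, z) = z) ∧
        ∀ t z, pw z ∈ B3 → K (t, z) = z := by
  have cov := cov_pw.isCoveringMap_restrictPreimage
  let Hh : C(I × (pw ⁻¹' B3ᶜ), (B3ᶜ : Set Sph)) :=
    ⟨fun p => ⟨H p.1 (pw p.2), not_mem_of_fix (hf _) p.2.2⟩,
      (hc.cont continuous_fst (continuous_pw.comp (by fun_prop))).subtype_mk _⟩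
  have hh : ∀ a, Hh (0, a) = B3ᶜ.restrictPreimage pw (ContinuousMap.id _ a) := fun a =>
    Subtype.ext (h0 _)
  let K₀ := cov.liftHomotopy Hh (ContinuousMap.id _) hh
  let K : I × ℂ → ℂ := fun p => if h : pw p.2 ∈ B3 then p.2 else K₀ (p.1, ⟨p.2, h⟩)
  have k1 : ∀ t z, pw z ∈ B3 → K (t, z) = z := fun t z h => dif_pos h
  have k2 : ∀ (t : I) (z : pw ⁻¹' B3ᶜ), K (t, z) = K₀ (t, z) := fun t z => dif_neg z.2
  have k3 : ∀ t z, pw (K (t, z)) = H t (pw z) := fun t z => by
    by_cases h : pw z ∈ B3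
    · rw [k1 t z h, hf t _ h]
    · rw [k2 t ⟨z, h⟩]
      exact congrArg Subtype.val
        (congrFun (cov.liftHomotopy_lifts Hh (ContinuousMap.id _) hh) (t, ⟨z, h⟩))
  have k4 : ∀ z, K (0, z) = z := fun z => by
    by_cases h : pw z ∈ B3
    · exact k1 0 z h
    · rw [k2 0 ⟨z, h⟩, cov.liftHomotopy_zero]; rfl
  have k5 : ∀ p : I × ℂ, pw p.2 ∉ B3 → ContinuousAt K p := fun p hp =>
    continuousAt_of_open (finite_B3.isClosed.isOpen_compl.preimage continuous_pw) (by
      simp only [k2]; exact continuous_subtype_val.comp K₀.continuous) hp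
  refine ⟨K, continuous_iff_continuousAt.2 fun p => ?_, k3, k4, k1⟩
  by_cases hp : pw p.2 ∈ B3
  swap
  · exact k5 p hp
  obtain ⟨t₀, b⟩ := p
  rw [ContinuousAt, k1 t₀ b hp, Metric.tendsto_nhds]
  intro η hη
  obtain ⟨δ, hδ, hδ'⟩ := orb_discrete b
  obtain ⟨ε, hε, hε'⟩ := pw_unif (η := min η (δ / 2)) (by positivity)
  have h1 : ∀ᶠ z in 𝓝 b, ∀ t ∈ (univ : Set I), dist (pw b) (H t (pw z)) < ε := by
    refine isCompact_univ.eventually_forall_of_forall_eventually fun t _ => ?_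
    have : Continuous fun p : ℂ × I => dist (pw b) (H p.2 (pw p.1)) :=
      continuous_const.dist (hc.cont continuous_snd (continuous_pw.comp continuous_fst))
    exact this.continuousAt.eventually_lt continuousAt_const (by simpa [hf t _ hp] using hε)
  have h2 : ∀ᶠ z in 𝓝 b, dist z b < min η (δ / 2) := ball_mem_nhds b (by positivity)
  filter_upwards [continuous_snd.continuousAt.eventually (h1.and h2)]
  rintro ⟨t, z⟩ ⟨a1, a2⟩
  refine lt_of_lt_of_le ?_ (min_le_left η (δ / 2))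
  by_cases hz : pw z ∈ B3
  · rwa [k1 t z hz]
  have hcz : Continuous fun t => K (t, z) := continuous_iff_continuousAt.2 fun t =>
    (k5 (t, z) hz).comp_of_eq (by fun_prop) rfl
  refine isPreconnected_univ.gt_of_ne (f := fun t => dist (K (t, z)) b)
    (hcz.dist continuous_const).continuousOn (fun s _ => ?_) ⟨0, trivial, by rwa [k4]⟩ trivial
  obtain ⟨k, l, b1, b2, b3⟩ := hε' b (K (s, z)) (by rw [k3]; exact a1 s trivial)
  by_cases b4 : ‖k * b + l - b‖ < δ
  · rw [hδ' k l b1 b2 b4, ← dist_eq_norm] at b3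
    exact b3.ne
  · refine ne_of_gt ?_
    have := norm_sub_le (K (s, z) - b) (K (s, z) - (k * b + l))
    rw [sub_sub_sub_cancel_left] at this
    rw [dist_eq_norm]
    linarith [min_le_right η (δ / 2)]

/-- Lifting an isotopy. -/
theorem lift_isotopy {H : I → Sph ≃ₜ Sph} (hc : CFam H) (h0 : ∀ x, H 0 x = x)
    (hf : ∀ t, ∀ x ∈ B3, H t x = x) : ∃ L : I → ℂ ≃ₜ ℂ, Continuous (fun p : I × ℂ => L p.1 p.2) ∧
      (∀ z, L 0 z = z) ∧ ∀ t, EqLift (H t) (L t) := by
  have h0' : ∀ x, (H 0).symm x = x := fun x => by rw [Homeomorph.symm_apply_eq, h0]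
  have hf' : ∀ t, ∀ x ∈ B3, (H t).symm x = x := fun t x hx => by
    rw [Homeomorph.symm_apply_eq, hf t x hx]
  obtain ⟨K, k1, k2, k3, k4⟩ := lift_fun hc h0 hf
  obtain ⟨J, j1, j2, j3, j4⟩ := lift_fun hc.symm h0' hf'
  refine ⟨fun t => ⟨⟨fun z => K (t, z), fun z => J (t, z), fun z => ?_, fun z => ?_⟩,
    by fun_prop, by fun_prop⟩, k1, k3, fun t => ⟨k2 t, fun k l z h1 h2 => ?_, k4 t⟩⟩
  · by_cases hz : pw z ∈ B3
    · simp only [k4 t z hz, j4 t z hz]
    · exact (path_unique (g := fun _ => z) (g' := fun t => J (t, K (t, z))) continuous_const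
        (by fun_prop) (fun t => by simp [j2, k2]) (fun _ => hz) (by rw [k3, j3]) t).symm
  · by_cases hz : pw z ∈ B3
    · simp only [k4 t z hz, j4 t z hz]
    · exact (path_unique (g := fun _ => z) (g' := fun t => K (t, J (t, z))) continuous_const
        (by fun_prop) (fun t => by simp [j2, k2]) (fun _ => hz) (by rw [k3, j3]) t).symm
  · change K (t, k * z + l) = k * K (t, z) + l
    by_cases hz : pw z ∈ B3
    · rw [k4 t z hz, k4 t _ (by rwa [pw_orb h1 h2])]
    · exact path_unique (g := fun t => K (t, k * z + l)) (g' := fun t => k * K (t, z) + l)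
        (by fun_prop) (by fun_prop) (fun t => by rw [k2, pw_orb h1 h2, pw_orb h1 h2, k2])
        (fun t => by rw [k2, pw_orb h1 h2]; exact not_mem_of_fix (hf t) hz) (by rw [k3, k3]) t

/-- The plane with small discs around the half lattice points removed. -/
def cheese (r : ℝ) : Set ℂ := {z | ∀ b : ℂ, 2 * b ∈ Lam → r ≤ ‖z - b‖}

lemma quarter_far (j m : ℤ) {s : ℝ} (hs : |s| = 1 / 4) : 1 / 4 ≤ |j / 2 + s - m / 2| := by
  by_cases h : j = m
  · simp [h, hs]
  · have h1 : (1 : ℝ) ≤ |(j : ℝ) - m| := by exact_mod_cast Int.one_le_abs (sub_ne_zero.2 h)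
    have h2 := abs_sub_abs_le_abs_add ((j - m : ℝ) / 2) s
    rw [abs_div, abs_two, show ((j : ℝ) - m) / 2 + s = j / 2 + s - m / 2 by ring] at h2
    linarith

lemma half_coords {b : ℂ} (h : 2 * b ∈ Lam) : ∃ m n : ℤ, b.re = m / 2 ∧ b.im = n / 2 := by
  obtain ⟨m, n, e⟩ := mem_Lam.1 h
  have h1 := congrArg Complex.re e
  have h2 := congrArg Complex.im e
  simp at h1 h2
  exact ⟨m, n, by linarith, by linarith⟩

lemma isPreconnected_cheese {r : ℝ} (hr : r ≤ 1 / 4) : IsPreconnected (cheese r) := by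
  refine isPreconnected_of_forall (⟨1 / 4, 1 / 4⟩ : ℂ) fun z hz => ?_
  obtain ⟨j, s, q, e, hq, hs, hsq⟩ : ∃ (j : ℤ) (s q : ℝ), z.re = j / 2 + s ∧ |q| = 1 / 4 ∧
      |s| ≤ 1 / 4 ∧ 0 ≤ s * q := by
    have h1 := abs_sub_round (2 * z.re)
    have h2 : |z.re - round (2 * z.re) / 2| ≤ 1 / 4 := by
      rw [show z.re - round (2 * z.re) / 2 = (2 * z.re - round (2 * z.re)) / 2 by ring, abs_div,
        abs_two]
      linarith
    rcases le_total 0 (z.re - round (2 * z.re) / 2) with h | h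
    · exact ⟨round (2 * z.re), _, 1 / 4, by ring, by norm_num [abs_of_pos], h2, by positivity⟩
    · exact ⟨round (2 * z.re), _, -(1 / 4), by ring, by norm_num [abs_of_pos], h2, by nlinarith⟩
  let g : ℝ → ℂ := fun u => ⟨j / 2 + (s + u * (q - s)), z.im⟩
  let V : Set ℂ := {w | w.re = j / 2 + q}
  let Hz : Set ℂ := {w | w.im = 1 / 4}
  have c1 : IsPreconnected (g '' Icc 0 1) := isPreconnected_Icc.image _ (Continuous.continuousOn (by
    simp only [g, Complex.mk_eq_add_mul_I]; fun_prop))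
  have c2 : IsPreconnected V :=
    (convex_hyperplane (f := Complex.re) ⟨Complex.add_re, fun c x => by simp⟩ _).isPreconnected
  have c3 : IsPreconnected Hz :=
    (convex_hyperplane (f := Complex.im) ⟨Complex.add_im, fun c x => by simp⟩ _).isPreconnected
  refine ⟨(g '' Icc 0 1 ∪ V) ∪ Hz, ?_, Or.inr rfl, Or.inl (Or.inl ⟨0, by simp, ?_⟩), ?_⟩
  · rintro w ((⟨u, hu, rfl⟩ | hw) | hw) b hb <;> obtain ⟨m, n, b1, b2⟩ := half_coords hb
    · have a0 : q ^ 2 = 1 / 16 := by rw [← sq_abs, hq]; norm_num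
      have a1 : s ^ 2 ≤ 1 / 16 := by
        rw [← sq_abs]; nlinarith [abs_nonneg s]
      have a2 : s ^ 2 ≤ s * q := by nlinarith [sq_nonneg (s * q - s ^ 2), sq_nonneg s]
      have a3 : s ^ 2 ≤ (s + u * (q - s)) ^ 2 := by nlinarith [hu.1, sq_nonneg (u * (q - s))]
      have a4 : |s + u * (q - s)| ≤ 1 / 4 := by
        rw [show s + u * (q - s) = (1 - u) * s + u * q by ring]
        refine (abs_add_le _ _).trans ?_
        rw [abs_mul, abs_mul, abs_of_nonneg hu.1, abs_of_nonneg (sub_nonneg.2 hu.2), hq]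
        nlinarith [hu.1, hu.2]
      by_cases h : j = m
      · refine (hz b hb).trans ?_
        rw [← sq_le_sq₀ (norm_nonneg _) (norm_nonneg _), ← Complex.normSq_eq_norm_sq,
          ← Complex.normSq_eq_norm_sq, Complex.normSq_apply, Complex.normSq_apply]
        simp only [g, Complex.sub_re, Complex.sub_im, b1, e, h]
        nlinarith
      · refine hr.trans (le_trans ?_ (Complex.abs_re_le_norm _))
        have h1 : (1 : ℝ) ≤ |(j : ℝ) - m| := by exact_mod_cast Int.one_le_abs (sub_ne_zero.2 h)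
        have h2 := abs_sub_abs_le_abs_add ((j - m : ℝ) / 2) (s + u * (q - s))
        rw [abs_div, abs_two] at h2
        simp only [g, Complex.sub_re, b1]
        rw [show (j : ℝ) / 2 + (s + u * (q - s)) - m / 2 = (j - m) / 2 + (s + u * (q - s)) by ring]
        linarith
    · refine hr.trans (le_trans ?_ (Complex.abs_re_le_norm _))
      rw [Complex.sub_re, hw, b1]; exact quarter_far j m hq
    · refine hr.trans (le_trans ?_ (Complex.abs_im_le_norm _))
      rw [Complex.sub_im, hw, b2]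
      simpa using quarter_far 0 n (s := 1 / 4) (by norm_num [abs_of_pos])
  · exact Complex.ext (by simp [g, e]) rfl
  · exact IsPreconnected.union (⟨j / 2 + q, 1 / 4⟩ : ℂ) (Or.inr rfl) rfl
      (IsPreconnected.union (g 1) ⟨1, by simp, rfl⟩ (by simp [g, V]) c1 c2) c3

lemma mem_cheese {r : ℝ} (hr0 : 0 ≤ r) (hr : r ≤ 1 / 4) {b : ℂ} (hb : 2 * b ∈ Lam) :
    b + r ∈ cheese r := fun b' hb' => by
  by_cases h : ‖b - b'‖ < 1 / 2
  · rw [half_sep hb hb' h]; simp [abs_of_nonneg hr0]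
  · have := norm_sub_le (b + r - b') r
    rw [show b + r - b' - r = b - b' by ring, Complex.norm_real, Real.norm_of_nonneg hr0] at this
    linarith

lemma close_id {η : ℝ} (hη : 0 < η) : ∃ ε > 0, ∀ (k : Sph → Sph) (K : ℂ ≃ₜ ℂ), EqLift k K →
    (∀ x, dist x (k x) < ε) → ∀ z, ‖K z - z‖ ≤ η := by
  set r := min (η / 3) (1 / 10) with hr
  have r0 : 0 < r := by positivity
  have r1 : r ≤ η / 3 := min_le_left _ _
  have r2 : r ≤ 1 / 10 := min_le_right _ _
  obtain ⟨ε, hε, h⟩ := pw_unif (η := r / 2) (by positivity)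
  refine ⟨ε, hε, fun k K hK hd => ?_⟩
  have h1 : ∀ z, ∃ c l : ℂ, c ^ 4 = 1 ∧ l ∈ Lam ∧ ‖K z - (c * z + l)‖ < r / 2 := fun z =>
    h z (K z) (by rw [hK.lifts]; exact hd _)
  have h2 : ∀ b : ℂ, 2 * b ∈ Lam → ∀ z₀ ∈ closedBall b r, ‖K z₀ - b‖ < 2 * r →
      ∀ z ∈ closedBall b r, ‖K z - b‖ < 2 * r := by
    intro b hb z₀ hz₀ h0 z hz
    refine (convex_closedBall b r).isPreconnected.gt_of_ne (f := fun z => ‖K z - b‖)
      (by fun_prop) (fun w hw => ?_) ⟨z₀, hz₀, h0⟩ hz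
    obtain ⟨c, l, a1, a2, a3⟩ := h1 w
    have a4 : ‖K w - (c * b + l)‖ < 2 * r := by
      have := norm_add_le (K w - (c * w + l)) (c * (w - b))
      rw [norm_mul, root4_norm a1, one_mul,
        show K w - (c * w + l) + c * (w - b) = K w - (c * b + l) by ring] at this
      rw [mem_closedBall, dist_eq_norm] at hw
      linarith
    have a5 : 2 * (c * b + l) ∈ Lam := by
      rw [show 2 * (c * b + l) = c * (2 * b) + (l + l) by ring]
      exact add_mem (Lam_mul (root4_mem a1) hb) (add_mem a2 a2)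
    by_cases a6 : ‖c * b + l - b‖ < 1 / 2
    · rw [half_sep a5 hb a6] at a4; exact a4.ne
    · have := norm_sub_le (K w - b) (K w - (c * b + l))
      rw [sub_sub_sub_cancel_left] at this
      exact ne_of_gt (by linarith)
  have m0 := mem_cheese r0.le (by linarith) (b := 0) (by simp)
  have m1 := mem_cheese r0.le (by linarith) (b := 1) (by
    rw [two_mul]; exact add_mem one_mem_Lam one_mem_Lam)
  obtain ⟨c, l, c1, c2, c3⟩ := h1 (0 + r)
  have h3 : ∀ z ∈ cheese r, ‖K z - (c * z + l)‖ < r / 2 := by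
    intro z hz
    refine (isPreconnected_cheese (by linarith)).gt_of_ne (f := fun z => ‖K z - (c * z + l)‖)
      (by fun_prop) (fun w hw => ?_) ⟨_, m0, c3⟩ hz
    obtain ⟨c', l', a1, a2, a3⟩ := h1 w
    by_cases a4 : c' * w + l' = c * w + l
    · rw [a4] at a3; exact a3.ne
    have a5 : r ≤ ‖c' * w + l' - (c * w + l)‖ := by
      have b1 : (c ^ 3 * c') ^ 4 = 1 := by
        rw [mul_pow, a1, ← pow_mul, mul_comm 3, pow_mul, c1]; simp
      have b2 : c ^ 3 * (l' - l) ∈ Lam :=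
        Lam_mul (root4_mem (by rw [← pow_mul, mul_comm 3, pow_mul, c1]; simp)) (sub_mem a2 c2)
      have b3 : c' * w + l' - (c * w + l) = c * (c ^ 3 * c' * w + c ^ 3 * (l' - l) - w) := by
        linear_combination (-c' * w - l' + l) * c1
      rw [b3, norm_mul, root4_norm c1, one_mul]
      by_cases b4 : c ^ 3 * c' = 1
      · rw [b4, one_mul, add_sub_cancel_left]
        by_contra b5
        rw [b4, Lam_norm b2 (by linarith)] at b3
        exact a4 (by linear_combination b3)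
      · obtain ⟨b, b5, b6⟩ := orb_fix (z := w) b1 b2 b4
        rw [b6, norm_mul]
        nlinarith [root4_sub b1 b4, hw b b5, norm_nonneg (w - b)]
    have := norm_sub_le (K w - (c * w + l)) (K w - (c' * w + l'))
    rw [sub_sub_sub_cancel_left] at this
    exact ne_of_gt (by linarith)
  have hrn : ‖(r : ℂ)‖ = r := by rw [Complex.norm_real, Real.norm_of_nonneg r0.le]
  have d1 : c = 1 := by
    by_contra hc
    have a1 := h3 _ m1
    rw [show (1 : ℂ) + r = 0 + r + 1 by ring, hK.add one_mem_Lam] at a1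
    have := norm_sub_le (K (0 + r) - (c * (0 + r) + l)) (K (0 + r) + 1 - (c * (0 + r + 1) + l))
    rw [show K (0 + r) - (c * (0 + r) + l) - (K (0 + r) + 1 - (c * (0 + r + 1) + l)) = c - 1 by
      ring] at this
    linarith [root4_sub c1 hc]
  have d2 : l = 0 := by
    have a1 := h2 0 (by simp) 0 (mem_closedBall_self r0.le) (by
      rw [hK.fix 0 (pw_half (by simp))]; simpa using r0) (0 + r) (by simp [abs_of_pos r0])
    have := norm_sub_le (K (0 + r) - 0 - r) (K (0 + r) - (c * (0 + r) + l))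
    rw [d1, show K (0 + r) - 0 - r - (K (0 + r) - (1 * (0 + r) + l)) = l by ring] at this
    rw [d1] at c3
    have a2 := norm_sub_le (K (0 + r) - 0) r
    exact Lam_norm c2 (by linarith)
  simp only [d1, d2, one_mul, add_zero] at h3
  intro z
  by_cases hz : z ∈ cheese r
  · linarith [h3 z hz]
  · simp only [cheese, mem_ofPred_eq, not_forall, not_le] at hz
    obtain ⟨b, hb, hz⟩ := hz
    have a1 := h3 _ (mem_cheese r0.le (by linarith) hb)
    have a2 := norm_add_le (K (b + r) - (b + r)) r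
    rw [show K (b + r) - (b + r) + r = K (b + r) - b by ring] at a2
    have a3 := h2 b hb (b + r) (by simp [abs_of_pos r0]) (by linarith) z
      (by rw [mem_closedBall, dist_eq_norm]; exact hz.le)
    have a4 := norm_sub_le (K z - b) (z - b)
    rw [sub_sub_sub_cancel_right] at a4
    linarith

/-- Close maps have close lifts. -/
theorem close_lifts {η : ℝ} (hη : 0 < η) : ∃ ε > 0, ∀ (h : Sph ≃ₜ Sph) (h' : Sph → Sph)
    (H H' : ℂ ≃ₜ ℂ), EqLift h H → EqLift h' H' → (∀ x, dist (h x) (h' x) < ε) →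
      ∀ z, ‖H' z - H z‖ ≤ η := by
  obtain ⟨ε, hε, h1⟩ := close_id hη
  refine ⟨ε, hε, fun h h' H H' a b hd z => ?_⟩
  simpa using h1 _ _ (a.symm.trans b) (fun x => by simpa using hd (h.symm x)) (H z)

lemma sq_path {Y : Type*} [TopologicalSpace Y] {W : Set Y} (hW : IsPreconnected W)
    {a b : Y → Sph} (ha : ContinuousOn a W) (hb : ContinuousOn b W)
    (e : ∀ t ∈ W, sqS (a t) = sqS (b t)) (h0 : ∀ t ∈ W, a t ≠ o0) (hi : ∀ t ∈ W, a t ≠ ∞) {t₀ : Y}
    (ht₀ : t₀ ∈ W) (h : a t₀ = b t₀) : ∀ t ∈ W, a t = b t := by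
  have key : ∀ t ∈ W, ∃ x y : ℂ, a t = x ∧ b t = y ∧ x ≠ 0 ∧ x ^ 2 = y ^ 2 := by
    intro t ht
    have e' := e t ht
    induction h1 : a t using OnePoint.rec with
    | infty => exact absurd h1 (hi t ht)
    | coe x =>
      induction h2 : b t using OnePoint.rec with
      | infty => rw [h1, h2] at e'; exact absurd e' (coe_ne_infty _)
      | coe y =>
        rw [h1, h2] at e'
        exact ⟨x, y, rfl, rfl, fun hx => h0 t ht (by rw [h1, hx]), coe_injective e'⟩
  have hc : ContinuousOn (fun t => c0 (b t) / c0 (a t)) W := fun t ht => by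
    obtain ⟨x, y, h1, h2, h3, -⟩ := key t ht
    exact ((continuousAt_c0 (h2 ▸ coe_ne_infty y)).comp_continuousWithinAt (hb t ht)).div
      ((continuousAt_c0 (hi t ht)).comp_continuousWithinAt (ha t ht)) (by simpa [h1] using h3)
  intro t ht
  have h1 := hW.constant_of_mapsTo (T := ({1, -1} : Set ℂ)) (toFinite _).isDiscrete hc
    (fun t ht => by
      obtain ⟨x, y, h1, h2, h3, h4⟩ := key t ht
      simp only [h1, h2, c0_coe, mem_insert_iff, mem_singleton_iff]
      rw [← sq_eq_one_iff, div_pow, ← h4, div_self (pow_ne_zero 2 h3)]) ht ht₀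
  obtain ⟨x, y, a1, a2, a3, -⟩ := key t ht
  obtain ⟨x', y', b1, -, b3, -⟩ := key t₀ ht₀
  simp only [← h, a1, a2, b1, c0_coe, div_self b3, div_eq_one_iff_eq a3] at h1
  rw [a1, a2, h1]

lemma sqS_eq_zero {x : Sph} (h : sqS x = o0) : x = o0 := by
  induction x using OnePoint.rec with
  | infty => exact absurd h.symm o0_ne_infty
  | coe z => rw [pow_eq_zero_iff two_ne_zero |>.1 (coe_injective h)]

lemma sqS_eq_infty {x : Sph} (h : sqS x = ∞) : x = ∞ := by
  induction x using OnePoint.rec with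
  | infty => rfl
  | coe z => exact absurd h (coe_ne_infty _)

@[simp] lemma sqS_o0 : sqS o0 = o0 := by simp

open Classical in
lemma sqrt_fun {S : I → Sph ≃ₜ Sph} (hc : CFam S) (h0 : ∀ x, S 0 x = x)
    (f0 : ∀ t, S t o0 = o0) (fi : ∀ t, S t ∞ = ∞) : ∃ K : I × Sph → Sph, Continuous K ∧
      (∀ t x, sqS (K (t, x)) = S t (sqS x)) ∧ ∀ x, K (0, x) = x := by
  let E : Set Sph := {o0, ∞}ᶜ
  have hE : IsOpen E := (toFinite _).isClosed.isOpen_compl
  have e1 : ∀ x ∈ E, x ≠ o0 ∧ x ≠ ∞ := fun x hx => by simpa [E] using hx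
  have e2 : ∀ t, ∀ x ∈ E, S t (sqS x) ≠ o0 ∧ S t (sqS x) ≠ ∞ := fun t x hx =>
    ⟨fun h => (e1 x hx).1 (sqS_eq_zero ((S t).injective (h.trans (f0 t).symm))),
      fun h => (e1 x hx).2 (sqS_eq_infty ((S t).injective (h.trans (fi t).symm)))⟩
  have e3 : ∀ x, x ≠ o0 → x ≠ ∞ → c0 x ≠ 0 := fun x a1 a2 h => a1 (by rw [← coe_c0 a2, h])
  have hS : Continuous fun p : I × Sph => S p.1 (sqS p.2) :=
    hc.cont continuous_fst (continuous_sqS.comp continuous_snd)
  have c1 : Continuous fun p : I × E => c0 p.2 := continuous_iff_continuousAt.2 fun p =>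
    (continuousAt_c0 (e1 _ p.2.2).2).comp_of_eq (by fun_prop) rfl
  have c2 : Continuous fun p : I × E => c0 (S p.1 (sqS p.2)) :=
    continuous_iff_continuousAt.2 fun p => (continuousAt_c0 (e2 _ _ p.2.2).2).comp_of_eq
      (hS.comp (f := fun p : I × E => (p.1, (p.2 : Sph))) (by fun_prop)).continuousAt rfl
  obtain ⟨L, l1, l2, l3⟩ := lift_exp (G := fun p : I × E => c0 (S p.1 (sqS p.2)) / c0 p.2 ^ 2)
    (c2.div (c1.pow 2) fun p => pow_ne_zero 2 (e3 _ (e1 _ p.2.2).1 (e1 _ p.2.2).2))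
    (fun p => div_ne_zero (e3 _ (e2 _ _ p.2.2).1 (e2 _ _ p.2.2).2)
      (pow_ne_zero 2 (e3 _ (e1 _ p.2.2).1 (e1 _ p.2.2).2))) (L₀ := fun _ => 0) continuous_const
    fun a => by
      have a1 := e3 _ (e1 _ a.2).1 (e1 _ a.2).2
      simp only [h0, Complex.exp_zero]
      nth_rewrite 1 [← coe_c0 (e1 _ a.2).2]
      rw [sqS_coe, c0_coe, div_self (pow_ne_zero 2 a1)]
  let K : I × Sph → Sph := fun p =>
    if h : p.2 ∈ E then ((c0 p.2 * Complex.exp (L (p.1, ⟨p.2, h⟩) / 2) : ℂ) : Sph) else p.2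
  have k1 : ∀ (t : I) (x : E), K (t, x) = ((c0 x * Complex.exp (L (t, x) / 2) : ℂ) : Sph) :=
    fun t x => dif_pos x.2
  have k2 : ∀ t x, x ∉ E → K (t, x) = x := fun t x hx => dif_neg hx
  have k3 : ∀ t x, sqS (K (t, x)) = S t (sqS x) := fun t x => by
    by_cases hx : x ∈ E
    · rw [k1 t ⟨x, hx⟩, sqS_coe, mul_pow, ← Complex.exp_nat_mul, Nat.cast_ofNat,
        mul_div_cancel₀ _ two_ne_zero, l2,
        mul_div_cancel₀ _ (pow_ne_zero 2 (e3 _ (e1 _ hx).1 (e1 _ hx).2)), coe_c0 (e2 _ _ hx).2]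
    · rw [k2 t x hx]
      rcases not_not.1 hx with rfl | rfl
      · rw [sqS_o0, f0]
      · rw [sqS_infty, fi]
  refine ⟨K, continuous_iff_continuousAt.2 fun p => ?_, k3, fun x => ?_⟩
  · by_cases hp : p.2 ∈ E
    · refine continuousAt_of_open hE ?_ hp
      simp only [k1]
      exact continuous_coe.comp (c1.mul (by fun_prop))
    · obtain ⟨t, x⟩ := p
      rw [ContinuousAt, k2 t x hp, _root_.tendsto_nhds]
      intro U hU hx
      have a1 : IsClosed (sqS '' Uᶜ) := continuous_sqS.isClosedMap _ hU.isClosed_compl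
      have a2 : S t (sqS x) ∉ sqS '' Uᶜ := by
        rintro ⟨y, hy, e⟩
        apply hy
        rcases not_not.1 hp with rfl | rfl
        · rw [sqS_o0, f0] at e; rwa [sqS_eq_zero e]
        · rw [sqS_infty, fi] at e; rwa [sqS_eq_infty e]
      filter_upwards [hS.continuousAt.eventually (a1.isOpen_compl.mem_nhds a2)] with q hq
      by_contra h
      exact hq ⟨K q, h, k3 q.1 q.2⟩
  · by_cases hx : x ∈ E
    · rw [k1 0 ⟨x, hx⟩, l3]; simpa using coe_c0 (e1 _ hx).2
    · exact k2 0 x hx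

/-- Lifting an isotopy through the squaring map. -/
theorem sqrt_isotopy {S : I → Sph ≃ₜ Sph} (hc : CFam S) (h0 : ∀ x, S 0 x = x)
    (f0 : ∀ t, S t o0 = o0) (fi : ∀ t, S t ∞ = ∞) : ∃ R : I → Sph ≃ₜ Sph, CFam R ∧
      (∀ x, R 0 x = x) ∧ ∀ t x, sqS (R t x) = S t (sqS x) := by
  obtain ⟨K, k1, k2, k3⟩ := sqrt_fun hc h0 f0 fi
  obtain ⟨J, j1, j2, j3⟩ := sqrt_fun hc.symm (fun x => by rw [Homeomorph.symm_apply_eq, h0])
    (fun t => by rw [Homeomorph.symm_apply_eq, f0]) (fun t => by rw [Homeomorph.symm_apply_eq, fi])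
  have key : ∀ (g : I → Sph) (x : Sph), Continuous g → g 0 = x → (∀ t, sqS (g t) = sqS x) →
      ∀ t, g t = x := by
    intro g x hg g0 e t
    by_cases a1 : x = o0
    · rw [a1] at e ⊢; exact sqS_eq_zero ((e t).trans sqS_o0)
    by_cases a2 : x = ∞
    · rw [a2] at e ⊢; exact sqS_eq_infty (e t)
    exact (sq_path isPreconnected_univ continuousOn_const hg.continuousOn (fun t _ => (e t).symm)
      (fun _ _ => a1) (fun _ _ => a2) (mem_univ 0) g0.symm t trivial).symm
  exact ⟨fun t => ⟨⟨fun x => K (t, x), fun x => J (t, x),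
    fun x => key (fun t => J (t, K (t, x))) x (by fun_prop) (by rw [k3, j3])
      (fun t => by simp [j2, k2]) t,
    fun x => key (fun t => K (t, J (t, x))) x (by fun_prop) (by rw [j3, k3])
      (fun t => by simp [j2, k2]) t⟩, by fun_prop, by fun_prop⟩, k1, k3, k2⟩

end

end Pool.Agent.Lib.MP_21db80_an
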