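import Pool.Agent.Lib.MP_21db80_an.Defs

/-!
Homogeneous coordinates on the Riemann sphere, Moebius maps, a metric.
-/

namespace Pool.Agent.Lib.MP_21db80_an

open OnePoint Set Topology Function Filter Metric

noncomputable section

/-- A homeomorphism with the round sphere. -/
def sphHomeo : Sph ≃ₜ Metric.sphere (0 : EuclideanSpace ℝ (Fin 3)) 1 :=
  onePointEquivSphereOfFinrankEq (by simp)

/-- A metric inducing the topology of the sphere. -/
scoped instance sphMetric : MetricSpace Sph := sphHomeo.isEmbedding.comapMetricSpace sphHomeo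

/-- Projection from homogeneous coordinates. -/
def pr (v : ℂ × ℂ) : Sph := if v.2 = 0 then ∞ else ((v.1 / v.2 : ℂ) : Sph)

/-- A set-theoretic section of `pr`. -/
def lft (x : Sph) : ℂ × ℂ := x.elim (1, 0) (fun z => (z, 1))

/-- Determinant of two vectors. -/
def dt (v w : ℂ × ℂ) : ℂ := v.1 * w.2 - v.2 * w.1

@[simp] lemma lft_infty : lft ∞ = (1, 0) := rfl
@[simp] lemma lft_coe (z : ℂ) : lft (z : Sph) = (z, 1) := rfl

lemma pr_of_ne {a b : ℂ} (hb : b ≠ 0) : pr (a, b) = ((a / b : ℂ) : Sph) := by simp [pr, hb]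
@[simp] lemma pr_zero_right (a : ℂ) : pr (a, 0) = ∞ := by simp [pr]
@[simp] lemma pr_one_right (a : ℂ) : pr (a, 1) = (a : Sph) := by simp [pr]

@[simp] lemma pr_lft (x : Sph) : pr (lft x) = x := by
  induction x using OnePoint.rec <;> simp

lemma lft_ne (x : Sph) : lft x ≠ 0 := by
  induction x using OnePoint.rec <;> simp

lemma ne_zero_iff {v : ℂ × ℂ} : v ≠ 0 ↔ v.1 ≠ 0 ∨ v.2 ≠ 0 := by
  rcases v with ⟨a, b⟩
  simp only [ne_eq, Prod.mk_eq_zero]
  tauto

lemma pr_eq_infty_iff {v : ℂ × ℂ} : pr v = ∞ ↔ v.2 = 0 := by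
  unfold pr; split_ifs with h <;> simp [h]

lemma pr_eq_coe_iff {v : ℂ × ℂ} (hv : v ≠ 0) {z : ℂ} : pr v = (z : Sph) ↔ v.1 = z * v.2 := by
  unfold pr; split_ifs with h
  · simp only [infty_ne_coe, h, mul_zero, false_iff]
    rcases ne_zero_iff.1 hv with h1 | h1
    · exact h1
    · exact absurd h h1
  · rw [coe_eq_coe, div_eq_iff h]

lemma pr_eq_iff {v w : ℂ × ℂ} (hv : v ≠ 0) (hw : w ≠ 0) : pr v = pr w ↔ dt v w = 0 := by
  by_cases h : w.2 = 0
  · have hw1 : w.1 ≠ 0 := by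
      rcases ne_zero_iff.1 hw with h1 | h1
      · exact h1
      · exact absurd h h1
    rw [pr_eq_infty_iff.2 h, pr_eq_infty_iff, dt, h]
    simp [hw1]
  · have : pr w = ((w.1 / w.2 : ℂ) : Sph) := by simp [pr, h]
    rw [this, pr_eq_coe_iff hv, dt]
    constructor
    · intro h1; rw [h1]; field_simp; ring
    · intro h1; field_simp; linear_combination h1

lemma pr_smul {c : ℂ} (hc : c ≠ 0) (v : ℂ × ℂ) : pr (c • v) = pr v := by
  unfold pr
  simp only [Prod.smul_snd, smul_eq_mul, mul_eq_zero, hc, false_or, Prod.smul_fst]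
  split_ifs with h
  · rfl
  · rw [mul_div_mul_left _ _ hc]

lemma pr_mul {c : ℂ} (hc : c ≠ 0) (a b : ℂ) : pr (c * a, c * b) = pr (a, b) :=
  pr_smul hc (a, b)

lemma exists_smul_of_pr_eq {v w : ℂ × ℂ} (hv : v ≠ 0) (hw : w ≠ 0) (h : pr v = pr w) :
    ∃ c : ℂ, c ≠ 0 ∧ w = c • v := by
  rw [pr_eq_iff hv hw, dt] at h
  rcases ne_zero_iff.1 hv with h1 | h1
  · have e : w = (w.1 / v.1) • v := by
      ext
      · simp; field_simp
      · simp; field_simp; linear_combination h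
    refine ⟨w.1 / v.1, ?_, e⟩
    intro h0; rw [h0, zero_smul] at e; exact hw e
  · have e : w = (w.2 / v.2) • v := by
      ext
      · simp; field_simp; linear_combination -h
      · simp; field_simp
    refine ⟨w.2 / v.2, ?_, e⟩
    intro h0; rw [h0, zero_smul] at e; exact hw e

lemma pr_surj (x : Sph) : ∃ v, v ≠ 0 ∧ pr v = x := ⟨lft x, lft_ne x, pr_lft x⟩

lemma mem_nhds_infty {U : Set Sph} : U ∈ 𝓝 (∞ : Sph) ↔
    ∞ ∈ U ∧ ∃ R : ℝ, ∀ z : ℂ, R < ‖z‖ → (z : Sph) ∈ U := by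
  rw [nhds_infty_eq, mem_sup, mem_pure, mem_map, coclosedCompact_eq_cocompact,
    ← Metric.cobounded_eq_cocompact, and_comm]
  refine and_congr_right fun _ => ?_
  rw [(Metric.hasBasis_cobounded_compl_closedBall (0 : ℂ)).mem_iff]
  constructor
  · rintro ⟨R, -, hR⟩
    exact ⟨R, fun z hz => hR (by simpa using hz)⟩
  · rintro ⟨R, hR⟩
    exact ⟨R, trivial, fun z hz => hR z (by simpa using hz)⟩

/-- The standard neighbourhoods of infinity. -/
def out (R : ℝ) : Set Sph := {x | ∀ z : ℂ, x = z → R < ‖z‖}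

lemma infty_mem_out (R : ℝ) : ∞ ∈ out R := fun z hz => absurd hz (infty_ne_coe z)
@[simp] lemma coe_mem_out {R : ℝ} {z : ℂ} : (z : Sph) ∈ out R ↔ R < ‖z‖ := by
  simp [out]

lemma compl_out (R : ℝ) : (out R)ᶜ = (fun z : ℂ => (z : Sph)) '' closedBall 0 R := by
  ext x
  induction x using OnePoint.rec with
  | infty => simp [infty_mem_out]
  | coe z => simp

lemma isOpen_out (R : ℝ) : IsOpen (out R) := by
  rw [← isClosed_compl_iff, compl_out]
  exact ((isCompact_closedBall (0 : ℂ) R).image continuous_coe).isClosed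

lemma out_mem_nhds (R : ℝ) : out R ∈ 𝓝 (∞ : Sph) := (isOpen_out R).mem_nhds (infty_mem_out R)

lemma exists_out_subset {U : Set Sph} (hU : U ∈ 𝓝 (∞ : Sph)) : ∃ R : ℝ, 0 < R ∧ out R ⊆ U := by
  obtain ⟨h1, R, hR⟩ := mem_nhds_infty.1 hU
  refine ⟨max R 1, by positivity, fun x hx => ?_⟩
  induction x using OnePoint.rec with
  | infty => exact h1
  | coe z => exact hR z (lt_of_le_of_lt (le_max_left _ _) (coe_mem_out.1 hx))

lemma tendsto_infty_iff {α : Type*} {l : Filter α} {f : α → Sph} :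
    Tendsto f l (𝓝 ∞) ↔ ∀ R : ℝ, ∀ᶠ a in l, f a ∈ out R := by
  constructor
  · intro h R; exact h (out_mem_nhds R)
  · intro h U hU
    obtain ⟨R, -, hR⟩ := exists_out_subset hU
    exact mem_map.2 ((h R).mono fun a ha => hR ha)

lemma continuousAt_pr {v : ℂ × ℂ} (hv : v ≠ 0) : ContinuousAt pr v := by
  by_cases h : v.2 = 0
  · have h1 : v.1 ≠ 0 := by
      rcases ne_zero_iff.1 hv with h1 | h1
      · exact h1
      · exact absurd h h1
    rw [ContinuousAt, pr_eq_infty_iff.2 h, tendsto_infty_iff]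
    intro R
    have hc : ContinuousAt (fun w : ℂ × ℂ => ‖w.1‖ - R * ‖w.2‖) v := by fun_prop
    have hp : 0 < ‖v.1‖ - R * ‖v.2‖ := by simp [h, h1]
    filter_upwards [hc.eventually (lt_mem_nhds hp)] with w hw
    by_cases h2 : w.2 = 0
    · rw [pr_eq_infty_iff.2 h2]; exact infty_mem_out R
    · have : pr w = ((w.1 / w.2 : ℂ) : Sph) := by simp [pr, h2]
      rw [this, coe_mem_out, norm_div, lt_div_iff₀ (norm_pos_iff.2 h2)]
      linarith
  · have hc : ContinuousAt (fun w : ℂ × ℂ => ((w.1 / w.2 : ℂ) : Sph)) v :=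
      continuous_coe.continuousAt.comp (continuousAt_fst.div continuousAt_snd h)
    refine hc.congr ?_
    filter_upwards [continuousAt_snd.eventually_ne h] with w hw
    simp [pr, hw]

/-- The finite coordinate. -/
def c0 (x : Sph) : ℂ := x.elim 0 id
/-- The coordinate at infinity. -/
def ci (x : Sph) : ℂ := x.elim 0 (fun z => z⁻¹)

@[simp] lemma c0_coe (z : ℂ) : c0 (z : Sph) = z := rfl
@[simp] lemma c0_infty : c0 ∞ = 0 := rfl
@[simp] lemma ci_coe (z : ℂ) : ci (z : Sph) = z⁻¹ := rfl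
@[simp] lemma ci_infty : ci ∞ = 0 := rfl

lemma coe_c0 {x : Sph} (hx : x ≠ ∞) : ((c0 x : ℂ) : Sph) = x := by
  induction x using OnePoint.rec with
  | infty => exact absurd rfl hx
  | coe z => rfl

lemma continuousAt_c0 {x : Sph} (hx : x ≠ ∞) : ContinuousAt c0 x := by
  induction x using OnePoint.rec with
  | infty => exact absurd rfl hx
  | coe z => rw [continuousAt_coe]; exact continuousAt_id

lemma continuousAt_ci {x : Sph} (hx : x ≠ ((0 : ℂ) : Sph)) : ContinuousAt ci x := by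
  induction x using OnePoint.rec with
  | infty =>
    rw [continuousAt_infty', coclosedCompact_eq_cocompact, ← Metric.cobounded_eq_cocompact]
    exact Filter.tendsto_inv₀_cobounded
  | coe z =>
    rw [continuousAt_coe]
    exact continuousAt_inv₀ (by simpa using hx)

lemma pr_one_ci {x : Sph} (hx : x ≠ ((0 : ℂ) : Sph)) : pr (1, ci x) = x := by
  induction x using OnePoint.rec with
  | infty => simp
  | coe z =>
    have : z ≠ 0 := by simpa using hx
    rw [ci_coe, pr_of_ne (inv_ne_zero this)]; simp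

/-- Local continuous lifts to homogeneous coordinates. -/
lemma lift_at (x₀ : Sph) : ∃ v : Sph → ℂ × ℂ, ContinuousAt v x₀ ∧
    ∀ᶠ x in 𝓝 x₀, v x ≠ 0 ∧ pr (v x) = x := by
  by_cases h : x₀ = ∞
  · have h0 : x₀ ≠ ((0 : ℂ) : Sph) := by rw [h]; exact infty_ne_coe _
    refine ⟨fun x => (1, ci x), continuousAt_const.prodMk (continuousAt_ci h0), ?_⟩
    filter_upwards [isOpen_ne.mem_nhds h0] with x hx
    exact ⟨by simp, pr_one_ci hx⟩
  · refine ⟨fun x => (c0 x, 1), (continuousAt_c0 h).prodMk continuousAt_const, ?_⟩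
    filter_upwards [isOpen_ne.mem_nhds h] with x hx
    exact ⟨by simp, by rw [pr_one_right, coe_c0 hx]⟩

/-- Local lifts of a continuous map. -/
lemma lift_map {Y : Type*} [TopologicalSpace Y] {x : Y → Sph} {y₀ : Y} (hx : ContinuousAt x y₀) :
    ∃ v : Y → ℂ × ℂ, ContinuousAt v y₀ ∧ ∀ᶠ y in 𝓝 y₀, v y ≠ 0 ∧ pr (v y) = x y := by
  obtain ⟨v, hv, h⟩ := lift_at (x y₀)
  exact ⟨v ∘ x, hv.comp hx, hx.eventually h⟩

/-- Moebius maps. -/
def IsMob (M : Sph → Sph) : Prop :=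
  ∃ a b c d : ℂ, a * d - b * c ≠ 0 ∧ ∀ v : ℂ × ℂ, v ≠ 0 →
    M (pr v) = pr (a * v.1 + b * v.2, c * v.1 + d * v.2)

lemma lin_ne {a b c d : ℂ} (h : a * d - b * c ≠ 0) {v : ℂ × ℂ} (hv : v ≠ 0) :
    (a * v.1 + b * v.2, c * v.1 + d * v.2) ≠ (0 : ℂ × ℂ) := by
  intro h0
  simp only [Prod.mk_eq_zero] at h0
  apply hv
  ext
  · apply mul_left_cancel₀ h; rw [Prod.fst_zero]; linear_combination d * h0.1 - b * h0.2
  · apply mul_left_cancel₀ h; rw [Prod.snd_zero]; linear_combination a * h0.2 - c * h0.1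

/-- The Moebius map with a given matrix. -/
def mob (a b c d : ℂ) (x : Sph) : Sph :=
  pr (a * (lft x).1 + b * (lft x).2, c * (lft x).1 + d * (lft x).2)

lemma mob_pr (a b c d : ℂ) {v : ℂ × ℂ} (hv : v ≠ 0) :
    mob a b c d (pr v) = pr (a * v.1 + b * v.2, c * v.1 + d * v.2) := by
  obtain ⟨t, ht, e⟩ := exists_smul_of_pr_eq hv (lft_ne (pr v)) (pr_lft _).symm
  rw [mob, e, ← pr_mul ht (a * v.1 + b * v.2)]
  congr 1
  simp only [Prod.smul_fst, smul_eq_mul, Prod.smul_snd, Prod.mk.injEq]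
  constructor <;> ring

lemma isMob_mob {a b c d : ℂ} (h : a * d - b * c ≠ 0) : IsMob (mob a b c d) :=
  ⟨a, b, c, d, h, fun _ hv => mob_pr a b c d hv⟩

lemma IsMob.eq_mob {M : Sph → Sph} (h : IsMob M) :
    ∃ a b c d : ℂ, a * d - b * c ≠ 0 ∧ M = mob a b c d := by
  obtain ⟨a, b, c, d, h1, h2⟩ := h
  refine ⟨a, b, c, d, h1, funext fun x => ?_⟩
  have := h2 (lft x) (lft_ne x)
  rwa [pr_lft] at this

lemma mob_coe (a b c d z : ℂ) : mob a b c d (z : Sph) = pr (a * z + b, c * z + d) := by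
  simp [mob]

lemma mob_infty (a b c d : ℂ) : mob a b c d ∞ = pr (a, c) := by simp [mob]

/-- Joint continuity of Moebius maps. -/
lemma continuousAt_mob {Y : Type*} [TopologicalSpace Y] {a b c d : Y → ℂ} {x : Y → Sph} {y₀ : Y}
    (ha : ContinuousAt a y₀) (hb : ContinuousAt b y₀) (hc : ContinuousAt c y₀)
    (hd : ContinuousAt d y₀) (hx : ContinuousAt x y₀) (h : a y₀ * d y₀ - b y₀ * c y₀ ≠ 0) :
    ContinuousAt (fun y => mob (a y) (b y) (c y) (d y) (x y)) y₀ := by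
  obtain ⟨v, hv, hv'⟩ := lift_map hx
  have h0 := hv'.self_of_nhds
  have : ContinuousAt (fun y => pr (a y * (v y).1 + b y * (v y).2, c y * (v y).1 + d y * (v y).2))
      y₀ := by
    refine ContinuousAt.comp (f := fun y => (a y * (v y).1 + b y * (v y).2,
      c y * (v y).1 + d y * (v y).2)) (continuousAt_pr (lin_ne h h0.1)) ?_
    have h1 : ContinuousAt (fun y => (v y).1) y₀ := continuousAt_fst.comp hv
    have h2 : ContinuousAt (fun y => (v y).2) y₀ := continuousAt_snd.comp hv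
    exact ((ha.mul h1).add (hb.mul h2)).prodMk ((hc.mul h1).add (hd.mul h2))
  refine this.congr ?_
  filter_upwards [hv'] with y hy
  rw [← hy.2, mob_pr _ _ _ _ hy.1]

lemma IsMob.continuous {M : Sph → Sph} (h : IsMob M) : Continuous M := by
  obtain ⟨a, b, c, d, h1, rfl⟩ := h.eq_mob
  exact continuous_iff_continuousAt.2 fun x => continuousAt_mob continuousAt_const
    continuousAt_const continuousAt_const continuousAt_const continuousAt_id h1

lemma isMob_id : IsMob id := ⟨1, 0, 0, 1, by simp, fun v _ => by simp⟩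

lemma IsMob.comp {M N : Sph → Sph} (hM : IsMob M) (hN : IsMob N) : IsMob (M ∘ N) := by
  obtain ⟨a, b, c, d, h1, h2⟩ := hM
  obtain ⟨a', b', c', d', h1', h2'⟩ := hN
  refine ⟨a * a' + b * c', a * b' + b * d', c * a' + d * c', c * b' + d * d', ?_, fun v hv => ?_⟩
  · have := mul_ne_zero h1 h1'
    intro h; apply this; linear_combination h
  · rw [Function.comp_apply, h2' v hv, h2 _ (lin_ne h1' hv)]
    congr 1
    simp only [Prod.mk.injEq]
    constructor <;> ring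

lemma mob_inv_mob {a b c d : ℂ} (h : a * d - b * c ≠ 0) (x : Sph) :
    mob d (-b) (-c) a (mob a b c d x) = x := by
  obtain ⟨v, hv, rfl⟩ := pr_surj x
  rw [mob_pr _ _ _ _ hv, mob_pr _ _ _ _ (lin_ne h hv), ← pr_smul h v]
  congr 1
  ext <;> simp <;> ring

lemma mob_mob_inv {a b c d : ℂ} (h : a * d - b * c ≠ 0) (x : Sph) :
    mob a b c d (mob d (-b) (-c) a x) = x := by
  have h' : d * a - (-b) * (-c) ≠ 0 := by intro h0; apply h; linear_combination h0
  simpa using mob_inv_mob h' x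

/-- A Moebius map as a homeomorphism. -/
def mobH (a b c d : ℂ) (h : a * d - b * c ≠ 0) : Sph ≃ₜ Sph where
  toFun := mob a b c d
  invFun := mob d (-b) (-c) a
  left_inv := mob_inv_mob h
  right_inv := mob_mob_inv h
  continuous_toFun := (isMob_mob h).continuous
  continuous_invFun := (isMob_mob (by intro h0; apply h; linear_combination h0)).continuous

lemma IsMob.exists_homeo {M : Sph → Sph} (h : IsMob M) : ∃ H : Sph ≃ₜ Sph, ⇑H = M := by
  obtain ⟨a, b, c, d, h1, rfl⟩ := h.eq_mob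
  exact ⟨mobH a b c d h1, rfl⟩

lemma IsMob.symm {H : Sph ≃ₜ Sph} (h : IsMob H) : IsMob H.symm := by
  obtain ⟨a, b, c, d, h1, e⟩ := h.eq_mob
  have : H = mobH a b c d h1 := by ext x; exact congrFun e x
  rw [this]
  exact isMob_mob (a := d) (b := -b) (c := -c) (d := a) (by intro h0; apply h1; linear_combination h0)

lemma IsMob.trans {H K : Sph ≃ₜ Sph} (h : IsMob H) (k : IsMob K) : IsMob (H.trans K) :=
  k.comp h

lemma IsMob.bijective {M : Sph → Sph} (h : IsMob M) : Bijective M := by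
  obtain ⟨H, rfl⟩ := h.exists_homeo; exact H.bijective

lemma IsMob.injective {M : Sph → Sph} (h : IsMob M) : Injective M := h.bijective.1
lemma IsMob.surjective {M : Sph → Sph} (h : IsMob M) : Surjective M := h.bijective.2

lemma smul_eq_mob (g : GL (Fin 2) ℂ) (x : Sph) :
    g • x = mob (g 0 0) (g 0 1) (g 1 0) (g 1 1) x := by
  induction x using OnePoint.rec with
  | infty => rw [smul_infty_eq_ite, mob_infty]; simp [pr]
  | coe z => rw [smul_some_eq_ite, mob_coe]; simp [pr]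

lemma isMob_smul (g : GL (Fin 2) ℂ) : IsMob fun x : Sph => g • x := by
  have : (fun x : Sph => g • x) = mob (g 0 0) (g 0 1) (g 1 0) (g 1 1) := funext (smul_eq_mob g)
  rw [this]
  apply isMob_mob
  have := g.det_ne_zero
  rwa [Matrix.det_fin_two] at this

lemma IsMob.exists_smul {M : Sph → Sph} (h : IsMob M) : ∃ g : GL (Fin 2) ℂ, ∀ x, M x = g • x := by
  obtain ⟨a, b, c, d, h1, rfl⟩ := h.eq_mob
  refine ⟨Matrix.GeneralLinearGroup.mkOfDetNeZero !![a, b; c, d] (by simpa [Matrix.det_fin_two]),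
    fun x => ?_⟩
  rw [smul_eq_mob]
  simp [Matrix.GeneralLinearGroup.mkOfDetNeZero, Matrix.GeneralLinearGroup.mk',
    Matrix.unitOfDetInvertible]

/-- The three normalising points. -/
abbrev o0 : Sph := ((0 : ℂ) : Sph)
/-- The three normalising points. -/
abbrev o1 : Sph := ((1 : ℂ) : Sph)

lemma o0_ne_o1 : o0 ≠ o1 := by simp
lemma o0_ne_infty : o0 ≠ ∞ := coe_ne_infty _
lemma o1_ne_infty : o1 ≠ ∞ := coe_ne_infty _

lemma IsMob.eq_id {M : Sph → Sph} (h : IsMob M) (h0 : M o0 = o0) (h1 : M o1 = o1)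
    (hi : M ∞ = ∞) (x : Sph) : M x = x := by
  obtain ⟨a, b, c, d, hd, rfl⟩ := h.eq_mob
  rw [mob_infty, pr_eq_infty_iff] at hi
  simp only at hi
  subst hi
  have hd0 : d ≠ 0 := by intro h; apply hd; simp [h]
  rw [mob_coe, pr_eq_coe_iff (by simp [hd0])] at h0 h1
  simp only [mul_zero, zero_add, zero_mul, mul_one, one_mul] at h0 h1
  subst h0
  simp only [add_zero] at h1
  subst h1
  induction x using OnePoint.rec with
  | infty => simp [mob_infty]
  | coe z => rw [mob_coe, pr_eq_coe_iff (by simp [hd0])]; simp; ring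

/-- The Moebius map sending `a, b, c` to `0, 1, ∞`. -/
def nrm (a b c x : Sph) : Sph :=
  pr (dt (lft x) (lft a) * dt (lft b) (lft c), dt (lft x) (lft c) * dt (lft b) (lft a))

lemma dt_ne {v w : ℂ × ℂ} (hv : v ≠ 0) (hw : w ≠ 0) (h : pr v ≠ pr w) : dt v w ≠ 0 :=
  fun h0 => h ((pr_eq_iff hv hw).2 h0)

lemma dt_smul (s t : ℂ) (v w : ℂ × ℂ) : dt (s • v) (t • w) = s * t * dt v w := by
  simp [dt]; ring

lemma nrm_pr {a b c x : ℂ × ℂ} (ha : a ≠ 0) (hb : b ≠ 0) (hc : c ≠ 0) (hx : x ≠ 0) :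
    nrm (pr a) (pr b) (pr c) (pr x) = pr (dt x a * dt b c, dt x c * dt b a) := by
  obtain ⟨s, hs, e1⟩ := exists_smul_of_pr_eq ha (lft_ne (pr a)) (pr_lft _).symm
  obtain ⟨t, ht, e2⟩ := exists_smul_of_pr_eq hb (lft_ne (pr b)) (pr_lft _).symm
  obtain ⟨u, hu, e3⟩ := exists_smul_of_pr_eq hc (lft_ne (pr c)) (pr_lft _).symm
  obtain ⟨w, hw, e4⟩ := exists_smul_of_pr_eq hx (lft_ne (pr x)) (pr_lft _).symm
  rw [nrm, e1, e2, e3, e4, ← pr_mul (c := s * t * u * w) (by positivity) (dt x a * dt b c)]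
  simp only [dt_smul]
  congr 1
  simp only [Prod.mk.injEq]
  constructor <;> ring

lemma nrm_eq_mob {a b c : ℂ × ℂ} (ha : a ≠ 0) (hb : b ≠ 0) (hc : c ≠ 0) (x : Sph) :
    nrm (pr a) (pr b) (pr c) x =
      mob (a.2 * dt b c) (-a.1 * dt b c) (c.2 * dt b a) (-c.1 * dt b a) x := by
  obtain ⟨v, hv, rfl⟩ := pr_surj x
  rw [nrm_pr ha hb hc hv, mob_pr _ _ _ _ hv]
  congr 1
  simp only [dt, Prod.mk.injEq]
  constructor <;> ring

lemma nrm_det {a b c : ℂ × ℂ} (ha : a ≠ 0) (hb : b ≠ 0) (hc : c ≠ 0) (hab : pr a ≠ pr b)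
    (hbc : pr b ≠ pr c) (hac : pr a ≠ pr c) :
    (a.2 * dt b c) * (-c.1 * dt b a) - (-a.1 * dt b c) * (c.2 * dt b a) ≠ 0 := by
  have := mul_ne_zero (mul_ne_zero (dt_ne hb hc hbc) (dt_ne hb ha hab.symm)) (dt_ne ha hc hac)
  intro h; apply this
  rw [show dt a c = a.1 * c.2 - a.2 * c.1 from rfl]
  linear_combination h

/-- Three pairwise distinct points. -/
def D3 (a b c : Sph) : Prop := a ≠ b ∧ b ≠ c ∧ a ≠ c

lemma isMob_nrm {a b c : Sph} (h : D3 a b c) : IsMob (nrm a b c) := by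
  have e : nrm a b c = mob ((lft a).2 * dt (lft b) (lft c)) (-(lft a).1 * dt (lft b) (lft c))
      ((lft c).2 * dt (lft b) (lft a)) (-(lft c).1 * dt (lft b) (lft a)) := by
    funext x
    rw [← nrm_eq_mob (lft_ne a) (lft_ne b) (lft_ne c)]; simp
  rw [e]
  exact isMob_mob (nrm_det (lft_ne a) (lft_ne b) (lft_ne c) (by simpa using h.1)
    (by simpa using h.2.1) (by simpa using h.2.2))

lemma nrm_fst {a b c : Sph} (h : D3 a b c) : nrm a b c a = o0 := by
  have h1 := dt_ne (lft_ne a) (lft_ne c) (by simpa using h.2.2)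
  have h2 := dt_ne (lft_ne b) (lft_ne a) (by simpa using h.1.symm)
  rw [nrm, pr_of_ne (mul_ne_zero h1 h2)]
  simp [dt, mul_comm]

lemma nrm_snd {a b c : Sph} (h : D3 a b c) : nrm a b c b = o1 := by
  have h1 := dt_ne (lft_ne b) (lft_ne c) (by simpa using h.2.1)
  have h2 := dt_ne (lft_ne b) (lft_ne a) (by simpa using h.1.symm)
  rw [nrm, pr_of_ne (mul_ne_zero h1 h2), mul_comm, div_self (mul_ne_zero h1 h2)]

lemma nrm_trd (a b c : Sph) : nrm a b c c = ∞ := by
  rw [nrm, pr_eq_infty_iff]; simp [dt, mul_comm]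

lemma D3.map {a b c : Sph} (h : D3 a b c) {M : Sph → Sph} (hM : Injective M) :
    D3 (M a) (M b) (M c) := ⟨hM.ne h.1, hM.ne h.2.1, hM.ne h.2.2⟩

lemma D3.of_map {a b c : Sph} {M : Sph → Sph} (h : D3 (M a) (M b) (M c)) : D3 a b c :=
  ⟨fun e => h.1 (by rw [e]), fun e => h.2.1 (by rw [e]), fun e => h.2.2 (by rw [e])⟩

lemma d3_std : D3 o0 o1 ∞ := ⟨o0_ne_o1, o1_ne_infty, o0_ne_infty⟩

/-- Uniqueness of the normalisation. -/
lemma IsMob.eq_nrm {M : Sph → Sph} (hM : IsMob M) {a b c : Sph} (ha : M a = o0) (hb : M b = o1)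
    (hc : M c = ∞) (x : Sph) : M x = nrm a b c x := by
  have h : D3 a b c := D3.of_map (M := M) (by rw [ha, hb, hc]; exact d3_std)
  obtain ⟨H, rfl⟩ := hM.exists_homeo
  have := ((isMob_nrm h).comp hM.symm).eq_id
    (by rw [Function.comp_apply, ← ha, H.symm_apply_apply, nrm_fst h, ha])
    (by rw [Function.comp_apply, ← hb, H.symm_apply_apply, nrm_snd h, hb])
    (by rw [Function.comp_apply, ← hc, H.symm_apply_apply, nrm_trd, hc]) (H x)
  simpa using this.symm

lemma nrm_mob {M : Sph → Sph} (hM : IsMob M) {a b c : Sph} (h : D3 a b c) (x : Sph) :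
    nrm (M a) (M b) (M c) (M x) = nrm a b c x :=
  ((isMob_nrm (h.map hM.injective)).comp hM).eq_nrm (nrm_fst (h.map hM.injective))
    (nrm_snd (h.map hM.injective)) (nrm_trd _ _ _) x

lemma nrm_std (x : Sph) : nrm o0 o1 ∞ x = x := (isMob_id.eq_nrm rfl rfl rfl x).symm

lemma continuousAt_nrm {Y : Type*} [TopologicalSpace Y] {a b c x : Y → Sph} {y₀ : Y}
    (ha : ContinuousAt a y₀) (hb : ContinuousAt b y₀) (hc : ContinuousAt c y₀)
    (hx : ContinuousAt x y₀) (h : D3 (a y₀) (b y₀) (c y₀)) :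
    ContinuousAt (fun y => nrm (a y) (b y) (c y) (x y)) y₀ := by
  obtain ⟨va, hva, hva'⟩ := lift_map ha
  obtain ⟨vb, hvb, hvb'⟩ := lift_map hb
  obtain ⟨vc, hvc, hvc'⟩ := lift_map hc
  have ha0 := hva'.self_of_nhds
  have hb0 := hvb'.self_of_nhds
  have hc0 := hvc'.self_of_nhds
  have : ContinuousAt (fun y => mob ((va y).2 * dt (vb y) (vc y)) (-(va y).1 * dt (vb y) (vc y))
      ((vc y).2 * dt (vb y) (va y)) (-(vc y).1 * dt (vb y) (va y)) (x y)) y₀ := by
    refine continuousAt_mob ?_ ?_ ?_ ?_ hx (nrm_det ha0.1 hb0.1 hc0.1 ?_ ?_ ?_)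
    · unfold dt; fun_prop
    · unfold dt; fun_prop
    · unfold dt; fun_prop
    · unfold dt; fun_prop
    · rw [ha0.2, hb0.2]; exact h.1
    · rw [hb0.2, hc0.2]; exact h.2.1
    · rw [ha0.2, hc0.2]; exact h.2.2
  refine this.congr ?_
  filter_upwards [hva', hvb', hvc'] with y h1 h2 h3
  rw [← nrm_eq_mob h1.1 h2.1 h3.1, h1.2, h2.2, h3.2]

lemma isOpen_D3 : IsOpen {p : Sph × Sph × Sph | D3 p.1 p.2.1 p.2.2} := by
  refine IsOpen.inter (isOpen_ne_fun ?_ ?_) (IsOpen.inter (isOpen_ne_fun ?_ ?_)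
    (isOpen_ne_fun ?_ ?_)) <;> fun_prop

/-- Uniform continuity of the normalisation. -/
lemma nrm_close {a b c : Sph} (h : D3 a b c) {η : ℝ} (hη : 0 < η) : ∃ ε > 0, ∀ a' b' c' x x',
    dist a' a < ε → dist b' b < ε → dist c' c < ε → dist x' x < ε →
      D3 a' b' c' ∧ dist (nrm a' b' c' x') (nrm a b c x) < η := by
  obtain ⟨K, hK, hKs, hKc⟩ := local_compact_nhds (isOpen_D3.mem_nhds
    (show (a, b, c) ∈ {p : Sph × Sph × Sph | D3 p.1 p.2.1 p.2.2} from h))
  have hc : ContinuousOn (fun p : (Sph × Sph × Sph) × Sph => nrm p.1.1 p.1.2.1 p.1.2.2 p.2)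
      (K ×ˢ univ) := fun p hp =>
    (continuousAt_nrm (a := fun p : (Sph × Sph × Sph) × Sph => p.1.1)
      (b := fun p => p.1.2.1) (c := fun p => p.1.2.2) (x := fun p => p.2) (y₀ := p)
      (by fun_prop) (by fun_prop) (by fun_prop) (by fun_prop) (hKs hp.1)).continuousWithinAt
  have hu := (hKc.prod isCompact_univ).uniformContinuousOn_of_continuous hc
  obtain ⟨δ, hδ, hδ'⟩ := Metric.uniformContinuousOn_iff.1 hu η hη
  obtain ⟨r, hr, hrK⟩ := Metric.mem_nhds_iff.1 hK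
  refine ⟨min δ r, by positivity, fun a' b' c' x x' h1 h2 h3 h4 => ?_⟩
  simp only [lt_min_iff] at h1 h2 h3 h4
  have hm : (a', b', c') ∈ K := hrK (by simp [Prod.dist_eq, h1.2, h2.2, h3.2])
  refine ⟨hKs hm, ?_⟩
  exact hδ' ((a', b', c'), x') ⟨hm, trivial⟩ ((a, b, c), x) ⟨mem_of_mem_nhds hK, trivial⟩
    (by simp [Prod.dist_eq, h1.1, h2.1, h3.1, h4.1])

/-- `nrm` as a homeomorphism. -/
def nrmH (a b c : Sph) (h : D3 a b c) : Sph ≃ₜ Sph := (isMob_nrm h).exists_homeo.choose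

@[simp] lemma nrmH_apply {a b c : Sph} (h : D3 a b c) (x : Sph) : nrmH a b c h x = nrm a b c x :=
  congrFun (isMob_nrm h).exists_homeo.choose_spec x

lemma isMob_nrmH {a b c : Sph} (h : D3 a b c) : IsMob (nrmH a b c h) := by
  have : ⇑(nrmH a b c h) = nrm a b c := funext (nrmH_apply h)
  rw [this]; exact isMob_nrm h

lemma exists_ne_of_finite {N : Set Sph} (hN : N.Finite) : ∃ x, x ∉ N :=
  hN.infinite_compl.nonempty

lemma exists_third (a c : Sph) : ∃ b, b ≠ a ∧ b ≠ c := by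
  obtain ⟨b, hb⟩ := exists_ne_of_finite (toFinite ({a, c} : Set Sph))
  exact ⟨b, by simpa [not_or] using hb⟩

/-- A Moebius homeomorphism sending two given points to `0` and `∞`. -/
lemma exists_mob_two {a c : Sph} (h : a ≠ c) :
    ∃ H : Sph ≃ₜ Sph, IsMob H ∧ H a = o0 ∧ H c = ∞ := by
  obtain ⟨b, h1, h2⟩ := exists_third a c
  have hd : D3 a b c := ⟨h1.symm, h2, h⟩
  exact ⟨nrmH a b c hd, isMob_nrmH hd, by simp [nrm_fst hd], by simp [nrm_trd]⟩

lemma exists_mob_infty (c : Sph) : ∃ H : Sph ≃ₜ Sph, IsMob H ∧ H c = ∞ := by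
  obtain ⟨a, h, -⟩ := exists_third c c
  obtain ⟨H, h1, -, h2⟩ := exists_mob_two h
  exact ⟨H, h1, h2⟩

/-- Closeness in the plane (or both points far out) gives closeness on the sphere. -/
lemma sph_close {η : ℝ} (hη : 0 < η) : ∃ R > 0, ∃ δ > 0,
    (∀ z z' : ℂ, ‖z‖ ≤ R + 1 → ‖z - z'‖ < δ → dist (z : Sph) (z' : Sph) < η) ∧
    ∀ x x' : Sph, x ∈ out R → x' ∈ out R → dist x x' < η := by
  obtain ⟨R, hR, hR'⟩ := exists_out_subset (ball_mem_nhds (∞ : Sph) (half_pos hη))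
  have hu := (isCompact_closedBall (0 : ℂ) (R + 2)).uniformContinuousOn_of_continuous
    (continuous_coe (X := ℂ)).continuousOn
  obtain ⟨δ, hδ, hδ'⟩ := Metric.uniformContinuousOn_iff.1 hu η hη
  refine ⟨R, hR, min δ 1, by positivity, fun z z' h1 h2 => ?_, fun x x' h1 h2 => ?_⟩
  · rw [lt_min_iff] at h2
    refine hδ' z (by simp; linarith) z' ?_ (by rw [dist_eq_norm]; exact h2.1)
    have : ‖z'‖ ≤ ‖z‖ + ‖z - z'‖ := by
      calc ‖z'‖ = ‖z - (z - z')‖ := by simp
        _ ≤ _ := norm_sub_le _ _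
    simp; linarith [h2.2]
  · have a1 := hR' h1
    have a2 := hR' h2
    rw [mem_ball] at a1 a2
    linarith [dist_triangle_right x x' ∞]

/-- Closeness on the sphere to a bounded point gives closeness in the plane. -/
lemma plane_close (R : ℝ) {δ : ℝ} (hδ : 0 < δ) : ∃ ε > 0, ∀ (z : ℂ) (x : Sph), ‖z‖ ≤ R →
    dist x (z : Sph) < ε → ∃ z' : ℂ, x = z' ∧ ‖z' - z‖ < δ := by
  let K : Set Sph := (fun z : ℂ => (z : Sph)) '' closedBall 0 (R + 1)
  have hK : IsCompact K := (isCompact_closedBall _ _).image continuous_coe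
  have hc : ContinuousOn c0 K := by
    rintro _ ⟨z, -, rfl⟩; exact (continuousAt_c0 (coe_ne_infty z)).continuousWithinAt
  obtain ⟨e1, he1, h1⟩ := Metric.uniformContinuousOn_iff.1
    (hK.uniformContinuousOn_of_continuous hc) δ hδ
  have hK0 : IsCompact ((fun z : ℂ => (z : Sph)) '' closedBall 0 R) :=
    (isCompact_closedBall _ _).image continuous_coe
  have hO : IsOpen ((fun z : ℂ => (z : Sph)) '' ball 0 (R + 1)) := isOpenMap_coe _ isOpen_ball
  obtain ⟨e2, he2, h2⟩ := hK0.exists_thickening_subset_open hO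
    (image_mono (closedBall_subset_ball (by linarith)))
  refine ⟨min e1 e2, by positivity, fun z x hz hx => ?_⟩
  rw [lt_min_iff] at hx
  have : x ∈ (fun z : ℂ => (z : Sph)) '' ball 0 (R + 1) :=
    h2 (mem_thickening_iff.2 ⟨z, ⟨z, by simpa using hz, rfl⟩, hx.2⟩)
  obtain ⟨z', hz', rfl⟩ := this
  refine ⟨z', rfl, ?_⟩
  have := h1 z' ⟨z', ball_subset_closedBall hz', rfl⟩ z ⟨z, by simp; linarith, rfl⟩ hx.1
  simpa [dist_eq_norm] using this

lemma unif_cont {Y : Type*} [PseudoMetricSpace Y] {M : Sph → Y} (hM : Continuous M) {η : ℝ}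
    (hη : 0 < η) : ∃ ε > 0, ∀ x x', dist x x' < ε → dist (M x) (M x') < η := by
  obtain ⟨ε, hε, h⟩ := Metric.uniformContinuous_iff.1
    (CompactSpace.uniformContinuous_of_continuous hM) η hη
  exact ⟨ε, hε, fun x x' hx => h hx⟩

end

end Pool.Agent.Lib.MP_21db80_an
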