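import Pool.Agent.Lib.MP_21db80_an.Inv

/-!
A closed deformation with nonzero winding.
-/

namespace Pool.Agent.Lib.MP_21db80_an

open OnePoint Set Topology Function Filter Metric unitInterval

noncomputable section

/-- The quadratic map fixing `0, 1, ∞` with critical point `w` and critical value `α`. -/
def Gw (α w : ℂ) (x : Sph) : Sph := Mo α w (sqS (Mi α w x))

/-- Parameters for which the second critical value is not an orbifold point. -/
def Good (α w : ℂ) : Prop := w * (w - 1) * (w - α) ≠ 0 ∧ Mo α w o0 ∉ B3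

lemma coe_not_mem_B3 {w : ℂ} (h0 : w ≠ 0) (h1 : w ≠ 1) : (w : Sph) ∉ B3 := by
  simp [B3, h0, h1]

lemma q3_Gw {α w : ℂ} (h0 : α ≠ 0) (h1 : α ≠ 1) (hw : w * (w - 1) * (w - α) ≠ 0) : Q3 (Gw α w) :=
  ⟨⟨mobH _ _ _ _ (Mo_det h0 h1 hw), mobH _ _ _ _ (Mi_det α w), isMob_mob (Mo_det h0 h1 hw),
    isMob_mob (Mi_det α w), fun _ => rfl⟩, fam_fix h0 h1 hw⟩

lemma move {α : ℂ} (h0 : α ≠ 0) (h1 : α ≠ 1) {a w c : I → ℂ} (ha : Continuous a)
    (hc : Continuous c) (hw : ∀ t, pw (a t) = w t) (hg : ∀ t, Good α (w t)) {q : ℂ}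
    (hq : pw q = α) (c0' : c 0 = 0) (hce : ∀ t, Complex.exp (c t) * (a 0 - q) = a t - q) :
    ∃ (u : I → Sph ≃ₜ Sph) (l : Sph ≃ₜ Sph) (U L : ℂ ≃ₜ ℂ) (Λ : ℂ × ℂ → ℂ), CFam u ∧
      (∀ x, u 0 x = x) ∧ (∀ t, ∀ x ∈ B3, u t x = x) ∧ (∀ t, u t (w 0) = w t) ∧
      IsoRel (insert (α : Sph) B3) l ∧ Data (Gw α (w 0)) (Gw α (w 1)) (u 1) l U L Λ ∧
      U (a 0) = a 1 ∧ L q = q ∧ Λ (a 0, q) = c 1 := by
  have wc : Continuous w := by
    have : w = fun t => c0 (pw (a t)) := funext fun t => by rw [hw]; rfl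
    rw [this]
    exact continuous_iff_continuousAt.2 fun t => (continuousAt_c0 (hw t ▸ coe_ne_infty _)).comp_of_eq
      (continuous_pw.comp ha).continuousAt rfl
  have kc : Continuous fun t => kap α (w t) := by unfold kap; fun_prop
  have xc : Continuous fun t => xi α (w t) := by
    unfold xi
    exact Continuous.div (by fun_prop) (by fun_prop) fun t => mul_ne_zero two_ne_zero (hg t).1
  let M : I → Sph ≃ₜ Sph := fun t => mobH _ _ _ _ (Mo_det h0 h1 (hg t).1)
  let N : I → Sph ≃ₜ Sph := fun t => mobH _ _ _ _ (Mi_det α (w t))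
  have kc' : Continuous fun p : I × Sph => kap α (w p.1) := kc.comp continuous_fst
  have xc' : Continuous fun p : I × Sph => xi α (w p.1) := xc.comp continuous_fst
  have wc' : Continuous fun p : I × Sph => w p.1 := wc.comp continuous_fst
  have hM : CFam M := continuous_iff_continuousAt.2 fun p =>
    continuousAt_mob (continuous_const.mul kc').continuousAt
      (continuous_const.sub ((continuous_const.mul kc').mul (xc'.pow 2))).continuousAt
      kc'.continuousAt (kc'.mul (xc'.pow 2)).neg.continuousAt continuousAt_snd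
      (Mo_det h0 h1 (hg p.1).1)
  have hN : CFam N := continuous_iff_continuousAt.2 fun p =>
    continuousAt_mob xc'.continuousAt (continuous_const.sub (xc'.mul wc')).continuousAt
      continuousAt_const wc'.neg.continuousAt continuousAt_snd (Mi_det α (w p.1))
  have Mi' : ∀ t, M t ∞ = α := fun t => Mo_infty h0 h1 (hg t).1
  have αB := coe_not_mem_B3 h0 h1
  obtain ⟨l, l1, l2, l3, l4⟩ := exists_push (finite_B3.insert (α : Sph)) (hM.path o0) fun t e =>
    e.elim (fun e => o0_ne_infty ((M t).injective (e.trans (Mi' t).symm))) (hg t).2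
  obtain ⟨u, u1, u2, u3, u4⟩ := exists_upper' hM hN l1 l2 (fun t x hx => l3 t x (Or.inr hx))
    (fun t => fam_fix h0 h1 (hg t).1) l4 (fun t => by rw [Mi', Mi', l3 t _ (Or.inl rfl)])
    (hg 0).2 (Mi' 0 ▸ αB)
  have Nw : ∀ t, N t (w t) = ∞ := fun t => Mi_self α (w t)
  have u5 : ∀ t, u t (w 0) = w t := fun t => by
    have := u4 t (w 0)
    rw [Nw, sqS_infty, Mi', l3 t _ (Or.inl rfl), ← Mi' t] at this
    exact (N t).injective ((sqS_eq_infty ((M t).injective this)).trans (Nw t).symm)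
  obtain ⟨U, L, Λ, d1, d2⟩ := data_of_isotopy (G := fun t => Gw α (w t)) u1 l1 u2 l2 u3
    (fun t x hx => l3 t x (Or.inr hx)) (fun t => q3_Gw h0 h1 (hg t).1) u4
  have w0 : (w 0 : Sph) ∉ B3 := coe_not_mem_B3 (fun e => (hg 0).1 (by simp [e]))
    fun e => (hg 0).1 (by simp [e])
  exact ⟨u, l 1, U, L, Λ, u1, u2, u3, u5, isoRel_iff.2 ⟨l, l1, l2, fun _ => rfl, l3⟩, d1,
    d2 (a 0, q) ⟨by
      rw [hw, hq]; change M 0 (sqS (N 0 (w 0))) = α; rw [Nw, sqS_infty, Mi'], fun e => (hg 0).1 (by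
        have : (w 0 : Sph) = α := by rw [← hw, ← hq]; exact congrArg pw e
        simp [coe_injective this])⟩ a (fun _ => q) c ha continuous_const hc rfl rfl c0'
      (hw 0 ▸ w0) (hq ▸ αB) (fun t => by rw [hw, hw, u5]) (fun t => by
        rw [hq, l3 t _ (Or.inl rfl)]) hce⟩

/-- A closed deformation, trivial upstairs and downstairs, with winding number one. -/
theorem exists_twist {G : Sph → Sph} (hG : Q3 G) {μ ν : Sph ≃ₜ Sph} (hμ : IsMob μ) (hν : IsMob ν)
    (e : ∀ x, G x = μ (sqS (ν x))) {p q : ℂ} (hp : ν (pw p) = ∞) (hq : μ ∞ = pw q)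
    (hpB : pw p ∉ B3) (hqB : pw q ∉ B3) (hv : μ o0 ∉ B3) :
    ∃ (u l : Sph ≃ₜ Sph) (U L : ℂ ≃ₜ ℂ) (Λ : ℂ × ℂ → ℂ), Data G G u l U L Λ ∧
      Λ (p, q) = 2 * Real.pi * Complex.I ∧ IsoRel (insert (pw p) B3) u ∧
        IsoRel (insert (pw q) B3) l := by
  have fin : ∀ x, x ∉ B3 → ∃ z : ℂ, x = z ∧ z ≠ 0 ∧ z ≠ 1 := fun x hx => by
    induction x using OnePoint.rec with
    | infty => exact absurd infty_mem hx
    | coe z => exact ⟨z, rfl, fun e => hx (e ▸ o0_mem), fun e => hx (e ▸ o1_mem)⟩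
  obtain ⟨α, hα, h0, h1⟩ := fin _ hqB
  obtain ⟨w₀, hw₀, w0, w1⟩ := fin _ hpB
  have hGp : G (pw p) = pw q := by rw [e, hp, sqS_infty, hq]
  have w2 : w₀ ≠ α := fun h => hpB (hG.fix (by rw [hGp, hα, hw₀, h]))
  have hw : w₀ * (w₀ - 1) * (w₀ - α) ≠ 0 :=
    mul_ne_zero (mul_ne_zero w0 (sub_ne_zero.2 w1)) (sub_ne_zero.2 w2)
  have hGw : G = Gw α w₀ := funext fun x => (e x).trans (nf_unique hμ hν
    (μ' := mobH _ _ _ _ (Mo_det h0 h1 hw)) (ν' := mobH _ _ _ _ (Mi_det α w₀))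
    (isMob_mob (Mo_det h0 h1 hw)) (isMob_mob (Mi_det α w₀)) hpB hp (hw₀ ▸ Mi_self α w₀)
    (by rw [hq, hα]; exact (Mo_infty h0 h1 hw).symm)
    (fun y hy => by rw [← e, hG.2 y hy]; exact (fam_fix h0 h1 hw y hy).symm) x)
  have g0 : Good α w₀ := by
    refine ⟨hw, ?_⟩
    let M := mobH _ _ _ _ (Mo_det h0 h1 hw)
    let N := mobH _ _ _ _ (Mi_det α w₀)
    have a1 : ∀ x, G x = M (sqS (N x)) := fun x => by rw [hGw]; rfl
    have a2 := (crit_iff e).1 ((crit_iff a1 (c := N.symm o0)).2 (Or.inl (by simp)))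
    have a3 : N (pw p) = ∞ := hw₀ ▸ Mi_self α w₀
    have a4 := a2.resolve_right fun h => o0_ne_infty (by
      rw [← a3, ← ν.injective (h.trans hp.symm)]; simp)
    have a5 := a1 (N.symm o0)
    rw [e, a4, Homeomorph.apply_symm_apply, sqS_o0] at a5
    change M o0 ∉ B3
    rwa [← a5]
  let F : Set Sph := insert ∞ ((fun z : ℂ => (z : Sph)) ''
    {w : ℂ | w * (w - 1) * (w - α) = 0 ∨ Mo α w o0 ∈ B3})
  have hF : F.Finite := ((finite_bad h0 h1).image _).insert _
  have gF : ∀ z, pw z ∉ F → pw z = c0 (pw z) ∧ Good α (c0 (pw z)) := fun z hz => by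
    have a1 := coe_c0 (x := pw z) fun e => hz (Or.inl e)
    exact ⟨a1.symm, not_or.1 fun h => hz (Or.inr ⟨_, h, a1⟩)⟩
  have pF : pw p ∉ F := by
    rw [hw₀]
    rintro (h | ⟨z, hz, h⟩)
    · exact coe_ne_infty _ h
    · rw [coe_injective h] at hz; exact not_or.2 g0 hz
  obtain ⟨W, hW, s, s1, s2, s3⟩ := exists_section finite_B3 hqB
  obtain ⟨r, hr, hr'⟩ : ∃ r : ℝ, 0 < r ∧ ∀ z, ‖z - q‖ = r → pw z ∉ F ∧ pw z ∈ W := by
    obtain ⟨δ, hδ, hδ'⟩ := orb_discrete q
    have a1 : (F \ {pw q})ᶜ ∈ 𝓝 (pw q) :=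
      (hF.subset sdiff_subset).isClosed.isOpen_compl.mem_nhds fun h => h.2 rfl
    obtain ⟨ε, hε, hε'⟩ := Metric.mem_nhds_iff.1 (continuous_pw.continuousAt (inter_mem hW a1))
    refine ⟨min δ ε / 2, by positivity, fun z hz => ?_⟩
    have a2 := hε' (show z ∈ ball q ε by
      rw [mem_ball, dist_eq_norm, hz]; linarith [min_le_right δ ε])
    refine ⟨fun h => a2.2 ⟨h, fun h' => ?_⟩, a2.1⟩
    obtain ⟨k, l, b1, b2, rfl⟩ := pw_fibre (Eq.symm h')
    rw [hδ' k l b1 b2 (by rw [hz]; linarith [min_le_left δ ε]), sub_self, norm_zero] at hz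
    have : 0 < min δ ε / 2 := by positivity
    exact this.ne hz
  have hrn : ∀ t, ‖q + r * circ t - q‖ = r := fun t => by
    rw [add_sub_cancel_left, norm_mul, norm_circ, Complex.norm_real, Real.norm_of_nonneg hr.le,
      mul_one]
  have hcount : (pw ⁻¹' F).Countable := by
    rw [← biUnion_preimage_singleton]
    exact hF.countable.biUnion fun y _ => countable_fibre y
  obtain ⟨γ, hγ⟩ := (hcount.isPathConnected_compl_of_one_lt_rank
    (by rw [Complex.rank_real_complex]; norm_num)).joinedIn p pF (q + r * circ 0) (hr' _ (hrn 0)).1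
  have hne : ∀ z, pw z ∉ F → z - q ≠ 0 := fun z hz => sub_ne_zero.2 fun h =>
    hz (Or.inr ⟨α, Or.inl (by simp), by rw [h, hα]⟩)
  obtain ⟨c, c1, c2, c3⟩ := lift_exp (G := fun x : I × Unit => (γ x.1 - q) / (p - q)) (by fun_prop)
    (fun x => div_ne_zero (hne _ (hγ _)) (hne _ pF)) (L₀ := fun _ => 0) continuous_const
    fun _ => by simp [div_self (hne _ pF)]
  obtain ⟨u, l, U, L, Λ, -, -, a3, a4, a5, a6, a7, a8, -⟩ := move h0 h1 (a := γ)
    (w := fun t => c0 (pw (γ t))) (c := fun t => c (t, ())) γ.continuous (by fun_prop)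
    (fun t => (gF _ (hγ t)).1) (fun t => (gF _ (hγ t)).2) hα (c3 _) fun t => by
      rw [c2, γ.source, div_mul_cancel₀ _ (hne _ pF)]
  obtain ⟨u', l', U', L', Λ', b1, b2, b3, b4, b5, b6, b7, b8, b9⟩ := move h0 h1
    (a := fun t => q + r * circ t) (w := fun t => c0 (pw (q + r * circ t)))
    (c := fun t => t * (2 * Real.pi * Complex.I)) (by have := continuous_circ; fun_prop)
    (by fun_prop) (fun t => (gF _ (hr' _ (hrn t)).1).1) (fun t => (gF _ (hr' _ (hrn t)).1).2) hα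
    (by simp) fun t => by rw [circ_zero, circ]; ring
  have e01 : circ 1 = circ 0 := by rw [circ_one, circ_zero]
  simp only [Path.source, Path.target, hw₀, c0_coe, ← hGw, e01] at a4 a6 a7 b6 b7
  simp only [← (gF _ (hr' _ (hrn _)).1).1] at b4
  have i1 : IsoRel (insert (pw (q + r * circ 0)) B3) (u' 1) := by
    have hc : CFam fun t => s (pw (q + r * circ t)) :=
      s1.comp_continuous (f := fun x : I × Sph => (pw (q + r * circ x.1), x.2))
        (by have := continuous_circ; have := continuous_pw; fun_prop)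
        fun x => ⟨(hr' _ (hrn x.1)).2, trivial⟩
    refine isoRel_iff.2 ⟨fun t => ((u' t).trans (s (pw (q + r * circ t))).symm).trans
      (s (pw (q + r * circ 0))), (b1.trans hc.symm).trans (cfam_const _), fun x => by simp [b2],
      fun x => by simp [e01], fun t x hx => ?_⟩
    simp only [Homeomorph.trans_apply]
    rcases hx with rfl | hx
    · rw [b4, show (s (pw (q + r * circ t))).symm (pw (q + r * circ t)) = pw q by
        rw [Homeomorph.symm_apply_eq, s2 _ (hr' _ (hrn t)).2], s2 _ (hr' _ (hrn 0)).2]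
    · rw [b3 t x hx, show (s (pw (q + r * circ t))).symm x = x by
        rw [Homeomorph.symm_apply_eq, s3 _ x hx], s3 _ x hx]
  refine ⟨_, _, _, _, _, (a6.trans b6).trans (a6.symm hG), ?_, ?_, ?_⟩
  · simp only [Homeomorph.trans_apply, a7, a8, b7, b8, b9]
    rw [← a7, Homeomorph.symm_apply_apply, show L.symm q = q by
      rw [Homeomorph.symm_apply_eq, a8]]
    simp
  · refine i1.conj (u 1) fun y hy => ?_
    rcases hy with rfl | hy
    · left
      rw [hw₀, a4, γ.target, ← (gF _ (hr' _ (hrn _)).1).1]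
    · rw [a3 1 y hy]; exact Or.inr hy
  · rw [hα]; exact (a5.trans b5).trans a5.symm

end

end Pool.Agent.Lib.MP_21db80_an
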