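import Pool.Agent.Lib.MP_21db80_an.Lift

/-!
Quadratic rational maps.
-/

namespace Pool.Agent.Lib.MP_21db80_an

open OnePoint Set Topology Function Filter Metric Polynomial

noncomputable section

/-- A binary quadratic form. -/
def qf (a b c : ℂ) (v : ℂ × ℂ) : ℂ := a * v.1 ^ 2 + b * (v.1 * v.2) + c * v.2 ^ 2

/-- Maps given by two quadratic forms without common zero. -/
def HQ (R : Sph → Sph) : Prop := ∃ a b c a' b' c' : ℂ,
  ∀ v, v ≠ 0 → (qf a b c v, qf a' b' c' v) ≠ (0 : ℂ × ℂ) ∧ R (pr v) = pr (qf a b c v, qf a' b' c' v)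

/-- Maps which are the squaring map in suitable coordinates. -/
def NF (R : Sph → Sph) : Prop :=
  ∃ μ ν : Sph ≃ₜ Sph, IsMob μ ∧ IsMob ν ∧ ∀ x, R x = μ (sqS (ν x))

lemma HQ.mob {R M : Sph → Sph} (h : HQ R) (hM : IsMob M) : HQ fun x => M (R x) := by
  obtain ⟨a, b, c, a', b', c', h⟩ := h
  obtain ⟨s, t, u, w, hd, rfl⟩ := hM.eq_mob
  refine ⟨s * a + t * a', s * b + t * b', s * c + t * c', u * a + w * a', u * b + w * b',
    u * c + w * c', fun v hv => ?_⟩
  have e : (qf (s * a + t * a') (s * b + t * b') (s * c + t * c') v,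
      qf (u * a + w * a') (u * b + w * b') (u * c + w * c') v) =
      (s * qf a b c v + t * qf a' b' c' v, u * qf a b c v + w * qf a' b' c' v) := by
    simp only [qf]; congr 1 <;> ring
  simp only
  rw [e, (h v hv).2, mob_pr _ _ _ _ (h v hv).1]
  exact ⟨lin_ne hd (h v hv).1, rfl⟩

lemma NF.hq {R : Sph → Sph} (h : NF R) : HQ R := by
  obtain ⟨μ, ν, hμ, hν, h⟩ := h
  rw [funext h]
  refine HQ.mob (R := fun x => sqS (ν x)) ?_ hμ
  obtain ⟨a, b, c, d, hd, hν⟩ := hν
  refine ⟨a ^ 2, 2 * a * b, b ^ 2, c ^ 2, 2 * c * d, d ^ 2, fun v hv => ?_⟩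
  have e : (qf (a ^ 2) (2 * a * b) (b ^ 2) v, qf (c ^ 2) (2 * c * d) (d ^ 2) v) =
      ((a * v.1 + b * v.2) ^ 2, (c * v.1 + d * v.2) ^ 2) := by
    simp only [qf]; congr 1 <;> ring
  simp only
  rw [e, hν v hv, sqS_pr]
  exact ⟨sq_ne (lin_ne hd hv), rfl⟩

lemma nf_of_mob {R : Sph → Sph} {a b c d a' b' c' d' : ℂ} (h : a * d - b * c ≠ 0)
    (h' : a' * d' - b' * c' ≠ 0) (e : ∀ v, v ≠ 0 → R (pr v) =
      pr (a * (a' * v.1 + b' * v.2) ^ 2 + b * (c' * v.1 + d' * v.2) ^ 2,
        c * (a' * v.1 + b' * v.2) ^ 2 + d * (c' * v.1 + d' * v.2) ^ 2)) : NF R := by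
  refine ⟨mobH a b c d h, mobH a' b' c' d' h', isMob_mob h, isMob_mob h', fun x => ?_⟩
  obtain ⟨v, hv, rfl⟩ := pr_surj x
  change _ = mob a b c d (sqS (mob a' b' c' d' (pr v)))
  rw [e v hv, mob_pr _ _ _ _ hv, sqS_pr, mob_pr _ _ _ _ (sq_ne (lin_ne h' hv))]

lemma HQ.nf_aux {R : Sph → Sph} (h : HQ R) (hi : R ∞ = ∞) : NF R := by
  obtain ⟨a, b, c, a', b', c', h⟩ := h
  have h1 := h (1, 0) (by simp)
  have ha' : a' = 0 := by
    have := h1.2
    rw [pr_zero_right, hi, eq_comm, pr_eq_infty_iff] at this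
    simpa [qf] using this
  subst ha'
  have ha : a ≠ 0 := by simpa [qf] using h1.1
  by_cases hb' : b' = 0
  · subst hb'
    have hc' : c' ≠ 0 := by
      rintro rfl
      obtain ⟨z, hz⟩ := exists_quadratic_eq_zero (b := b) (c := c) ha
        (IsAlgClosed.exists_eq_mul_self _)
      apply (h (z, 1) (by simp)).1
      simp only [qf, Prod.mk_eq_zero]
      constructor
      · linear_combination hz
      · ring
    refine nf_of_mob (a := 1) (b := 4 * a * c - b ^ 2) (c := 0) (d := 4 * a * c') (a' := 2 * a)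
      (b' := b) (c' := 0) (d' := 1) (by simp [ha, hc']) (by simp [ha]) fun v hv => ?_
    rw [(h v hv).2, ← pr_mul (c := 4 * a) (by simp [ha])]
    simp only [qf]; congr 2 <;> ring
  · have hD : a * c' ^ 2 - b * c' * b' + c * b' ^ 2 ≠ 0 := by
      intro h0
      apply (h (-c', b') (by simp [hb'])).1
      simp only [qf, Prod.mk_eq_zero]
      constructor
      · linear_combination h0
      · ring
    obtain ⟨s, hs⟩ := IsAlgClosed.exists_pow_nat_eq
      ((a * c' ^ 2 - b * c' * b' + c * b' ^ 2) / a) two_pos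
    rw [eq_div_iff ha] at hs
    have hs0 : s ≠ 0 := by rintro rfl; exact hD (by rw [← hs]; simp)
    refine nf_of_mob (a := 2 * s * a - (b * b' - 2 * a * c')) (b := 2 * s * a + (b * b' - 2 * a * c'))
      (c := -b' ^ 2) (d := b' ^ 2) (a' := b') (b' := c' - s) (c' := b') (d' := c' + s) ?_ ?_
      fun v hv => ?_
    · rw [show (2 * s * a - (b * b' - 2 * a * c')) * b' ^ 2 -
        (2 * s * a + (b * b' - 2 * a * c')) * -b' ^ 2 = 4 * s * a * b' ^ 2 by ring]
      simp [ha, hs0, hb']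
    · rw [show b' * (c' + s) - (c' - s) * b' = 2 * s * b' by ring]
      simp [hs0, hb']
    · rw [(h v hv).2, ← pr_mul (c := 4 * s * b' ^ 2) (by simp [hs0, hb'])]
      simp only [qf]; congr 2
      · linear_combination -4 * s * v.2 ^ 2 * hs
      · ring

lemma HQ.nf {R : Sph → Sph} (h : HQ R) : NF R := by
  obtain ⟨M, hM, hi⟩ := exists_mob_infty (R ∞)
  obtain ⟨μ, ν, hμ, hν, e⟩ := (h.mob hM).nf_aux hi
  exact ⟨μ.trans M.symm, ν, hμ.trans hM.symm, hν, fun x => by simp [← e]⟩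

lemma NF.continuous {R : Sph → Sph} (h : NF R) : Continuous R := by
  obtain ⟨μ, ν, -, -, h⟩ := h
  rw [funext h]; exact μ.continuous.comp (continuous_sqS.comp ν.continuous)

lemma eq_of_coe {F G : Sph → Sph} (hF : Continuous F) (hG : Continuous G)
    (h : ∀ z : ℂ, F z = G z) : F = G :=
  denseRange_coe.equalizer hF hG (funext h)

lemma coprime_eval {p q : ℂ[X]} (h : IsCoprime p q) (z : ℂ) :
    (p.eval z, q.eval z) ≠ (0 : ℂ × ℂ) := by
  obtain ⟨u, w, e⟩ := h
  intro h0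
  have := congrArg (Polynomial.eval z) e
  simp [(Prod.mk_eq_zero.1 h0).1, (Prod.mk_eq_zero.1 h0).2] at this

lemma top_coeff {p q : ℂ[X]} (h : IsCoprime p q) {d : ℕ} (hd : max p.natDegree q.natDegree = d) :
    (p.coeff d, q.coeff d) ≠ (0 : ℂ × ℂ) := by
  intro h0
  obtain ⟨h1, h2⟩ := Prod.mk_eq_zero.1 h0
  rcases le_total p.natDegree q.natDegree with h3 | h3
  · rw [max_eq_right h3] at hd
    have hq : q = 0 := leadingCoeff_eq_zero.1 (by rw [leadingCoeff, hd, h2])
    have : p.natDegree = d := by rw [hq] at h3 hd; simp at h3 hd; omega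
    have hp : p = 0 := leadingCoeff_eq_zero.1 (by rw [leadingCoeff, this, h1])
    exact coprime_eval h 0 (by simp [hp, hq])
  · rw [max_eq_left h3] at hd
    have hp : p = 0 := leadingCoeff_eq_zero.1 (by rw [leadingCoeff, hd, h1])
    have : q.natDegree = d := by rw [hp] at h3 hd; simp at h3 hd; omega
    have hq : q = 0 := leadingCoeff_eq_zero.1 (by rw [leadingCoeff, this, h2])
    exact coprime_eval h 0 (by simp [hp, hq])

lemma RatDeg.exists_pr {R : Sph → Sph} {d : ℕ} (h : RatDeg R d) : ∃ p q : ℂ[X], IsCoprime p q ∧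
    max p.natDegree q.natDegree = d ∧ ∀ z : ℂ, R z = pr (p.eval z, q.eval z) := h.2

lemma RatDeg.const {R : Sph → Sph} (h : RatDeg R 0) : ∃ y, ∀ x, R x = y := by
  obtain ⟨p, q, -, h2, h3⟩ := h.exists_pr
  refine ⟨_, congrFun (eq_of_coe h.1 (continuous_const (y := R o0)) fun z => ?_)⟩
  rw [h3, h3, eq_C_of_natDegree_eq_zero (p := p) (by omega),
    eq_C_of_natDegree_eq_zero (p := q) (by omega)]
  simp

lemma RatDeg.isMob {R : Sph → Sph} (h : RatDeg R 1) : IsMob R := by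
  obtain ⟨p, q, h1, h2, h3⟩ := h.exists_pr
  have e : ∀ r : ℂ[X], r.natDegree < 2 → ∀ z, r.eval z = r.coeff 1 * z + r.coeff 0 :=
    fun r hr z => by rw [eval_eq_sum_range' hr]; simp [Finset.sum_range_succ]; ring
  have ep := e p (by omega)
  have eq := e q (by omega)
  have hd : p.coeff 1 * q.coeff 0 - p.coeff 0 * q.coeff 1 ≠ 0 := by
    intro h0
    rcases ne_zero_iff.1 (top_coeff h1 h2) with h4 | h4
    · apply coprime_eval h1 (-p.coeff 0 / p.coeff 1)
      rw [ep, eq, Prod.mk_eq_zero]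
      constructor <;> field_simp
      · ring
      · linear_combination h0
    · apply coprime_eval h1 (-q.coeff 0 / q.coeff 1)
      rw [ep, eq, Prod.mk_eq_zero]
      constructor <;> field_simp
      · linear_combination -h0
      · ring
  rw [eq_of_coe h.1 (isMob_mob hd).continuous fun z => by rw [h3, mob_coe, ep, eq]]
  exact isMob_mob hd

lemma RatDeg.nf {R : Sph → Sph} (h : RatDeg R 2) : NF R := by
  obtain ⟨p, q, h1, h2, h3⟩ := h.exists_pr
  have e : ∀ r : ℂ[X], r.natDegree < 3 → ∀ z,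
      r.eval z = qf (r.coeff 2) (r.coeff 1) (r.coeff 0) (z, 1) :=
    fun r hr z => by rw [eval_eq_sum_range' hr]; simp [Finset.sum_range_succ, qf]; ring
  let P : ℂ × ℂ → ℂ × ℂ := fun v => (qf (p.coeff 2) (p.coeff 1) (p.coeff 0) v,
    qf (q.coeff 2) (q.coeff 1) (q.coeff 0) v)
  have hs : ∀ (c : ℂ) v, P (c • v) = c ^ 2 • P v := fun c v => by
    simp only [P, qf, Prod.smul_mk, Prod.smul_fst, Prod.smul_snd, smul_eq_mul]
    congr 1 <;> ring
  have hl : ∀ x, P (lft x) ≠ 0 := fun x => by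
    induction x using OnePoint.rec with
    | infty => simpa [P, qf] using top_coeff h1 h2
    | coe z =>
      have := coprime_eval h1 z
      rwa [e p (by omega), e q (by omega)] at this
  have hH : HQ fun x => pr (P (lft x)) := by
    refine ⟨p.coeff 2, p.coeff 1, p.coeff 0, q.coeff 2, q.coeff 1, q.coeff 0, fun v hv => ?_⟩
    obtain ⟨c, hc, e⟩ := exists_smul_of_pr_eq (lft_ne _) hv (pr_lft _)
    have : P v = c ^ 2 • P (lft (pr v)) := by rw [← hs, ← e]
    exact ⟨by
      change P v ≠ 0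
      rw [this]; exact smul_ne_zero (pow_ne_zero 2 hc) (hl _), by
      change _ = pr (P v)
      rw [this, pr_smul (pow_ne_zero 2 hc)]⟩
  rw [eq_of_coe h.1 hH.nf.continuous fun z => by rw [h3, e p (by omega), e q (by omega)]; rfl]
  exact hH.nf

lemma RatDeg.three {R : Sph → Sph} {d : ℕ} (h : RatDeg R d) (hd : 3 ≤ d) :
    ∃ F : Set Sph, F.Finite ∧ ∀ y, y ∉ F → ∃ a b c, D3 a b c ∧ R a = y ∧ R b = y ∧ R c = y := by
  classical
  obtain ⟨p, q, h1, h2, h3⟩ := h.exists_pr
  have hW : derivative p * q - p * derivative q ≠ 0 := by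
    intro h0
    have key : ∀ {p q : ℂ[X]}, IsCoprime p q → derivative p * q = p * derivative q →
        p.natDegree = 0 := by
      intro p q h e
      by_contra hp
      have h1 : p ∣ derivative p := h.dvd_of_dvd_mul_right ⟨_, e⟩
      exact hp (derivative_eq_zero.1
        (eq_zero_of_dvd_of_natDegree_lt h1 (natDegree_derivative_lt hp)))
    have a1 := key h1 (sub_eq_zero.1 h0)
    have a2 := key h1.symm (by linear_combination -h0)
    omega
  refine ⟨{∞, pr (p.coeff d, q.coeff d)} ∪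
    (fun z : ℂ => R z) '' {z | IsRoot (derivative p * q - p * derivative q) z},
    (toFinite _).union ((finite_setOfPred_isRoot hW).image _), fun y hy => ?_⟩
  simp only [mem_union, mem_insert_iff, mem_singleton_iff, not_or] at hy
  obtain ⟨⟨y1, y2⟩, y3⟩ := hy
  induction y using OnePoint.rec with
  | infty => exact absurd rfl y1
  | coe y =>
    set r := p - C y * q with hr
    have r1 : r.coeff d ≠ 0 := fun h0 => y2 ((pr_eq_coe_iff (top_coeff h1 h2)).2 (by
      simp only [hr, coeff_sub, coeff_C_mul] at h0; linear_combination h0)).symm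
    have r2 : r.natDegree = d := natDegree_eq_of_le_of_coeff_ne_zero
      ((natDegree_sub_le _ _).trans (max_le (by omega)
        ((natDegree_C_mul_le _ _).trans (by omega)))) r1
    have r0 : r ≠ 0 := fun h0 => r1 (by simp [h0])
    have r3 : ∀ z, IsRoot r z → R z = y := fun z hz => by
      rw [h3, pr_eq_coe_iff (coprime_eval h1 z)]
      simp only [hr, IsRoot.def, eval_sub, eval_mul, eval_C] at hz
      linear_combination hz
    have r4 : r.roots.Nodup := Multiset.nodup_iff_count_le_one.2 fun z => by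
      rw [count_roots]
      by_contra h4
      obtain ⟨a1, a2⟩ := (one_lt_rootMultiplicity_iff_isRoot r0).1 (not_le.1 h4)
      refine y3 ⟨z, ?_, r3 z a1⟩
      simp only [hr, IsRoot.def, eval_sub, eval_mul, eval_C, derivative_sub, derivative_C_mul,
        mem_ofPred_eq] at a1 a2 ⊢
      linear_combination eval z q * a2 - eval z (derivative q) * a1
    obtain ⟨a, b, c, ha, hb, hc, h4, h5, h6⟩ := Finset.two_lt_card_iff.1
      (show 2 < r.roots.toFinset.card by
        rw [Multiset.toFinset_card_of_nodup r4, IsAlgClosed.card_roots_eq_natDegree]; omega)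
    rw [Multiset.mem_toFinset, mem_roots r0] at ha hb hc
    exact ⟨a, b, c, ⟨coe_injective.ne h4, coe_injective.ne h6, coe_injective.ne h5⟩, r3 a ha,
      r3 b hb, r3 c hc⟩

/-- The deck involution of the squaring map. -/
def ngS : Sph ≃ₜ Sph := (Homeomorph.neg ℂ).onePointCongr

@[simp] lemma ngS_coe (z : ℂ) : ngS z = ((-z : ℂ) : Sph) := rfl
@[simp] lemma ngS_infty : ngS ∞ = ∞ := rfl

@[simp] lemma ngS_ngS (x : Sph) : ngS (ngS x) = x := by
  induction x using OnePoint.rec <;> simp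

@[simp] lemma sqS_ngS (x : Sph) : sqS (ngS x) = sqS x := by
  induction x using OnePoint.rec <;> simp

lemma isMob_ngS : IsMob ngS := by
  have : (ngS : Sph → Sph) = mob (-1) 0 0 1 := funext fun x => by
    induction x using OnePoint.rec with
    | infty => simp [mob_infty]
    | coe z => simp [mob_coe]
  rw [this]; exact isMob_mob (by simp)

lemma sqS_eq_iff {x y : Sph} : sqS x = sqS y ↔ x = y ∨ x = ngS y := by
  refine ⟨fun h => ?_, by rintro (rfl | rfl) <;> simp⟩
  induction y using OnePoint.rec with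
  | infty => exact Or.inl (sqS_eq_infty h)
  | coe y =>
    induction x using OnePoint.rec with
    | infty => exact absurd h.symm (coe_ne_infty _)
    | coe x => simpa [sq_eq_sq_iff_eq_or_eq_neg] using h

lemma ngS_eq_self {x : Sph} : ngS x = x ↔ x = o0 ∨ x = ∞ := by
  induction x using OnePoint.rec with
  | infty => simp
  | coe z => simp [neg_eq_self]

lemma crit_iff {f : Sph → Sph} {μ ν : Sph ≃ₜ Sph} (e : ∀ x, f x = μ (sqS (ν x))) {c : Sph} :
    Crit f c ↔ ν c = o0 ∨ ν c = ∞ := by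
  rw [← ngS_eq_self]
  have hτ : Continuous fun x => ngS (ν x) := by fun_prop
  constructor
  · intro h
    by_contra hne
    obtain ⟨U, V, hU, hV, h1, h2, h3⟩ := t2_separation hne
    refine h _ (inter_mem (hτ.continuousAt (hU.mem_nhds h1))
      (ν.continuous.continuousAt (hV.mem_nhds h2))) fun x hx y hy exy => ?_
    rw [e, e] at exy
    rcases sqS_eq_iff.1 (μ.injective exy) with h4 | h4
    · exact ν.injective h4
    · exact absurd (h4 ▸ hx.2 : ngS (ν y) ∈ V) (disjoint_left.1 h3 hy.1)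
  · intro h U hU hi
    have h1 : Tendsto (fun x => ν.symm (ngS (ν x))) (𝓝 c) (𝓝 c) :=
      Continuous.tendsto' (by fun_prop) _ _ (by rw [h]; simp)
    have hd : Dense (ν ⁻¹' {o0, ∞})ᶜ := by
      have := (finite_singleton (∞ : Sph)).insert o0
      rw [dense_iff_inter_open]
      intro W hW hne
      obtain ⟨z, hz⟩ := denseRange_coe.exists_mem_open (ν.isOpenMap W hW) (hne.image _)
      obtain ⟨w, hw, hw'⟩ := ((infinite_of_mem_nhds z (((ν.isOpenMap W hW).preimage
        continuous_coe).mem_nhds hz)).sdiff (finite_singleton 0)).nonempty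
      obtain ⟨x, hx, e⟩ := hw
      exact ⟨x, hx, by simpa [e] using hw'⟩
    obtain ⟨x, hx, hx'⟩ := mem_closure_iff_nhds.1 (hd c) _ (inter_mem hU (h1 hU))
    have := hi hx.2 hx.1 (by simp [e])
    rw [Homeomorph.symm_apply_eq] at this
    exact hx' (by simpa using ngS_eq_self.1 this)

/-- The inversion. -/
def invS : Sph ≃ₜ Sph := mobH 0 1 1 0 (by simp)

lemma isMob_invS : IsMob invS := isMob_mob (by simp)

lemma invS_pr {v : ℂ × ℂ} (hv : v ≠ 0) : invS (pr v) = pr (v.2, v.1) := by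
  change mob 0 1 1 0 _ = _
  rw [mob_pr _ _ _ _ hv]; simp

lemma invS_o0 : invS o0 = ∞ := by
  change mob 0 1 1 0 _ = _
  simp [mob_coe]

lemma invS_infty : invS ∞ = o0 := by
  change mob 0 1 1 0 _ = _
  simp [mob_infty]

lemma sqS_invS (x : Sph) : sqS (invS x) = invS (sqS x) := by
  obtain ⟨v, hv, rfl⟩ := pr_surj x
  rw [invS_pr hv, sqS_pr, sqS_pr, invS_pr (sq_ne hv)]

lemma nf_swap {f : Sph → Sph} {μ ν : Sph ≃ₜ Sph} (hμ : IsMob μ) (hν : IsMob ν)
    (e : ∀ x, f x = μ (sqS (ν x))) {c c' : Sph} (h : ν c = o0 ∨ ν c = ∞)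
    (h' : ν c' = o0 ∨ ν c' = ∞) (hne : ν c ≠ ν c') : ∃ μ ν : Sph ≃ₜ Sph, IsMob μ ∧ IsMob ν ∧
      (∀ x, f x = μ (sqS (ν x))) ∧ ν c = ∞ ∧ ν c' = o0 := by
  rcases h with h | h
  · have h2 : ν c' = ∞ := h'.resolve_left fun e => hne (h.trans e.symm)
    exact ⟨invS.symm.trans μ, ν.trans invS, isMob_invS.symm.trans hμ, hν.trans isMob_invS,
      fun x => by simp [e, sqS_invS], by simp [h, invS_o0], by simp [h2, invS_infty]⟩
  · exact ⟨μ, ν, hμ, hν, e, h, h'.resolve_right fun e => hne (h.trans e.symm)⟩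

/-- Quadratic maps fixing the three orbifold points. -/
def Q3 (G : Sph → Sph) : Prop := NF G ∧ ∀ x ∈ B3, G x = x

lemma o0_mem : o0 ∈ B3 := Or.inl rfl
lemma o1_mem : o1 ∈ B3 := Or.inr (Or.inl rfl)
lemma infty_mem : ∞ ∈ B3 := Or.inr (Or.inr rfl)

lemma forall_B3 {P : Sph → Prop} (h0 : P o0) (h1 : P o1) (hi : P ∞) : ∀ x ∈ B3, P x := by
  rintro x (rfl | rfl | rfl) <;> assumption

lemma Q3.fix {G : Sph → Sph} (h : Q3 G) {x : Sph} (hx : G x = x) : x ∈ B3 := by
  obtain ⟨a, b, c, a', b', c', e⟩ := h.1.hq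
  have h1 := e (1, 0) (by simp)
  have h2 := e (0, 1) (by simp)
  have h3 := e (1, 1) (by simp)
  rw [pr_zero_right, h.2 _ infty_mem, eq_comm, pr_eq_infty_iff] at h1
  rw [pr_one_right, h.2 _ o0_mem, eq_comm, pr_eq_coe_iff h2.1] at h2
  rw [pr_one_right, h.2 _ o1_mem, eq_comm, pr_eq_coe_iff h3.1] at h3
  have e1 : a' = 0 := by simpa [qf] using h1.2
  have e2 : c = 0 := by simpa [qf] using h2.2
  subst e1 e2
  have e3 : a + b = b' + c' := by simpa [qf] using h3.2
  have ha : a ≠ 0 := by simpa [qf] using h1.1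
  have hab : a - b' ≠ 0 := fun h0 => (e (b, -a) (by simp [ha])).1 (by
    simp only [qf, Prod.mk_eq_zero]
    exact ⟨by ring, by linear_combination a * (a + b) * h0 - a ^ 2 * e3⟩)
  induction x using OnePoint.rec with
  | infty => exact infty_mem
  | coe z =>
    have h4 := e (z, 1) (by simp)
    rw [pr_one_right, hx, eq_comm, pr_eq_coe_iff h4.1] at h4
    have h5 : z * ((a - b') * (z - 1)) = 0 := by
      have := h4.2
      simp only [qf] at this
      linear_combination this - z * e3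
    rcases mul_eq_zero.1 h5 with h6 | h6
    · exact h6 ▸ o0_mem
    · exact sub_eq_zero.1 ((mul_eq_zero.1 h6).resolve_left hab) ▸ o1_mem

lemma cross_ratio {a b c d : Sph} (h : D3 a b c) (h1 : d ≠ a) (h2 : d ≠ c) :
    nrm c a d b = rho (nrm a b c d) := by
  obtain ⟨a, ha, rfl⟩ := pr_surj a
  obtain ⟨b, hb, rfl⟩ := pr_surj b
  obtain ⟨c, hc, rfl⟩ := pr_surj c
  obtain ⟨d, hd, rfl⟩ := pr_surj d
  have h3 : (dt d a * dt b c, dt d c * dt b a) ≠ (0 : ℂ × ℂ) :=
    ne_zero_iff.2 (Or.inl (mul_ne_zero (dt_ne hd ha h1) (dt_ne hb hc h.2.1)))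
  rw [nrm_pr hc ha hd hb, nrm_pr ha hb hc hd, rho, mob_pr _ _ _ _ h3,
    ← pr_mul (c := -1) (by simp) (dt b c * _)]
  congr 2 <;> simp only [dt] <;> ring

lemma IsMob.affine {M : Sph → Sph} (h : IsMob M) (hi : M ∞ = ∞) :
    ∃ a b : ℂ, a ≠ 0 ∧ ∀ z : ℂ, M z = ((a * z + b : ℂ) : Sph) := by
  obtain ⟨a, b, c, d, hd, rfl⟩ := h.eq_mob
  rw [mob_infty, pr_eq_infty_iff] at hi
  simp only at hi
  subst hi
  have h1 : a ≠ 0 ∧ d ≠ 0 := by simpa using hd
  refine ⟨a / d, b / d, div_ne_zero h1.1 h1.2, fun z => ?_⟩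
  rw [mob_coe, zero_mul, zero_add, pr_of_ne h1.2]; congr 1; ring

lemma nf_unique {μ ν μ' ν' : Sph ≃ₜ Sph} (hμ : IsMob μ) (hν : IsMob ν) (hμ' : IsMob μ')
    (hν' : IsMob ν') {w : Sph} (hw : w ∉ B3) (h1 : ν w = ∞) (h2 : ν' w = ∞) (h3 : μ ∞ = μ' ∞)
    (h4 : ∀ x ∈ B3, μ (sqS (ν x)) = μ' (sqS (ν' x))) (x : Sph) :
    μ (sqS (ν x)) = μ' (sqS (ν' x)) := by
  obtain ⟨a, b, -, hA⟩ := (hν'.symm.trans hν).affine (by
    rw [Homeomorph.trans_apply, ← h2, Homeomorph.symm_apply_apply, h2, h1])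
  obtain ⟨c, d, -, hB⟩ := (hμ.trans hμ'.symm).affine (by simp [h3])
  have key : ∀ x, x ≠ w → ∃ y : ℂ, ν' x = y ∧
      (μ (sqS (ν x)) = μ' (sqS (ν' x)) ↔ c * (a * y + b) ^ 2 + d = y ^ 2) := by
    intro x hx
    have h5 := coe_c0 (x := ν' x) fun e => hx (ν'.injective (e.trans h2.symm))
    refine ⟨_, h5.symm, ?_⟩
    have h6 := hA (c0 (ν' x))
    rw [h5, Homeomorph.trans_apply, Homeomorph.symm_apply_apply] at h6
    rw [← Homeomorph.symm_apply_eq, ← Homeomorph.trans_apply, h6, sqS_coe, hB]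
    nth_rewrite 2 [← h5]
    rw [sqS_coe, coe_eq_coe]
  obtain ⟨y₀, a0, b0⟩ := key o0 fun e => hw (e ▸ o0_mem)
  obtain ⟨y₁, a1, b1⟩ := key o1 fun e => hw (e ▸ o1_mem)
  obtain ⟨y₂, a2, b2⟩ := key ∞ fun e => hw (e ▸ infty_mem)
  have c0 := b0.1 (h4 _ o0_mem)
  have c1 := b1.1 (h4 _ o1_mem)
  have c2 := b2.1 (h4 _ infty_mem)
  have n01 : y₀ - y₁ ≠ 0 := sub_ne_zero.2 fun e => o0_ne_o1 (ν'.injective (by rw [a0, a1, e]))
  have n02 : y₀ - y₂ ≠ 0 := sub_ne_zero.2 fun e => o0_ne_infty (ν'.injective (by rw [a0, a2, e]))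
  have n12 : y₁ - y₂ ≠ 0 := sub_ne_zero.2 fun e => o1_ne_infty (ν'.injective (by rw [a1, a2, e]))
  have d1 : (c * a ^ 2 - 1) * (y₀ + y₁) + 2 * c * a * b = 0 :=
    mul_left_cancel₀ n01 (by linear_combination c0 - c1)
  have d2 : (c * a ^ 2 - 1) * (y₀ + y₂) + 2 * c * a * b = 0 :=
    mul_left_cancel₀ n02 (by linear_combination c0 - c2)
  have d3 : c * a ^ 2 - 1 = 0 := mul_left_cancel₀ n12 (by linear_combination d1 - d2)
  by_cases hx : x = w
  · rw [hx, h1, h2, sqS_infty, h3]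
  · obtain ⟨y, -, e⟩ := key x hx
    exact e.2 (by linear_combination c0 + (y - y₀) * d1 + (y - y₀) * (y - y₁) * d3)

/-- Coefficients of the family with critical point `w` and critical value `α`. -/
def kap (α w : ℂ) : ℂ := w * (w - 1) * (w - α) / (α * (1 - α))
/-- Coefficients of the family with critical point `w` and critical value `α`. -/
def xi (α w : ℂ) : ℂ := (w ^ 2 - 2 * α * w + α) / (2 * (w * (w - 1) * (w - α)))
/-- The outer Moebius map. -/
def Mo (α w : ℂ) : Sph → Sph :=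
  mob (α * kap α w) (1 - α * kap α w * xi α w ^ 2) (kap α w) (-(kap α w * xi α w ^ 2))
/-- The inner Moebius map. -/
def Mi (α w : ℂ) : Sph → Sph := mob (xi α w) (1 - xi α w * w) 1 (-w)

section fam
variable {α w : ℂ} (h0 : α ≠ 0) (h1 : α ≠ 1) (hw : w * (w - 1) * (w - α) ≠ 0)

include h0 h1 hw in
lemma kap_ne : kap α w ≠ 0 := div_ne_zero hw (mul_ne_zero h0 (sub_ne_zero.2 h1.symm))

include h0 h1 hw in
lemma Mo_det : α * kap α w * -(kap α w * xi α w ^ 2) -
    (1 - α * kap α w * xi α w ^ 2) * kap α w ≠ 0 := by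
  rw [show α * kap α w * -(kap α w * xi α w ^ 2) - (1 - α * kap α w * xi α w ^ 2) * kap α w =
    -kap α w by ring]
  exact neg_ne_zero.2 (kap_ne h0 h1 hw)

lemma Mi_det (α w : ℂ) : xi α w * -w - (1 - xi α w * w) * 1 ≠ 0 := by
  rw [show xi α w * -w - (1 - xi α w * w) * 1 = -1 by ring]; simp

lemma Mi_self (α w : ℂ) : Mi α w w = ∞ := by simp [Mi, mob_coe]

include h0 h1 hw in
lemma Mo_infty : Mo α w ∞ = α := by
  rw [Mo, mob_infty, pr_of_ne (kap_ne h0 h1 hw), mul_div_cancel_right₀ _ (kap_ne h0 h1 hw)]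

include h0 h1 hw in
lemma fam_fix : ∀ x ∈ B3, Mo α w (sqS (Mi α w x)) = x := by
  have h2 : 1 - α ≠ 0 := sub_ne_zero.2 h1.symm
  have w0 : w ≠ 0 := fun e => hw (by simp [e])
  have w1 : w - 1 ≠ 0 := fun e => hw (by simp [e])
  have w2 : w - α ≠ 0 := fun e => hw (by simp [e])
  have key : ∀ z : ℂ, α * kap α w * (1 + 2 * xi α w * (z - w)) + (z - w) ^ 2 =
      z * (kap α w * (1 + 2 * xi α w * (z - w))) → Mo α w (sqS (Mi α w z)) = z := by
    intro z e
    have a1 := lin_ne (Mi_det α w) (v := (z, 1)) (by simp)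
    rw [← pr_one_right, Mi, mob_pr _ _ _ _ (by simp), sqS_pr, Mo, mob_pr _ _ _ _ (sq_ne a1),
      pr_one_right, pr_eq_coe_iff (lin_ne (Mo_det h0 h1 hw) (sq_ne a1))]
    simp only
    linear_combination e
  refine forall_B3 (key 0 ?_) (key 1 ?_) ?_
  · unfold kap xi; field_simp; ring
  · unfold kap xi; field_simp; ring
  · simp [Mi, Mo, mob_infty, mob_coe]

include h0 h1 in
lemma finite_bad : {w : ℂ | w * (w - 1) * (w - α) = 0 ∨ Mo α w o0 ∈ B3}.Finite := by
  have h2 : 1 - α ≠ 0 := sub_ne_zero.2 h1.symm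
  let K : ℂ[X] := X * (X - 1) * (X - C α)
  let L : ℂ[X] := X ^ 2 - C (2 * α) * X + C α
  have hK : K ≠ 0 := mul_ne_zero (mul_ne_zero X_ne_zero (X_sub_C_ne_zero 1)) (X_sub_C_ne_zero α)
  have hP : L * (C α * L ^ 2 - C (4 * (α * (1 - α))) * K) *
      (C (α - 1) * L ^ 2 - C (4 * (α * (1 - α))) * K) ≠ 0 := fun h => by
    have := congrArg (Polynomial.eval 0) h
    simp [K, L, h0, sub_eq_zero, h1] at this
  refine ((finite_setOfPred_isRoot hK).union (finite_setOfPred_isRoot hP)).subset fun w hw => ?_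
  by_cases hw' : w * (w - 1) * (w - α) = 0
  · left; simpa [K] using hw'
  right
  have w0 : w ≠ 0 := fun e => hw' (by simp [e])
  have w1 : w - 1 ≠ 0 := fun e => hw' (by simp [e])
  have w2 : w - α ≠ 0 := fun e => hw' (by simp [e])
  have a1 := lin_ne (Mo_det h0 h1 hw') (v := (0, 1)) (by simp)
  have a2 := hw.resolve_left hw'
  rw [Mo, show o0 = pr (0, 1) by simp, mob_pr _ _ _ _ (by simp)] at a2
  simp only [mem_ofPred_eq, IsRoot.def, eval_mul, eval_sub, eval_C, eval_pow, eval_X, eval_add,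
    eval_one, K, L, mul_eq_zero]
  rcases a2 with a2 | a2 | a2
  · rw [pr_eq_coe_iff a1] at a2
    left; right
    simp only [kap, xi] at a2
    field_simp at a2
    linear_combination -a2
  · rw [pr_eq_coe_iff a1] at a2
    right
    simp only [kap, xi] at a2
    field_simp at a2
    linear_combination -a2
  · rw [mem_singleton_iff, pr_eq_infty_iff] at a2
    left; left
    simpa [kap_ne h0 h1 hw', xi, hw'] using a2

end fam

end

end Pool.Agent.Lib.MP_21db80_an
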