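import Mathlib

/-!
The Riemann mapping theorem for bounded simply connected domains.
-/

namespace Pool.Agent.Lib.MP_21db80_an

open Set Topology Function Filter Metric Complex ComplexConjugate

noncomputable section

/-- Local form of the Hurwitz theorem. -/
lemma hurwitz {ι : Type*} {l : Filter ι} [l.NeBot] {F : ι → ℂ → ℂ} {f : ℂ → ℂ} {U V : Set ℂ}
    (hU : IsOpen U) (hF : TendstoLocallyUniformlyOn F f l U)
    (hd : ∀ n, DifferentiableOn ℂ (F n) U) {z : ℂ} (hz : z ∈ U) (hV : V ∈ 𝓝 z)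
    (h0 : ∀ n, ∀ w ∈ V, w ∈ U → F n w ≠ 0) (hf : ¬ ∀ᶠ w in 𝓝 z, f w = 0) : f z ≠ 0 := by
  intro hfz
  have hfd : DifferentiableOn ℂ f U := hF.differentiableOn (.of_forall hd) hU
  have ha : AnalyticAt ℂ f z := hfd.analyticAt (hU.mem_nhds hz)
  have h1 := ha.eventually_eq_zero_or_eventually_ne_zero.resolve_left hf
  rw [eventually_nhdsWithin_iff] at h1
  obtain ⟨r, hr, hr'⟩ := nhds_basis_closedBall.eventually_iff.1 (h1.and (inter_mem hV
    (hU.mem_nhds hz)))
  have hsub : closedBall z r ⊆ U := fun w hw => (hr' hw).2.2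
  obtain ⟨w₀, hw₀, hmin⟩ := (isCompact_sphere z r).exists_isMinOn
    (NormedSpace.sphere_nonempty.2 hr.le)
    ((hfd.continuousOn.mono (sphere_subset_closedBall.trans hsub)).norm)
  have hη : 0 < ‖f w₀‖ := norm_pos_iff.2 ((hr' (sphere_subset_closedBall hw₀)).1 (by
    rintro rfl; simp at hw₀; exact hr.ne hw₀))
  have hu := (tendstoLocallyUniformlyOn_iff_forall_isCompact hU).1 hF _ hsub
    (isCompact_closedBall z r)
  obtain ⟨n, hn⟩ := (Metric.tendstoUniformlyOn_iff.1 hu (‖f w₀‖ / 2) (half_pos hη)).exists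
  have hne : ∀ w ∈ closedBall z r, F n w ≠ 0 := fun w hw => h0 n w (hr' hw).2.1 (hsub hw)
  have hdi : DiffContOnCl ℂ (fun w => (F n w)⁻¹) (ball z r) := by
    refine DifferentiableOn.diffContOnCl ?_
    rw [closure_ball z hr.ne']
    exact ((hd n).mono hsub).inv hne
  have h2 := norm_le_of_forall_mem_frontier_norm_le isBounded_ball hdi (C := (‖f w₀‖ / 2)⁻¹)
    (fun w hw => by
      rw [frontier_ball z hr.ne'] at hw
      rw [norm_inv]
      refine inv_anti₀ (half_pos hη) ?_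
      have a1 := hn w (sphere_subset_closedBall hw)
      have a2 : ‖f w₀‖ ≤ ‖f w‖ := hmin hw
      rw [dist_eq_norm] at a1
      have a3 := norm_sub_norm_le (f w) (F n w)
      linarith) (subset_closure (mem_ball_self hr))
  have a1 := hn z (mem_closedBall_self hr.le)
  rw [hfz, dist_zero_left] at a1
  rw [norm_inv, inv_le_inv₀ (norm_pos_iff.2 (hne z (mem_closedBall_self hr.le))) (half_pos hη)]
    at h2
  linarith

/-- Disc automorphisms. -/
def dmob (a w : ℂ) : ℂ := (w - a) / (1 - conj a * w)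

lemma dmob_den {a w : ℂ} (ha : ‖a‖ < 1) (hw : ‖w‖ < 1) : 1 - conj a * w ≠ 0 := by
  intro h
  have : ‖conj a * w‖ = 1 := by rw [show conj a * w = 1 by linear_combination -h]; simp
  rw [norm_mul, RCLike.norm_conj] at this
  nlinarith [norm_nonneg a, norm_nonneg w]

lemma norm_dmob {a w : ℂ} (ha : ‖a‖ < 1) (hw : ‖w‖ < 1) : ‖dmob a w‖ < 1 := by
  rw [dmob, norm_div, div_lt_one (norm_pos_iff.2 (dmob_den ha hw))]
  have e : ‖1 - conj a * w‖ ^ 2 - ‖w - a‖ ^ 2 = (1 - ‖a‖ ^ 2) * (1 - ‖w‖ ^ 2) := by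
    simp only [← Complex.normSq_eq_norm_sq, Complex.normSq_apply]
    simp; ring
  have h1 : 0 < (1 - ‖a‖ ^ 2) * (1 - ‖w‖ ^ 2) :=
    mul_pos (by nlinarith [norm_nonneg a]) (by nlinarith [norm_nonneg w])
  exact lt_of_pow_lt_pow_left₀ 2 (norm_nonneg _) (by linarith)

lemma dmob_inj {a w w' : ℂ} (ha : ‖a‖ < 1) (hw : ‖w‖ < 1) (hw' : ‖w'‖ < 1)
    (h : dmob a w = dmob a w') : w = w' := by
  rw [dmob, dmob, div_eq_div_iff (dmob_den ha hw) (dmob_den ha hw')] at h
  have : (1 - conj a * a) * (w - w') = 0 := by linear_combination h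
  exact sub_eq_zero.1 ((mul_eq_zero.1 this).resolve_left (dmob_den ha ha))

lemma hasDerivAt_dmob {a w : ℂ} (ha : ‖a‖ < 1) (hw : ‖w‖ < 1) :
    HasDerivAt (dmob a) ((1 - conj a * a) / (1 - conj a * w) ^ 2) w := by
  have h1 := ((hasDerivAt_id w).sub_const a).div (((hasDerivAt_id w).const_mul (conj a)).const_sub 1)
    (dmob_den ha hw)
  refine HasDerivAt.congr_deriv (f := dmob a) h1 ?_
  simp only [id]; ring

/-- The family used in the extremal problem. -/
def Fam (U : Set ℂ) (z₀ : ℂ) (f : ℂ → ℂ) : Prop :=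
  MapsTo f U (ball 0 1) ∧ InjOn f U ∧ (∀ z ∈ U, deriv f z ≠ 0) ∧ f z₀ = 0

lemma Fam.diff {U : Set ℂ} {z₀ : ℂ} {f : ℂ → ℂ} (h : Fam U z₀ f) : DifferentiableOn ℂ f U :=
  fun z hz => (differentiableAt_of_deriv_ne_zero (h.2.2.1 z hz)).differentiableWithinAt

lemma Fam.improve {U : Set ℂ} (hUo : IsOpen U) (hUc : IsSimplyConnected U) {z₀ : ℂ} (hz₀ : z₀ ∈ U)
    {f : ℂ → ℂ} (h : Fam U z₀ f) {a : ℂ} (ha : ‖a‖ < 1) (hfa : a ∉ f '' U) :
    ∃ k, Fam U z₀ k ∧ ‖deriv f z₀‖ < ‖deriv k z₀‖ := by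
  have hf1 : ∀ z ∈ U, ‖f z‖ < 1 := fun z hz => mem_ball_zero_iff.1 (h.1 hz)
  have hfd : ∀ z ∈ U, HasDerivAt f (deriv f z) z := fun z hz =>
    (differentiableAt_of_deriv_ne_zero (h.2.2.1 z hz)).hasDerivAt
  have hg : ∀ z ∈ U, HasDerivAt (fun z => dmob a (f z))
      ((1 - conj a * a) / (1 - conj a * f z) ^ 2 * deriv f z) z := fun z hz =>
    (hasDerivAt_dmob ha (hf1 z hz)).comp z (hfd z hz)
  have hg0 : ∀ z ∈ U, dmob a (f z) ≠ 0 := fun z hz =>
    div_ne_zero (sub_ne_zero.2 fun e => hfa ⟨z, hz, e⟩) (dmob_den ha (hf1 z hz))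
  obtain ⟨s, hsc, hs⟩ := exists_continuousOn_pow_eq hUc hUo
    (fun z hz => (hg z hz).continuousAt.continuousWithinAt)
    (by rintro ⟨z, hz, e⟩; exact hg0 z hz e) two_ne_zero
  have hs0 : ∀ z ∈ U, s z ≠ 0 := fun z hz e => hg0 z hz (by rw [← hs, e]; simp)
  have hs1 : ∀ z ∈ U, ‖s z‖ < 1 := fun z hz => by
    have := norm_dmob ha (hf1 z hz)
    rw [← hs, norm_pow] at this
    exact lt_of_pow_lt_pow_left₀ 2 zero_le_one (by simpa using this)
  have hsd : ∀ z ∈ U, HasDerivAt s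
      ((1 - conj a * a) / (1 - conj a * f z) ^ 2 * deriv f z / (2 * s z)) z := by
    intro z hz
    have hc : ContinuousAt s z := hsc.continuousAt (hUo.mem_nhds hz)
    rw [hasDerivAt_iff_tendsto_slope]
    have h1 := hasDerivAt_iff_tendsto_slope.1 (hg z hz)
    have h2 : Tendsto (fun w => s w + s z) (𝓝[≠] z) (𝓝 (2 * s z)) := by
      rw [two_mul]; exact (hc.tendsto.mono_left nhdsWithin_le_nhds).add_const _
    have h3 : (2 : ℂ) * s z ≠ 0 := mul_ne_zero two_ne_zero (hs0 z hz)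
    refine (h1.div h2 h3).congr' ?_
    filter_upwards [h2.eventually_ne h3] with w hw
    simp only [slope_def_field, Pi.div_apply, ← hs]
    field_simp
    ring
  set b := s z₀ with hb
  have hb1 := hs1 z₀ hz₀
  have hk : ∀ z ∈ U, HasDerivAt (fun z => dmob b (s z)) ((1 - conj b * b) / (1 - conj b * s z) ^ 2 *
      ((1 - conj a * a) / (1 - conj a * f z) ^ 2 * deriv f z / (2 * s z))) z := fun z hz =>
    (hasDerivAt_dmob hb1 (hs1 z hz)).comp z (hsd z hz)
  refine ⟨fun z => dmob b (s z), ⟨fun z hz => mem_ball_zero_iff.2 (norm_dmob hb1 (hs1 z hz)),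
    fun z hz w hw e => ?_, fun z hz => ?_, by simp [dmob, hb]⟩, ?_⟩
  · have e1 := dmob_inj hb1 (hs1 z hz) (hs1 w hw) e
    have e2 : dmob a (f z) = dmob a (f w) := by rw [← hs, ← hs, e1]
    exact h.2.1 hz hw (dmob_inj ha (hf1 z hz) (hf1 w hw) e2)
  · rw [(hk z hz).deriv]
    exact mul_ne_zero (div_ne_zero (dmob_den hb1 hb1) (pow_ne_zero _ (dmob_den hb1 (hs1 z hz))))
      (div_ne_zero (mul_ne_zero (div_ne_zero (dmob_den ha ha)
        (pow_ne_zero _ (dmob_den ha (hf1 z hz)))) (h.2.2.1 z hz))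
        (mul_ne_zero two_ne_zero (hs0 z hz)))
  · rw [(hk z₀ hz₀).deriv, ← hb, h.2.2.2]
    have e1 : a = -b ^ 2 := by
      have := hs z₀
      rw [h.2.2.2, ← hb] at this
      simp [dmob] at this
      linear_combination this
    have hb0 : 0 < ‖b‖ := norm_pos_iff.2 (hs0 z₀ hz₀)
    have e2 : conj b * b = ((‖b‖ ^ 2 : ℝ) : ℂ) := by
      rw [mul_comm, mul_conj, Complex.normSq_eq_norm_sq]
    have e3 : conj a * a = ((‖b‖ ^ 4 : ℝ) : ℂ) := by
      rw [mul_comm, mul_conj, Complex.normSq_eq_norm_sq, e1, norm_neg, norm_pow]; congr 1; ring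
    have hb2 : 0 < 1 - ‖b‖ ^ 2 := by nlinarith
    have hb4 : 0 < 1 - ‖b‖ ^ 4 := by nlinarith
    rw [e2, e3]
    simp only [norm_mul, norm_div, norm_pow, mul_zero, sub_zero, one_pow, div_one,
      Complex.norm_ofNat]
    rw [← Complex.ofReal_one, ← Complex.ofReal_sub, ← Complex.ofReal_sub, Complex.norm_real,
      Complex.norm_real, Real.norm_of_nonneg hb2.le, Real.norm_of_nonneg hb4.le]
    have hd : 0 < ‖deriv f z₀‖ := norm_pos_iff.2 (h.2.2.1 z₀ hz₀)
    have : (1 - ‖b‖ ^ 2) / (1 - ‖b‖ ^ 2) ^ 2 * ((1 - ‖b‖ ^ 4) * ‖deriv f z₀‖ / (2 * ‖b‖)) =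
        (1 + ‖b‖ ^ 2) / (2 * ‖b‖) * ‖deriv f z₀‖ := by field_simp; ring
    rw [this]
    refine lt_mul_of_one_lt_left hd ?_
    rw [one_lt_div (by positivity)]
    nlinarith

theorem riemann_mapping {U : Set ℂ} (hUo : IsOpen U) (hUc : IsSimplyConnected U)
    (hUb : Bornology.IsBounded U) : ∃ f : ℂ → ℂ, BijOn f U (ball 0 1) ∧
      ∀ z ∈ U, deriv f z ≠ 0 := by
  obtain ⟨z₀, hz₀⟩ := hUc.nonempty
  have hpc : IsPreconnected U := hUc.isPathConnected.isConnected.isPreconnected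
  obtain ⟨R, hR, hUR⟩ := hUb.subset_ball_lt 0 z₀
  have hne : Fam U z₀ fun z => (z - z₀) / R := by
    have hR' : (R : ℂ) ≠ 0 := ofReal_ne_zero.2 hR.ne'
    refine ⟨fun z hz => ?_, fun z _ w _ e => ?_, fun z _ => ?_, by simp⟩
    · have := hUR hz
      rw [mem_ball, dist_eq_norm] at this
      rw [mem_ball_zero_iff, norm_div, norm_real, Real.norm_of_nonneg hR.le, div_lt_one hR]
      exact this
    · simpa [hR'] using e
    · simp [hR']
  have lip : ∀ x ∈ U, ∃ r > 0, ball x r ⊆ U ∧ ∀ f, Fam U z₀ f →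
      (∀ y ∈ ball x r, dist (f y) (f x) ≤ 2 / r * dist y x) ∧ ‖deriv f x‖ ≤ 2 / r := by
    intro x hx
    obtain ⟨r, hr, hrU⟩ := Metric.isOpen_iff.1 hUo x hx
    refine ⟨r, hr, hrU, fun f hf => ?_⟩
    have hm : MapsTo f (ball x r) (closedBall (f x) 2) := fun y hy => by
      have a1 := mem_ball_zero_iff.1 (hf.1 (hrU hy))
      have a2 := mem_ball_zero_iff.1 (hf.1 hx)
      rw [mem_closedBall, dist_eq_norm]
      linarith [norm_sub_le (f y) (f x)]
    exact ⟨fun y hy => dist_le_div_mul_dist_of_mapsTo_ball (hf.diff.mono hrU) hm hy,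
      norm_deriv_le_div_of_mapsTo_ball (hf.diff.mono hrU) hm hr⟩
  let S : Set ℝ := {t | ∃ f, Fam U z₀ f ∧ ‖deriv f z₀‖ = t}
  have hS : S.Nonempty := ⟨_, _, hne, rfl⟩
  have hSb : BddAbove S := by
    obtain ⟨r, -, -, h⟩ := lip z₀ hz₀
    exact ⟨2 / r, by rintro _ ⟨f, hf, rfl⟩; exact (h f hf).2⟩
  obtain ⟨u, -, hu, huS⟩ := exists_seq_tendsto_sSup hS hSb
  choose F hF hFu using huS
  let l : Ultrafilter ℕ := Ultrafilter.of atTop
  have hl : (l : Filter ℕ) ≤ atTop := Ultrafilter.of_le _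
  have hlim : ∀ z, ∃ w, z ∈ U → w ∈ closedBall (0 : ℂ) 1 ∧ Tendsto (fun n => F n z) l (𝓝 w) := by
    intro z
    by_cases hz : z ∈ U
    · obtain ⟨w, hw, h⟩ := (isCompact_closedBall (0 : ℂ) 1).ultrafilter_le_nhds
        (l.map fun n => F n z) (by
          rw [Ultrafilter.coe_map, le_principal_iff, mem_map]
          exact univ_mem' fun n => ball_subset_closedBall ((hF n).1 hz))
      exact ⟨w, fun _ => ⟨hw, h⟩⟩
    · exact ⟨0, fun h => absurd h hz⟩
  choose f hf using hlim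
  have hloc : TendstoLocallyUniformlyOn F f l U := by
    rw [Metric.tendstoLocallyUniformlyOn_iff]
    intro ε hε x hx
    obtain ⟨r, hr, hrU, h⟩ := lip x hx
    refine ⟨ball x (min r (ε * r / 8)), mem_nhdsWithin_of_mem_nhds (ball_mem_nhds _
      (by positivity)), ?_⟩
    filter_upwards [Metric.tendsto_nhds.1 (hf x hx).2 (ε / 4) (by positivity)] with n hn y hy
    rw [mem_ball, lt_min_iff] at hy
    have a1 := (h _ (hF n)).1 y hy.1
    have a2 : dist (f y) (f x) ≤ 2 / r * dist y x :=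
      le_of_tendsto (((hf y (hrU hy.1)).2).dist (hf x hx).2)
        (.of_forall fun n => (h _ (hF n)).1 y hy.1)
    have a3 : 2 / r * dist y x ≤ ε / 4 := by
      calc 2 / r * dist y x ≤ 2 / r * (ε * r / 8) := by gcongr; exact hy.2.le
        _ = ε / 4 := by field_simp; ring
    linarith [dist_triangle4 (f y) (f x) (F n x) (F n y), dist_comm (F n x) (f x),
      dist_comm (F n y) (F n x)]
  have hFd : ∀ n, DifferentiableOn ℂ (F n) U := fun n => (hF n).diff
  have hfd : DifferentiableOn ℂ f U := hloc.differentiableOn (.of_forall hFd) hUo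
  have hder := hloc.deriv (.of_forall hFd) hUo
  have hsup : ‖deriv f z₀‖ = sSup S := by
    have a1 := (hder.tendsto_at hz₀).norm
    have a2 : Tendsto (fun n => ‖(deriv ∘ F) n z₀‖) l (𝓝 (sSup S)) := by
      simp only [Function.comp_apply, hFu]; exact hu.mono_left hl
    exact tendsto_nhds_unique a1 a2
  have hd0 : deriv f z₀ ≠ 0 := by
    rw [← norm_pos_iff, hsup]
    exact (norm_pos_iff.2 (hne.2.2.1 z₀ hz₀)).trans_le (le_csSup hSb ⟨_, hne, rfl⟩)
  have han := hfd.analyticOnNhd hUo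
  have hdne : ∀ z ∈ U, deriv f z ≠ 0 := fun z hz =>
    hurwitz hUo hder (fun n => ((hFd n).analyticOnNhd hUo).deriv.differentiableOn) hz univ_mem
      (fun n w _ hw => (hF n).2.2.1 w hw) fun h =>
        hd0 (han.deriv.eqOn_zero_of_preconnected_of_eventuallyEq_zero hpc hz h hz₀)
  have hnc : ∀ z ∈ U, ∀ c, ¬ ∀ᶠ w in 𝓝 z, f w = c := fun z hz c h =>
    hdne z hz (by rw [EventuallyEq.deriv_eq (f := fun _ => c) h]; simp)
  have hfam : Fam U z₀ f := by
    refine ⟨fun z hz => ?_, fun z hz w hw e => ?_, hdne, ?_⟩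
    · rw [mem_ball_zero_iff]
      by_contra h1
      refine hnc z hz _ (eventually_eq_of_isLocalMax_norm (f := f) ?_ ?_)
      · filter_upwards [hUo.mem_nhds hz] with w hw using hfd.differentiableAt (hUo.mem_nhds hw)
      · filter_upwards [hUo.mem_nhds hz] with w hw
        exact (mem_closedBall_zero_iff.1 (hf w hw).1).trans (not_lt.1 h1)
    · by_contra hzw
      have hc : TendstoLocallyUniformlyOn (fun n y => F n y - F n w) (fun y => f y - f w) l U :=
        hloc.sub ((hf w hw).2.tendstoUniformlyOn_const U).tendstoLocallyUniformlyOn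
      refine hurwitz hUo hc (fun n => (hFd n).sub_const _) hz (isOpen_ne.mem_nhds hzw)
        (fun n y hy hyU e => hy ((hF n).2.1 hyU hw (sub_eq_zero.1 e))) (fun h => ?_)
        (sub_eq_zero.2 e)
      exact hnc z hz (f w) (h.mono fun y hy => sub_eq_zero.1 hy)
    · refine tendsto_nhds_unique (hf z₀ hz₀).2 ?_
      simp only [fun n => (hF n).2.2.2]
      exact tendsto_const_nhds
  refine ⟨f, ⟨hfam.1, hfam.2.1, fun a ha => ?_⟩, hdne⟩
  by_contra hfa
  obtain ⟨k, hk, hlt⟩ := hfam.improve hUo hUc hz₀ (mem_ball_zero_iff.1 ha) hfa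
  rw [hsup] at hlt
  exact hlt.not_ge (le_csSup hSb ⟨k, hk, rfl⟩)

end

end Pool.Agent.Lib.MP_21db80_an
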