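import Pool.Agent.Lib.MP_21db80_an.Anal

/-!
The orbifold covering of the sphere by the plane with signature (2,4,4).
-/

namespace Pool.Agent.Lib.MP_21db80_an

open OnePoint Set Topology Function Filter Metric Complex

noncomputable section

/-- The square lattice. -/
def L0 : PeriodPair := ⟨1, I, by
  rw [LinearIndependent.pair_iff]
  intro s t h
  have h1 := congrArg re h
  have h2 := congrArg im h
  simp at h1 h2
  exact ⟨h1, h2⟩⟩

/-- The Gaussian integers. -/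
abbrev Lam : Submodule ℤ ℂ := L0.lattice

lemma mem_Lam {z : ℂ} : z ∈ Lam ↔ ∃ m n : ℤ, z = m + n * I := by
  rw [PeriodPair.mem_lattice]
  simp [L0, eq_comm]

lemma Lam_mul {z w : ℂ} (hz : z ∈ Lam) (hw : w ∈ Lam) : z * w ∈ Lam := by
  obtain ⟨a, b, rfl⟩ := mem_Lam.1 hz
  obtain ⟨c, d, rfl⟩ := mem_Lam.1 hw
  exact mem_Lam.2 ⟨a * c - b * d, a * d + b * c, by push_cast; linear_combination b * d * I_sq⟩

lemma one_mem_Lam : (1 : ℂ) ∈ Lam := mem_Lam.2 ⟨1, 0, by simp⟩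
lemma I_mem_Lam : I ∈ Lam := mem_Lam.2 ⟨0, 1, by simp⟩

lemma root4 {k : ℂ} (h : k ^ 4 = 1) : k = 1 ∨ k = -1 ∨ k = I ∨ k = -I := by
  have : (k - 1) * ((k + 1) * ((k - I) * (k + I))) = 0 := by
    linear_combination h - (k ^ 2 - 1) * I_sq
  simpa [sub_eq_zero, add_eq_zero_iff_eq_neg] using this

lemma root4_mem {k : ℂ} (h : k ^ 4 = 1) : k ∈ Lam := by
  rcases root4 h with rfl | rfl | rfl | rfl
  exacts [one_mem_Lam, neg_mem one_mem_Lam, I_mem_Lam, neg_mem I_mem_Lam]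

lemma root4_norm {k : ℂ} (h : k ^ 4 = 1) : ‖k‖ = 1 := by
  rcases root4 h with rfl | rfl | rfl | rfl <;> simp

lemma root4_two {k : ℂ} (h : k ^ 4 = 1) (h1 : k ≠ 1) : ∃ j ∈ Lam, j * (1 - k) = 2 := by
  rcases root4 h with rfl | rfl | rfl | rfl
  · exact absurd rfl h1
  · exact ⟨1, one_mem_Lam, by norm_num⟩
  · exact ⟨1 + I, add_mem one_mem_Lam I_mem_Lam, by linear_combination -I_sq⟩
  · exact ⟨1 - I, sub_mem one_mem_Lam I_mem_Lam, by linear_combination -I_sq⟩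

lemma Lam_norm {l : ℂ} (hl : l ∈ Lam) (h : ‖l‖ < 1) : l = 0 := by
  obtain ⟨m, n, rfl⟩ := mem_Lam.1 hl
  have h1 := (abs_re_le_norm _).trans_lt h
  have h2 := (abs_im_le_norm _).trans_lt h
  simp only [add_re, intCast_re, mul_re, I_re, mul_zero, intCast_im, I_im, mul_one, sub_self,
    add_zero, add_im, mul_im, zero_add] at h1 h2
  have h3 : |m| < 1 := by exact_mod_cast h1
  have h4 : |n| < 1 := by exact_mod_cast h2
  rw [Int.abs_lt_one_iff] at h3 h4
  simp [h3, h4]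

lemma exists_Lam_near (z : ℂ) : ∃ l ∈ Lam, ‖z - l‖ ≤ 1 := by
  refine ⟨round z.re + round z.im * I, mem_Lam.2 ⟨_, _, rfl⟩, (norm_le_abs_re_add_abs_im _).trans ?_⟩
  have h1 := abs_sub_round z.re
  have h2 := abs_sub_round z.im
  simp only [sub_re, add_re, intCast_re, mul_re, I_re, mul_zero, intCast_im, I_im, mul_one,
    sub_self, add_zero, sub_im, add_im, mul_im, zero_add]
  linarith

lemma countable_Lam : (Lam : Set ℂ).Countable :=
  (countable_range fun p : ℤ × ℤ => (p.1 + p.2 * I : ℂ)).mono fun z hz => by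
    obtain ⟨m, n, rfl⟩ := mem_Lam.1 hz
    exact ⟨(m, n), rfl⟩

/-- Multiplication by `I` on the lattice. -/
def rotL : Lam ≃ Lam where
  toFun l := ⟨I * l, Lam_mul I_mem_Lam l.2⟩
  invFun l := ⟨-I * l, Lam_mul (neg_mem I_mem_Lam) l.2⟩
  left_inv l := Subtype.ext (by simp only; linear_combination -(l : ℂ) * I_sq)
  right_inv l := Subtype.ext (by simp only; linear_combination -(l : ℂ) * I_sq)

/-- The Weierstrass function of the square lattice. -/
abbrev wP : ℂ → ℂ := L0.weierstrassP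

lemma wP_I (z : ℂ) : wP (I * z) = -wP z := by
  simp only [wP, PeriodPair.weierstrassP]
  rw [← rotL.tsum_eq, ← tsum_neg]
  congr with l
  simp only [rotL, Equiv.coe_fn_mk]
  rw [← mul_sub, mul_pow, mul_pow, I_sq, neg_one_mul, neg_one_mul, div_neg, div_neg]
  ring

lemma g3_zero : L0.g₃ = 0 := by
  have : L0.G 6 = 0 := by
    rw [← CharZero.eq_neg_self_iff, PeriodPair.G, ← tsum_neg, ← rotL.tsum_eq]
    congr with l
    simp only [rotL, Equiv.coe_fn_mk]
    rw [mul_pow, show I ^ 6 = -1 by linear_combination (I ^ 4 - I ^ 2 + 1) * I_sq]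
    simp
  simp [PeriodPair.g₃, this]

open Classical in
/-- The Weierstrass function as a map to the sphere. -/
def wp (z : ℂ) : Sph := if z ∈ Lam then ∞ else (wP z : Sph)

lemma wp_of_mem {z : ℂ} (h : z ∈ Lam) : wp z = ∞ := if_pos h
lemma wp_of_not {z : ℂ} (h : z ∉ Lam) : wp z = wP z := if_neg h
lemma wp_eq_infty {z : ℂ} : wp z = ∞ ↔ z ∈ Lam :=
  ⟨fun h => by by_contra h'; exact coe_ne_infty _ ((wp_of_not h').symm.trans h), wp_of_mem⟩

lemma ev_not_Lam {z : ℂ} (h : z ∉ Lam) : ∀ᶠ w in 𝓝 z, w ∉ Lam :=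
  L0.isClosed_lattice.isOpen_compl.mem_nhds h

lemma an_wP {z : ℂ} (h : z ∉ Lam) : AnalyticAt ℂ wP z := L0.analyticOnNhd_weierstrassP z h

lemma anS_wp (z : ℂ) : AnS wp z := by
  by_cases h : z ∈ Lam
  · refine ⟨fun w => ((w - z) ^ 2 * L0.weierstrassPExcept z w + 1 - (w - z) ^ 2 / z ^ 2,
      (w - z) ^ 2), AnalyticAt.prod (by fun_prop) (by fun_prop), by simp, ?_⟩
    filter_upwards [L0.compl_lattice_sdiff_singleton_mem_nhds z] with w hw
    by_cases hwz : w = z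
    · simp [hwz, wp_of_mem h]
    · have h1 := L0.ite_eq_one_sub_sq_mul_weierstrassP z h w
      rw [if_neg hwz] at h1
      have h2 : (w - z) ^ 2 ≠ 0 := pow_ne_zero 2 (sub_ne_zero.2 hwz)
      rw [← h1, wp_of_not fun h' => hw ⟨h', hwz⟩, pr_of_ne h2, mul_div_cancel_left₀ _ h2]
  · refine ⟨fun w => (wP w, 1), (an_wP h).prod analyticAt_const, by simp, ?_⟩
    filter_upwards [ev_not_Lam h] with w hw
    simp [wp_of_not hw]

lemma half_not_mem : (1 / 2 : ℂ) ∉ Lam := L0.ω₁_div_two_notMem_lattice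

lemma wp_nc (z : ℂ) (y : Sph) : ¬ ∀ᶠ w in 𝓝 z, wp w = y := fun h => by
  have h1 := AnS.eq_of_eventually anS_wp (anS_const y) h
  exact half_not_mem (wp_eq_infty.1 ((h1 _).trans ((h1 0).symm.trans (wp_of_mem (zero_mem _)))))

lemma wp_add {l : ℂ} (hl : l ∈ Lam) (z : ℂ) : wp (z + l) = wp z := by
  by_cases h : z ∈ Lam
  · rw [wp_of_mem h, wp_of_mem (add_mem h hl)]
  · rw [wp_of_not h, wp_of_not fun h' => h (by simpa using sub_mem h' hl)]
    exact congrArg _ (L0.weierstrassP_add_coe z ⟨l, hl⟩)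

lemma continuous_wp : Continuous wp := continuous_iff_continuousAt.2 fun z => (anS_wp z).continuousAt

lemma isOpenMap_wp : IsOpenMap wp :=
  isOpenMap_iff_nhds_le.2 fun z => (anS_wp z).nhds_le (wp_nc z _)

lemma wp_surj : Surjective wp := by
  have h1 : range wp = wp '' closedBall 0 1 := by
    refine (image_subset_range _ _).antisymm' ?_
    rintro _ ⟨z, rfl⟩
    obtain ⟨l, hl, h⟩ := exists_Lam_near z
    exact ⟨z - l, by simpa using h, by rw [← wp_add hl]; simp⟩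
  have h2 : IsClopen (range wp) :=
    ⟨h1 ▸ ((isCompact_closedBall _ _).image continuous_wp).isClosed, isOpenMap_wp.isOpen_range⟩
  exact range_eq_univ.1 (h2.eq_univ (range_nonempty _))

lemma wP_ode {z : ℂ} (h : z ∉ Lam) : deriv wP z ^ 2 = 4 * wP z ^ 3 - L0.g₂ * wP z := by
  have := L0.derivWeierstrassP_sq z h
  rwa [g3_zero, sub_zero, ← PeriodPair.deriv_weierstrassP] at this

lemma const_of_deriv {f : ℂ → ℂ} {z : ℂ} (hf : AnalyticAt ℂ f z) (h : ∀ᶠ w in 𝓝 z, deriv f w = 0) :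
    ∀ᶠ w in 𝓝 z, f w = f z := by
  have h1 : analyticOrderAt (deriv f) z = ⊤ := analyticOrderAt_eq_top.2 h
  have h2 := hf.analyticOrderAt_deriv_add_one
  rw [h1, top_add] at h2
  exact (analyticOrderAt_eq_top.1 h2.symm).mono fun w hw => sub_eq_zero.1 hw

/-- Germs of solutions of the differential equation of `wP`. -/
def Sol (f : ℂ → ℂ) : Prop := AnalyticAt ℂ f 0 ∧
  (∀ᶠ z in 𝓝 0, deriv f z ^ 2 = 4 * f z ^ 3 - L0.g₂ * f z) ∧ ¬ ∀ᶠ z in 𝓝 0, f z = f 0

lemma Sol.eq {f g : ℂ → ℂ} (hf : Sol f) (hg : Sol g) (e0 : f 0 = g 0)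
    (e1 : deriv f 0 = deriv g 0) : ∀ᶠ z in 𝓝 0, f z = g z :=
  ode_unique hf.1 hg.1
    (ode_second (b := 0) hf.1 (by simpa using hf.2.1) fun h => hf.2.2 (const_of_deriv hf.1 h))
    (ode_second (b := 0) hg.1 (by simpa using hg.2.1) fun h => hg.2.2 (const_of_deriv hg.1 h)) e0 e1

lemma hasDerivAt_shift {z k s : ℂ} (h : z + k * s ∉ Lam) :
    HasDerivAt (fun s => wP (z + k * s)) (deriv wP (z + k * s) * k) s := by
  have h1 : HasDerivAt (fun s => z + k * s) k s := by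
    simpa using ((hasDerivAt_id s).const_mul k).const_add z
  exact (an_wP h).differentiableAt.hasDerivAt.comp s h1

lemma ev_shift {z : ℂ} (h : z ∉ Lam) (k : ℂ) : ∀ᶠ s in 𝓝 0, z + k * s ∉ Lam := by
  have : Tendsto (fun s => z + k * s) (𝓝 0) (𝓝 z) :=
    Continuous.tendsto' (by fun_prop) _ _ (by simp)
  exact this.eventually (ev_not_Lam h)

lemma sol_shift {z k : ℂ} (h : z ∉ Lam) (hk : k ^ 2 = 1) : Sol fun s => wP (z + k * s) := by
  have hk0 : k ≠ 0 := by rintro rfl; simp at hk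
  refine ⟨(an_wP h).comp_of_eq (by fun_prop) (by simp), ?_, fun h' => ?_⟩
  · filter_upwards [ev_shift h k] with s hs
    rw [(hasDerivAt_shift hs).deriv, mul_pow, hk, mul_one, wP_ode hs]
  · apply wp_nc z (wP z)
    have h1 : Tendsto (fun w => (w - z) / k) (𝓝 z) (𝓝 0) :=
      Continuous.tendsto' (by fun_prop) _ _ (by simp)
    filter_upwards [h1.eventually h', ev_not_Lam h] with w a1 a2
    rw [mul_div_cancel₀ _ hk0, add_sub_cancel, mul_zero, add_zero] at a1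
    rw [wp_of_not a2, a1]

lemma exists_sign {z : ℂ} (h : z ∉ Lam) {f : ℂ → ℂ} (hf : Sol f) (e : wP z = f 0) :
    ∃ k : ℂ, k ^ 2 = 1 ∧ ∀ᶠ s in 𝓝 0, wP (z + k * s) = f s := by
  have h1 : deriv wP z ^ 2 = deriv f 0 ^ 2 := by rw [wP_ode h, hf.2.1.self_of_nhds, e]
  have h2 : ∀ k : ℂ, deriv (fun s => wP (z + k * s)) 0 = deriv wP z * k := fun k => by
    simpa using (hasDerivAt_shift (z := z) (k := k) (s := 0) (by simpa using h)).deriv
  rcases sq_eq_sq_iff_eq_or_eq_neg.1 h1 with h3 | h3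
  · exact ⟨1, by simp, (sol_shift h (by simp)).eq hf (by simpa using e) (by rw [h2, h3]; simp)⟩
  · exact ⟨-1, by simp, (sol_shift h (by simp)).eq hf (by simpa using e) (by rw [h2, h3]; simp)⟩

lemma wp_fibre {z z' : ℂ} (e : wp z = wp z') : ∃ k : ℂ, k ^ 2 = 1 ∧ z' - k * z ∈ Lam := by
  by_cases h : z ∈ Lam
  · exact ⟨1, by simp, sub_mem (wp_eq_infty.1 (e.symm.trans (wp_of_mem h))) (by simpa using h)⟩
  have h' : z' ∉ Lam := fun h' => h (wp_eq_infty.1 (e.trans (wp_of_mem h')))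
  rw [wp_of_not h, wp_of_not h'] at e
  obtain ⟨k, hk, h1⟩ := exists_sign h' (sol_shift h (k := 1) (by simp))
    (by simpa using (coe_injective e).symm)
  have h2 := AnS.eq_of_eventually (F := fun s => wp (z' + k * s)) (F' := fun s => wp (z + 1 * s))
    (fun s => (anS_wp _).comp (g := fun s => z' + k * s) (by fun_prop))
    (fun s => (anS_wp _).comp (g := fun s => z + 1 * s) (by fun_prop)) (z₀ := 0) (by
      filter_upwards [h1, ev_shift h 1, ev_shift h' k] with s a1 a2 a3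
      rw [wp_of_not a2, wp_of_not a3, a1]) (-z)
  refine ⟨k, hk, wp_eq_infty.1 ?_⟩
  simp only [one_mul, add_neg_cancel, wp_of_mem (zero_mem _)] at h2
  rwa [mul_neg, ← sub_eq_add_neg] at h2

lemma deriv_wP_half {z : ℂ} (h : 2 * z ∈ Lam) : deriv wP z = 0 := by
  have h1 := L0.derivWeierstrassP_add_coe (-z) ⟨_, h⟩
  rw [PeriodPair.derivWeierstrassP_neg, show -z + ((⟨2 * z, h⟩ : Lam) : ℂ) = z by simp; ring] at h1
  rw [PeriodPair.deriv_weierstrassP]
  exact CharZero.eq_neg_self_iff.1 h1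

lemma g2_ne : L0.g₂ ≠ 0 := by
  intro h0
  have n1 : I / 2 ∉ Lam := L0.ω₂_div_two_notMem_lattice
  have key : ∀ z, z ∉ Lam → 2 * z ∈ Lam → wp z = o0 := fun z h h2 => by
    have := wP_ode h
    rw [deriv_wP_half h2, h0] at this
    have h3 : wP z ^ 3 = 0 := by linear_combination -this / 4
    rw [wp_of_not h, pow_eq_zero_iff (by norm_num) |>.1 h3]
  obtain ⟨k, hk, h⟩ := wp_fibre ((key _ half_not_mem (by simpa using one_mem_Lam)).trans
    (key _ n1 (by rw [mul_div_cancel₀ _ two_ne_zero]; exact I_mem_Lam)).symm)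
  have h1 := Lam_norm h (by
    rcases sq_eq_one_iff.1 hk with rfl | rfl <;>
    · rw [← sq_lt_one_iff₀ (norm_nonneg _), ← Complex.normSq_eq_norm_sq, normSq_apply]
      simp; norm_num)
  have h2 := congrArg im h1
  rcases sq_eq_one_iff.1 hk with rfl | rfl <;> simp at h2

/-- The constant with `wP' ^ 2 = 4 wP (wP ^ 2 - aa)`. -/
def aa : ℂ := L0.g₂ / 4

lemma aa_ne : aa ≠ 0 := div_ne_zero g2_ne (by norm_num)

lemma isMob_nu : IsMob (mob (-1) aa 0 aa) := isMob_mob (by simpa using aa_ne)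

/-- The orbifold covering. -/
def pw (z : ℂ) : Sph := mob (-1) aa 0 aa (sqS (wp z))

/-- The three orbifold points. -/
def B3 : Set Sph := {o0, o1, ∞}

lemma finite_B3 : B3.Finite := by unfold B3; exact toFinite _

/-- The involution exchanging `1` and infinity and fixing `0`. -/
def rho : Sph → Sph := mob 1 0 1 (-1)

lemma isMob_rho : IsMob rho := isMob_mob (by simp)

lemma anS_pw (z : ℂ) : AnS pw z := (anS_wp z).sq.mob isMob_nu

lemma continuous_pw : Continuous pw := continuous_iff_continuousAt.2 fun z => (anS_pw z).continuousAt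

lemma sqS_surj : Surjective sqS := fun y => by
  induction y using OnePoint.rec with
  | infty => exact ⟨∞, rfl⟩
  | coe w =>
    obtain ⟨z, hz⟩ := IsAlgClosed.exists_pow_nat_eq w two_pos
    exact ⟨z, by simp [hz]⟩

lemma pw_surj : Surjective pw := isMob_nu.surjective.comp (sqS_surj.comp wp_surj)

lemma pw_of_mem {z : ℂ} (h : z ∈ Lam) : pw z = ∞ := by
  simp [pw, wp_of_mem h, mob_infty]

lemma pw_of_not {z : ℂ} (h : z ∉ Lam) : pw z = ((1 - wP z ^ 2 / aa : ℂ) : Sph) := by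
  rw [pw, wp_of_not h, sqS_coe, mob_coe, zero_mul, zero_add, pr_of_ne aa_ne]
  congr 1; field_simp [aa_ne]; ring

lemma pw_eq_infty {z : ℂ} : pw z = ∞ ↔ z ∈ Lam :=
  ⟨fun h => by by_contra h'; exact coe_ne_infty _ ((pw_of_not h').symm.trans h), pw_of_mem⟩

lemma mem_Lam_I {z : ℂ} : I * z ∈ Lam ↔ z ∈ Lam :=
  ⟨fun h => by
    have := Lam_mul (neg_mem I_mem_Lam) h
    rwa [show -I * (I * z) = z by linear_combination -z * I_sq] at this, Lam_mul I_mem_Lam⟩

lemma pw_I (z : ℂ) : pw (I * z) = pw z := by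
  by_cases h : z ∈ Lam
  · rw [pw_of_mem h, pw_of_mem (mem_Lam_I.2 h)]
  · rw [pw_of_not h, pw_of_not (mem_Lam_I.not.2 h), wP_I, neg_sq]

lemma pw_add {l : ℂ} (hl : l ∈ Lam) (z : ℂ) : pw (z + l) = pw z := by rw [pw, wp_add hl, pw]

lemma pw_root {k : ℂ} (hk : k ^ 4 = 1) (z : ℂ) : pw (k * z) = pw z := by
  have h2 : ∀ z, pw (-z) = pw z := fun z => by
    rw [← pw_I z, ← pw_I (I * z)]; congr 1; linear_combination -z * I_sq
  rcases root4 hk with rfl | rfl | rfl | rfl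
  · simp
  · simpa using h2 z
  · exact pw_I z
  · rw [neg_mul, h2, pw_I]

lemma pw_orb {k l : ℂ} (hk : k ^ 4 = 1) (hl : l ∈ Lam) (z : ℂ) : pw (k * z + l) = pw z := by
  rw [pw_add hl, pw_root hk]

lemma pw_fibre {z z' : ℂ} (e : pw z = pw z') :
    ∃ k l : ℂ, k ^ 4 = 1 ∧ l ∈ Lam ∧ z' = k * z + l := by
  by_cases h : z ∈ Lam
  · exact ⟨1, z' - z, by simp, sub_mem (pw_eq_infty.1 (e.symm.trans (pw_of_mem h))) h, by ring⟩
  have h' : z' ∉ Lam := fun h' => h (pw_eq_infty.1 (e.trans (pw_of_mem h')))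
  rw [pw_of_not h, pw_of_not h'] at e
  have e1 : wP z ^ 2 = wP z' ^ 2 := by
    have := coe_injective e
    field_simp [aa_ne] at this
    linear_combination -this
  rcases sq_eq_sq_iff_eq_or_eq_neg.1 e1 with e2 | e2
  · obtain ⟨k, hk, hl⟩ := wp_fibre (z := z) (z' := z') (by rw [wp_of_not h, wp_of_not h', e2])
    exact ⟨k, _, by linear_combination (k ^ 2 + 1) * hk, hl, by ring⟩
  · obtain ⟨k, hk, hl⟩ := wp_fibre (z := I * z) (z' := z')
      (by rw [wp_of_not (mem_Lam_I.not.2 h), wp_of_not h', wP_I, e2, neg_neg])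
    exact ⟨k * I, _, by linear_combination (k ^ 2 + 1) * hk + k ^ 4 * (I ^ 2 - 1) * I_sq, hl,
      by ring⟩

lemma pw_half {z : ℂ} (h : 2 * z ∈ Lam) : pw z ∈ B3 := by
  by_cases hz : z ∈ Lam
  · simp [B3, pw_of_mem hz]
  have h1 := wP_ode hz
  rw [deriv_wP_half h] at h1
  have h2 : wP z * (wP z ^ 2 - aa) = 0 := by unfold aa; linear_combination -h1 / 4
  rw [pw_of_not hz]
  rcases mul_eq_zero.1 h2 with h3 | h3
  · right; left; simp [h3]
  · left; rw [sub_eq_zero.1 h3, div_self aa_ne]; simp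

lemma pw_nc (z : ℂ) (y : Sph) : ¬ ∀ᶠ w in 𝓝 z, pw w = y := fun h => by
  have h1 := AnS.eq_of_eventually anS_pw (anS_const y) h
  exact half_not_mem (pw_eq_infty.1 ((h1 _).trans ((h1 0).symm.trans (pw_of_mem (zero_mem _)))))

lemma isOpenMap_pw : IsOpenMap pw :=
  isOpenMap_iff_nhds_le.2 fun z => (anS_pw z).nhds_le (pw_nc z _)

lemma exists_d : ∃ d : ℂ, d ∉ Lam ∧ ∀ z, pw (z + d) = rho (pw z) := by
  obtain ⟨s₀, hs₀⟩ := wp_surj o1
  have h : s₀ ∉ Lam := fun h => o1_ne_infty (hs₀.symm.trans (wp_of_mem h))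
  have e0 : wP s₀ = 1 := coe_injective ((wp_of_not h).symm.trans hs₀)
  have f1 := sol_shift h (k := 1) (by simp)
  have hne : ∀ᶠ s in 𝓝 0, wP (s₀ + 1 * s) ≠ 0 :=
    f1.1.continuousAt.eventually_ne (by simp [e0])
  have hg : Sol fun s => -aa / wP (s₀ + 1 * s) := by
    refine ⟨analyticAt_const.div f1.1 hne.self_of_nhds, ?_, fun h' => f1.2.2 ?_⟩
    · filter_upwards [hne, ev_shift h 1] with s a1 a2
      rw [((hasDerivAt_const s (-aa)).fun_div (hasDerivAt_shift a2) a1).deriv]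
      have a3 := wP_ode a2
      rw [show L0.g₂ = 4 * aa by unfold aa; ring] at a3 ⊢
      generalize wP (s₀ + 1 * s) = x at a1 a3 ⊢
      generalize deriv wP (s₀ + 1 * s) = y at a3 ⊢
      field_simp
      linear_combination aa ^ 2 * a3
    · filter_upwards [h', hne] with s a1 a2
      rw [div_eq_div_iff a2 hne.self_of_nhds] at a1
      exact (mul_left_cancel₀ (neg_ne_zero.2 aa_ne) a1).symm
  obtain ⟨z₁, hz₁⟩ := wp_surj ((-aa / wP (s₀ + 1 * 0) : ℂ) : Sph)
  have h1 : z₁ ∉ Lam := fun h => coe_ne_infty _ (hz₁.symm.trans (wp_of_mem h))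
  obtain ⟨k, hk, h2⟩ := exists_sign h1 hg (coe_injective ((wp_of_not h1).symm.trans hz₁))
  have hm : IsMob (mob 0 (-aa) 1 0) := isMob_mob (by simpa using aa_ne)
  have h3 := AnS.eq_of_eventually (F := fun s => wp (z₁ + k * s))
    (F' := fun s => mob 0 (-aa) 1 0 (wp (s₀ + 1 * s)))
    (fun s => (anS_wp _).comp (g := fun s => z₁ + k * s) (by fun_prop))
    (fun s => ((anS_wp _).comp (g := fun s => s₀ + 1 * s) (by fun_prop)).mob hm) (z₀ := 0) (by
      filter_upwards [h2, ev_shift h 1, ev_shift h1 k, hne] with s a1 a2 a3 a4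
      rw [wp_of_not a2, wp_of_not a3, a1, mob_coe, zero_mul, zero_add, one_mul (wP _), add_zero,
        pr_of_ne a4])
  have hk4 : k ^ 4 = 1 := by linear_combination (k ^ 2 + 1) * hk
  have key : ∀ z, pw (z + (k * z₁ - s₀)) = rho (pw z) := by
    intro z
    have h4 := h3 (z - s₀)
    simp only [one_mul, add_sub_cancel] at h4
    rw [← pw_root hk4, show k * (z + (k * z₁ - s₀)) = z₁ + k * (z - s₀) by
      linear_combination z₁ * hk, pw, h4, pw, rho]
    obtain ⟨v, hv, e⟩ := pr_surj (wp z)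
    have hd : (0 : ℂ) * 0 - -aa * 1 ≠ 0 := by simpa using aa_ne
    have hd' : -1 * aa - aa * 0 ≠ 0 := by simpa using aa_ne
    rw [← e, mob_pr _ _ _ _ hv, sqS_pr, sqS_pr, mob_pr _ _ _ _ (sq_ne (lin_ne hd hv)),
      mob_pr _ _ _ _ (sq_ne hv), mob_pr _ _ _ _ (lin_ne hd' (sq_ne hv)),
      ← pr_mul (neg_ne_zero.2 aa_ne) (1 * _ + _)]
    congr 2 <;> ring
  refine ⟨_, fun hd => ?_, key⟩
  have := key 0
  rw [zero_add, pw_of_mem hd, pw_of_mem (zero_mem _), rho, mob_infty] at this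
  simp at this

/-- The deck group. -/
def Gam : Subgroup (Equiv.Perm ℂ) where
  carrier := {g | ∃ k l : ℂ, k ^ 4 = 1 ∧ l ∈ Lam ∧ ∀ z, g z = k * z + l}
  mul_mem' := by
    rintro g g' ⟨k, l, h1, h2, h3⟩ ⟨k', l', h4, h5, h6⟩
    exact ⟨k * k', k * l' + l, by rw [mul_pow, h1, h4, one_mul],
      add_mem (Lam_mul (root4_mem h1) h5) h2, fun z => by simp [h3, h6]; ring⟩
  one_mem' := ⟨1, 0, by simp, zero_mem _, by simp⟩
  inv_mem' := by
    rintro g ⟨k, l, h1, h2, h3⟩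
    have h4 : (k ^ 3) ^ 4 = 1 := by rw [← pow_mul, mul_comm, pow_mul, h1, one_pow]
    refine ⟨k ^ 3, -(k ^ 3 * l), h4, neg_mem (Lam_mul (root4_mem h4) h2), fun z => ?_⟩
    rw [Equiv.Perm.inv_eq_iff_eq, h3]
    linear_combination (l - z) * h1

lemma orb_fix {k l z : ℂ} (hk : k ^ 4 = 1) (hl : l ∈ Lam) (h1 : k ≠ 1) :
    ∃ b : ℂ, 2 * b ∈ Lam ∧ k * z + l - z = (k - 1) * (z - b) := by
  obtain ⟨j, hj, e⟩ := root4_two hk h1
  exact ⟨j * l / 2, by rw [mul_div_cancel₀ _ two_ne_zero]; exact Lam_mul hj hl,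
    by linear_combination -(l / 2) * e⟩

lemma root4_sub {k : ℂ} (hk : k ^ 4 = 1) (h1 : k ≠ 1) : 1 ≤ ‖k - 1‖ := by
  by_contra h
  exact h1 (sub_eq_zero.1 (Lam_norm (sub_mem (root4_mem hk) one_mem_Lam) (not_le.1 h)))

lemma half_sep {b b' : ℂ} (h : 2 * b ∈ Lam) (h' : 2 * b' ∈ Lam) (hd : ‖b - b'‖ < 1 / 2) :
    b = b' := by
  have := Lam_norm (sub_mem h h') (by rw [← mul_sub, norm_mul, Complex.norm_two]; linarith)
  linear_combination this / 2

/-- Points of an orbit close to a given point of it coincide with that point. -/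
lemma orb_discrete (z : ℂ) : ∃ δ > 0, ∀ k l : ℂ, k ^ 4 = 1 → l ∈ Lam → ‖k * z + l - z‖ < δ →
    k * z + l = z := by
  have h1 : ∀ k : ℂ, ∀ᶠ l in 𝓝 (z - k * z), l ∈ Lam → l = z - k * z := fun k => by
    filter_upwards [L0.compl_lattice_sdiff_singleton_mem_nhds (z - k * z)] with l hl h
    by_contra h'; exact hl ⟨h, h'⟩
  choose δ h2 h3 using fun k => Metric.eventually_nhds_iff.1 (h1 k)
  refine ⟨min (min (δ 1) (δ (-1))) (min (δ I) (δ (-I))), by simp [h2], fun k l hk hl h => ?_⟩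
  have h4 : dist l (z - k * z) < δ k := by
    rw [dist_eq_norm, show l - (z - k * z) = k * z + l - z by ring]
    simp only [lt_min_iff] at h
    rcases root4 hk with rfl | rfl | rfl | rfl <;> tauto
  rw [h3 k h4 hl]; ring

theorem cov_pw : IsCoveringMapOn pw B3ᶜ := by
  have : ContinuousConstSMul Gam ℂ := ⟨fun g => by
    obtain ⟨k, l, -, -, h⟩ := g.2
    have : (fun z : ℂ => g • z) = fun z => k * z + l := funext h
    rw [this]; fun_prop⟩
  have hq : IsQuotientMap pw := isOpenMap_pw.isQuotientMap continuous_pw pw_surj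
  refine (hq.isCoveringMapOn_of_smul_disjoint (G := Gam) ?_ fun z => ?_).mono fun y hy => ?_
  · intro z z'
    constructor
    · intro e
      obtain ⟨k, l, h1, h2, h3⟩ := pw_fibre e.symm
      have hk : k ≠ 0 := by rintro rfl; simp at h1
      exact ⟨⟨(Equiv.mulLeft₀ k hk).trans (Equiv.addRight l), k, l, h1, h2, fun _ => rfl⟩, h3.symm⟩
    · rintro ⟨⟨g, k, l, h1, h2, h3⟩, rfl⟩
      exact (congrArg pw (h3 z')).trans (pw_orb h1 h2 z')
  · obtain ⟨δ, hδ, h⟩ := orb_discrete z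
    refine ⟨ball z (δ / 2), ball_mem_nhds z (by positivity), ?_⟩
    rintro ⟨g, k, l, h1, h2, h3⟩ ⟨_, ⟨w, hw, rfl⟩, hw'⟩
    refine (h3 z).trans (h k l h1 h2 ?_)
    have a1 : ‖k * w + l - z‖ < δ / 2 := by rw [← h3, ← dist_eq_norm]; exact hw'
    have a2 : ‖k * (z - w)‖ < δ / 2 := by
      rw [norm_mul, root4_norm h1, one_mul, ← dist_eq_norm, dist_comm]; exact hw
    calc _ = ‖k * w + l - z + k * (z - w)‖ := by congr 1; ring
      _ < δ := (norm_add_le _ _).trans_lt (by linarith)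
  · obtain ⟨z, rfl⟩ := pw_surj y
    refine ⟨z, ?_, rfl⟩
    rw [mem_ofPred_eq, eq_bot_iff]
    rintro ⟨g, k, l, h1, h2, h3⟩ hg
    have h4 : k * z + l = z := (h3 z).symm.trans hg
    have h5 : k = 1 := by
      by_contra h5
      obtain ⟨b, b1, b2⟩ := orb_fix (z := z) h1 h2 h5
      rw [h4, sub_self] at b2
      have := (mul_eq_zero.1 b2.symm).resolve_left (sub_ne_zero.2 h5)
      exact hy (pw_half (sub_eq_zero.1 this ▸ b1))
    rw [Subgroup.mem_bot]
    refine Subtype.ext (Equiv.ext fun w => ?_)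
    have h6 : l = 0 := by rw [h5] at h4; linear_combination h4
    simp [h3, h5, h6]

/-- Points with close images have close orbits. -/
lemma pw_unif {η : ℝ} (hη : 0 < η) : ∃ ε > 0, ∀ z z' : ℂ, dist (pw z) (pw z') < ε →
    ∃ k l : ℂ, k ^ 4 = 1 ∧ l ∈ Lam ∧ ‖z' - (k * z + l)‖ < η := by
  obtain ⟨ε, hε, h⟩ := lebesgue_number_lemma_of_metric (s := univ) isCompact_univ
    (c := fun w : ℂ => pw '' ball w (η / 2)) (fun w => isOpenMap_pw _ isOpen_ball) fun y _ => by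
      obtain ⟨w, rfl⟩ := pw_surj y
      exact mem_iUnion.2 ⟨w, w, mem_ball_self (by positivity), rfl⟩
  refine ⟨ε, hε, fun z z' hd => ?_⟩
  obtain ⟨w, hw⟩ := h (pw z') trivial
  obtain ⟨u, hu, e⟩ := hw hd
  obtain ⟨u', hu', e'⟩ := hw (mem_ball_self hε)
  obtain ⟨k, l, h1, h2, rfl⟩ := pw_fibre e.symm
  obtain ⟨k', l', h3, h4, rfl⟩ := pw_fibre e'
  refine ⟨k' * k, k' * l + l', by rw [mul_pow, h1, h3, one_mul],
    add_mem (Lam_mul (root4_mem h3) h2) h4, ?_⟩
  rw [show k' * u' + l' - (k' * k * z + (k' * l + l')) = k' * (u' - (k * z + l)) by ring, norm_mul,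
    root4_norm h3, one_mul, ← dist_eq_norm]
  linarith [dist_triangle_right u' (k * z + l) w, mem_ball.1 hu, mem_ball.1 hu']

lemma countable_fibre (y : Sph) : (pw ⁻¹' {y}).Countable := by
  obtain ⟨z, rfl⟩ := pw_surj y
  refine ((countable_Lam.prod countable_Lam).image fun p : ℂ × ℂ => p.1 * z + p.2).mono
    fun w hw => ?_
  obtain ⟨k, l, h1, h2, rfl⟩ := pw_fibre (Eq.symm hw)
  exact ⟨(k, l), ⟨root4_mem h1, h2⟩, rfl⟩

end

end Pool.Agent.Lib.MP_21db80_an
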